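import Pool.Agent.Work.MP_6d7bb4_h65u.Interface

set_option autoImplicit false
set_option linter.unusedSectionVars false

/-!
# MP_6d7bb4: the Baumann system, with the hypothesis `Hu` (copies of the blocks BAU1, BAU2, BAU3, BAU4)
-/

namespace Pool.Agent.Work.MP_6d7bb4.h65u

open MulAction Pool.Agent.Work.MP_6d7bb4.helper94 Pool.Agent.Work.MP_6d7bb4.helper94.Sol
open scoped commutatorElement

/-- as `Sol.Stmt_BAU2`, with `Hu` -/
def Stmt_BU2 : Prop := ∀ (V G : Type) [Group G] [MulAction G V] (Γ : SimpleGraph V) (d p : ℕ)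
  [Fact p.Prime], Hu G Γ d p → ∀ x y, Γ.Adj x y →
  (∀ A : Subgroup G, Am p (Qe p x y) A → Am p (Qe p x y) (Vv Γ p x ⊔ (A ⊓ Qv Γ p x)) ∧
    Am p (Qv Γ p x) (Vv Γ p x ⊔ (A ⊓ Qv Γ p x))) ∧
  (∀ A : Subgroup G, Am p (Qv Γ p x) A → Am p (Qe p x y) A) ∧
  Jt p (Qv Γ p x : Subgroup G) ≤ Jt p (Qe p x y)

/-- as `Sol.Stmt_BAU3`, with `Hu` -/
def Stmt_BU3 : Prop := ∀ (V G : Type) [Group G] [MulAction G V] (Γ : SimpleGraph V) (d p : ℕ)
  [Fact p.Prime], Hu G Γ d p → ∀ x y, Γ.Adj x y →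
  Vv (G := G) Γ p x ≤ OZ p (Jt p (Qv Γ p x)) ∧
  Zp (G := G) p x y ≤ OZ p (Jt p (Qv Γ p x)) ∧
  (∀ z ∈ OZ p (Jt p (Qv Γ p x : Subgroup G)), ∀ b ∈ Jt p (Qe p x y),
    b * z * b⁻¹ * z⁻¹ ∈ Vv Γ p x) ∧
  (∀ z ∈ OZ p (Jt p (Qv Γ p x : Subgroup G)), (∀ b ∈ Jt p (Qe p x y), b * z = z * b) →
    z ∈ Zp p x y) ∧
  Wp (G := G) Γ p x ≤ Vv Γ p x ⊔ Zp p x y ∧
  Vv (G := G) Γ p x ≤ Wp Γ p x ∧
  Wp (G := G) Γ p x ≤ OZ p (Jt p (Qv Γ p x))

namespace X_BU1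

variable {G : Type} [Group G]

theorem el_OZ {p : ℕ} (Q : Subgroup G) : El p (OZ p Q) :=
  ⟨fun _ ha _ hb => hb.2.2 _ ha.1, fun _ ha => ha.2.1⟩

theorem el_mono {p : ℕ} {A B : Subgroup G} (h : A ≤ B) (hB : El p B) : El p A :=
  ⟨fun a ha b hb => hB.cm a (h ha) b (h hb), fun a ha => hB.ex a (h ha)⟩

theorem cj_centralizer (g : G) (A : Subgroup G) :
    Subgroup.centralizer ((cj g A : Subgroup G) : Set G) =
      cj g (Subgroup.centralizer (A : Set G)) := by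
  ext k
  rw [mem_cj, Subgroup.mem_centralizer_iff, Subgroup.mem_centralizer_iff]
  constructor
  · intro h a ha
    have h1 := h (g * a * g⁻¹) (conj_mem_cj ha)
    calc a * (g⁻¹ * k * g) = g⁻¹ * (g * a * g⁻¹ * k) * g := by group
      _ = g⁻¹ * (k * (g * a * g⁻¹)) * g := by rw [h1]
      _ = g⁻¹ * k * g * a := by group
  · intro h a ha
    have h1 := h (g⁻¹ * a * g) (mem_cj.mp ha)
    calc a * k = g * (g⁻¹ * a * g * (g⁻¹ * k * g)) * g⁻¹ := by group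
      _ = g * (g⁻¹ * k * g * (g⁻¹ * a * g)) * g⁻¹ := by rw [h1]
      _ = k * a := by group

theorem cj_inf (g : G) (A B : Subgroup G) : cj g (A ⊓ B) = cj g A ⊓ cj g B := by
  ext k
  rw [Subgroup.mem_inf, mem_cj, mem_cj, mem_cj, Subgroup.mem_inf]

theorem cj_Cw (g : G) (A B : Subgroup G) : Cw (cj g A) (cj g B) = cj g (Cw A B) := by
  unfold Cw
  rw [cj_centralizer, cj_inf]

theorem Jt_le {p : ℕ} (Q : Subgroup G) : Jt p Q ≤ Q := iSup_le (fun A => A.2.le)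

theorem le_Jt {p : ℕ} {Q A : Subgroup G} (h : Am p Q A) : A ≤ Jt p Q :=
  le_iSup (fun A : {A : Subgroup G // Am p Q A} => A.1) ⟨A, h⟩

end X_BU1

open X_BU1

theorem s_BU1 (hTH1 : Stmt_TH1) : Stmt_BU1 := by
  intro V G _ _ Γ d p _ hy
  obtain ⟨t1, t2, t3, t4, t5, t6⟩ := hTH1 G p
  have h := hy.loc
  have hB := hy.cb
  have hJ : ∀ (g : G) (x y : V), Jt p (Qe p (g • x) (g • y)) = cj g (Jt p (Qe p x y)) := by
    intro g x y
    rw [Qe_cj, t3]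
  have hZ : ∀ (g : G) (x y : V), Zp p (g • x) (g • y) = cj g (Zp p x y) := by
    intro g x y
    unfold Zp
    rw [hJ, OZ_cj]
  refine ⟨?_, hJ, hZ, ?_, ?_, ?_, ?_, ?_⟩
  · -- (1)
    intro x y hxy hle
    have hfin : Finite (Qe p x y : Subgroup G) := finQe h x y
    have hfv : Finite (Qv Γ p x : Subgroup G) := h.fin_le (Qv_le_st x)
    have hvQ : (Qv Γ p x : Subgroup G) ≤ Qe p x y := Qv_le_Qe h hxy
    obtain ⟨A0, hA0⟩ := t1 (Qe p x y) hfin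
    have hin : ∀ A : Subgroup G, Am p (Qe p x y) A ↔ Am p (Qv Γ p x) A := by
      intro A
      constructor
      · intro hA
        exact ⟨(le_Jt hA).trans hle, hA.el, fun B hBl hBe => hA.mx B (hBl.trans hvQ) hBe⟩
      · intro hA
        refine ⟨hA.le.trans hvQ, hA.el, fun B hBl hBe => ?_⟩
        have h1 := hA0.mx B hBl hBe
        have h2 := hA.mx A0 ((le_Jt hA0).trans hle) hA0.el
        exact h1.trans h2
    have hJJ : Jt p (Qe p x y : Subgroup G) = Jt p (Qv Γ p x) := by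
      refine le_antisymm (iSup_le fun A => ?_) (iSup_le fun A => ?_)
      · exact le_Jt ((hin A.1).mp A.2)
      · exact le_Jt ((hin A.1).mpr A.2)
    have hbot : Jt p (Qe p x y : Subgroup G) = ⊥ := by
      obtain ⟨σ, h1, h2⟩ := h.inv hxy
      refine P1 h hxy ((Jt_le _).trans (Qe_le_st x y)) ?_ h1 h2 ?_
      · rw [hJJ]
        exact nm_of_equiv (D := fun x => Jt p (Qv Γ p x : Subgroup G))
          (fun g x => by rw [Qv_cj h, t3]) x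
      · intro n hn
        have h3 := conj_mem_cj (g := σ) hn
        rw [← hJ, h1, h2, Qe_comm] at h3
        exact h3
    have hne : (Qe p x y : Subgroup G) ≠ ⊥ := by
      intro h1
      apply hB.ne x y hxy
      rw [h1]
      exact bot_le
    obtain ⟨z, hz, hz1, hzp, hzc⟩ := exists_central (Qe_isP h x y) (le_refl _) hne (nm_self _)
    have hzA : z ∈ A0 := t4 _ A0 hfin hA0 z hz hzp (fun a ha => hzc a (hA0.le ha))
    have h3 := le_Jt hA0 hzA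
    rw [hbot, Subgroup.mem_bot] at h3
    exact hz1 h3
  · -- (4)
    intro x y
    unfold Zp
    rw [Qe_comm]
  · -- (5)
    intro g x y
    unfold Bp
    rw [hZ, Qe_cj, cj_Cw]
  · -- (6)
    intro x y
    unfold Bp Zp
    rw [Qe_comm]
  · -- (7)
    intro x y hxy z hz
    have hfin : Finite (Qe p x y : Subgroup G) := finQe h x y
    obtain ⟨A0, hA0⟩ := t1 (Qe p x y) hfin
    refine ⟨?_, hz.2.1, fun q hq => hz.2.2 q (Jt_le _ hq)⟩
    exact le_Jt hA0 (t4 _ A0 hfin hA0 z hz.1 hz.2.1 (fun a ha => hz.2.2 a (hA0.le ha)))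
  · -- (8)
    refine ⟨Zz_cj, Zz_comm, fun x y _ => OZ_le _ _, fun x y hxy => Zz_ne h hB hxy, fun x => ?_⟩
    refine el_mono (iSup_le (fun y => ?_)) (el_OZ (p := p) (Qv Γ p x : Subgroup G))
    intro z hz
    exact ⟨hB.zq x y.1 y.2 hz, hz.2.1, fun q hq => hz.2.2 q (Qv_le_Qe h y.2 hq)⟩

namespace X_BU2

theorem Vv_OZ {V G : Type} [Group G] [MulAction G V] {Γ : SimpleGraph V} {d p : ℕ}
    [Fact p.Prime] (h : Loc G Γ d) (hB : CB0 G Γ p) (x : V) :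
    (Vv Γ p x : Subgroup G) ≤ OZ p (Qv Γ p x) := by
  refine iSup_le (fun y => ?_)
  intro z hz
  exact ⟨hB.zq x y.1 y.2 hz, hz.2.1, fun q hq => hz.2.2 q (Qv_le_Qe h y.2 hq)⟩

end X_BU2

open X_BU2 in
theorem s_BU2 (hTH1 : Stmt_TH1) (hVMD : Stmt_VMD) (hBU1 : Stmt_BU1) : Stmt_BU2 := by
  intro V G _ _ Γ d p _ h x y hxy
  obtain ⟨t1, -, -, -, t5, t6⟩ := hTH1 G p
  obtain ⟨-, -, -, -, -, -, -, hFm⟩ := hBU1 V G Γ d p h
  have hV : (Vv Γ p x : Subgroup G) ≤ OZ p (Qv Γ p x) := Vv_OZ h.loc h.cb x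
  have hVQ : (Vv Γ p x : Subgroup G) ≤ Qv Γ p x := hV.trans (OZ_le _ _)
  have hVel : El p (Vv Γ p x : Subgroup G) :=
    ⟨fun a ha b hb => (hV hb).2.2 a (hVQ ha), fun a ha => (hV ha).2.1⟩
  have hQ : (Qv Γ p x : Subgroup G) ≤ Qe p x y := Qv_le_Qe h.loc hxy
  have key : ∀ A : Subgroup G, Am p (Qe p x y) A →
      Am p (Qe p x y) (Vv Γ p x ⊔ (A ⊓ Qv Γ p x)) ∧
      Am p (Qv Γ p x) (Vv Γ p x ⊔ (A ⊓ Qv Γ p x)) := by
    intro A hA
    have hAQ : El p (A ⊓ Qv Γ p x) :=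
      ⟨fun a ha b hb => hA.el.cm a ha.1 b hb.1, fun a ha => hA.el.ex a ha.1⟩
    have hcomm : ∀ a ∈ (Vv Γ p x : Subgroup G), ∀ b ∈ A ⊓ Qv Γ p x, a * b = b * a :=
      fun a ha b hb => ((hV ha).2.2 b hb.2).symm
    have hel : El p (Vv Γ p x ⊔ (A ⊓ Qv Γ p x)) := t5 _ _ hVel hAQ hcomm
    have hle : Vv Γ p x ⊔ (A ⊓ Qv Γ p x) ≤ Qv Γ p x := sup_le hVQ inf_le_right
    have hf1 : Finite (Vv Γ p x : Subgroup G) := h.loc.fin_le (hVQ.trans (Qv_le_st x))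
    have hf2 : Finite (A ⊓ Qv Γ p x : Subgroup G) :=
      h.loc.fin_le (inf_le_right.trans (Qv_le_st x))
    have h6 := t6 (Vv Γ p x) (A ⊓ Qv Γ p x) hf1 hf2 hcomm
    have hcw : (Vv Γ p x : Subgroup G) ⊓ (A ⊓ Qv Γ p x) ≤ Cw (Vv Γ p x) A :=
      fun v hv => mem_Cw.2 ⟨hv.1, fun a ha => hA.el.cm a ha v hv.2.1⟩
    have hf3 : Finite (Cw (Vv Γ p x) A : Subgroup G) :=
      h.loc.fin_le ((inf_le_left.trans hVQ).trans (Qv_le_st x))
    have hc : Nat.card (Vv Γ p x ⊓ (A ⊓ Qv Γ p x) : Subgroup G) ≤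
        Nat.card (Cw (Vv Γ p x) A : Subgroup G) := Subgroup.card_le_of_le hcw
    have hL : Nat.card A * Nat.card (Cw (Vv Γ p x) A : Subgroup G) ≤
        Nat.card (Vv Γ p x : Subgroup G) * Nat.card (A ⊓ Qv Γ p x : Subgroup G) :=
      (hVMD V G Γ d p (Zz p) h.loc hFm x (h.vt x) y hxy).1 A hA.le hA.el
    have hpos : 0 < Nat.card (Cw (Vv Γ p x) A : Subgroup G) := Nat.card_pos
    have hcard : Nat.card A ≤ Nat.card (Vv Γ p x ⊔ (A ⊓ Qv Γ p x) : Subgroup G) := by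
      refine Nat.le_of_mul_le_mul_right ?_ hpos
      rw [← h6] at hL
      exact hL.trans (Nat.mul_le_mul_left _ hc)
    exact ⟨⟨hle.trans hQ, hel, fun B hB hBe => (hA.mx B hB hBe).trans hcard⟩,
      ⟨hle, hel, fun B hB hBe => (hA.mx B (hB.trans hQ) hBe).trans hcard⟩⟩
  have key2 : ∀ A : Subgroup G, Am p (Qv Γ p x) A → Am p (Qe p x y) A := by
    intro A hA
    obtain ⟨A0, hA0⟩ := t1 (Qe p x y) (finQe h.loc x y)
    obtain ⟨k1, k2⟩ := key A0 hA0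
    refine ⟨hA.le.trans hQ, hA.el, fun B hB hBe => ?_⟩
    exact (k1.mx B hB hBe).trans (hA.mx _ k2.le k2.el)
  refine ⟨key, key2, ?_⟩
  exact iSup_le fun A => le_iSup (fun A : {A : Subgroup G // Am p (Qe p x y) A} => A.1)
    ⟨A.1, key2 A.1 A.2⟩

namespace X_BU3

variable {V G : Type} [Group G] [MulAction G V] {Γ : SimpleGraph V} {d p : ℕ} [Fact p.Prime]

theorem Jt_le (Q : Subgroup G) : Jt p Q ≤ Q := iSup_le (fun A => A.2.le)

theorem le_Jt {Q A : Subgroup G} (h : Am p Q A) : A ≤ Jt p Q :=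
  le_iSup (fun A : {A : Subgroup G // Am p Q A} => A.1) ⟨A, h⟩

theorem Vv_OZ (h : Loc G Γ d) (hB : CB0 G Γ p) (x : V) :
    (Vv Γ p x : Subgroup G) ≤ OZ p (Qv Γ p x) := by
  refine iSup_le (fun y => ?_)
  intro z hz
  exact ⟨hB.zq x y.1 y.2 hz, hz.2.1, fun q hq => hz.2.2 q (Qv_le_Qe h y.2 hq)⟩

theorem a1 (hTH : Stmt_TH1) (h : Loc G Γ d) (hB : CB0 G Γ p) (x : V) :
    (Vv Γ p x : Subgroup G) ≤ OZ p (Jt p (Qv Γ p x)) := by
  intro v hv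
  obtain ⟨h1, h2, h3⟩ := Vv_OZ h hB x hv
  have hf : Finite (Qv Γ p x : Subgroup G) := h.fin_le (Qv_le_st x)
  obtain ⟨A, hA⟩ := (hTH G p).1 (Qv Γ p x) hf
  have h4 : v ∈ A := (hTH G p).2.2.2.1 (Qv Γ p x) A hf hA v h1 h2 (fun a ha => h3 a (hA.le ha))
  exact ⟨le_Jt hA h4, h2, fun q hq => h3 q (Jt_le _ hq)⟩

theorem a2 (hTH : Stmt_TH1) (h2 : Stmt_BU2) (hy : Hu G Γ d p) {x y : V} (hxy : Γ.Adj x y) :
    (Zp p x y : Subgroup G) ≤ OZ p (Jt p (Qv Γ p x)) := by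
  intro z hz
  obtain ⟨h3, h4, h5⟩ := mem_OZ.mp hz
  have hf : Finite (Qv Γ p x : Subgroup G) := hy.loc.fin_le (Qv_le_st x)
  have hf' : Finite (Qe p x y : Subgroup G) := hy.loc.fin_le (Qe_le_st x y)
  obtain ⟨A, hA⟩ := (hTH G p).1 (Qv Γ p x) hf
  obtain ⟨-, h6, h7⟩ := h2 V G Γ d p hy x y hxy
  have hA' := h6 A hA
  have h8 : z ∈ A := (hTH G p).2.2.2.1 (Qe p x y) A hf' hA' z (Jt_le _ h3) h4
    (fun a ha => h5 a (le_Jt hA' ha))
  exact ⟨le_Jt hA h8, h4, fun q hq => h5 q (h7 hq)⟩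

theorem nmZ (hTH : Stmt_TH1) (h : Loc G Γ d) (x : V) :
    Nm (stabilizer G x) (OZ p (Jt p (Qv Γ p x : Subgroup G))) := by
  refine nm_of_equiv (D := fun x => OZ p (Jt p (Qv Γ p x : Subgroup G))) ?_ x
  intro g x
  show OZ p (Jt p (Qv Γ p (g • x) : Subgroup G)) = cj g (OZ p (Jt p (Qv Γ p x)))
  rw [Qv_cj h, (hTH G p).2.2.1, OZ_cj]

/-- the subgroup of the elements which centralise the group modulo `Vv` -/
def M (hTH : Stmt_TH1) (h : Loc G Γ d) (x : V) (p : ℕ) [Fact p.Prime] : Subgroup G where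
  carrier := {b | b ∈ stabilizer G x ∧ ∀ z ∈ OZ p (Jt p (Qv Γ p x : Subgroup G)),
    b * z * b⁻¹ * z⁻¹ ∈ Vv Γ p x}
  one_mem' := ⟨one_mem _, fun z _ => by simp⟩
  mul_mem' := by
    rintro a b ⟨ha, ha'⟩ ⟨hb, hb'⟩
    refine ⟨mul_mem ha hb, fun z hz => ?_⟩
    have h1 := ha' _ (nmZ hTH h x b hb z hz)
    have h2 := hb' z hz
    have e : a * b * z * (a * b)⁻¹ * z⁻¹ =
        (a * (b * z * b⁻¹) * a⁻¹ * (b * z * b⁻¹)⁻¹) * (b * z * b⁻¹ * z⁻¹) := by group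
    rw [e]
    exact mul_mem h1 h2
  inv_mem' := by
    rintro a ⟨ha, ha'⟩
    refine ⟨inv_mem ha, fun z hz => ?_⟩
    have h1 := ha' _ (nmZ hTH h x a⁻¹ (inv_mem ha) z hz)
    have e : a⁻¹ * z * a⁻¹⁻¹ * z⁻¹ =
        (a * (a⁻¹ * z * a⁻¹⁻¹) * a⁻¹ * (a⁻¹ * z * a⁻¹⁻¹)⁻¹)⁻¹ := by group
    rw [e]
    exact inv_mem h1

theorem a3 (hTH : Stmt_TH1) (h2 : Stmt_BU2) (hy : Hu G Γ d p) {x y : V} (hxy : Γ.Adj x y) :
    (Jt p (Qe p x y : Subgroup G)) ≤ M hTH hy.loc x p := by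
  refine iSup_le (fun A => ?_)
  obtain ⟨A, hA⟩ := A
  intro b hb
  have hbx : b ∈ stabilizer G x := Qe_le_st x y (hA.le hb)
  refine ⟨hbx, fun z hz => ?_⟩
  obtain ⟨h3, h4, h5⟩ := mem_OZ.mp hz
  have hf : Finite (Qv Γ p x : Subgroup G) := hy.loc.fin_le (Qv_le_st x)
  have hA1 := ((h2 V G Γ d p hy x y hxy).1 A hA).2
  have h6 : z ∈ (Vv Γ p x ⊔ (A ⊓ Qv Γ p x) : Subgroup G) :=
    (hTH G p).2.2.2.1 (Qv Γ p x) _ hf hA1 z (Jt_le _ h3) h4 (fun a ha => h5 a (le_Jt hA1 ha))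
  have h7 : Nm (Vv Γ p x : Subgroup G) (A ⊓ Qv Γ p x) := nm_of_comm (fun n hn m hm =>
    ((Vv_OZ hy.loc hy.cb x hn).2.2 m hm.2).symm)
  obtain ⟨v, hv, a, ha, rfl⟩ := mem_sup_nm h7 h6
  have h8 : b⁻¹ * a = a * b⁻¹ := (show Commute b a from hA.el.cm b hb a ha.1).inv_left.eq
  have e : b * (v * a) * b⁻¹ * (v * a)⁻¹ = b * v * b⁻¹ * v⁻¹ := by
    calc b * (v * a) * b⁻¹ * (v * a)⁻¹ = b * v * (a * b⁻¹) * a⁻¹ * v⁻¹ := by group
      _ = b * v * (b⁻¹ * a) * a⁻¹ * v⁻¹ := by rw [h8]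
      _ = b * v * b⁻¹ * v⁻¹ := by group
  show b * (v * a) * b⁻¹ * (v * a)⁻¹ ∈ Vv Γ p x
  rw [e]
  exact mul_mem (nm_Vv hy.loc x b hbx v hv) (inv_mem hv)

/-- generated by the Thompson subgroups of the arcs at `x` -/
def JJ (Γ : SimpleGraph V) (p : ℕ) (x : V) : Subgroup G :=
  ⨆ z : {z // Γ.Adj x z}, Jt p (Qe p x z.1)

theorem le_JJ {x y : V} (hxy : Γ.Adj x y) : (Jt p (Qe p x y) : Subgroup G) ≤ JJ Γ p x :=
  le_iSup (fun z : {z // Γ.Adj x z} => (Jt p (Qe p x z.1) : Subgroup G)) ⟨y, hxy⟩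

theorem JJ_cj (h : Loc G Γ d)
    (hJ : ∀ (g : G) (x y : V), Jt p (Qe p (g • x) (g • y)) = cj g (Jt p (Qe p x y)))
    (g : G) (x : V) : JJ Γ p (g • x) = cj g (JJ Γ p x) := by
  have key : ∀ (g : G) (x : V), JJ Γ p (g • x) ≤ cj g (JJ Γ p x) := by
    intro g x
    refine iSup_le (fun y => ?_)
    have h2 : Γ.Adj x (g⁻¹ • y.1) := by
      rw [← h.adj_iff g, smul_inv_smul]
      exact y.2
    have h3 : (Jt p (Qe p (g • x) y.1) : Subgroup G) = cj g (Jt p (Qe p x (g⁻¹ • y.1))) := by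
      have h4 := hJ g x (g⁻¹ • y.1)
      rw [smul_inv_smul] at h4
      exact h4
    rw [h3]
    exact cj_mono g (le_JJ h2)
  refine le_antisymm (key g x) ?_
  have h1 := cj_mono g (key g⁻¹ (g • x))
  rw [inv_smul_smul, cj_inv_cj] at h1
  exact h1

theorem JJ_le (x : V) : (JJ Γ p x : Subgroup G) ≤ stabilizer G x :=
  iSup_le (fun y => (Jt_le _).trans (Qe_le_st x y.1))

theorem JJ_tr (h : Loc G Γ d)
    (hJ : ∀ (g : G) (x y : V), Jt p (Qe p (g • x) (g • y)) = cj g (Jt p (Qe p x y)))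
    (hn : ∀ x y, Γ.Adj x y → ¬ Jt p (Qe p x y : Subgroup G) ≤ Qv Γ p x) (x : V) :
    ∀ y y', Γ.Adj x y → Γ.Adj x y' → ∃ g ∈ (JJ Γ p x : Subgroup G), g • y = y' := by
  rcases h.sp x (JJ Γ p x) (JJ_le x) (nm_of_equiv (JJ_cj h hJ) x) with h2 | h2
  · exact h2
  · intro y y' hxy _
    exfalso
    apply hn x y hxy
    rw [Qv_eq h hxy]
    intro q hq
    exact ⟨Jt_le _ hq, h2 q (le_JJ hxy hq) y hxy (Qe_le x y (Jt_le _ hq)).2⟩

end X_BU3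

theorem s_BU3 (hTH1 : Stmt_TH1) (hBU1 : Stmt_BU1) (hBU2 : Stmt_BU2) : Stmt_BU3 := by
  intro V G _ _ Γ d p _ hy x y hxy
  have h2 : ∀ y, Γ.Adj x y → (Zp p x y : Subgroup G) ≤ OZ p (Jt p (Qv Γ p x)) :=
    fun y hxy => X_BU3.a2 hTH1 hBU2 hy hxy
  have h7 : (Wp Γ p x : Subgroup G) ≤ OZ p (Jt p (Qv Γ p x)) :=
    iSup_le (fun y => h2 y.1 y.2)
  have h3 : ∀ y, Γ.Adj x y → (Jt p (Qe p x y) : Subgroup G) ≤ X_BU3.M hTH1 hy.loc x p :=
    fun y hxy => X_BU3.a3 hTH1 hBU2 hy hxy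
  have hJM : (X_BU3.JJ Γ p x : Subgroup G) ≤ X_BU3.M hTH1 hy.loc x p :=
    iSup_le (fun z => h3 z.1 z.2)
  obtain ⟨b1, b2, b3, -, -, -, b7, -⟩ := hBU1 V G Γ d p hy
  refine ⟨X_BU3.a1 hTH1 hy.loc hy.cb x, h2 y hxy, ?_, ?_, ?_, ?_, h7⟩
  · intro z hz b hb
    exact (h3 y hxy hb).2 z hz
  · intro z hz hc
    obtain ⟨h4, h5, -⟩ := mem_OZ.mp hz
    exact ⟨(hBU2 V G Γ d p hy x y hxy).2.2 h4, h5, hc⟩
  · refine iSup_le (fun y' => ?_)
    obtain ⟨y', hy'⟩ := y'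
    intro w hw
    obtain ⟨g, hg, hgy⟩ := X_BU3.JJ_tr hy.loc b2 b1 x y y' hxy hy'
    have hgM : g ∈ X_BU3.M hTH1 hy.loc x p := hJM hg
    have hgx : g • x = x := mem_stabilizer_iff.mp hgM.1
    have h4 : (Zp p x y' : Subgroup G) = cj g (Zp p x y) := by
      have h5 := b3 g x y
      rw [hgx, hgy] at h5
      exact h5
    have hw' : w ∈ (Zp p x y' : Subgroup G) := hw
    rw [h4, mem_cj] at hw'
    have h5 := hgM.2 _ (h2 y hxy hw')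
    have e : w = (g * (g⁻¹ * w * g) * g⁻¹ * (g⁻¹ * w * g)⁻¹) * (g⁻¹ * w * g) := by group
    rw [e]
    exact mul_mem (le_sup_left (α := Subgroup G) h5) (le_sup_right (α := Subgroup G) hw')
  · exact iSup_le (fun y' => (b7 x y'.1 y'.2).trans (z_le_VZ (ζ := Zp (G := G) p) y'.2))

namespace BU4_X

theorem Jt_le {G : Type} [Group G] (p : ℕ) (Q : Subgroup G) : Jt p Q ≤ Q :=
  iSup_le (fun A => A.2.le)

theorem le_Jt {G : Type} [Group G] {p : ℕ} {Q A : Subgroup G} (hA : Am p Q A) : A ≤ Jt p Q :=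
  le_iSup (fun A : {A : Subgroup G // Am p Q A} => A.1) ⟨A, hA⟩

theorem Cw_cj {G : Type} [Group G] (g : G) (A C : Subgroup G) :
    Cw (cj g A) (cj g C) = cj g (Cw A C) := by
  ext v
  rw [mem_cj, mem_Cw, mem_Cw, mem_cj]
  refine and_congr_right (fun _ => ?_)
  constructor
  · intro h c hc
    have h1 := h (g * c * g⁻¹) (conj_mem_cj hc)
    calc c * (g⁻¹ * v * g) = g⁻¹ * (g * c * g⁻¹ * v) * g := by group
      _ = g⁻¹ * (v * (g * c * g⁻¹)) * g := by rw [h1]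
      _ = g⁻¹ * v * g * c := by group
  · intro h c hc
    have h1 := h _ (mem_cj.mp hc)
    calc c * v = g * (g⁻¹ * c * g * (g⁻¹ * v * g)) * g⁻¹ := by group
      _ = g * (g⁻¹ * v * g * (g⁻¹ * c * g)) * g⁻¹ := by rw [h1]
      _ = v * c := by group

theorem VZ_bot {V G : Type} [Group G] {Γ : SimpleGraph V} {ζ : V → V → Subgroup G} {x : V}
    (hx : ¬ ∃ y, Γ.Adj x y) : VZ Γ ζ x = ⊥ := by
  haveI : IsEmpty {y // Γ.Adj x y} := ⟨fun y => hx ⟨y.1, y.2⟩⟩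
  unfold VZ
  exact iSup_of_empty _

end BU4_X

theorem s_BU4 (hFMB : Stmt_FMB) (hBU1 : Stmt_BU1) (hBU3 : Stmt_BU3) : Stmt_BU4 := by
  intro V G _ _ Γ d p _ hy
  have h := hy.loc
  obtain ⟨b1, b2, b3, b4, b5, b6, b7, b8⟩ := hBU1 V G Γ d p hy
  have h3 := hBU3 V G Γ d p hy
  have hWOZ : ∀ x, (∃ y, Γ.Adj x y) → Wp (G := G) Γ p x ≤ OZ p (Jt p (Qv Γ p x)) := by
    rintro x ⟨y, hxy⟩
    exact (h3 x y hxy).2.2.2.2.2.2
  have hFm : Fm (G := G) Γ p (Zp p) := by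
    refine ⟨b3, b4, fun x y hxy => (OZ_le _ _).trans (BU4_X.Jt_le _ _), fun x y hxy hb => ?_,
      fun x => ?_⟩
    · apply Zz_ne h hy.cb hxy
      have h1 := b7 x y hxy
      rw [hb] at h1
      exact le_bot_iff.mp h1
    · by_cases hx : ∃ y, Γ.Adj x y
      · have h1 := hWOZ x hx
        exact ⟨fun a ha b hb => (h1 hb).2.2 a (h1 ha).1, fun a ha => (h1 ha).2.1⟩
      · rw [BU4_X.VZ_bot hx]
        refine ⟨fun a ha b hb => ?_, fun a ha => ?_⟩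
        · rw [Subgroup.mem_bot] at ha hb
          rw [ha, hb]
        · rw [Subgroup.mem_bot] at ha
          rw [ha, one_pow]
  obtain ⟨f1, f2, f3, f4, f5⟩ := hFMB V G Γ d p (Zp p) h hFm
  have hWcj : ∀ (g : G) x, Wp Γ p (g • x) = cj g (Wp Γ p x) := f1
  -- elements of `Qv` commuting with `Zp`
  have hSp : ∀ x y, Γ.Adj x y → ∀ b ∈ (Qv Γ p x : Subgroup G),
      (∀ z ∈ Zp (G := G) p x y, z * b = b * z) → b ∈ Sp (G := G) Γ p x := by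
    intro x y hxy b hb hz
    unfold Sp
    rw [mem_Cw]
    refine ⟨hb, ?_⟩
    have hV : (Vv Γ p x : Subgroup G) ≤ Subgroup.centralizer ({b} : Set G) := by
      refine iSup_le (fun y' => ?_)
      intro v hv
      rw [Subgroup.mem_centralizer_iff]
      rintro c rfl
      exact hv.2.2 c (Qv_le_Qe h y'.2 hb)
    have hZ : Zp (G := G) p x y ≤ Subgroup.centralizer ({b} : Set G) := by
      intro v hv
      rw [Subgroup.mem_centralizer_iff]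
      rintro c rfl
      exact (hz v hv).symm
    intro w hw
    have h1 := (h3 x y hxy).2.2.2.2.1 hw
    have h2 := sup_le hV hZ h1
    rw [Subgroup.mem_centralizer_iff] at h2
    exact (h2 b rfl).symm
  have hBK : ∀ x y, Γ.Adj x y → Bp (G := G) p x y ⊓ K Γ x ≤ Sp Γ p x := by
    rintro x y hxy b ⟨hb, hbK⟩
    have hb' : b ∈ Bp (G := G) p x y := hb
    unfold Bp at hb'
    rw [mem_Cw] at hb'
    refine hSp x y hxy b ?_ hb'.2
    rw [Qv_eq h hxy]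
    exact ⟨hb'.1, hbK⟩
  have hJB : ∀ x y : V, Jt p (Qe p x y : Subgroup G) ≤ Bp p x y := by
    intro x y b hb
    unfold Bp
    rw [mem_Cw]
    exact ⟨BU4_X.Jt_le _ _ hb, fun a ha => (ha.2.2 b hb).symm⟩
  refine ⟨hFm, hWcj, ?_, ?_, ?_⟩
  · intro g x
    unfold Sp
    rw [hWcj, Qv_cj h, BU4_X.Cw_cj]
  · intro x
    by_cases hx : ∃ y, Γ.Adj x y
    · intro v hv
      have h1 := hWOZ x hx
      unfold Sp
      rw [mem_Cw]
      exact ⟨BU4_X.Jt_le _ _ (h1 hv).1, fun a ha => (h1 hv).2.2 a (h1 ha).1⟩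
    · have h1 : Wp (G := G) Γ p x = ⊥ := BU4_X.VZ_bot hx
      rw [h1]
      exact bot_le
  · intro x y hxy
    refine ⟨?_, hBK x y hxy, hJB x y, ?_, ?_, ?_, ?_⟩
    · intro b hb
      unfold Sp at hb
      rw [mem_Cw] at hb
      unfold Bp
      rw [mem_Cw]
      exact ⟨Qv_le_Qe h hxy hb.1, fun a ha => hb.2 a (z_le_VZ hxy ha)⟩
    · refine le_antisymm ?_ ?_
      · intro v hv
        rw [mem_Cw] at hv
        exact (h3 x y hxy).2.2.2.1 v (hWOZ x ⟨y, hxy⟩ hv.1) hv.2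
      · intro z hz
        rw [mem_Cw]
        exact ⟨z_le_VZ hxy hz, hz.2.2⟩
    · rintro A hA b ⟨hb, hbQ⟩
      exact hSp x y hxy b hbQ (fun z hz => (hz.2.2 b (BU4_X.le_Jt hA hb)).symm)
    · intro hc
      apply b1 x y hxy
      intro b hb
      rw [Qv_eq h hxy]
      exact ⟨BU4_X.Jt_le _ _ hb, hc (hJB x y hb)⟩
    · intro b hb hc
      have hb' := hb
      unfold Bp at hb'
      rw [mem_Cw] at hb'
      exact hBK x y hxy ⟨hb, f5 x y hxy b (Qe_le x y hb'.1) hc⟩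

end Pool.Agent.Work.MP_6d7bb4.h65u
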