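import Mathlib

set_option autoImplicit false

/-! # MP_6d7bb4: an explicit condition which excludes offenders; definition (helper65) -/

namespace Pool.Agent.Work.MP_6d7bb4.h65u

/-- Condition (D) for the permutation group `F` at the prime `p`. There are `c`, a prime `r` different
from `p` and an element `u` of `F` with `u ^ r = 1` such that `u` lies in no semiregular normal subgroup of
`F`, every elementary abelian subgroup of a normal `p`-subgroup of a point stabiliser has order at most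
`p ^ c`, and `(c log₂|F|)²` is smaller than the order of the group of units modulo `r` generated by `p` and
by all `i` such that `u` and `u ^ i` are conjugate in `F`. -/
def CondD {Ω : Type} (F : Subgroup (Equiv.Perm Ω)) (p : ℕ) : Prop :=
  ∃ (c r : ℕ) (u : Equiv.Perm Ω), r.Prime ∧ r ≠ p ∧ u ∈ F ∧ u ^ r = 1 ∧
    (∀ N : Subgroup (Equiv.Perm Ω), N ≤ F → (∀ f ∈ F, ∀ n ∈ N, f * n * f⁻¹ ∈ N) →
      (∀ n ∈ N, ∀ a : Ω, n a = a → n = 1) → u ∉ N) ∧
    (∀ (ω : Ω) (N A : Subgroup (Equiv.Perm Ω)), N ≤ F → (∀ n ∈ N, n ω = ω) →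
      (∀ f ∈ F, f ω = ω → ∀ n ∈ N, f * n * f⁻¹ ∈ N) → IsPGroup p N → A ≤ N →
      (∀ a ∈ A, ∀ b ∈ A, a * b = b * a) → (∀ a ∈ A, a ^ p = 1) → Nat.card A ≤ p ^ c) ∧
    (c * Nat.log 2 (Nat.card F)) ^ 2 <
      Nat.card (Subgroup.closure ({i : (ZMod r)ˣ | (i : ZMod r) = (p : ZMod r)} ∪
        {i : (ZMod r)ˣ | ∃ f ∈ F, f * u * f⁻¹ = u ^ (i : ZMod r).val}))

end Pool.Agent.Work.MP_6d7bb4.h65u
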