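import Pool.Agent.Work.MP_6d7bb4_h65u.Interface
import Pool.Agent.Work.MP_6d7bb4_h65u.DefsD

set_option autoImplicit false
set_option linter.unusedSectionVars false

/-!
# MP_6d7bb4: groups with at most one offender; interface, part 2: condition (D) (helper65)

Rules as in `Interface.lean`: `Pool/Agent/Work/MP_6d7bb4_h65u/B_X.lean`, `import` this file, namespace
`Pool.Agent.Work.MP_6d7bb4.h65u`, `theorem s_X (hA : Stmt_A) .. : Stmt_X`.
-/

namespace Pool.Agent.Work.MP_6d7bb4.h65u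

open MulAction Pool.Agent.Work.MP_6d7bb4.helper94 Pool.Agent.Work.MP_6d7bb4.helper94.Sol

/-- BLOCK GRD (uses nothing): few conjugates of `A` contain all conjugates.
PROOF. Let `m = Nat.log 2 |F|`; `m ≥ 1` because `|F| ≥ |A| ≥ 2`. CLAIM for `n ≥ 1`: there is `g : Fin n → G` with values
in `F` such that `T = ⨆ i, cj (g i) A` contains all conjugates `f a f⁻¹` or `2 ^ n ≤ |T|`. `n = 1`: `g = 1`,
`T = cj 1 A = A`. Step: if the first alternative holds for `n`, repeat the value `1` (`T` only grows). Otherwise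
`f a f⁻¹ ∉ T` for some `f ∈ F`, `a ∈ A`; take `g n = f`: the new group contains `T` properly, so its order is at
least `2 |T|` (`Subgroup.card_dvd_of_le` and different). For `n = m`: in the second case `T ≤ F` and
`|F| < 2 ^ (m + 1) ≤ 2 |T|` (`Nat.lt_pow_succ_log_self`), so `T = F` contains all conjugates. (Use `Fin.snoc` or
work with finite sets or lists of elements of `F` of length `n`.) -/
def Stmt_GRD : Prop := ∀ (G : Type) [Group G] (F A : Subgroup G), Finite F → A ≤ F → A ≠ ⊥ →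
  ∃ g : Fin (Nat.log 2 (Nat.card F)) → G, (∀ i, g i ∈ F) ∧
    ∀ f ∈ F, ∀ a ∈ A, f * a * f⁻¹ ∈ ⨆ i, cj (g i) A

/-- BLOCK EIG (uses nothing): eigenvalues.
PROOF. `U` is a finite-dimensional vector space over `ZMod p` (`AddCommGroup.zmodModule`, additive maps are
linear: `AddMonoidHom.toZModLinearMap`). Let `n` be its dimension, `|U| = p ^ n` (`Module.card_eq_pow_finrank`), `M` the
matrix of `g`, `L = AlgebraicClosure (ZMod p)`, `χ` the image of the characteristic polynomial of `g` in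
`L[X]`, and `Λ` the set of its roots, `|Λ| ≤ n`. (1) `λ ∈ Λ → λ ^ p ∈ Λ`: the coefficients of `χ` are in the prime
field, so `χ(λ ^ p) = χ(λ) ^ p` (`Polynomial.expand_char`/`frobenius`, or
`Polynomial.eval₂_hom`/`Polynomial.map_frobenius`). (2) If `h g h⁻¹ = g ^ i` then `λ ∈ Λ → λ ^ i ∈ Λ`: the
characteristic polynomials of `g` and `g ^ i` are equal (conjugate), and `λ ^ i` is a root of the
characteristic polynomial of `g ^ i` (over `L`: an eigenvector of `g` for `λ` is an eigenvector of `g ^ i` for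
`λ ^ i`; or `Matrix.isRoot_charpoly...`, `Module.End.hasEigenvalue_iff_isRoot_charpoly`). (3) Every `λ ∈ Λ` satisfies
`λ ^ r = 1` (same argument as (2) for `g ^ r = 1`). (4) There is `λ ∈ Λ` with `λ ≠ 1`: otherwise
`χ = (X - 1) ^ n`, so `g - 1` is nilpotent (Cayley-Hamilton), `(g - 1) ^ (p ^ m) = 0` for some `m`, so
`g ^ (p ^ m) = 1` in characteristic `p`; with `g ^ r = 1` and `r` prime to `p`, `g = 1`. (5) For `λ` as in (4) the set of
units `i` modulo `r` with `λ' ^ i.val ∈ Λ` for all `λ' ∈ Λ` is closed under products and inverses (finite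
group) and contains the generators, so `λ ^ i.val ∈ Λ` for `i` in the closure; `i ↦ λ ^ i.val` is injective as
`λ` has order `r`. So `|closure| ≤ n`. -/
def Stmt_EIG : Prop := ∀ (p r : ℕ) [Fact p.Prime] [Fact r.Prime], r ≠ p → ∀ (U : Type)
  [AddCommGroup U] [Finite U], (∀ u : U, p • u = 0) → ∀ g : (AddMonoid.End U)ˣ, g ≠ 1 →
  g ^ r = 1 →
  p ^ Nat.card (Subgroup.closure ({i : (ZMod r)ˣ | (i : ZMod r) = (p : ZMod r)} ∪
    {i : (ZMod r)ˣ | ∃ h : (AddMonoid.End U)ˣ, h * g * h⁻¹ = g ^ (i : ZMod r).val})) ≤ Nat.card U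

/-- BLOCK GNL (uses nothing): an irreducible module with an offender is small.
PROOF. Let `Kπ = π.ker ≤ Y`. (1) `P ⊓ Kπ` acts trivially on `S`: as in block CAU: `P ⊓ Kπ ≤ O p Kπ` (`le_O`), which is
normalised by `X` (`nm_O`) and a `p`-group, so acts trivially by `irr_act` (`Semi.lean`). (2) `ρ k` commutes
with `ρ b` for `k ∈ Kπ`, `b ∈ P`: `k b k⁻¹ b⁻¹ ∈ P ⊓ Kπ` (`P` is normal in `Y`, `Kπ` is normal in `X`). So `ρ k` commutes
with `ρ (x b x⁻¹)` for all `x : X` (apply it to `x⁻¹ k x ∈ Kπ`). Let `T` be generated by all `x a x⁻¹` (`a ∈ A`,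
`x : X`) and `T1 = ⨆ i, cj (g i) A ≤ T`. `ρ Kπ` commutes with `ρ T`. (3) `ρ T1` is normalised by `ρ X`: precisely, for
`x : X` and `t ∈ T1` there is `t' ∈ T1` with `ρ (x t x⁻¹) = ρ t'`. It is enough to do this for `t = g i a (g i)⁻¹`,
so for `y = z a z⁻¹`, `z : X`, `a ∈ A`. By hypothesis (`Subgroup.map_iSup`) `π y = π t1` with `t1 ∈ T1`, so
`k = t1⁻¹ y ∈ Kπ`, and `k ∈ T`. Let `D = T ⊓ Kπ`, a normal subgroup of `X` with `ρ D` commuting with `ρ T`, in
particular `ρ D` is abelian. `ρ D` has no elements of order `p`: the set of all `d ∈ D` with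
`ρ (d ^ p ^ m) = 1` for some `m` is a normal subgroup of `X` acting as a `p`-group, so it acts trivially
(`irr_act`). Now `y = t1 k`, `y ^ p = 1`, `ρ t1` and `ρ k` commute, so `ρ (t1 ^ p) ρ (k ^ p) = 1`. Let `q` be the order of
`ρ k` (in the units of `AddMonoid.End S`: `ρ.toHomUnits`); it is prime to `p`. `ρ k` is a power of `ρ (k ^ p)`, which
is `ρ (t1 ^ p)⁻¹`; so `ρ k = ρ t2` with `t2 ∈ T1` a power of `t1`, and `ρ y = ρ (t1 t2)`. (4) So the fixed points of `T1`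
on `S` form an `X`-invariant subgroup; it is `⊥` or `⊤`. (If `s` is fixed by `T1` then
`ρ t (ρ x s) = ρ x (ρ (x⁻¹ t x) s) = ρ x (ρ t' s) = ρ x s`.) If it is `⊤`: some `cj (g i) A` acts trivially, so `A` does, against
`nt`; if `k = 0` the hypothesis gives `π a = 1` for all `a ∈ A`, so `A ≤ P ⊓ Kπ` acts trivially. So it is `⊥`. (5)
`⨅ i, FixedBy ρ (cj (g i) A) = ⊥` has index `|S|`, and the index of an intersection is at most the product
of the indices (`AddSubgroup.index_iInf_le`), `(FixedBy ρ (cj g A)).index = (FixedBy ρ A).index` (`ρ g` maps one onto the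
other). So `|S| ≤ (FixedBy ρ A).index ^ k ≤ (ρ.ker.relIndex A) ^ k` and
`ρ.ker.relIndex A ≤ π.ker.relIndex A = |A.map π|` by (1). -/
def Stmt_GNL : Prop := ∀ (X : Type) [Group X] [Finite X] (Q : Type) [Group Q] (π : X →* Q)
  (p : ℕ) [Fact p.Prime] (Y P A : Subgroup X), π.ker ≤ Y → IsOp p Y P → A ≤ P →
  ∀ (S : Type) [AddCommGroup S] [Finite S] (ρ : X →* AddMonoid.End S), Offender p ρ A →
  ∀ (k : ℕ) (g : Fin k → X), (∀ x : X, ∀ a ∈ A, π (x * a * x⁻¹) ∈ ⨆ i, (cj (g i) A).map π) →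
  Nat.card S ≤ Nat.card (A.map π) ^ k

/-- BLOCK ADJ (uses nothing): the group `F` acts on the maps which commute with the kernel of `π`.
PROOF. `U` = the subgroup of all `f : AddMonoid.End S` with `ρ k * f = f * ρ k` for all `k ∈ π.ker`. `p • f = 0`. `X` acts on
`U` by `f ↦ ρ x * f * ρ x⁻¹` (`π.ker` is normal), a homomorphism `α : X →* AddMonoid.End U`, and `α k = 1` for
`k ∈ π.ker`. (Size) a map `f` is determined by its values on a basis of `S`: if `|S| = p ^ n` then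
`|AddMonoid.End S| ≤ (p ^ n) ^ n` (`S` is a vector space over `ZMod p` of dimension `n`, `AddMonoid.End S` embeds into the
functions from a basis to `S`; `AddCommGroup.zmodModule`, `Module.Basis.constr` or `ext`). Take `x0` with
`π x0 = u` and `g = α x0` (as a unit, `α.toHomUnits x0`). `g ^ r = 1` since `x0 ^ r ∈ π.ker`. If `f u f⁻¹ = u ^ i`,
`f = π y`, then `y x0 y⁻¹` and `x0 ^ i` differ by an element of `π.ker`, so `h = α y` works. `g ≠ 1`: let `N1` be the set of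
all `x : X` such that `ρ x` commutes with `ρ (y b y⁻¹)` for all `y : X`, `b ∈ P`; a normal subgroup of `X`. `N = N1.map π`
is normal in `F`. If `g = 1` then `x0 ∈ N1`: `ρ (y b y⁻¹)` is in `U` because `ρ k`, `k ∈ π.ker`, commutes with it: as in
block GNL, (1) and (2). So `u ∈ N`, and `N` is not semiregular, so it is transitive by `hF`. Then `X = N1 Y`: for
`x : X` there is `n ∈ N1` with `π n ω = π x ω`, so `n⁻¹ x ∈ Y`. So the set of all `x ∈ X` such that `ρ x = ρ b` for some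
`b ∈ P` is a normal subgroup `N2` of `X`: `ρ (x b x⁻¹)` with `x = n y`: `y b y⁻¹ = b' ∈ P` and `ρ n` commutes with
`ρ b'`. It acts as a `p`-group, so trivially (`irr_act`), against the hypothesis on `P`. -/
def Stmt_ADJ : Prop := ∀ (Ω : Type) (F : Subgroup (Equiv.Perm Ω)) (X : Type) [Group X] [Finite X]
  (π : X →* Equiv.Perm Ω) (p : ℕ) [Fact p.Prime] (ω : Ω) (Y P : Subgroup X), π.range = F →
  (∀ N : Subgroup (Equiv.Perm Ω), N ≤ F → (∀ f ∈ F, ∀ n ∈ N, f * n * f⁻¹ ∈ N) →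
    ((∀ a b : Ω, ∃ σ ∈ N, σ a = b) ∨ (∀ σ ∈ N, ∀ a : Ω, σ a = a → σ = 1))) →
  (∀ x : X, x ∈ Y ↔ π x ω = ω) → IsOp p Y P →
  ∀ (S : Type) [AddCommGroup S] [Finite S] (ρ : X →* AddMonoid.End S), (∀ s : S, p • s = 0) →
  (∀ W : AddSubgroup S, (∀ x : X, ∀ w ∈ W, ρ x w ∈ W) → W = ⊥ ∨ W = ⊤) →
  (∃ b ∈ P, ρ b ≠ 1) → ∀ (r : ℕ) (u : Equiv.Perm Ω), u ∈ F → u ^ r = 1 →
  (∀ N : Subgroup (Equiv.Perm Ω), N ≤ F → (∀ f ∈ F, ∀ n ∈ N, f * n * f⁻¹ ∈ N) →
    (∀ n ∈ N, ∀ a : Ω, n a = a → n = 1) → u ∉ N) →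
  ∃ (U : Type) (_ : AddCommGroup U) (_ : Finite U) (g : (AddMonoid.End U)ˣ),
    (∀ v : U, p • v = 0) ∧ g ≠ 1 ∧ g ^ r = 1 ∧
    (∀ i : ℕ, (∃ f ∈ F, f * u * f⁻¹ = u ^ i) → ∃ h : (AddMonoid.End U)ˣ, h * g * h⁻¹ = g ^ i) ∧
    ∀ n : ℕ, Nat.card S = p ^ n → Nat.card U ≤ p ^ n ^ 2

/-- BLOCK CDU (uses GRD, EIG, GNL, ADJ): condition (D) excludes offenders.
PROOF. Let `c`, `r`, `u` be as in `CondD` and suppose that there are `X`, `π`, `ω`, `Y`, `P`, `S`, `ρ`, `A` as in the definition of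
`UniqueOffender` with `Offender p ρ A`. `A.map π ≠ ⊥`: otherwise GNL with `k = 0`
(`g = Fin.elim0`; `π (x a x⁻¹) = 1`) gives `|S| ≤ 1`, so `ρ a = 1`, against `nt`. `A.map π` is an elementary abelian
subgroup of `P.map π`, which is a `p`-group contained in `F`, fixes `ω` and is normalised by the elements of
`F` fixing `ω` (surjectivity of `π`, `IsOp.nm`), so `|A.map π| ≤ p ^ c`. GRD for `F`, `A.map π` gives `g i ∈ F`,
`g i = π (x i)`; `cj (g i) (A.map π) = (cj (x i) A).map π`. GNL: `|S| ≤ (p ^ c) ^ m`, `m = Nat.log 2 |F|`. `|S| = p ^ n`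
(a finite vector space over `ZMod p`), so `n ≤ c m`. ADJ (`F` semiprimitive; `b` from `nt`, `A ≤ P`) gives `U`, `g`,
`|U| ≤ p ^ n ^ 2`, and EIG: `p ^ |I'| ≤ |U|` where the closure `I'` of EIG contains the closure `I` of `CondD`
(`Subgroup.closure_mono`; the group of units is finite, `Subgroup.card_le_of_le`). So `|I| ≤ n ^ 2 ≤ (c m) ^ 2`:
contradiction. `F` is finite as the image of `X`. -/
def Stmt_CDU : Prop := ∀ (Ω : Type) (F : Subgroup (Equiv.Perm Ω)) (p : ℕ) [Fact p.Prime],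
  (∀ N : Subgroup (Equiv.Perm Ω), N ≤ F → (∀ f ∈ F, ∀ n ∈ N, f * n * f⁻¹ ∈ N) →
    ((∀ a b : Ω, ∃ σ ∈ N, σ a = b) ∨ (∀ σ ∈ N, ∀ a : Ω, σ a = a → σ = 1))) →
  CondD F p → UniqueOffender F p

end Pool.Agent.Work.MP_6d7bb4.h65u
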