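import Mathlib

set_option autoImplicit false

/-! # MP_6d7bb4: condition (A), at most one subgroup of order `p`; definition (helper94) -/

namespace Pool.Agent.Work.MP_6d7bb4.h65u

/-- Condition (A) for the permutation group `F` at the prime `p`: a normal `p`-subgroup of a point
stabiliser of `F` has at most one subgroup of order `p` (so it is cyclic or generalised quaternion). -/
def CondAy {Ω : Type} (F : Subgroup (Equiv.Perm Ω)) (p : ℕ) : Prop :=
  ∀ (ω : Ω) (N : Subgroup (Equiv.Perm Ω)), N ≤ F → (∀ n ∈ N, n ω = ω) →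
    (∀ f ∈ F, f ω = ω → ∀ n ∈ N, f * n * f⁻¹ ∈ N) → IsPGroup p N →
    ∀ g ∈ N, ∀ h ∈ N, g ^ p = 1 → h ^ p = 1 → g ≠ 1 → ∃ i : ℕ, h = g ^ i

end Pool.Agent.Work.MP_6d7bb4.h65u
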