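import Pool.Agent.Work.MP_6d7bb4_h65u.Interface
import Pool.Agent.Work.MP_6d7bb4_h65u.DefsY
import Pool.Agent.Work.MP_6d7bb4_helper94.Semi

set_option autoImplicit false

/-! # MP_6d7bb4, block CAY (helper94): at most one subgroup of order `p` implies `UniqueOffender` -/

namespace Pool.Agent.Work.MP_6d7bb4.h65u

open MulAction Pool.Agent.Work.MP_6d7bb4.helper94 Pool.Agent.Work.MP_6d7bb4.helper94.Sol

/-- the condition `|O_p(F_ω)| ≤ p` is a special case -/
theorem CAY_of_condA {Ω : Type} {F : Subgroup (Equiv.Perm Ω)} {p : ℕ} [hp : Fact p.Prime]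
    (hF : Finite F) (h : CondA F p) : CondAy F p := by
  intro ω N hN h1 h2 h3 g hg k hk hgp _ hg1
  have hfN : Finite N := Finite.of_injective _ (Subgroup.inclusion_injective hN)
  have h4 : Nat.card N ≤ p := h ω N hN h1 h2 h3
  have ho : orderOf g = p := orderOf_eq_prime hgp hg1
  have h5 : Subgroup.zpowers g = N := by
    refine Subgroup.eq_of_le_of_card_ge ((Subgroup.zpowers_le).2 hg) ?_
    rw [Nat.card_zpowers, ho]
    exact h4
  have hfo : IsOfFinOrder g := by
    rw [← orderOf_pos_iff, ho]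
    exact hp.out.pos
  rw [← h5, ← hfo.mem_powers_iff_mem_zpowers] at hk
  obtain ⟨i, hi⟩ := hk
  exact ⟨i, hi.symm⟩

/-- an endomorphism of order a power of `p` which is trivial on a subgroup of index `p` has order
dividing `p` -/
theorem CAY_pow {S : Type} [AddCommGroup S] [Finite S] {p : ℕ} [hp : Fact p.Prime]
    (hS : ∀ s : S, p • s = 0) (S0 : AddSubgroup S) (hi : S0.index = p)
    (f : AddMonoid.End S) {k : ℕ} (hk : f ^ p ^ k = 1) (hf : ∀ s ∈ S0, f s = s) : f ^ p = 1 := by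
  -- `f s - s ∈ S0` for all `s`
  have h0 : ∀ s : S, f s - s ∈ S0 := by
    by_contra hc
    push Not at hc
    obtain ⟨s, hs⟩ := hc
    have hcard : Nat.card (S ⧸ S0) = p := hi
    have hfin : Finite (S ⧸ S0) := inferInstance
    have hmap : S0 ≤ S0.comap f := by
      intro u hu
      show f u ∈ S0
      rw [hf u hu]
      exact hu
    -- the action on the quotient
    set q : S ⧸ S0 →+ S ⧸ S0 := QuotientAddGroup.map S0 S0 f hmap with hq
    have hqk : ∀ u : S, q (QuotientAddGroup.mk u) = QuotientAddGroup.mk (f u) := fun u => rfl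
    have hqi : ∀ (j : ℕ) (u : S), (q : S ⧸ S0 → S ⧸ S0)^[j] (QuotientAddGroup.mk u) =
        QuotientAddGroup.mk ((f ^ j) u) := by
      intro j
      induction j with
      | zero => intro u; rfl
      | succ j ih =>
        intro u
        rw [Function.iterate_succ_apply, hqk, ih, pow_succ]
        rfl
    have hex : ∀ u : S ⧸ S0, p • u = 0 := by
      intro u
      obtain ⟨u, rfl⟩ := QuotientAddGroup.mk_surjective u
      show QuotientAddGroup.mk (p • u) = _
      rw [hS u]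
      rfl
    let hmod : Module (ZMod p) (S ⧸ S0) := AddCommGroup.zmodModule hex
    -- `q` is multiplication by a scalar
    set s1 : S ⧸ S0 := QuotientAddGroup.mk s with hs1
    have hs10 : s1 ≠ 0 := by
      intro h
      rw [hs1, QuotientAddGroup.eq_zero_iff] at h
      apply hs
      rw [hf s h, sub_self]
      exact S0.zero_mem
    have hgen : AddSubgroup.zmultiples s1 = ⊤ := by
      have h1 : addOrderOf s1 = p := addOrderOf_eq_prime (hex s1) hs10
      refine AddSubgroup.eq_top_of_le_card _ ?_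
      rw [Nat.card_zmultiples, h1, hcard]
    have h2 : q s1 ∈ AddSubgroup.zmultiples s1 := by
      rw [hgen]
      exact AddSubgroup.mem_top _
    obtain ⟨m, hm⟩ := AddSubgroup.mem_zmultiples_iff.1 h2
    have h3 : ∀ j : ℕ, (q : S ⧸ S0 → S ⧸ S0)^[j] s1 = (m ^ j) • s1 := by
      intro j
      induction j with
      | zero => simp
      | succ j ih =>
        rw [Function.iterate_succ_apply', ih, map_zsmul, ← hm, smul_smul, pow_succ]
    have h4 : (m ^ p ^ k) • s1 = s1 := by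
      rw [← h3, hs1, hqi, hk]
      rfl
    have h5 : ((m : ZMod p) ^ p ^ k) = 1 := by
      have h6 : (((m ^ p ^ k - 1 : ℤ) : ZMod p)) • s1 = 0 := by
        rw [Int.cast_smul_eq_zsmul, sub_smul, h4, one_smul, sub_self]
      have h7 : (((m ^ p ^ k - 1 : ℤ) : ZMod p)) = 0 := by
        by_contra hne
        apply hs10
        rw [← one_smul (ZMod p) s1, ← inv_mul_cancel₀ hne, mul_smul, h6, smul_zero]
      push_cast at h7
      exact sub_eq_zero.1 h7
    rw [ZMod.pow_card_pow] at h5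
    have h8 : m • s1 = s1 := by
      rw [← Int.cast_smul_eq_zsmul (ZMod p), h5, one_smul]
    rw [hm, hs1, hqk, QuotientAddGroup.eq_iff_sub_mem] at h8
    exact hs h8
  have h1 : ∀ (j : ℕ) (s : S), (f ^ j) s = s + j • (f s - s) := by
    intro j
    induction j with
    | zero => intro s; simp
    | succ j ih =>
      intro s
      rw [pow_succ]
      show (f ^ j) (f s) = _
      rw [ih, show f (f s) - f s = f (f s - s) from (map_sub f _ _).symm, hf _ (h0 s)]
      rw [succ_nsmul]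
      abel
  refine AddMonoidHom.ext (fun s => ?_)
  show (f ^ p) s = s
  rw [h1, hS, add_zero]

theorem s_CAY : ∀ (Ω : Type) (F : Subgroup (Equiv.Perm Ω)) (p : ℕ) [Fact p.Prime],
    CondAy F p → UniqueOffender F p := by
  intro Ω F p hp hA X _ _ π hπ ω Y P hY hP S _ _ ρ A hAP hOff
  -- one subgroup of order `p`
  have hU : ∀ g ∈ P.map π, ∀ h ∈ P.map π, g ^ p = 1 → h ^ p = 1 → g ≠ 1 → ∃ i : ℕ, h = g ^ i := by
    refine hA ω (P.map π) ?_ ?_ ?_ (IsPGroup.map hP.pg π)
    · rintro _ ⟨x, _, rfl⟩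
      rw [← hπ]
      exact ⟨x, rfl⟩
    · rintro _ ⟨x, hx, rfl⟩
      exact (hY x).1 (hP.le hx)
    · rintro f hf hfω _ ⟨x, hx, rfl⟩
      rw [← hπ] at hf
      obtain ⟨g, rfl⟩ := hf
      exact ⟨g * x * g⁻¹, hP.nm g ((hY g).2 hfω) x hx, by rw [map_mul, map_mul, map_inv]⟩
  -- elements of `P` in the kernel act trivially
  have c1 : ∀ (S : Type) [AddCommGroup S] [Finite S] (ρ : X →* AddMonoid.End S)
      (A : Subgroup X), Offender p ρ A → ∀ n ∈ P, π n = 1 → ρ n = 1 := by
    intro S _ _ ρ A hOff n hnP hnk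
    have h1 : P ⊓ π.ker ≤ O p π.ker := by
      refine le_O inf_le_right ?_ (hP.pg.to_le inf_le_left)
      intro b hb n hn
      refine ⟨hP.nm b ((hY b).2 ?_) n hn.1, ?_⟩
      · rw [MonoidHom.mem_ker] at hb
        rw [hb]
        rfl
      · have h2 : π n = 1 := hn.2
        show π (b * n * b⁻¹) = 1
        rw [map_mul, map_mul, map_inv, h2, mul_one, mul_inv_cancel]
    have h2 : Nm (⊤ : Subgroup X) (O p π.ker) := by
      refine nm_O ?_
      intro b _ n hn
      rw [MonoidHom.mem_ker] at hn ⊢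
      rw [map_mul, map_mul, map_inv, hn, mul_one, mul_inv_cancel]
    refine helper94.Ps.irr_act hp.out hOff.ex ρ (fun W hW => hOff.irr W hW) (O p π.ker)
      (fun x n hn => h2 x (Subgroup.mem_top x) n hn) ?_ n (h1 ⟨hnP, hnk⟩)
    intro n hn
    obtain ⟨k, hk⟩ := O_isP (p := p) π.ker ⟨n, hn⟩
    refine ⟨k, ?_⟩
    have h3 : n ^ p ^ k = 1 := congrArg Subtype.val hk
    rw [h3, map_one]
  -- an offender contains an element which acts nontrivially
  have c2 : ∀ (S : Type) [AddCommGroup S] [Finite S] (ρ : X →* AddMonoid.End S)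
      (A : Subgroup X), A ≤ P → Offender p ρ A → ∃ a ∈ A, ρ a ≠ 1 ∧ π a ≠ 1 ∧ (π a) ^ p = 1 ∧
      A.map π = Subgroup.zpowers (π a) := by
    intro S _ _ ρ A hAP hOff
    obtain ⟨a, ha, hna⟩ := hOff.nt
    have ha1 : π a ≠ 1 := fun h => hna (c1 S ρ A hOff a (hAP ha) h)
    have hap : (π a) ^ p = 1 := by rw [← map_pow, hOff.pw a ha, map_one]
    refine ⟨a, ha, hna, ha1, hap, le_antisymm ?_ ?_⟩
    · rintro _ ⟨b, hb, rfl⟩
      have hbp : (π b) ^ p = 1 := by rw [← map_pow, hOff.pw b hb, map_one]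
      obtain ⟨i, hi⟩ := hU (π a) ⟨a, hAP ha, rfl⟩ (π b) ⟨b, hAP hb, rfl⟩ hap hbp ha1
      rw [hi]
      exact Subgroup.npow_mem_zpowers _ _
    · rw [Subgroup.zpowers_le]
      exact ⟨a, ha, rfl⟩
  obtain ⟨a, ha, hna, ha1, hap, hmap⟩ := c2 S ρ A hAP hOff
  have h2 : Nat.card (A.map π) = p := by
    rw [hmap, Nat.card_zpowers, orderOf_eq_prime hap ha1]
  -- sizes
  have h3 : ρ.ker.relIndex A ≤ p := by
    rw [← h2, ← Subgroup.relIndex_ker]
    have h4 : A ⊓ π.ker ≤ ρ.ker := by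
      rintro a ⟨ha1, ha2⟩
      rw [MonoidHom.mem_ker]
      exact c1 S ρ A hOff a (hAP ha1) ha2
    have h5 := Subgroup.relIndex_dvd_of_le_left A h4
    rw [Subgroup.inf_relIndex_left] at h5
    refine Nat.le_of_dvd ?_ h5
    rw [Subgroup.relIndex_ker, h2]
    exact hp.out.pos
  have h3' : p ≤ (FixedBy ρ A).index := by
    obtain ⟨s, hs⟩ : ∃ s, ρ a s ≠ s := by
      by_contra hc
      push Not at hc
      exact hna (AddMonoidHom.ext hc)
    have h4 : (QuotientAddGroup.mk s : S ⧸ FixedBy ρ A) ≠ 0 := by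
      intro h0
      rw [QuotientAddGroup.eq_zero_iff] at h0
      exact hs (h0 a ha)
    have h5 : p • (QuotientAddGroup.mk s : S ⧸ FixedBy ρ A) = 0 := by
      rw [← QuotientAddGroup.mk_nsmul, hOff.ex s]
      rfl
    have h6 := addOrderOf_eq_prime h5 h4
    have h7 : p ∣ Nat.card (S ⧸ FixedBy ρ A) := by
      rw [← h6]
      exact addOrderOf_dvd_natCard _
    exact Nat.le_of_dvd Nat.card_pos h7
  refine ⟨h3.trans h3', ?_, ?_⟩
  · intro b hb hfix
    have hidx : (FixedBy ρ A).index = p := le_antisymm (hOff.of.trans h3) h3'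
    -- `ρ b ^ p = 1`
    have hbp : ρ b ^ p = 1 := by
      obtain ⟨k, hk⟩ := hP.pg ⟨b, hb⟩
      have hk' : b ^ p ^ k = 1 := congrArg Subtype.val hk
      exact CAY_pow hOff.ex (FixedBy ρ A) hidx (ρ b) (k := k)
        (by rw [← map_pow, hk', map_one]) hfix
    by_cases hb1 : π b = 1
    · rw [hb1]
      exact one_mem _
    have hpb : (π b) ^ p = 1 := by
      by_contra hne
      -- the power of `π b` of order `p`
      have hex : ∃ k : ℕ, (π b) ^ p ^ k = 1 := by
        obtain ⟨k, hk⟩ := hP.pg ⟨b, hb⟩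
        have hk' : b ^ p ^ k = 1 := congrArg Subtype.val hk
        exact ⟨k, by rw [← map_pow, hk', map_one]⟩
      classical
      obtain ⟨k, hk, hkm⟩ : ∃ k : ℕ, (π b) ^ p ^ k = 1 ∧ ∀ j < k, (π b) ^ p ^ j ≠ 1 :=
        ⟨Nat.find hex, Nat.find_spec hex, fun j hj => Nat.find_min hex hj⟩
      have hk2 : 2 ≤ k := by
        by_contra hlt
        have hk01 : k = 0 ∨ k = 1 := by omega
        rcases hk01 with rfl | rfl
        · rw [pow_zero, pow_one] at hk
          exact hb1 hk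
        · rw [pow_one] at hk
          exact hne hk
      obtain ⟨m, rfl⟩ : ∃ m, k = m + 1 := ⟨k - 1, by omega⟩
      have hm1 : 1 ≤ m := by omega
      have hc : (π (b ^ p ^ m)) ^ p = 1 := by
        rw [map_pow, ← pow_mul, ← pow_succ]
        exact hk
      have hc1 : π (b ^ p ^ m) ≠ 1 := by
        rw [map_pow]
        exact hkm m (Nat.lt_succ_self m)
      have hρc : ρ (b ^ p ^ m) = 1 := by
        obtain ⟨l, rfl⟩ : ∃ l, m = l + 1 := ⟨m - 1, by omega⟩
        rw [map_pow, pow_succ', pow_mul, hbp, one_pow]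
      have hcP : b ^ p ^ m ∈ P := pow_mem hb _
      obtain ⟨i, hi⟩ := hU (π (b ^ p ^ m)) ⟨_, hcP, rfl⟩ (π a) ⟨a, hAP ha, rfl⟩ hc hap hc1
      apply hna
      have h6 : ρ (((b ^ p ^ m) ^ i)⁻¹ * a) = 1 := by
        refine c1 S ρ A hOff _ (mul_mem (inv_mem (pow_mem hcP i)) (hAP ha)) ?_
        rw [map_mul, map_inv, map_pow, ← hi, inv_mul_cancel]
      have h7 : ρ a = ρ ((b ^ p ^ m) ^ i) * ρ (((b ^ p ^ m) ^ i)⁻¹ * a) := by
        rw [← map_mul, mul_inv_cancel_left]
      rw [h7, h6, mul_one, map_pow, hρc, one_pow]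
    obtain ⟨i, hi⟩ := hU (π a) ⟨a, hAP ha, rfl⟩ (π b) ⟨b, hb, rfl⟩ hap hpb ha1
    rw [hmap, hi]
    exact Subgroup.npow_mem_zpowers _ _
  · intro S' _ _ ρ' A' hA' hOff'
    obtain ⟨a', ha', _, ha1', hap', hmap'⟩ := c2 S' ρ' A' hA' hOff'
    rw [hmap, hmap']
    refine le_antisymm ?_ ?_
    · rw [Subgroup.zpowers_le]
      obtain ⟨i, hi⟩ := hU (π a) ⟨a, hAP ha, rfl⟩ (π a') ⟨a', hA' ha', rfl⟩ hap hap' ha1
      rw [hi]
      exact Subgroup.npow_mem_zpowers _ _
    · rw [Subgroup.zpowers_le]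
      obtain ⟨i, hi⟩ := hU (π a') ⟨a', hA' ha', rfl⟩ (π a) ⟨a, hAP ha, rfl⟩ hap' hap ha1'
      rw [hi]
      exact Subgroup.npow_mem_zpowers _ _

end Pool.Agent.Work.MP_6d7bb4.h65u
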