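import Mathlib

set_option autoImplicit false

/-! # MP_6d7bb4: commuting perfect subgroups; definitions (helper65) -/

namespace Pool.Agent.Work.MP_6d7bb4.h65u

/-- Condition (E) for the permutation group `F` at the prime `p`. There is a set `𝒩` of perfect subgroups
of `F`, closed under conjugation by elements of `F`, such that different members commute, the group
generated by all members is transitive, and every element of a normal `p`-subgroup of a point stabiliser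
of `F` which normalises a member of `𝒩` centralises it. -/
def CondE {Ω : Type} (F : Subgroup (Equiv.Perm Ω)) (p : ℕ) : Prop :=
  ∃ 𝒩 : Set (Subgroup (Equiv.Perm Ω)),
    (∀ T ∈ 𝒩, T ≤ F ∧ ⁅T, T⁆ = T ∧ ∀ f ∈ F, T.map (MulAut.conj f).toMonoidHom ∈ 𝒩) ∧
    (∀ T ∈ 𝒩, ∀ T' ∈ 𝒩, T ≠ T' → ∀ t ∈ T, ∀ t' ∈ T', t * t' = t' * t) ∧
    (∀ a b : Ω, ∃ n ∈ sSup 𝒩, n a = b) ∧
    ∀ (ω : Ω) (N : Subgroup (Equiv.Perm Ω)), N ≤ F → (∀ n ∈ N, n ω = ω) →
      (∀ f ∈ F, f ω = ω → ∀ n ∈ N, f * n * f⁻¹ ∈ N) → IsPGroup p N →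
      ∀ n ∈ N, ∀ T ∈ 𝒩, T.map (MulAut.conj n).toMonoidHom = T → ∀ t ∈ T, n * t = t * n

/-- `F` is of diagonal type: there is a set `𝒩` of nonabelian simple subgroups of `F`, closed under
conjugation by elements of `F`, such that different members commute, the group `N` generated by all members
is transitive, and for every point `ω` and every member `T` the stabiliser of `ω` in `N` induces all inner
automorphisms of `T`. -/
def Diag {Ω : Type} (F : Subgroup (Equiv.Perm Ω)) : Prop :=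
  ∃ 𝒩 : Set (Subgroup (Equiv.Perm Ω)),
    (∀ T ∈ 𝒩, T ≤ F ∧ IsSimpleGroup T ∧ (∃ s ∈ T, ∃ t ∈ T, s * t ≠ t * s) ∧
      ∀ f ∈ F, T.map (MulAut.conj f).toMonoidHom ∈ 𝒩) ∧
    (∀ T ∈ 𝒩, ∀ T' ∈ 𝒩, T ≠ T' → ∀ t ∈ T, ∀ t' ∈ T', t * t' = t' * t) ∧
    (∀ a b : Ω, ∃ n ∈ sSup 𝒩, n a = b) ∧
    ∀ (ω : Ω), ∀ T ∈ 𝒩, ∀ t ∈ T, ∃ n ∈ sSup 𝒩, n ω = ω ∧ ∀ s ∈ T, n * s * n⁻¹ = t * s * t⁻¹

end Pool.Agent.Work.MP_6d7bb4.h65u
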