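import Pool.Agent.Work.MP_6d7bb4_h65u.Interface2
import Pool.Agent.Work.MP_6d7bb4_h65u.DefsE

set_option autoImplicit false
set_option linter.unusedSectionVars false

/-!
# MP_6d7bb4: groups with at most one offender; interface, part 4: condition (E) (helper65)

An offender does not move commuting perfect subgroups. Rules as in `Interface.lean`:
`Pool/Agent/Work/MP_6d7bb4_h65u/B_X.lean`, `import` this file, namespace `Pool.Agent.Work.MP_6d7bb4.h65u`,
`theorem s_X (hA : Stmt_A) .. : Stmt_X`.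
-/

namespace Pool.Agent.Work.MP_6d7bb4.h65u

open MulAction Pool.Agent.Work.MP_6d7bb4.helper94 Pool.Agent.Work.MP_6d7bb4.helper94.Sol

/-- BLOCK NSG (uses nothing): a perfect group with all elements of order at most 3 is trivial.
PROOF. (a) Let `s` be an involution (`s ^ 2 = 1`, `s ≠ 1`) and `x` commute with `s`. Then `x ^ 2 = 1`: otherwise
`x ^ 3 = 1`; `(s x) ^ 2 = x ^ 2 ≠ 1`, so `1 = (s x) ^ 3 = s`, a contradiction. So any two elements of the
centraliser of `s` commute (`x`, `y`, `x y` are in it and have squares `1`). (b) For involutions `s`, `t` which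
do not commute `(s t) ^ 3 = 1`, so `s t s = t s t`. (c) CLAIM: if `s1`, `s2` are different commuting involutions,
then every involution `t` commutes with `s1`. Suppose not; `s3 = s1 s2` is an involution. `t` does not commute
with `s2` or `s3` (by (a): `s1`, `t` would both commute with `s2` or `s3`). So `s1 t s1 = t s1 t`, `s2 t s2 = t s2 t`,
`s3 t s3 = t s3 t`. `t s3 t = (t s1 t) (t s2 t) = s1 t s1 s2 t s2` and
`s3 t s3 = s1 (s2 t s2) s1 = s1 t s2 t s1`. So `s2 t s1 = s1 s2 t s2`, so `t s1 = s1 t s2`, `t s1 t = s1 t s2 t`,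
`s1 t s1 = s1 t s2 t`, `s1 = s2 t`, `t = s2 s1` commutes with `s1`: contradiction. (d) If there is no
involution, `x ^ 3 = 1` for all `x`, so `D` is a 3-group, nilpotent, solvable, perfect, so trivial. (e) If there
is an involution `s` which commutes with no involution except `s`: its centraliser is `{1, s}` by (a); a Sylow
2-subgroup containing `s` has all squares equal to `1` (its elements have order a power of 2), so it is
abelian, contained in `{1, s}`, so `|D| / 2` is odd. Left multiplication by `s` is a permutation of `D`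
without fixed points of order 2, a product of `|D| / 2` transpositions, so it is odd. So `Equiv.Perm.sign`
composed with `MulAction.toPermHom D D` is a homomorphism to an abelian group which is not trivial on `s`,
against `commutator D = ⊤` (`Abelianization.lift` or `Subgroup.commutator_le_ker..`). (f) Otherwise there is an
involution and by (c) all involutions commute. `{x | x ^ 2 = 1}` is an abelian normal subgroup; in the
quotient all elements satisfy `x ^ 3 = 1`, so the quotient is a perfect 3-group, trivial. So `D` is abelian and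
perfect, so trivial. -/
def Stmt_NSG : Prop := ∀ (D : Type) [Group D] [Finite D], commutator D = ⊤ →
  (∀ x : D, x ^ 2 = 1 ∨ x ^ 3 = 1) → ∀ x : D, x = 1

/-- BLOCK TAB (uses nothing): the lemma of Thompson for perfect groups.
PROOF. (1) Let `d ∈ D` have order `m` prime to `p`. Let `W` be the range of `v ↦ σ d v - v`, an additive subgroup
which is invariant under `σ b`, `b ∈ B` (`b` and `d` commute). If `W ≠ ⊥` then the `p`-group `B` has a fixed point
`w ≠ 0` in `W` (`|W|` is a power of `p`; `IsPGroup.card_modEq_card_fixedPoints`,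
`IsPGroup.exists_fixed_point_of_prime_dvd_card_of_fixed_point`, or the lemmas on fixed points in the files of
`helper94`). `w = σ d v - v` and `w ∈ FixedBy σ B`, so `σ d w = w` and by induction `σ (d ^ j) v = v + j • w`. For
`j = m`: `m • w = 0`, and `p • w = 0`, `m` prime to `p`, so `w = 0`. So `W = ⊥` and `σ d = 1`. (2) Let `d ∈ D` be
arbitrary of order `p ^ k * m`, `m` prime to `p`. `d ^ p ^ k` has order `m`, so `σ (d ^ p ^ k) = 1`. So
`D.map σ.toHomUnits` is a `p`-group (`G`, so it, is finite), nilpotent, so solvable, and equal to its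
commutator subgroup (`Subgroup.map_commutator`), so it is `⊥`. -/
def Stmt_TAB : Prop := ∀ (p : ℕ) [Fact p.Prime] (G : Type) [Group G] [Finite G] (V : Type)
  [AddCommGroup V] [Finite V] (σ : G →* AddMonoid.End V) (B D : Subgroup G),
  (∀ v : V, p • v = 0) → IsPGroup p B → ⁅D, D⁆ = D → (∀ b ∈ B, ∀ d ∈ D, b * d = d * b) →
  (∀ v ∈ FixedBy σ B, ∀ d ∈ D, σ d v = v) → ∀ d ∈ D, σ d = 1

/-- BLOCK TRN (uses NSG): a transvection does not move a perfect group which commutes with its conjugates.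
Write `x v` for `σ x v`, `x' = a x a⁻¹`, `x'' = a x' a⁻¹`. `x'` commutes with `D` for `x ∈ D`.
PROOF. Let `H = FixedBy σ (zpowers a)`; `v ∈ H` iff `a v = v`. If `H` has index `1`, `σ a = 1`,
`σ x = σ x'` commutes with `σ y` for `x`, `y ∈ D`, so `σ D` is abelian and perfect, so trivial. Otherwise the index is
`p` (it divides the order of `V`, a power of `p`). Let `v0 ∉ H`, `c = a v0 - v0 ≠ 0`. Every `v` is `h + n • v0`
with `h ∈ H` (`V ⧸ H` has prime order), so `a v - v = φ v • c`, `φ v : ℕ`, for all `v`. `a c = c`: if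
`a c - c = n • c` then `a ^ p = 1` gives `(1 + n) ^ p • c = c`, `(1 + n) ^ p ≡ 1 + n` modulo `p`, so `n • c = 0`. For
`x ∈ D`: `x' c = x' (a c) = a (x c) = x c + λ x • c` with `λ x = φ (x c)`.
CLAIM: `x c = c` for `x ∈ D`.
`p` odd: then `x'` and `x''` both commute with `D` (`j = 1, 2`). `x'' c = a (x' c) = a (x c + λ x • c) =
x c + (2 λ x) • c`. For `x`, `y ∈ D`: `(x y)' c = x' (y c + λ y • c) = y (x' c) + λ y • x' c`, so
(1) `x y c + λ (x y) c = y x c + λ x • y c + λ y • x c + (λ x λ y) • c`; in the same way with `''`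
(2) `x y c + 2 λ (x y) c = y x c + 2 λ x • y c + 2 λ y • x c + (4 λ x λ y) • c`. `2 (1) - (2)`:
`x y c = y x c - (2 λ x λ y) • c`. Exchange `x` and `y` and add: `(4 λ x λ y) • c = 0`. So (`p` odd) `(2 λ x λ y) • c = 0` and
`x y c = y x c` for all `x`, `y ∈ D`, so all commutators of elements of `D`, so all elements of `D = ⁅D, D⁆`, fix `c`.
`p = 2`: `x'' = x` (`a ^ 2 = 1`). `x x' = x' x` commutes with `a`, so it maps the range `{0, c}` of
`v ↦ a v - v` onto itself: `x x' c = c`. With `x' c = x c + λ x • c`: if `λ x` is even, `x ^ 2 c = c`; if it is odd,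
`x ^ 2 c + x c = c`, so `x ^ 3 c = x c - x ^ 2 c = x c + x ^ 2 c = c`. Let
`M = {x ∈ D | x y c = y c for all y ∈ D}`, a normal subgroup of `D`. If `z ∈ D` and `z c = c` then `z ∈ M`: for `y ∈ D`
and `w = y⁻¹`, `w w' c = c` gives `y c = w' c` and `w'` commutes with `z`. So `x ^ 2` or `x ^ 3` is in `M` for all
`x ∈ D`. Block NSG for the quotient of `D` by `M`: `M = D`.
END. `x - 1` maps `V` to the multiples of `c` for `x ∈ D`: modulo the multiples of `c` (a subgroup `C0`, fixed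
pointwise by `a` and `D`) `a` is the identity, so `a⁻¹` too, so `x' = a x a⁻¹` and `x` are equal modulo `C0`, so `x y` and
`x' y = y x'` and `y x` are equal modulo `C0`, so commutators of elements of `D` are the identity modulo `C0`, so all
elements of `D` are. So `(x - 1) (y - 1) v ∈ (x - 1) C0 = 0` and `σ x`, `σ y` commute for `x`, `y ∈ D`. So `σ D` is
abelian and perfect, so trivial. -/
def Stmt_TRN : Prop := ∀ (p : ℕ) [Fact p.Prime] (G : Type) [Group G] [Finite G] (V : Type)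
  [AddCommGroup V] [Finite V] (σ : G →* AddMonoid.End V) (D : Subgroup G) (a : G),
  (∀ v : V, p • v = 0) → ⁅D, D⁆ = D → a ^ p = 1 →
  (∀ j : ℕ, 0 < j → j < p → ∀ x ∈ D, ∀ y ∈ D,
    (a ^ j * x * (a ^ j)⁻¹) * y = y * (a ^ j * x * (a ^ j)⁻¹)) →
  (FixedBy σ (Subgroup.zpowers a)).index ≤ p → ∀ d ∈ D, σ d = 1

/-- BLOCK DLT (uses nothing): the diagonal.
PROOF. For `k ∈ K` let `δ k` be the product of the list of all `b ^ j * k * (b ^ j)⁻¹`, `j = 0, .., p - 1`. For
`i ≠ j` in `{0, .., p - 1}` the elements `b ^ i * k * (b ^ i)⁻¹` and `b ^ j * l * (b ^ j)⁻¹` commute (conjugate the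
hypothesis for `|i - j|`; for the order of the factors use symmetry). So `δ` is multiplicative (induction on
the length of the list: `k1 m1 k2 m2 = k1 k2 m1 m2` when `m1` commutes with `k2`; or `Finset.noncommProd` and
`Finset.noncommProd_mul_distrib`, or `MonoidHom.noncommPiCoprod` composed with the diagonal). `b * δ k * b⁻¹` is the
product of the list for `j = 1, .., p`, whose last factor is `k` as `b ^ p = 1`; move `k` to the front. The last
statement: `δ k = k * m` with `m` the product for `j = 1, .., p - 1`; every `b ^ j * k * (b ^ j)⁻¹` commutes with `K`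
for these `j`. -/
def Stmt_DLT : Prop := ∀ (G : Type) [Group G] (p : ℕ) (b : G) (K : Subgroup G), 0 < p →
  b ^ p = 1 →
  (∀ j : ℕ, 0 < j → j < p → ∀ k ∈ K, ∀ l ∈ K,
    (b ^ j * k * (b ^ j)⁻¹) * l = l * (b ^ j * k * (b ^ j)⁻¹)) →
  ∃ δ : K →* G, (∀ k, b * δ k = δ k * b) ∧
    (∀ k : K, δ k ∈ Subgroup.closure {g | ∃ (j : ℕ) (l : G), l ∈ K ∧ g = b ^ j * l * (b ^ j)⁻¹}) ∧
    ∀ k : K, ∃ m : G, δ k = k * m ∧ ∀ l ∈ K, m * l = l * m

/-- BLOCK ORB (uses TAB, TRN, DLT): one orbit of commuting perfect groups.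
PROOF. Induction on `|A|·` something decreasing, for instance on `C.relIndex A` (for all groups and modules). If
`A = C` the left side is `1` and the index is positive. Otherwise let `b ∈ A`, `b ∉ C`. For `0 < j < p`, `b ^ j ∉ C` (`b` is
a power of `b ^ j`). (1) By TRN (`D = K`, `a = b`) and `∃ k ∈ K, σ k ≠ 1`, the index of `U = FixedBy σ (zpowers b)` is
greater than `p`, and a power of `p` (it divides `|V|`), so at least `p ^ 2`. (2) Let `δ` be as in DLT and
`K1 = δ.range`. `K1` commutes with `b`, and with `C` (`C` commutes with `b` and `K`, so with all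
`b ^ j * l * (b ^ j)⁻¹`). `⁅K1, K1⁆ = K1`. For `a ∈ A` not in `C1 = C ⊔ zpowers b`: `a * k1 * a⁻¹` commutes with `l1` for
`k1`, `l1 ∈ K1`, because `a * (b ^ i * k * (b ^ i)⁻¹) * a⁻¹` commutes with `b ^ j * l * (b ^ j)⁻¹`: conjugate by
`b ^ j`; `(b ^ j)⁻¹ * a * b ^ i ∈ A` is not in `C` (`A` is abelian) (closure induction, twice). (3) `K1` acts
nontrivially on `U`: otherwise TAB (`B = zpowers b`, a `p`-group, commuting with `K1`) gives `σ (δ k) = 1`, so
`σ k = σ m⁻¹` with `m` as in DLT, commutes with `σ l` for `l ∈ K`; so `σ K` is abelian and perfect, so trivial. (4) Apply the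
induction hypothesis to the group `G1 = Subgroup.centralizer {b}` (it contains `A`, `C1`, `K1`; it leaves `U`
invariant), to its action on `U`, and to `A`, `C1`, `K1` (as subgroups of `G1`: `subgroupOf`): `C1` acts trivially on `U`
(`C` acts trivially on `V`). `C.relIndex A = p * C1.relIndex A` (`C.relIndex C1 = p`: `C1` has the elements
`c * b ^ j`, `0 ≤ j < p`, or `C.relIndex C1` divides `p`; only `≤ p` is needed;
`Subgroup.relIndex_mul_relIndex`). The fixed points of `A` on `U` are the fixed points on `V`, and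
`(FixedBy σ A).index = U.index * (index in U)`. So
`C.relIndex A ^ 2 ≤ p ^ 2 * C1.relIndex A ^ 2 ≤ U.index * (index in U)`. -/
def Stmt_ORB : Prop := ∀ (p : ℕ) [Fact p.Prime] (G : Type) [Group G] [Finite G] (V : Type)
  [AddCommGroup V] [Finite V] (σ : G →* AddMonoid.End V) (A C K : Subgroup G),
  (∀ v : V, p • v = 0) → C ≤ A → (∀ a ∈ A, ∀ b ∈ A, a * b = b * a) → (∀ a ∈ A, a ^ p = 1) →
  (∀ c ∈ C, σ c = 1) → (∀ c ∈ C, ∀ k ∈ K, c * k = k * c) →
  (∀ a ∈ A, a ∉ C → ∀ k ∈ K, ∀ l ∈ K, (a * k * a⁻¹) * l = l * (a * k * a⁻¹)) →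
  ⁅K, K⁆ = K → (∃ k ∈ K, σ k ≠ 1) → C.relIndex A ^ 2 ≤ (FixedBy σ A).index

/-- BLOCK CMP (uses TAB, ORB): an elementary abelian group which permutes commuting perfect groups.
PROOF. Induction on `|A|` (for all `A`, the rest fixed). `A = ⊥`: clear. Otherwise there are `a0 ∈ A`, `K ∈ 𝒦` with
`cj a0 K ≠ K` (last hypothesis). Let `C = {a ∈ A | cj a K = K}`, a proper subgroup of `A`, which centralises `K`. The
hypotheses hold for `C`: `|C| ^ 2 ≤ (FixedBy σ C).index`. Let `U = FixedBy σ C`. `K` acts nontrivially on `U` by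
TAB (`B = C`, `D = K`). `G1 = Subgroup.centralizer C` contains `A` and `K` and leaves `U` invariant. Block ORB for
`G1` acting on `U`, with `A`, `C`, `K` (`subgroupOf`); for `a ∈ A`, `a ∉ C`: `cj a K ≠ K` are different members of `𝒦`, so
`a * k * a⁻¹ ∈ cj a K` (`conj_mem_cj`) commutes with `K`. So `C.relIndex A ^ 2 ≤` the index in `U` of the fixed points of `A`
on `U`, which are `FixedBy σ A`. Multiply (`|A| = |C| * C.relIndex A`). -/
def Stmt_CMP : Prop := ∀ (p : ℕ) [Fact p.Prime] (G : Type) [Group G] [Finite G] (V : Type)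
  [AddCommGroup V] [Finite V] (σ : G →* AddMonoid.End V) (𝒦 : Set (Subgroup G)) (A : Subgroup G),
  (∀ v : V, p • v = 0) → (∀ a ∈ A, ∀ b ∈ A, a * b = b * a) → (∀ a ∈ A, a ^ p = 1) →
  (∀ K ∈ 𝒦, ⁅K, K⁆ = K ∧ ∃ k ∈ K, σ k ≠ 1) → (∀ K ∈ 𝒦, ∀ a ∈ A, cj a K ∈ 𝒦) →
  (∀ K ∈ 𝒦, ∀ L ∈ 𝒦, K ≠ L → ∀ k ∈ K, ∀ l ∈ L, k * l = l * k) →
  (∀ K ∈ 𝒦, ∀ a ∈ A, cj a K = K → ∀ k ∈ K, a * k = k * a) →
  (∀ a ∈ A, (∀ K ∈ 𝒦, cj a K = K) → a = 1) → Nat.card A ^ 2 ≤ (FixedBy σ A).index

/-- BLOCK KOM (uses nothing): elements which commute modulo the kernel of `π`.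
PROOF. (1) As in block GNL (1), (2) (see `B_GNL.lean`): `P ⊓ π.ker` is a `p`-group normal in `π.ker`, so contained
in `O p π.ker`, which is normalised by `X` (`nm_O`) and a `p`-group, so acts trivially (`irr_act`). For
`k ∈ π.ker`, `b ∈ P`: `k b k⁻¹ b⁻¹ ∈ P ⊓ π.ker` (`k ∈ Y`), so `ρ k` and `ρ b` commute; apply this to
`x⁻¹ k x ∈ π.ker`. So `ρ k` commutes with `ρ g` for `g` in `R = Subgroup.normalClosure P`. (2) The set `D` of all
`d ∈ R ⊓ π.ker` with `ρ (d ^ p ^ m) = 1` for some `m` is a normal subgroup of `X` (`ρ` of `R ⊓ π.ker` is abelian by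
(1)), so it acts trivially (`irr_act`). (3) Let `g = y b y⁻¹`, `π x` and `π g` commute, `z = x g x⁻¹ g⁻¹`. Then
`z ∈ R ⊓ π.ker`, `ρ z` commutes with `ρ g`, and `x g x⁻¹ = z g`. `g ^ p ^ m = 1` for some `m` (`P` is a
`p`-group), so `1 = ρ (z ^ p ^ m) ρ (g ^ p ^ m) = ρ (z ^ p ^ m)`, `z ∈ D`, `ρ z = 1`. -/
def Stmt_KOM : Prop := ∀ (X : Type) [Group X] [Finite X] (Q : Type) [Group Q] (π : X →* Q)
  (p : ℕ) [Fact p.Prime] (Y P : Subgroup X), π.ker ≤ Y → IsOp p Y P →
  ∀ (S : Type) [AddCommGroup S] [Finite S] (ρ : X →* AddMonoid.End S), (∀ s : S, p • s = 0) →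
  (∀ W : AddSubgroup S, (∀ x : X, ∀ w ∈ W, ρ x w ∈ W) → W = ⊥ ∨ W = ⊤) →
  (∀ k ∈ π.ker, ∀ g ∈ Subgroup.normalClosure (P : Set X), ρ k * ρ g = ρ g * ρ k) ∧
  ∀ x y : X, ∀ b ∈ P, π x * π (y * b * y⁻¹) = π (y * b * y⁻¹) * π x →
    ρ x * ρ (y * b * y⁻¹) = ρ (y * b * y⁻¹) * ρ x

/-- the part of the normal subgroup `R` of `X` which lies over `T`, and its commutator subgroup -/
def KT {X Q : Type} [Group X] [Group Q] (π : X →* Q) (R : Subgroup X) (T : Subgroup Q) :
    Subgroup X := ⁅R ⊓ T.comap π, R ⊓ T.comap π⁆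

/-- BLOCK KTC (uses nothing): the group `KT π R T`. Let `L = R ⊓ T.comap π`, `K = KT π R T = ⁅L, L⁆`.
PROOF. `L.map π = T` as `T ≤ R.map π`. (1) `K.map π = ⁅T, T⁆ = T` (`Subgroup.map_commutator`). (2) Let `g : X` with `π g`
commuting with `T`. For `x ∈ L`: `h x = x g x⁻¹ g⁻¹ ∈ R ⊓ π.ker` (`R` is normal), so `ρ (h x)` commutes with `ρ L`.
`h (x y) = x (h y) x⁻¹ (h x)`, so `ρ (h (x y)) = ρ (h y) ρ (h x)`, and all `ρ (h x)` commute with each other, so
`x ↦ ρ (h x)` is a homomorphism from `L` to the units with commuting values, so `ρ (h k) = 1` for commutators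
`k`, and for `k ∈ K = ⁅L, L⁆`. (3) Every element of `L` is `k z`, `k ∈ K`, `z ∈ L ⊓ π.ker` (`K.map π = L.map π`), and `ρ z`
commutes with `ρ L`. So `ρ' ⁅k z, k1 z1⁆ = ρ' ⁅k, k1⁆` (`ρ' = ρ.toHomUnits`), so `K.map ρ' ≤ ⁅K.map ρ', K.map ρ'⁆`.
(4) conjugation by `x` maps `L` to `R ⊓ (cj (π x) T).comap π`. -/
def Stmt_KTC : Prop := ∀ (X : Type) [Group X] (Q : Type) [Group Q] (π : X →* Q)
  (R : Subgroup X) (S : Type) [AddCommGroup S] (ρ : X →* AddMonoid.End S), R.Normal →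
  (∀ k ∈ π.ker, ∀ g ∈ R, ρ k * ρ g = ρ g * ρ k) →
  (∀ (x : X) (T : Subgroup Q), KT π R (cj (π x) T) = cj x (KT π R T)) ∧
  ∀ T : Subgroup Q, ⁅T, T⁆ = T → T ≤ R.map π →
    (KT π R T).map π = T ∧
    (∀ g : X, (∀ t ∈ T, π g * t = t * π g) → ∀ k ∈ KT π R T, ρ g * ρ k = ρ k * ρ g) ∧
    ⁅(KT π R T).map ρ.toHomUnits, (KT π R T).map ρ.toHomUnits⁆ = (KT π R T).map ρ.toHomUnits

/-- the hypotheses on the set `𝒩` in condition (E) -/
structure Ehy {Ω : Type} (F : Subgroup (Equiv.Perm Ω)) (p : ℕ)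
    (𝒩 : Set (Subgroup (Equiv.Perm Ω))) : Prop where
  le : ∀ T ∈ 𝒩, T ≤ F
  pf : ∀ T ∈ 𝒩, ⁅T, T⁆ = T
  cl : ∀ T ∈ 𝒩, ∀ f ∈ F, cj f T ∈ 𝒩
  cm : ∀ T ∈ 𝒩, ∀ T' ∈ 𝒩, T ≠ T' → ∀ t ∈ T, ∀ t' ∈ T', t * t' = t' * t
  tr : ∀ a b : Ω, ∃ n ∈ sSup 𝒩, n a = b
  mv : ∀ (ω : Ω) (N : Subgroup (Equiv.Perm Ω)), N ≤ F → (∀ n ∈ N, n ω = ω) →
      (∀ f ∈ F, f ω = ω → ∀ n ∈ N, f * n * f⁻¹ ∈ N) → IsPGroup p N →
      ∀ n ∈ N, ∀ T ∈ 𝒩, cj n T = T → ∀ t ∈ T, n * t = t * n

/-- BLOCK DIC (uses nothing): `T` is contained in `π R` or centralised by it.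
PROOF. Let `R = normalClosure P`. `P.map π` and all its conjugates `(cj y P).map π` are `p`-groups in `F`, fix the point
`π y ω` and are normalised by the stabiliser of that point in `F` (`IsOp.nm`, `π` is onto `F`); so `Ehy.mv`
applies to the elements `π (y b y⁻¹)`. If all of them satisfy `cj (π (y b y⁻¹)) T = T` then they centralise `T`,
and `R` is generated by the `y b y⁻¹`. Otherwise let `g = π (y b y⁻¹)` with `T' = cj g T ≠ T`; `g ∈ R.map π`, `T' ∈ 𝒩`.
For `s`, `t ∈ T` let `c = t (g t⁻¹ g⁻¹)`; it is in `R.map π`, which is normalised by `F`. `g t⁻¹ g⁻¹ ∈ T'` commutes with `s`, so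
`s c s⁻¹ c⁻¹ = s t s⁻¹ t⁻¹ ∈ R.map π`. So `T = ⁅T, T⁆ ≤ R.map π`. -/
def Stmt_DIC : Prop := ∀ (Ω : Type) (F : Subgroup (Equiv.Perm Ω)) (p : ℕ)
  (𝒩 : Set (Subgroup (Equiv.Perm Ω))), Ehy F p 𝒩 →
  ∀ (X : Type) [Group X] (π : X →* Equiv.Perm Ω), π.range = F →
  ∀ (ω : Ω) (Y P : Subgroup X), (∀ x : X, x ∈ Y ↔ π x ω = ω) → IsOp p Y P →
  (∀ y : X, ∀ b ∈ P, ∀ T ∈ 𝒩, cj (π (y * b * y⁻¹)) T = T → ∀ t ∈ T,
      π (y * b * y⁻¹) * t = t * π (y * b * y⁻¹)) ∧
  ∀ T ∈ 𝒩, T ≤ (Subgroup.normalClosure (P : Set X)).map π ∨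
    ∀ g ∈ Subgroup.normalClosure (P : Set X), ∀ t ∈ T, π g * t = t * π g

/-- BLOCK FIX (uses KOM, KTC, DIC): elements of `P` which move nothing act trivially.
Let `R = normalClosure P` and let `𝒩1` be the set of all `T ∈ 𝒩` with `T ≤ R.map π` and `ρ k ≠ 1` for some
`k ∈ KT π R T`.
PROOF. Let `P1` be the set of `b ∈ P` with `cj (π b) T = T` for all `T ∈ 𝒩1`; a subgroup. By DIC (first part, `y = 1`) `π b`
centralises all `T ∈ 𝒩1` for `b ∈ P1`. (1) CLAIM: if `b ∈ P1`, `T ∈ 𝒩`, `x : X`, `π x ∈ T`, then `ρ x` and `ρ b` commute. Case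
`T ∈ 𝒩1`: `π x` and `π b` commute, KOM (2) (`y = 1`). Case `T` is not contained in `R.map π`: the same, by DIC (second
part, `b ∈ R`). Case `T ≤ R.map π` and `ρ k = 1` for all `k ∈ KT π R T`: by KTC `(KT π R T).map π = T`, so `x = k z`,
`k ∈ KT π R T`, `z ∈ π.ker`; `ρ k = 1` and `ρ z` commutes with `ρ b` by KOM (1). (2) The same for `π x ∈ sSup 𝒩`: the set
of all `f ∈ sSup 𝒩` such that `ρ x` commutes with `ρ b` for all `x` with `π x = f` is closed under products and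
inverses: if `π x = f1 f2`, take `x1` with `π x1 = f1` (`f1 ∈ F = π.range`) and `x2 = x1⁻¹ x`. (3) `P1` is normalised
by `Y`: `P` is (`IsOp.nm`), and `T ∈ 𝒩1` implies `cj (π y) T ∈ 𝒩1` (KTC, first part, `R` is normal; `Ehy.cl`). (4) The set
`W` of all `x : X` with `ρ x = ρ b` for some `b ∈ P1` is a normal subgroup of `X`: for `x : X` there is `n ∈ sSup 𝒩` with
`n ω = π x ω` (`Ehy.tr`), `n = π x1` (`sSup 𝒩 ≤ F`), `y = x1⁻¹ x ∈ Y`, and
`ρ (x b x⁻¹) = ρ x1 ρ (y b y⁻¹) ρ x1⁻¹ = ρ (y b y⁻¹)` by (2), (3). It acts as a `p`-group, so trivially (`irr_act`). -/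
def Stmt_FIX : Prop := ∀ (Ω : Type) (F : Subgroup (Equiv.Perm Ω)) (p : ℕ) [Fact p.Prime]
  (𝒩 : Set (Subgroup (Equiv.Perm Ω))), Ehy F p 𝒩 →
  ∀ (X : Type) [Group X] [Finite X] (π : X →* Equiv.Perm Ω), π.range = F →
  ∀ (ω : Ω) (Y P : Subgroup X), (∀ x : X, x ∈ Y ↔ π x ω = ω) → IsOp p Y P →
  ∀ (S : Type) [AddCommGroup S] [Finite S] (ρ : X →* AddMonoid.End S), (∀ s : S, p • s = 0) →
  (∀ W : AddSubgroup S, (∀ x : X, ∀ w ∈ W, ρ x w ∈ W) → W = ⊥ ∨ W = ⊤) →
  ∀ b ∈ P, (∀ T ∈ 𝒩, T ≤ (Subgroup.normalClosure (P : Set X)).map π →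
      (∃ k ∈ KT π (Subgroup.normalClosure (P : Set X)) T, ρ k ≠ 1) → cj (π b) T = T) →
    ρ b = 1

/-- BLOCK CEU (uses KOM, KTC, DIC, FIX, CMP): condition (E) excludes offenders.
PROOF. `CondE F p` gives `𝒩` with `Ehy F p 𝒩` (`T.map (MulAut.conj f).toMonoidHom = cj f T`). Suppose that there are
`X`, `π`, `ω`, `Y`, `P`, `S`, `ρ`, `A` as in the definition of `UniqueOffender` with `Offender p ρ A` (fields `ex`, `irr`). Let
`R = normalClosure P`, `ρ' = ρ.toHomUnits`, `𝒩1` as in block FIX, `𝒦` the set of all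
`(KT π R T).map ρ'`, `T ∈ 𝒩1`, a set of subgroups of the finite group `(AddMonoid.End S)ˣ`, which acts on `S`
(`σ = Units.coeHom`), and `A' = A.map ρ'`. Apply block CMP to `σ`, `𝒦`, `A'`. Perfect: KTC (3). Nontrivial: definition of `𝒩1`.
`cj (ρ' a)` maps `(KT π R T).map ρ'` to `(cj a (KT π R T)).map ρ' = (KT π R (cj (π a) T)).map ρ'` (KTC, first part),
and `cj (π a) T ∈ 𝒩1`. Commuting: if the groups for `T`, `T1` are different then `T ≠ T1`; let `k ∈ KT π R T`,
`l ∈ KT π R T1`; `π k ∈ T` commutes with `T1` (`Ehy.cm`), so `ρ k` and `ρ l` commute by KTC (2). If `cj (ρ' a)` fixes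
`(KT π R T).map ρ'`, `T ∈ 𝒩1`, `a ∈ A`: if `cj (π a) T ≠ T` then by the last argument `(KT π R T).map ρ'` commutes with
itself, and it is perfect, so it is `⊥`, against `T ∈ 𝒩1`; so `cj (π a) T = T`, `π a` centralises `T` (DIC, `y = 1`) and
`ρ a` commutes with `ρ k` for `k ∈ KT π R T` by KTC (2). Finally if `cj (ρ' a)` fixes all members of `𝒦` then, as just
shown, `cj (π a) T = T` for all `T ∈ 𝒩1`, so `ρ a = 1` by FIX. So
`|A'| ^ 2 ≤ (FixedBy σ A').index = (FixedBy ρ A).index ≤ ρ.ker.relIndex A = |A'|` (`Subgroup.relIndex_ker`), so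
`|A'| = 1`, against `Offender.nt`. -/
def Stmt_CEU : Prop := ∀ (Ω : Type) (F : Subgroup (Equiv.Perm Ω)) (p : ℕ) [Fact p.Prime],
  CondE F p → UniqueOffender F p

/-- BLOCK DIG (uses nothing): groups of diagonal type satisfy (E).
PROOF. The same `𝒩`. `⁅T, T⁆ = T`: `⁅T, T⁆` corresponds to a normal subgroup of the simple group `T`, not trivial.
Let `ω`, `N` (here `Q`) be as in (E), `n ∈ Q`, `T ∈ 𝒩`, `n T n⁻¹ = T`; let `M = sSup 𝒩` and `Mω` its elements fixing `ω`. `M` is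
normalised by `F`. Every `m ∈ M` induces on each `T ∈ 𝒩` the conjugation by some `t ∈ T` (closure induction: an
element of `T` does, an element of another member centralises `T`). (1) Let `g ∈ Q ⊓ M`. `g` centralises every
`T ∈ 𝒩`: let `J` be the set of all `t ∈ T` such that some `g' ∈ Q ⊓ M` induces on `T` the same map as `t`. It is a
subgroup, normalised by `T`: for `t1 ∈ T` there is `m ∈ Mω` inducing the same map as `t1`, and `m g' m⁻¹ ∈ Q ⊓ M`
induces the same map as `t1 t t1⁻¹`. `J` is a `p`-group: the centre of `T` is trivial, `g' ^ p ^ k = 1` implies that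
`t ^ p ^ k` centralises `T`. `T` is simple, nonabelian, so it is not a `p`-group (`F` is finite; a `p`-group is
nilpotent, so solvable), so `J = ⊥`. So `g` centralises all members of `𝒩`, so `M`, and fixes `ω`, and `M` is transitive,
so `g = 1`: `g (m ω) = m (g ω) = m ω`. (2) For `n ∈ Q` and `m ∈ Mω`: `n m n⁻¹ m⁻¹ ∈ Q ⊓ M = ⊥` (`m` normalises `Q`, `n`
normalises `M`). So `n` and `m` commute. (3) Let `n T n⁻¹ = T` and `t ∈ T`; let `m ∈ Mω` induce the same map as `t` on `T`. For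
`s ∈ T`: `n (m s m⁻¹) n⁻¹ = m (n s n⁻¹) m⁻¹`, that is `(n t n⁻¹) (n s n⁻¹) (n t n⁻¹)⁻¹ = t (n s n⁻¹) t⁻¹`. So
`t⁻¹ (n t n⁻¹)` commutes with all elements of `n T n⁻¹ = T`, and it is in `T`, so it is `1`. -/
def Stmt_DIG : Prop := ∀ (Ω : Type) (F : Subgroup (Equiv.Perm Ω)) (p : ℕ) [Fact p.Prime],
  Finite F → Diag F → CondE F p

end Pool.Agent.Work.MP_6d7bb4.h65u
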