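import Pool.Agent.Work.MP_6d7bb4_helper94.Fin
import Pool.Agent.Work.MP_6d7bb4_helper94.Zeta
import Pool.Agent.Work.MP_6d7bb4_h65.Bnd1

/-! # MP_6d7bb4: an abstract system with covering links (helper65, after helper94)

The files LocP, Nc, Path, Fin of helper94 for an abstract system `W`, `S`, `Z`, `Bm` of subgroups such
that `W w` covers `Bm x x'` modulo `S x` for every link. -/

set_option autoImplicit false
set_option linter.unusedSectionVars false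

namespace Pool.Agent.Work.MP_6d7bb4.h65u

open MulAction Pool.Agent.Work.MP_6d7bb4.helper94
open scoped commutatorElement

section defs
variable {V G : Type*} [Group G] [MulAction G V]

/-- a link: `x ~ x'`, `w' ~ w`, the critical pair `x`, `w` -/
structure Lu (Γ : SimpleGraph V) (W S : V → Subgroup G) (x x' w' w : V) : Prop where
  xx : Γ.Adj x x'
  ww : Γ.Adj w w'
  xw : W x ≤ S w'
  wx : W w ≤ S x'
  cr : ¬ W x ≤ S w

/-- the system -/
structure Su (Γ : SimpleGraph V) (W S : V → Subgroup G) (Z Bm : V → V → Subgroup G) : Prop where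
  Wcj : ∀ (g : G) x, W (g • x) = cj g (W x)
  Scj : ∀ (g : G) x, S (g • x) = cj g (S x)
  Zcj : ∀ (g : G) x y, Z (g • x) (g • y) = cj g (Z x y)
  Bcj : ∀ (g : G) x y, Bm (g • x) (g • y) = cj g (Bm x y)
  Zcm : ∀ x y, Z x y = Z y x
  Bcm : ∀ x y, Bm x y = Bm y x
  SK : ∀ x, S x ≤ K Γ x
  WS : ∀ x, W x ≤ S x
  SW : ∀ x, ∀ s ∈ S x, ∀ v ∈ W x, s * v = v * s
  BB : ∀ x y, Γ.Adj x y → Bm x y ≤ B x y
  SB : ∀ x y, Γ.Adj x y → S x ≤ Bm x y
  BK : ∀ x y, Γ.Adj x y → Bm x y ⊓ K Γ x ≤ S x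
  ct : ∀ x y, Γ.Adj x y → ∀ b ∈ Bm x y, (∀ v ∈ W x, b * v = v * b) → b ∈ S x
  ne : ∀ x y, Γ.Adj x y → ¬ Bm x y ≤ K Γ x
  ZW : ∀ x y, Γ.Adj x y → Z x y ≤ W x
  ZB : ∀ x y, Γ.Adj x y → ∀ z ∈ Z x y, ∀ b ∈ Bm x y, b * z = z * b
  BZ : ∀ x y, Γ.Adj x y → ∀ v ∈ W x, (∀ b ∈ Bm x y, b * v = v * b) → v ∈ Z x y
  Zn : ∀ x y, Γ.Adj x y → Z x y ≠ ⊥
  WZ : ∀ x, W x ≤ ⨆ y : {y // Γ.Adj x y}, Z x y.1
  cov : ∀ x x' w' w, Lu Γ W S x x' w' w → Bm x x' ≤ W w ⊔ S x

/-- the commutator group -/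
def Cc (W : V → Subgroup G) (Bm : V → V → Subgroup G) (x x' : V) : Subgroup G :=
  ⁅W x, Bm x x'⁆

/-- generated by the `Bm x y` -/
def Nu (Γ : SimpleGraph V) (Bm : V → V → Subgroup G) (x : V) : Subgroup G :=
  ⨆ y : {y // Γ.Adj x y}, Bm x y.1

/-- the intersection of the groups `Z x y` -/
def Cu (Γ : SimpleGraph V) (Z : V → V → Subgroup G) (x : V) : Subgroup G :=
  ⨅ y : {y // Γ.Adj x y}, Z x y.1

/-- the actions of `a` and `b` on `W x` commute -/
def cu (W : V → Subgroup G) (x : V) (a b : G) : Prop :=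
  ∀ v ∈ W x, a * (b * v * b⁻¹) * a⁻¹ = b * (a * v * a⁻¹) * b⁻¹

/-- the actions of `Bm x y` and `Bm x y'` on `W x` commute -/
def nu (W : V → Subgroup G) (Bm : V → V → Subgroup G) (x y y' : V) : Prop :=
  ∀ s ∈ Bm x y, ∀ t ∈ Bm x y', cu W x s t

end defs

section two
variable {V G : Type*} [Group G] [MulAction G V] {Γ : SimpleGraph V} {d : ℕ}
  {W S : V → Subgroup G} {Z Bm : V → V → Subgroup G}

theorem SW' (hB : Su Γ W S Z Bm) {x : V} {q v : G} (hq : q ∈ S x) (hv : v ∈ W x) :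
    q * v = v * q := hB.SW x q hq v hv

theorem nm_W (hB : Su Γ W S Z Bm) (x : V) : Nm (stabilizer G x) (W x) := nm_of_equiv hB.Wcj x

theorem nm_S (hB : Su Γ W S Z Bm) (x : V) : Nm (stabilizer G x) (S x) := nm_of_equiv hB.Scj x

theorem S_le_st (hB : Su Γ W S Z Bm) (x : V) : S x ≤ stabilizer G x := (hB.SK x).trans (K_le x)

theorem W_le_st (hB : Su Γ W S Z Bm) (x : V) : W x ≤ stabilizer G x :=
  (hB.WS x).trans (S_le_st hB x)

theorem Bm_le_st (hB : Su Γ W S Z Bm) {x y : V} (hxy : Γ.Adj x y) : Bm x y ≤ stabilizer G x :=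
  (hB.BB x y hxy).trans (B_le x y)

theorem SB' (hB : Su Γ W S Z Bm) {x y : V} (hxy : Γ.Adj x y) : S y ≤ Bm x y := by
  rw [hB.Bcm]
  exact hB.SB y x hxy.symm

theorem nm_Z (hB : Su Γ W S Z Bm) (x y : V) : Nm (B x y) (Z x y) := by
  refine nm_of_cj (fun g hg => ?_)
  rw [mem_B] at hg
  rw [← hB.Zcj, hg.1, hg.2]

theorem ZB' (hB : Su Γ W S Z Bm) {x y : V} (hxy : Γ.Adj x y) {z q : G} (hz : z ∈ Z x y)
    (hq : q ∈ Bm x y) : q * z = z * q := hB.ZB x y hxy z hz q hq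

theorem Lu.symm (h : Loc G Γ d) (hB : Su Γ W S Z Bm) {x x' w' w : V} (l : Lu Γ W S x x' w' w) :
    Lu Γ W S w w' x' x where
  xx := l.ww
  ww := l.xx
  xw := l.wx
  wx := l.xw
  cr := by
    intro hcon
    apply l.cr
    intro v hv
    refine hB.ct w w' l.ww v (SB' hB l.ww (l.xw hv)) ?_
    intro u hu
    exact (SW' hB (hcon hu) hv).symm

theorem Lu.ux (hB : Su Γ W S Z Bm) {x x' w' w : V} (l : Lu Γ W S x x' w' w) {u : G}
    (hu : u ∈ W w) : u ∈ stabilizer G x := (K_le_B l.xx.symm (hB.SK x' (l.wx hu))).2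

theorem Lu.cover (hB : Su Γ W S Z Bm) {x x' w' w : V} (l : Lu Γ W S x x' w' w)
    {q : G} (hq : q ∈ (Bm x x' : Subgroup G)) :
    ∃ u ∈ (W w : Subgroup G), ∃ q0 ∈ (S x : Subgroup G), q = u * q0 :=
  mem_sup_nm (fun u hu n hn => nm_S hB x u (l.ux hB hu) n hn) (hB.cov x x' w' w l hq)

theorem Lu.cent (h : Loc G Γ d) (hB : Su Γ W S Z Bm) {x x' w' w : V} (l : Lu Γ W S x x' w' w)
    {v : G} (hv : v ∈ (W x : Subgroup G)) (hc : ∀ u ∈ (W w : Subgroup G), u * v = v * u) :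
    v ∈ (Z x x' : Subgroup G) := by
  refine hB.BZ x x' l.xx v hv ?_
  intro q hq
  obtain ⟨u, hu, q0, hq0, rfl⟩ := l.cover hB hq
  rw [mul_assoc, SW' hB hq0 hv, ← mul_assoc, hc u hu, mul_assoc]

theorem Lu.comm (h : Loc G Γ d) (hB : Su Γ W S Z Bm) {x x' w' w : V} (l : Lu Γ W S x x' w' w) :
    (Cc W Bm x x' : Subgroup G) ≤ Z x x' ⊓ Z w w' := by
  have h1 : (Cc W Bm x x' : Subgroup G) ≤ W x ⊓ W w := by
    unfold Cc
    rw [Subgroup.commutator_le]
    intro v hv q hq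
    obtain ⟨u, hu, q0, hq0, rfl⟩ := l.cover hB hq
    have h2 : ⁅v, u * q0⁆ = v * u * v⁻¹ * u⁻¹ := by
      rw [commutatorElement_def]
      have h3 : q0 * v⁻¹ = v⁻¹ * q0 := SW' hB hq0 (Subgroup.inv_mem _ hv)
      calc v * (u * q0) * v⁻¹ * (u * q0)⁻¹ = v * u * (q0 * v⁻¹) * q0⁻¹ * u⁻¹ := by group
        _ = v * u * (v⁻¹ * q0) * q0⁻¹ * u⁻¹ := by rw [h3]
        _ = v * u * v⁻¹ * u⁻¹ := by group
    rw [h2]
    have hux : u ∈ stabilizer G x := l.ux hB hu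
    have hvw : v ∈ stabilizer G w := (K_le_B l.ww.symm (hB.SK w' (l.xw hv))).2
    constructor
    · have h3 := nm_W hB x u hux v⁻¹ (Subgroup.inv_mem _ hv)
      have h4 : v * u * v⁻¹ * u⁻¹ = v * (u * v⁻¹ * u⁻¹) := by group
      rw [h4]
      exact Subgroup.mul_mem _ hv h3
    · exact Subgroup.mul_mem _ (nm_W hB w v hvw u hu) (Subgroup.inv_mem _ hu)
  intro a ha
  obtain ⟨h2, h3⟩ := h1 ha
  constructor
  · refine l.cent h hB h2 ?_
    intro u hu
    exact SW' hB (hB.WS w hu) h3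
  · refine (l.symm h hB).cent h hB h3 ?_
    intro u hu
    exact SW' hB (hB.WS x hu) h2

end two

section nc
variable {V G : Type*} [Group G] [MulAction G V] {Γ : SimpleGraph V} {d : ℕ}
  {W S : V → Subgroup G} {Z Bm : V → V → Subgroup G}

theorem B_le_Nu {x y : V} (hxy : Γ.Adj x y) : Bm x y ≤ Nu Γ Bm x :=
  le_iSup (fun y : {y // Γ.Adj x y} => Bm x y.1) ⟨y, hxy⟩

theorem Nu_cj (h : Loc G Γ d) (hB : Su Γ W S Z Bm) (g : G) (x : V) :
    Nu Γ Bm (g • x) = cj g (Nu Γ Bm x) := by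
  have key : ∀ (g : G) (x : V), Nu Γ Bm (g • x) ≤ cj g (Nu Γ Bm x) := by
    intro g x
    refine iSup_le (fun y => ?_)
    have h1 : Γ.Adj x (g⁻¹ • y.1) := by
      rw [← h.adj_iff g, smul_inv_smul]
      exact y.2
    have h2 : Bm (g • x) y.1 = cj g (Bm x (g⁻¹ • y.1)) := by
      rw [← hB.Bcj, smul_inv_smul]
    rw [h2]
    exact cj_mono g (B_le_Nu h1)
  refine le_antisymm (key g x) ?_
  have h1 := cj_mono g (key g⁻¹ (g • x))
  rw [inv_smul_smul, cj_inv_cj] at h1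
  exact h1

theorem Nu_le (hB : Su Γ W S Z Bm) (x : V) : Nu Γ Bm x ≤ stabilizer G x :=
  iSup_le (fun y => Bm_le_st hB y.2)

theorem cu.symm {x : V} {a b : G} (h : cu W x a b) : cu W x b a :=
  fun v hv => (h v hv).symm

theorem cu.mul (hB : Su Γ W S Z Bm) {x : V} {a b t : G} (ha : cu W x a t) (hb : cu W x b t)
    (hbx : b ∈ stabilizer G x) : cu W x (a * b) t := by
  intro v hv
  have h1 := hb v hv
  have h2 := ha _ (nm_W hB x b hbx v hv)
  calc a * b * (t * v * t⁻¹) * (a * b)⁻¹ = a * (b * (t * v * t⁻¹) * b⁻¹) * a⁻¹ := by group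
    _ = a * (t * (b * v * b⁻¹) * t⁻¹) * a⁻¹ := by rw [h1]
    _ = t * (a * (b * v * b⁻¹) * a⁻¹) * t⁻¹ := h2
    _ = t * (a * b * v * (a * b)⁻¹) * t⁻¹ := by group

theorem cu.inv (hB : Su Γ W S Z Bm) {x : V} {a t : G} (ha : cu W x a t)
    (hax : a ∈ stabilizer G x) : cu W x a⁻¹ t := by
  intro v hv
  have h0 := nm_W hB x a⁻¹ ((stabilizer G x).inv_mem hax) v hv
  have h1 := ha _ h0
  have h2 : a * (a⁻¹ * v * a⁻¹⁻¹) * a⁻¹ = v := by group
  rw [h2] at h1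
  calc a⁻¹ * (t * v * t⁻¹) * a⁻¹⁻¹ =
      a⁻¹ * (a * (t * (a⁻¹ * v * a⁻¹⁻¹) * t⁻¹) * a⁻¹) * a⁻¹⁻¹ := by rw [h1]
    _ = t * (a⁻¹ * v * a⁻¹⁻¹) * t⁻¹ := by group

theorem cu.conj (hB : Su Γ W S Z Bm) {x : V} {a b : G} (hab : cu W x a b) (g : G) :
    cu W (g • x) (g * a * g⁻¹) (g * b * g⁻¹) := by
  intro v hv
  rw [hB.Wcj, mem_cj] at hv
  have h1 := hab _ hv
  calc g * a * g⁻¹ * (g * b * g⁻¹ * v * (g * b * g⁻¹)⁻¹) * (g * a * g⁻¹)⁻¹ =
      g * (a * (b * (g⁻¹ * v * g) * b⁻¹) * a⁻¹) * g⁻¹ := by group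
    _ = g * (b * (a * (g⁻¹ * v * g) * a⁻¹) * b⁻¹) * g⁻¹ := by rw [h1]
    _ = g * b * g⁻¹ * (g * a * g⁻¹ * v * (g * a * g⁻¹)⁻¹) * (g * b * g⁻¹)⁻¹ := by group

theorem nu.symm {x y y' : V} (h : nu W Bm x y y') : nu W Bm x y' y :=
  fun s hs t ht => (h t ht s hs).symm

theorem nu.conj (hB : Su Γ W S Z Bm) {x y y' : V} (hn : nu W Bm x y y') (g : G) :
    nu W Bm (g • x) (g • y) (g • y') := by
  intro s hs t ht
  rw [hB.Bcj, mem_cj] at hs ht
  have h1 := (hn _ hs _ ht).conj hB g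
  have h2 : g * (g⁻¹ * s * g) * g⁻¹ = s := by group
  have h3 : g * (g⁻¹ * t * g) * g⁻¹ = t := by group
  rwa [h2, h3] at h1

theorem Nu_tr (h : Loc G Γ d) (hB : Su Γ W S Z Bm) (x : V) :
    ∀ y y', Γ.Adj x y → Γ.Adj x y' → ∃ n ∈ (Nu Γ Bm x : Subgroup G), n • y = y' := by
  rcases h.sp x (Nu Γ Bm x) (Nu_le hB x) (nm_of_equiv (Nu_cj h hB) x) with h1 | h1
  · exact h1
  · intro y y' hy _
    exfalso
    apply hB.ne x y hy
    intro q hq
    exact h1 q (B_le_Nu hy hq) y hy (hB.BB x y hy hq).2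

theorem nc_exists (h : Loc G Γ d) (hB : Su Γ W S Z Bm) {x y : V} (hxy : Γ.Adj x y) :
    ∃ w, Γ.Adj x w ∧ ¬ nu W Bm x w y := by
  by_contra hcon
  push Not at hcon
  have hall : ∀ y', Γ.Adj x y' → ∀ w, Γ.Adj x w → nu W Bm x w y' := by
    intro y' hy' w hw
    obtain ⟨g, hg1, hg2⟩ := h.arc x y x y' hxy hy'
    have h1 : Γ.Adj x (g⁻¹ • w) := by
      rw [← h.adj_iff g, smul_inv_smul, hg1]
      exact hw
    have h2 := (hcon _ h1).conj hB g
    rwa [hg1, hg2, smul_inv_smul] at h2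
  have hle : ∀ y', Γ.Adj x y' → ∀ w, Γ.Adj x w →
      (Z x y' : Subgroup G) ≤ Z x w := by
    intro y' hy' w hw
    obtain ⟨M, hM⟩ : ∃ M : Subgroup G, ∀ g, g ∈ M ↔ g ∈ stabilizer G x ∧
        ∀ t ∈ (Bm x y' : Subgroup G), cu W x g t :=
      ⟨{ carrier := {g | g ∈ stabilizer G x ∧ ∀ t ∈ (Bm x y' : Subgroup G), cu W x g t}
         one_mem' := ⟨Subgroup.one_mem _, fun t _ v _ => by group⟩
         mul_mem' := fun {a b} ha hb => ⟨Subgroup.mul_mem _ ha.1 hb.1,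
           fun t ht => (ha.2 t ht).mul hB (hb.2 t ht) hb.1⟩
         inv_mem' := fun {a} ha => ⟨Subgroup.inv_mem _ ha.1,
           fun t ht => (ha.2 t ht).inv hB ha.1⟩ }, fun _ => Iff.rfl⟩
    have hNM : (Nu Γ Bm x : Subgroup G) ≤ M := by
      refine iSup_le (fun w' => ?_)
      intro s hs
      rw [hM]
      exact ⟨Bm_le_st hB w'.2 hs, fun t ht => hall y' hy' w'.1 w'.2 s hs t ht⟩
    obtain ⟨n, hn, hn'⟩ := Nu_tr h hB x y' w hy' hw
    have hnx := Nu_le hB x hn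
    intro z hz
    refine hB.BZ x w hw z (hB.ZW _ _ hy' hz) ?_
    intro q hq
    have h1 : n⁻¹ * q * n ∈ (Bm x y' : Subgroup G) := by
      rw [← mem_cj, ← hB.Bcj, hn', mem_stabilizer_iff.mp hnx]
      exact hq
    have h2 := ((hM n).mp (hNM hn)).2 _ h1
    have h3 := nm_W hB x n⁻¹ ((stabilizer G x).inv_mem hnx) z (hB.ZW _ _ hy' hz)
    have h4 := h2 _ h3
    have h5 : n * (n⁻¹ * z * n⁻¹⁻¹) * n⁻¹ = z := by group
    rw [h5] at h4
    have h6 := ZB' hB hy' hz h1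
    have h7 : n⁻¹ * q * n * z * (n⁻¹ * q * n)⁻¹ = z := by
      rw [h6]
      group
    rw [h7] at h4
    have h8 : q * z * q⁻¹ = z := by
      rw [← h4]
      have h9 : n * (n⁻¹ * q * n * (n⁻¹ * z * n⁻¹⁻¹) * (n⁻¹ * q * n)⁻¹) * n⁻¹ = q * z * q⁻¹ := by
        group
      rw [h9] at h4 ⊢
      rw [h4, h4]
    calc q * z = q * z * q⁻¹ * q := by group
      _ = z * q := by rw [h8]
  have hV : (W x : Subgroup G) = Z x y :=
    le_antisymm ((hB.WZ x).trans (iSup_le (fun w => hle w.1 w.2 y hxy))) (hB.ZW _ _ hxy)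
  apply hB.Zn _ _ hxy
  obtain ⟨σ, h1, h2⟩ := h.inv hxy
  refine P1 h hxy ((hB.ZW x y hxy).trans (W_le_st hB x)) ?_ h1 h2 ?_
  · rw [← hV]
    exact nm_W hB x
  · intro n hn
    have h3 := conj_mem_cj (g := σ) hn
    rw [← hB.Zcj, h1, h2, hB.Zcm] at h3
    exact h3

/-- the groups `Qe x w` which do not commute with `Qe x y` generate `Nh x` -/
theorem nc_gen (h : Loc G Γ d) (hB : Su Γ W S Z Bm) {x y : V} (hxy : Γ.Adj x y) :
    (Nu Γ Bm x : Subgroup G) ≤ ⨆ w : {w // Γ.Adj x w ∧ ¬ nu W Bm x w y}, Bm x w.1 := by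
  obtain ⟨Y, hY⟩ : ∃ Y : Subgroup G, Y = ⨆ w : {w // Γ.Adj x w ∧ ¬ nu W Bm x w y}, Bm x w.1 :=
    ⟨_, rfl⟩
  rw [← hY]
  have hle : ∀ w, Γ.Adj x w → ¬ nu W Bm x w y → (Bm x w : Subgroup G) ≤ Y := by
    intro w h1 h2
    rw [hY]
    exact le_iSup (fun w : {w // Γ.Adj x w ∧ ¬ nu W Bm x w y} => (Bm x w.1 : Subgroup G))
      ⟨w, h1, h2⟩
  have ha : ∀ w : {w // Γ.Adj x w}, Nm (Bm x w.1 : Subgroup G) Y := by
    rintro ⟨w, hw⟩
    by_cases hn : nu W Bm x w y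
    · rw [hY]
      refine Nm.iSup ?_
      rintro q hq ⟨w', hw', hn'⟩ n hn0
      have hqx := Bm_le_st hB hw hq
      have h1 : Γ.Adj x (q • w') := by
        have := h.adj q x w' hw'
        rwa [mem_stabilizer_iff.mp hqx] at this
      have h2 : ¬ nu W Bm x (q • w') y := by
        intro h3
        apply hn'
        intro s hs t ht
        have h4 : q * s * q⁻¹ ∈ (Bm x (q • w') : Subgroup G) := by
          have := conj_mem_cj (g := q) hs
          rwa [← hB.Bcj, mem_stabilizer_iff.mp hqx] at this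
        have h5 := h3 _ h4 t ht
        have h6 := hn q hq t ht
        have h7 := ((h6.inv hB hqx).mul hB h5 (Bm_le_st hB h1 h4)).mul hB h6 hqx
        have h8 : q⁻¹ * (q * s * q⁻¹) * q = s := by group
        rwa [h8] at h7
      have h3 : q * n * q⁻¹ ∈ (Bm x (q • w') : Subgroup G) := by
        have := conj_mem_cj (g := q) hn0
        rwa [← hB.Bcj, mem_stabilizer_iff.mp hqx] at this
      rw [← hY]
      exact hle _ h1 h2 h3
    · exact nm_of_le (hle w hw hn)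
  have hb : Nm (Nu Γ Bm x : Subgroup G) Y := Nm.iSup_left ha
  obtain ⟨w0, hw0, hn0⟩ := nc_exists h hB hxy
  refine iSup_le (fun w => ?_)
  obtain ⟨n, hn, hn'⟩ := Nu_tr h hB x w0 w.1 hw0 w.2
  have hnx := Nu_le hB x hn
  intro q hq
  have h1 : n⁻¹ * q * n ∈ (Bm x w0 : Subgroup G) := by
    rw [← mem_cj, ← hB.Bcj, hn', mem_stabilizer_iff.mp hnx]
    exact hq
  have h2 := hb n hn _ (hle w0 hw0 hn0 h1)
  have h3 : n * (n⁻¹ * q * n) * n⁻¹ = q := by group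
  rwa [h3] at h2

/-- extension of a link -/
theorem ext (h : Loc G Γ d) (hB : Su Γ W S Z Bm) {x x' w' w : V} (l : Lu Γ W S x x' w' w) :
    ∃ y, Γ.Adj x y ∧ ¬ nu W Bm x y x' ∧ ¬ (W y : Subgroup G) ≤ S w' := by
  by_contra hcon
  push Not at hcon
  have step1 : ∀ y, Γ.Adj x y → ¬ nu W Bm x y x' →
      Nm (Bm x x' : Subgroup G) (W x ⊔ W y) := by
    intro y hy hny
    have hVy := hcon y hy hny
    have hq1 : (S x : Subgroup G) ≤ stabilizer G y := by
      intro q hq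
      exact (hB.SK x hq).2 y hy
    have hc1 : Nm (S x : Subgroup G) (W x ⊔ W y) :=
      ((nm_W hB x).mono (S_le_st hB x)).sup ((nm_W hB y).mono hq1)
    have hc2 : Nm (W w : Subgroup G) (W x ⊔ W y) := by
      intro u hu
      have hux : u ∈ stabilizer G x := l.ux hB hu
      have h1 : (W x ⊔ W y : Subgroup G) ≤
          (W x ⊔ W y).comap (MulAut.conj u).toMonoidHom := by
        refine sup_le ?_ ?_
        · intro v hv
          exact le_sup_left (α := Subgroup G) (nm_W hB x u hux v hv)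
        · intro v hv
          show u * v * u⁻¹ ∈ (W x ⊔ W y : Subgroup G)
          obtain ⟨v0, hv0, q', hq', hvq⟩ := (l.symm h hB).cover hB
            (SB' hB l.ww (hVy hv))
          have h2 : u * v * u⁻¹ = (u * v0 * u⁻¹ * v0⁻¹) * v := by
            have h3 : q' * u⁻¹ = u⁻¹ * q' := SW' hB hq' (Subgroup.inv_mem _ hu)
            rw [hvq]
            calc u * (v0 * q') * u⁻¹ = u * v0 * (q' * u⁻¹) := by group
              _ = u * v0 * (u⁻¹ * q') := by rw [h3]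
              _ = u * v0 * u⁻¹ * v0⁻¹ * (v0 * q') := by group
          rw [h2]
          refine Subgroup.mul_mem _ (Subgroup.mem_sup_left ?_) (Subgroup.mem_sup_right hv)
          exact Subgroup.mul_mem _ (nm_W hB x u hux v0 hv0) (Subgroup.inv_mem _ hv0)
      intro n hn
      exact h1 hn
    intro q hq n hn
    obtain ⟨u, hu, q0, hq0, rfl⟩ := l.cover hB hq
    have h1 := hc2 u hu _ (hc1 q0 hq0 n hn)
    have h2 : u * (q0 * n * q0⁻¹) * u⁻¹ = u * q0 * n * (u * q0)⁻¹ := by group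
    rwa [h2] at h1
  have step2 : ∀ w1 : {w // Γ.Adj x w ∧ ¬ nu W Bm x w x'},
      Nm (Bm x w1.1 : Subgroup G) (W x ⊔ W x') := by
    rintro ⟨w1, hw1, hn1⟩
    obtain ⟨g, hg1, hg2⟩ := h.arc x x' x w1 l.xx hw1
    have hgi : g⁻¹ • x = x := by rw [inv_smul_eq_iff, hg1]
    have h1 : Γ.Adj x (g⁻¹ • x') := by
      rw [← h.adj_iff g, smul_inv_smul, hg1]
      exact l.xx
    have h2 : ¬ nu W Bm x (g⁻¹ • x') x' := by
      intro h3
      apply hn1
      have h4 := h3.conj hB g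
      rw [hg1, smul_inv_smul, hg2] at h4
      exact h4.symm
    have h3 := nm_cj g (step1 _ h1 h2)
    rw [cj_sup, ← hB.Wcj, ← hB.Wcj, ← hB.Bcj, hg1, hg2, smul_inv_smul] at h3
    exact h3
  have step3 : Nm (Nu Γ Bm x : Subgroup G) (W x ⊔ W x') :=
    (Nm.iSup_left step2).mono (nc_gen h hB l.xx)
  have hx' : (W x' : Subgroup G) ≤ stabilizer G x := fun v hv =>
    (K_le_B l.xx.symm (hB.SK x' (hB.WS x' hv))).2
  obtain ⟨σ, h1, h2⟩ := h.inv l.xx
  have h5 : (W x ⊔ W x' : Subgroup G) = ⊥ := by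
    refine P1 h l.xx (sup_le ((hB.WS x).trans (S_le_st hB x)) hx') ?_ h1 h2 ?_
    · refine nm_st (Nu_le hB x) (Nu_tr h hB x) h l.xx step3 ?_
      refine ((nm_W hB x).mono (B_le x x')).sup ?_
      rw [B_comm]
      exact (nm_W hB x').mono (B_le x' x)
    · intro n hn
      have h3 := conj_mem_cj (g := σ) hn
      rw [cj_sup, ← hB.Wcj, ← hB.Wcj, h1, h2, sup_comm] at h3
      exact h3
  apply hB.Zn _ _ l.xx
  rw [eq_bot_iff, ← h5]
  exact (hB.ZW _ _ l.xx).trans le_sup_left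

end nc

section path
variable {V G : Type*} [Group G] [MulAction G V] {Γ : SimpleGraph V} {d : ℕ}
  {W S : V → Subgroup G} {Z Bm : V → V → Subgroup G}

/-- minimality of `c + 1` -/
def Mu (Γ : SimpleGraph V) (W S : V → Subgroup G) (c : ℕ) : Prop :=
  ∀ x w : V, Γ.dist x w ≤ c → W x ≤ S w

/-- a path all of whose segments of length `c + 1` are links -/
structure Pu (Γ : SimpleGraph V) (W S : V → Subgroup G) (Bm : V → V → Subgroup G)
    (c : ℕ) (s : ℕ → V) (n : ℕ) : Prop where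
  ad : ∀ k, k < n + c + 1 → Γ.Adj (s k) (s (k + 1))
  cr : ∀ k, k ≤ n → ¬ (W (s (k + c + 1)) : Subgroup G) ≤ S (s k)
  nc : ∀ k, c ≤ k → k < n + c → ¬ nu W Bm (s (k + 1)) (s (k + 2)) (s k)

theorem Pu.lk (h : Loc G Γ d) {c n k : ℕ} {s : ℕ → V} (P : Pu Γ W S Bm c s n) (mn : Mu Γ W S c)
    (hk : k ≤ n) : Lu Γ W S (s (k + c + 1)) (s (k + c)) (s (k + 1)) (s k) where
  xx := (P.ad (k + c) (by omega)).symm
  ww := P.ad k (by omega)
  xw := by
    refine mn _ _ ?_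
    rw [SimpleGraph.dist_comm, show k + c + 1 = k + 1 + c by omega]
    exact dist_path h.conn P.ad (k + 1) c (by omega)
  wx := mn _ _ (dist_path h.conn P.ad k c (by omega))
  cr := P.cr k hk

theorem Pu.lk' (h : Loc G Γ d) (hB : Su Γ W S Z Bm) {c n k : ℕ} {s : ℕ → V} (P : Pu Γ W S Bm c s n)
    (mn : Mu Γ W S c) (hk : k ≤ n) :
    Lu Γ W S (s k) (s (k + 1)) (s (k + c)) (s (k + c + 1)) :=
  (P.lk h mn hk).symm h hB

theorem Pu.step (h : Loc G Γ d) (hB : Su Γ W S Z Bm) {c n : ℕ} {s : ℕ → V} (P : Pu Γ W S Bm c s n)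
    (mn : Mu Γ W S c) : ∃ s', Pu Γ W S Bm c s' (n + 1) := by
  obtain ⟨y, hy, hn, hcr⟩ := ext h hB (P.lk h mn (le_refl n))
  obtain ⟨s', hs'⟩ : ∃ s' : ℕ → V, s' = fun k => if k ≤ n + c + 1 then s k else y := ⟨_, rfl⟩
  have e1 : ∀ k, k ≤ n + c + 1 → s' k = s k := by
    intro k hk
    rw [hs']
    exact if_pos hk
  have e2 : s' (n + c + 2) = y := by
    rw [hs']
    exact if_neg (by omega)
  refine ⟨s', ?_, ?_, ?_⟩
  · intro k hk
    rcases Nat.lt_or_ge k (n + c + 1) with h1 | h1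
    · rw [e1 _ (by omega), e1 _ (by omega)]
      exact P.ad k h1
    · have h2 : k = n + c + 1 := by omega
      rw [h2, e2, e1 _ (le_refl _)]
      exact hy
  · intro k hk
    rcases Nat.lt_or_ge k (n + 1) with h1 | h1
    · rw [e1 _ (by omega), e1 _ (by omega)]
      exact P.cr k (by omega)
    · have h2 : k = n + 1 := by omega
      rw [h2, e1 (n + 1) (by omega), show n + 1 + c + 1 = n + c + 2 by omega, e2]
      exact hcr
  · intro k hk hk'
    rcases Nat.lt_or_ge k (n + c) with h1 | h1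
    · rw [e1 _ (by omega), e1 _ (by omega), e1 _ (by omega)]
      exact P.nc k hk h1
    · have h2 : k = n + c := by omega
      rw [h2, e2, e1 _ (by omega), e1 _ (by omega)]
      exact hn

theorem Pu.exists (h : Loc G Γ d) (hB : Su Γ W S Z Bm) {c : ℕ} {s : ℕ → V} (P : Pu Γ W S Bm c s 0)
    (mn : Mu Γ W S c) (n : ℕ) : ∃ s, Pu Γ W S Bm c s n := by
  induction n with
  | zero => exact ⟨s, P⟩
  | succ n ih =>
    obtain ⟨s', P'⟩ := ih
    exact P'.step h hB mn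

/-- a critical pair exists -/
theorem crit (h : Loc G Γ d) (hB : Su Γ W S Z Bm) {x0 y0 : V} (hxy : Γ.Adj x0 y0) :
    ∃ c, Mu Γ W S c ∧ ∃ s, Pu Γ W S Bm c s 0 := by
  classical
  have h1 : ∃ n, ∃ x w, Γ.dist x w = n ∧ ¬ (W x : Subgroup G) ≤ S w := by
    by_contra hcon
    push Not at hcon
    apply hB.Zn _ _ hxy
    rw [Subgroup.eq_bot_iff_forall]
    intro z hz
    apply h.faith
    intro v
    exact S_le_st hB v (hcon _ x0 v rfl (hB.ZW _ _ hxy hz))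
  obtain ⟨b, hb⟩ : ∃ b, b = Nat.find h1 := ⟨_, rfl⟩
  obtain ⟨x, w, hxw, hcr⟩ := Nat.find_spec h1
  have hmin : ∀ m, m < b → ∀ x w, Γ.dist x w = m → (W x : Subgroup G) ≤ S w := by
    intro m hm x w hd
    by_contra h2
    exact Nat.find_min h1 (hb ▸ hm) ⟨x, w, hd, h2⟩
  rw [← hb] at hxw
  have hb0 : b ≠ 0 := by
    intro h0
    rw [h0, h.conn.dist_eq_zero_iff] at hxw
    rw [hxw] at hcr
    exact hcr (hB.WS w)
  obtain ⟨c, rfl⟩ := Nat.exists_eq_succ_of_ne_zero hb0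
  refine ⟨c, fun x w hd => hmin _ (Nat.lt_succ_of_le hd) x w rfl, ?_⟩
  obtain ⟨q, hq⟩ := h.conn.exists_walk_length_eq_dist w x
  rw [SimpleGraph.dist_comm, hxw] at hq
  refine ⟨q.getVert, ?_, ?_, ?_⟩
  · intro k hk
    exact q.adj_getVert_succ (by omega)
  · intro k hk
    have h2 : k = 0 := by omega
    rw [h2, show 0 + c + 1 = q.length by omega, SimpleGraph.Walk.getVert_length,
      SimpleGraph.Walk.getVert_zero]
    exact hcr
  · intro k hk hk'
    omega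

/-- convexity -/
theorem Pu.conv (h : Loc G Γ d) (hB : Su Γ W S Z Bm) {c n : ℕ} {s : ℕ → V} (P : Pu Γ W S Bm c s n)
    (mn : Mu Γ W S c) {i j : ℕ} (hj : j ≤ i + c + 1) (hjn : j ≤ n + 1) {a : G}
    (hai : a ∈ (W (s i) : Subgroup G)) (haj : a ∈ (W (s j) : Subgroup G)) :
    ∀ m, i + m ≤ j → a ∈ (W (s (i + m)) : Subgroup G) := by
  intro m
  induction m with
  | zero => exact fun _ => hai
  | succ m ih =>
    intro hm
    have h1 := ih (by omega)
    have l := P.lk' h hB mn (k := i + m) (by omega)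
    have h2 : a ∈ (S (s (i + m + c + 1)) : Subgroup G) := by
      refine mn (s j) _ ?_ haj
      obtain ⟨t, ht⟩ : ∃ t, i + m + c + 1 = j + t := ⟨i + m + c + 1 - j, by omega⟩
      rw [ht]
      refine (dist_path h.conn P.ad j t (by omega)).trans (by omega)
    have h3 := l.cent h hB h1 (fun u hu => (SW' hB h2 hu).symm)
    rw [hB.Zcm] at h3
    exact hB.ZW _ _ l.xx.symm h3

/-- the commutators backwards -/
theorem Pu.CCb (h : Loc G Γ d) (hB : Su Γ W S Z Bm) {c n : ℕ} {s : ℕ → V} (P : Pu Γ W S Bm c s n)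
    (mn : Mu Γ W S c) {k l : ℕ} (hk : k + c ≤ n) (h1 : k ≤ l) (h2 : l ≤ k + c + 1) :
    (Cc W Bm (s (k + c + 1)) (s (k + c)) : Subgroup G) ≤ W (s l) := by
  intro a ha
  have lk := P.lk h mn (k := k) (by omega)
  obtain ⟨h3, h4⟩ := lk.comm h hB ha
  obtain ⟨m, rfl⟩ : ∃ m, l = k + m := ⟨l - k, by omega⟩
  exact P.conv h hB mn (j := k + c + 1) (by omega) (by omega) (hB.ZW _ _ lk.ww h4)
    (hB.ZW _ _ lk.xx h3) m (by omega)

/-- the commutators forwards -/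
theorem Pu.CCf (h : Loc G Γ d) (hB : Su Γ W S Z Bm) {c n : ℕ} {s : ℕ → V} (P : Pu Γ W S Bm c s n)
    (mn : Mu Γ W S c) {k l : ℕ} (hk : k + c ≤ n) (h1 : k ≤ l) (h2 : l ≤ k + c + 1) :
    (Cc W Bm (s k) (s (k + 1)) : Subgroup G) ≤ W (s l) := by
  intro a ha
  have lk := P.lk' h hB mn (k := k) (by omega)
  obtain ⟨h3, h4⟩ := lk.comm h hB ha
  obtain ⟨m, rfl⟩ : ∃ m, l = k + m := ⟨l - k, by omega⟩
  exact P.conv h hB mn (j := k + c + 1) (by omega) (by omega) (hB.ZW _ _ lk.xx h3)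
    (hB.ZW _ _ lk.ww h4) m (by omega)

/-- two links at `x` -/
theorem nc_or (h : Loc G Γ d) (hB : Su Γ W S Z Bm) {x y y' u u' w w' : V}
    (l : Lu Γ W S x y u w) (l' : Lu Γ W S x y' u' w') (hn : ¬ nu W Bm x y y') :
    ¬ (Cc W Bm x y' : Subgroup G) ≤ W y ∨ ¬ (Cc W Bm x y : Subgroup G) ≤ W y' := by
  by_contra hcon
  push Not at hcon
  obtain ⟨h1, h2⟩ := hcon
  have key : ∀ {y u w : V}, Lu Γ W S x y u w → ∀ a ∈ (W x : Subgroup G),
      a ∈ (W y : Subgroup G) → a ∈ (Z x y : Subgroup G) := by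
    intro y u w l a ha ha'
    exact l.cent h hB ha (fun b hb => SW' hB (l.wx hb) ha')
  have hC : ∀ {z a v : G} {y : V}, Γ.Adj x y → a ∈ (Bm x y : Subgroup G) →
      v ∈ (W x : Subgroup G) → a * v * a⁻¹ * v⁻¹ ∈ (Cc W Bm x y : Subgroup G) := by
    intro _ a v y _ ha hv
    have h3 : a * v * a⁻¹ * v⁻¹ = ⁅v, a⁆⁻¹ := by
      rw [commutatorElement_def]
      group
    rw [h3]
    exact Subgroup.inv_mem _ (Subgroup.commutator_mem_commutator hv ha)
  have hV : ∀ {a v : G} {y : V}, Γ.Adj x y → a ∈ (Bm x y : Subgroup G) →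
      v ∈ (W x : Subgroup G) → a * v * a⁻¹ * v⁻¹ ∈ (W x : Subgroup G) := by
    intro a v y hy ha hv
    exact Subgroup.mul_mem _ (nm_W hB x a (Bm_le_st hB hy ha) v hv) (Subgroup.inv_mem _ hv)
  apply hn
  intro s hs t ht v hv
  obtain ⟨α, hα⟩ : ∃ α, α = t * v * t⁻¹ * v⁻¹ := ⟨_, rfl⟩
  obtain ⟨β, hβ⟩ : ∃ β, β = s * v * s⁻¹ * v⁻¹ := ⟨_, rfl⟩
  have hαC : α ∈ (Cc W Bm x y' : Subgroup G) := by
    rw [hα]
    exact hC (z := 1) l'.xx ht hv
  have hβC : β ∈ (Cc W Bm x y : Subgroup G) := by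
    rw [hβ]
    exact hC (z := 1) l.xx hs hv
  have hαV : α ∈ (W x : Subgroup G) := by
    rw [hα]
    exact hV l'.xx ht hv
  have hβV : β ∈ (W x : Subgroup G) := by
    rw [hβ]
    exact hV l.xx hs hv
  have hαZ := key l α hαV (h1 hαC)
  have hβZ := key l' β hβV (h2 hβC)
  have c1 : s * α = α * s := ZB' hB l.xx hαZ hs
  have c2 : t * β = β * t := ZB' hB l'.xx hβZ ht
  have c3 : α * β = β * α := SW' hB (hB.WS x hαV) hβV
  have e1 : t * v * t⁻¹ = α * v := by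
    rw [hα]
    group
  have e2 : s * v * s⁻¹ = β * v := by
    rw [hβ]
    group
  calc s * (t * v * t⁻¹) * s⁻¹ = s * α * v * s⁻¹ := by rw [e1]; group
    _ = α * (s * v * s⁻¹) := by rw [c1]; group
    _ = α * β * v := by rw [e2]; group
    _ = β * (t * v * t⁻¹) := by rw [c3, e1]; group
    _ = β * t * v * t⁻¹ := by group
    _ = t * (β * v) * t⁻¹ := by rw [← c2]; group
    _ = t * (s * v * s⁻¹) * t⁻¹ := by rw [e2]

/-- the length of a link is bounded by the sizes of the groups `Vv` -/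
theorem Pu.bound (h : Loc G Γ d) (hB : Su Γ W S Z Bm) {c : ℕ} {s : ℕ → V} (mn : Mu Γ W S c)
    (P : Pu Γ W S Bm c s (3 * c + 3)) {M : ℕ} (hM : ∀ x, Nat.card (W x : Subgroup G) ≤ M) :
    2 ^ (c + 2) ≤ M * M := by
  classical
  have hfin : ∀ x, Finite (W x : Subgroup G) := fun x =>
    h.fin_le ((hB.WS x).trans (S_le_st hB x))
  have h1 : ∀ k, k < c + 2 →
      ¬ (Cc W Bm (s (k + c + 1)) (s (k + c)) : Subgroup G) ≤ W (s (k + c + 2)) ∨
      ¬ (Cc W Bm (s (k + c + 1)) (s (k + c + 2)) : Subgroup G) ≤ W (s (k + c)) := by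
    intro k hk
    exact nc_or h hB (P.lk' h hB mn (k := k + c + 1) (by omega)) (P.lk h mn (k := k) (by omega))
      (P.nc (k + c) (by omega) (by omega))
  obtain ⟨S1, hS1⟩ : ∃ S : Finset ℕ, ∀ k, k ∈ S ↔ k < c + 2 ∧
      ¬ (Cc W Bm (s (k + c + 1)) (s (k + c)) : Subgroup G) ≤ W (s (k + c + 2)) :=
    ⟨(Finset.range (c + 2)).filter (fun k =>
      ¬ (Cc W Bm (s (k + c + 1)) (s (k + c)) : Subgroup G) ≤ W (s (k + c + 2))),
      fun k => by rw [Finset.mem_filter, Finset.mem_range]⟩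
  obtain ⟨S2, hS2⟩ : ∃ S : Finset ℕ, ∀ k, k ∈ S ↔ k < c + 2 ∧
      ¬ (Cc W Bm (s (k + c + 1)) (s (k + c + 2)) : Subgroup G) ≤ W (s (k + c)) :=
    ⟨(Finset.range (c + 2)).filter (fun k =>
      ¬ (Cc W Bm (s (k + c + 1)) (s (k + c + 2)) : Subgroup G) ≤ W (s (k + c))),
      fun k => by rw [Finset.mem_filter, Finset.mem_range]⟩
  have hcard : c + 2 ≤ S1.card + S2.card := by
    calc c + 2 = (Finset.range (c + 2)).card := (Finset.card_range _).symm
      _ ≤ (S1 ∪ S2).card := by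
        refine Finset.card_le_card ?_
        intro k hk
        rw [Finset.mem_range] at hk
        rw [Finset.mem_union, hS1, hS2]
        rcases h1 k hk with h2 | h2
        · exact Or.inl ⟨hk, h2⟩
        · exact Or.inr ⟨hk, h2⟩
      _ ≤ _ := Finset.card_union_le _ _
  have hb1 : 2 ^ S1.card ≤ M := by
    have h2 : ∀ k, ∃ a : G, k ∈ S1 → a ∈ (Cc W Bm (s (k + c + 1)) (s (k + c)) : Subgroup G) ∧
        a ∉ (W (s (k + c + 2)) : Subgroup G) := by
      intro k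
      by_cases hk : k ∈ S1
      · obtain ⟨a, ha, ha'⟩ := SetLike.not_le_iff_exists.mp ((hS1 k).mp hk).2
        exact ⟨a, fun _ => ⟨ha, ha'⟩⟩
      · exact ⟨1, fun h => absurd h hk⟩
    choose a ha using h2
    refine (chain_min (V0 := W (s (c + 1))) S1 a (fun k => W (s (k + c + 2)))
      ?_ (fun k hk => (ha k hk).2) ?_).trans (hM _)
    · intro k hk
      have h3 := ((hS1 k).mp hk).1
      exact P.CCb h hB mn (k := k) (by omega) (by omega) (by omega) (ha k hk).1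
    · intro k hk k' hk' hlt
      have h3 := ((hS1 k').mp hk').1
      exact P.CCb h hB mn (k := k') (by omega) (by omega) (by omega) (ha k' hk').1
  have hb2 : 2 ^ S2.card ≤ M := by
    have h2 : ∀ k, ∃ a : G, k ∈ S2 → a ∈ (Cc W Bm (s (k + c + 1)) (s (k + c + 2)) : Subgroup G) ∧
        a ∉ (W (s (k + c)) : Subgroup G) := by
      intro k
      by_cases hk : k ∈ S2
      · obtain ⟨a, ha, ha'⟩ := SetLike.not_le_iff_exists.mp ((hS2 k).mp hk).2
        exact ⟨a, fun _ => ⟨ha, ha'⟩⟩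
      · exact ⟨1, fun h => absurd h hk⟩
    choose a ha using h2
    refine (chain_max (V0 := W (s (2 * c + 2))) S2 a (fun k => W (s (k + c)))
      ?_ (fun k hk => (ha k hk).2) ?_).trans (hM _)
    · intro k hk
      have h3 := ((hS2 k).mp hk).1
      exact P.CCf h hB mn (k := k + c + 1) (by omega) (by omega) (by omega) (ha k hk).1
    · intro k hk k' hk' hlt
      have h3 := ((hS2 k).mp hk).1
      exact P.CCf h hB mn (k := k' + c + 1) (by omega) (by omega) (by omega) (ha k' hk').1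
  calc 2 ^ (c + 2) ≤ 2 ^ (S1.card + S2.card) := Nat.pow_le_pow_right (by norm_num) hcard
    _ = 2 ^ S1.card * 2 ^ S2.card := pow_add _ _ _
    _ ≤ M * M := Nat.mul_le_mul hb1 hb2

end path

section fin
variable {V G : Type*} [Group G] [MulAction G V] {Γ : SimpleGraph V} {d : ℕ}
  {W S : V → Subgroup G} {Z Bm : V → V → Subgroup G}

theorem mem_Cu {x : V} {z : G} : z ∈ Cu Γ Z x ↔ ∀ y, Γ.Adj x y → z ∈ Z x y := by
  unfold Cu
  rw [Subgroup.mem_iInf]
  exact ⟨fun h y hy => h ⟨y, hy⟩, fun h y => h y.1 y.2⟩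

theorem Cu_cj (h : Loc G Γ d) (hB : Su Γ W S Z Bm) (g : G) (x : V) :
    Cu Γ Z (g • x) = cj g (Cu Γ Z x) := by
  ext z
  rw [mem_cj, mem_Cu, mem_Cu]
  constructor
  · intro h1 y hy
    have h2 := h1 (g • y) (h.adj g x y hy)
    rwa [hB.Zcj, mem_cj] at h2
  · intro h1 y hy
    have h2 : Γ.Adj x (g⁻¹ • y) := by
      rw [← h.adj_iff g, smul_inv_smul]
      exact hy
    have h3 := h1 _ h2
    rwa [← mem_cj, ← hB.Zcj, smul_inv_smul] at h3

theorem Lu.conj (h : Loc G Γ d) (hB : Su Γ W S Z Bm) {x x' w' w : V} (l : Lu Γ W S x x' w' w) (g : G) :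
    Lu Γ W S (g • x) (g • x') (g • w') (g • w) where
  xx := h.adj g _ _ l.xx
  ww := h.adj g _ _ l.ww
  xw := by
    rw [hB.Wcj, hB.Scj]
    exact cj_mono g l.xw
  wx := by
    rw [hB.Wcj, hB.Scj]
    exact cj_mono g l.wx
  cr := by
    intro hcon
    rw [hB.Wcj, hB.Scj] at hcon
    apply l.cr
    have := cj_mono g⁻¹ hcon
    rwa [cj_cj_inv, cj_cj_inv] at this

/-- the index of `S` in `Bm` -/
theorem S_idx (h : Loc G Γ d) (hB : Su Γ W S Z Bm) {x y : V} (hxy : Γ.Adj x y) :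
    (S x).relIndex (Bm x y) ≤ h65.io d 1 := by
  have hf : Finite (Bm x y : Subgroup G) := h.fin_le (Bm_le_st hB hxy)
  have h1 : (h65.Wb Γ 1 x ⊓ Bm x y : Subgroup G) ≤ S x := by
    rintro g ⟨hg, hg'⟩
    refine hB.BK x y hxy ⟨hg', hg x (by rw [SimpleGraph.dist_self]; omega), fun y hy => ?_⟩
    exact hg y (by rw [SimpleGraph.dist_eq_one_iff_adj.mpr hy])
  calc (S x).relIndex (Bm x y)
      ≤ (h65.Wb Γ 1 x ⊓ Bm x y : Subgroup G).relIndex (Bm x y) :=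
        Subgroup.relIndex_le_of_le_left h1 (rel_ne hf)
    _ = (h65.Wb Γ 1 x : Subgroup G).relIndex (Bm x y) := Subgroup.inf_relIndex_right _ _
    _ ≤ h65.io d 1 := h65.idx h (Bm_le_st hB hxy) 1

/-- the index of `Z` in `W` -/
theorem Z_rel (h : Loc G Γ d) (hB : Su Γ W S Z Bm) {x x' w' w : V} (l : Lu Γ W S x x' w' w) :
    (Z x x' : Subgroup G).relIndex (W x) ≤ h65.io d 1 := by
  have hf : Finite (W x : Subgroup G) := h.fin_le ((hB.WS x).trans (S_le_st hB x))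
  have h1 : (S w ⊓ W x : Subgroup G) ≤ Z x x' := fun a ha =>
    l.cent h hB ha.2 (fun u hu => (SW' hB ha.1 hu).symm)
  have h2 : (W x : Subgroup G) ≤ Bm w w' := l.xw.trans (SB' hB l.ww)
  calc (Z x x' : Subgroup G).relIndex (W x)
      ≤ (S w ⊓ W x : Subgroup G).relIndex (W x) :=
        Subgroup.relIndex_le_of_le_left h1 (rel_ne hf)
    _ = (S w : Subgroup G).relIndex (W x) := Subgroup.inf_relIndex_right _ _
    _ ≤ (S w : Subgroup G).relIndex (Bm w w') :=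
        Subgroup.relIndex_le_of_le_right h2 (rel_ne (h.fin_le (Bm_le_st hB l.ww)))
    _ ≤ h65.io d 1 := S_idx h hB l.ww

theorem Cu_inf (h : Loc G Γ d) (hB : Su Γ W S Z Bm) {x y : V} (hxy : Γ.Adj x y) :
    (Cu Γ Z x ⊓ Cu Γ Z y : Subgroup G) = ⊥ := by
  obtain ⟨σ, h1, h2⟩ := h.inv hxy
  refine P1 h hxy ?_ ?_ h1 h2 ?_
  · intro z hz
    exact W_le_st hB x (hB.ZW x y hxy (mem_Cu.mp hz.1 y hxy))
  · refine nm_st (Nu_le hB x) (Nu_tr h hB x) h hxy ?_ ?_
    · refine Nm.iSup_left (fun y' => nm_of_comm ?_)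
      intro q hq z hz
      exact ZB' hB y'.2 (mem_Cu.mp hz.1 y'.1 y'.2) hq
    · refine ((nm_of_equiv (Cu_cj h hB) x).mono (B_le x y)).inf ?_
      rw [B_comm]
      exact (nm_of_equiv (Cu_cj h hB) y).mono (B_le y x)
  · intro n hn
    have h3 := conj_mem_cj (g := σ) hn.1
    have h4 := conj_mem_cj (g := σ) hn.2
    rw [← Cu_cj h hB, h1] at h3
    rw [← Cu_cj h hB, h2] at h4
    exact ⟨h4, h3⟩

/-- the size of `W` -/
theorem W_card (h : Loc G Γ d) (hB : Su Γ W S Z Bm)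
    (hL : ∀ x x', Γ.Adj x x' → ∃ w' w, Lu Γ W S x x' w' w) {x y : V} (hxy : Γ.Adj x y) :
    Nat.card (W x : Subgroup G) ≤ h65.io d 1 ^ (2 * d + 1) := by
  obtain ⟨q, hq⟩ : ∃ q, q = h65.io d 1 := ⟨_, rfl⟩
  have hp : 0 < q := hq ▸ h65.io_pos d 1
  rw [← hq]
  have hf : ∀ x, Finite (W x : Subgroup G) := fun x =>
    h.fin_le ((hB.WS x).trans (S_le_st hB x))
  have h1 : ∀ x, (Cu Γ Z x : Subgroup G).relIndex (W x) ≤ q ^ d := by
    intro x
    have hfi := h.nfin x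
    have := Fintype.ofFinite {y // Γ.Adj x y}
    calc (Cu Γ Z x : Subgroup G).relIndex (W x)
        ≤ ∏ y : {y // Γ.Adj x y}, (Z x y.1 : Subgroup G).relIndex (W x) :=
          Subgroup.relIndex_iInf_le _
      _ ≤ q ^ (Finset.univ : Finset {y // Γ.Adj x y}).card := by
          refine Finset.prod_le_pow_card _ _ _ ?_
          intro y _
          obtain ⟨w', w, l⟩ := hL x y.1 y.2
          exact hq ▸ Z_rel h hB l
      _ ≤ q ^ d := by
          refine Nat.pow_le_pow_right hp ?_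
          rw [Finset.card_univ, ← Nat.card_eq_fintype_card]
          exact h.ncard x
  have hZf : Finite (Z x y : Subgroup G) := h.fin_le ((hB.ZW x y hxy).trans (W_le_st hB x))
  have h2 : (Cu Γ Z x : Subgroup G).relIndex (Z x y) ≤ q ^ d :=
    (Subgroup.relIndex_le_of_le_right (hB.ZW _ _ hxy) (rel_ne (hf x))).trans (h1 x)
  have h3 : (Cu Γ Z y : Subgroup G).relIndex (Z x y) ≤ q ^ d := by
    rw [hB.Zcm]
    exact (Subgroup.relIndex_le_of_le_right (hB.ZW _ _ hxy.symm) (rel_ne (hf y))).trans (h1 y)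
  have h4 : Nat.card (Z x y : Subgroup G) ≤ q ^ d * q ^ d := by
    rw [← Subgroup.relIndex_bot_left, ← Cu_inf h hB hxy]
    exact Subgroup.relIndex_inf_le.trans (Nat.mul_le_mul h2 h3)
  obtain ⟨w', w, l⟩ := hL x y hxy
  have h5 := Subgroup.relIndex_mul_relIndex ⊥ (Z x y : Subgroup G) (W x) bot_le
    (hB.ZW _ _ hxy)
  rw [Subgroup.relIndex_bot_left, Subgroup.relIndex_bot_left] at h5
  rw [← h5]
  calc _ ≤ (q ^ d * q ^ d) * q := Nat.mul_le_mul h4 (hq ▸ Z_rel h hB l)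
    _ = q ^ (2 * d + 1) := by
      rw [pow_succ, two_mul, pow_add]

/-- the radius -/
def rT (d : ℕ) : ℕ := h65.io d 1 ^ (2 * d + 1) * h65.io d 1 ^ (2 * d + 1)

/-- links of bounded length in all directions -/
theorem links (h : Loc G Γ d) (hB : Su Γ W S Z Bm) {x x' : V} (hx : Γ.Adj x x') :
    ∃ w' w, Lu Γ W S x x' w' w ∧ Γ.dist x w + 1 ≤ rT d := by
  obtain ⟨c, mn, s, P0⟩ := crit h hB hx
  have l0 := P0.lk h mn (le_refl 0)
  have hd0 : Γ.dist (s (0 + c + 1)) (s 0) ≤ c + 1 := by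
    rw [SimpleGraph.dist_comm, show 0 + c + 1 = 0 + (c + 1) by omega]
    exact dist_path h.conn P0.ad 0 (c + 1) (by omega)
  have hL : ∀ x x', Γ.Adj x x' → ∃ w' w, Lu Γ W S x x' w' w ∧ Γ.dist x w ≤ c + 1 := by
    intro x x' hx
    obtain ⟨g, hg1, hg2⟩ := h.arc _ _ x x' l0.xx hx
    refine ⟨g • s (0 + 1), g • s 0, ?_, ?_⟩
    · have l := l0.conj h hB g
      rwa [hg1, hg2] at l
    · rw [← hg1, dist_smul h]
      exact hd0
  have hcard : ∀ v, Nat.card (W v : Subgroup G) ≤ h65.io d 1 ^ (2 * d + 1) := by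
    intro v
    by_cases hv : ∃ v', Γ.Adj v v'
    · obtain ⟨v', hv'⟩ := hv
      refine W_card h hB (fun x x' hx => ?_) hv'
      obtain ⟨w', w, l, _⟩ := hL x x' hx
      exact ⟨w', w, l⟩
    · have h1 : (W v : Subgroup G) = ⊥ := by
        rw [eq_bot_iff]
        exact (hB.WZ v).trans (iSup_le (fun y => absurd ⟨y.1, y.2⟩ hv))
      rw [h1, Subgroup.card_bot]
      exact Nat.one_le_pow _ _ (h65.io_pos d 1)
  obtain ⟨s', P'⟩ := P0.exists h hB mn (3 * c + 3)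
  have h1 : 2 ^ (c + 2) ≤ rT d := P'.bound h hB mn hcard
  have h4 : c + 2 < 2 ^ (c + 2) := Nat.lt_two_pow_self
  obtain ⟨w', w, l, hd⟩ := hL x x' hx
  exact ⟨w', w, l, by omega⟩

/-- elements of `Z x y` which fix two large balls are trivial -/
theorem fin_z (h : Loc G Γ d) (hB : Su Γ W S Z Bm) {x y : V} (hxy : Γ.Adj x y) {r : ℕ}
    (hr : rT d ≤ r) {z : G} (hz : z ∈ (Wr Γ r x y : Subgroup G)) (hzZ : z ∈ Z x y) : z = 1 := by
  have key : ∀ {x y : V}, Γ.Adj x y → z ∈ (Wr Γ r x y : Subgroup G) →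
      z ∈ (W x : Subgroup G) → z ∈ (Cu Γ Z x : Subgroup G) := by
    intro x y hxy hz hzV
    rw [mem_Cu]
    intro x' hx'
    obtain ⟨w', w, l, hd⟩ := links h hB hx'
    refine l.cent h hB hzV ?_
    intro u hu
    refine (SW' hB ?_ hu).symm
    refine hB.BK w w' l.ww ⟨SB' hB l.ww (l.xw hzV), ?_, ?_⟩
    · exact hz w (Or.inl (by omega))
    · intro v hv
      refine hz v (Or.inl ?_)
      have h2 := h.conn.dist_triangle (u := x) (v := w) (w := v)
      rw [SimpleGraph.dist_eq_one_iff_adj.mpr hv] at h2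
      omega
  have h2 : z ∈ (Cu Γ Z x ⊓ Cu Γ Z y : Subgroup G) := by
    constructor
    · exact key hxy hz (hB.ZW _ _ hxy hzZ)
    · refine key hxy.symm ?_ ?_
      · rw [Wr_comm]
        exact hz
      · rw [hB.Zcm] at hzZ
        exact hB.ZW _ _ hxy.symm hzZ
  rwa [Cu_inf h hB hxy, Subgroup.mem_bot] at h2

end fin

end Pool.Agent.Work.MP_6d7bb4.h65u
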