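import Pool.Agent.Work.MP_6d7bb4_h65u.Interface2

set_option autoImplicit false
set_option linter.unusedSectionVars false

/-! # Block ADJ (helper21): the group acts on the maps which commute with the kernel -/

namespace Pool.Agent.Work.MP_6d7bb4.h65u

open MulAction Pool.Agent.Work.MP_6d7bb4.helper94 Pool.Agent.Work.MP_6d7bb4.helper94.Sol

namespace X_ADJ

section monoid

variable {M : Type} [Monoid M]

theorem m1 {a a' R : M} (h : a * a' = 1) (h' : a' * a = 1) (hR : a * R = R * a) :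
    a' * R = R * a' := by
  calc a' * R = a' * (R * a) * a' := by rw [mul_assoc, mul_assoc, h, mul_one]
    _ = R * a' := by rw [← hR, ← mul_assoc, h', one_mul]

theorem m2 {a a' R : M} (h' : a' * a = 1) (hR : a * R * a' = R) : a * R = R * a := by
  calc a * R = (a * R * a') * a := by rw [mul_assoc, h', mul_one]
    _ = R * a := by rw [hR]

theorem m3 {a a' b b' : M} (h : b * b' = 1) (h' : a' * a = 1) (hab : a = b) : a' = b' := by
  calc a' = a' * (b * b') := by rw [h, mul_one]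
    _ = b' := by rw [← hab, ← mul_assoc, h', one_mul]

end monoid

section size

variable {S : Type} [AddCommGroup S] [Finite S]

instance finEnd : Finite (AddMonoid.End S) :=
  Finite.of_injective (fun f : AddMonoid.End S => (f : S → S)) (fun _ _ h => DFunLike.coe_injective h)

theorem size' {p : ℕ} [hp : Fact p.Prime] [Module (ZMod p) S] {n : ℕ}
    (hn : Nat.card S = p ^ n) : Nat.card (AddMonoid.End S) ≤ p ^ n ^ 2 := by
  classical
  have hfin : Module.Finite (ZMod p) S := Module.Finite.of_finite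
  let b := Module.finBasis (ZMod p) S
  have h1 : Nat.card S = p ^ Module.finrank (ZMod p) S := by
    have h2 := Module.natCard_eq_pow_finrank (K := ZMod p) (V := S)
    rwa [Nat.card_zmod] at h2
  have h2 : Module.finrank (ZMod p) S = n :=
    Nat.pow_right_injective hp.out.two_le (h1.symm.trans hn)
  have hinj : Function.Injective (fun (f : AddMonoid.End S) (i : Fin (Module.finrank (ZMod p) S)) =>
      f (b i)) := by
    intro f g hfg
    have h3 : AddMonoidHom.toZModLinearMap p (f : S →+ S) =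
        AddMonoidHom.toZModLinearMap p (g : S →+ S) := by
      refine b.ext fun i => ?_
      exact congrFun hfg i
    refine AddMonoidHom.ext fun s => ?_
    exact congrArg (fun l : S →ₗ[ZMod p] S => l s) h3
  have h4 := Nat.card_le_card_of_injective _ hinj
  rw [Nat.card_fun, hn, Nat.card_fin, h2, ← pow_mul, ← pow_two] at h4
  exact h4

theorem size {p : ℕ} [hp : Fact p.Prime] (hpS : ∀ s : S, p • s = 0) {n : ℕ}
    (hn : Nat.card S = p ^ n) : Nat.card (AddMonoid.End S) ≤ p ^ n ^ 2 := by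
  let inst : Module (ZMod p) S := AddCommGroup.zmodModule hpS
  exact size' hn

end size

section act

variable {X Ω : Type} [Group X] {S : Type} [AddCommGroup S]
  (π : X →* Equiv.Perm Ω) (ρ : X →* AddMonoid.End S)

/-- the maps which commute with the kernel -/
def U : AddSubgroup (AddMonoid.End S) where
  carrier := {f | ∀ k : X, π k = 1 → ρ k * f = f * ρ k}
  zero_mem' := fun k _ => by rw [mul_zero, zero_mul]
  add_mem' := by
    intro f g hf hg k hk
    rw [mul_add, add_mul, hf k hk, hg k hk]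
  neg_mem' := by
    intro f hf k hk
    rw [mul_neg, neg_mul, hf k hk]

theorem mem_U {f : AddMonoid.End S} : f ∈ U π ρ ↔ ∀ k : X, π k = 1 → ρ k * f = f * ρ k := Iff.rfl

theorem rr (x : X) : ρ x * ρ x⁻¹ = 1 := by rw [← map_mul, mul_inv_cancel, map_one]

theorem rr' (x : X) : ρ x⁻¹ * ρ x = 1 := by rw [← map_mul, inv_mul_cancel, map_one]

theorem U_conj (x : X) {f : AddMonoid.End S} (hf : f ∈ U π ρ) : ρ x * f * ρ x⁻¹ ∈ U π ρ := by
  intro k hk
  have h1 : π (x⁻¹ * k * x) = 1 := by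
    rw [map_mul, map_mul, hk, mul_one, map_inv, inv_mul_cancel]
  have h2 := hf _ h1
  have h3 : ρ k * ρ x = ρ x * ρ (x⁻¹ * k * x) := by
    rw [← map_mul, ← map_mul]
    congr 1
    group
  have h4 : ρ (x⁻¹ * k * x) * ρ x⁻¹ = ρ x⁻¹ * ρ k := by
    rw [← map_mul, ← map_mul]
    congr 1
    group
  calc ρ k * (ρ x * f * ρ x⁻¹) = (ρ k * ρ x) * f * ρ x⁻¹ := by simp only [mul_assoc]
    _ = ρ x * (ρ (x⁻¹ * k * x) * f) * ρ x⁻¹ := by rw [h3]; simp only [mul_assoc]
    _ = ρ x * f * (ρ (x⁻¹ * k * x) * ρ x⁻¹) := by rw [h2]; simp only [mul_assoc]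
    _ = ρ x * f * ρ x⁻¹ * ρ k := by rw [h4]; simp only [mul_assoc]

/-- the action by conjugation -/
def α : X →* AddMonoid.End (U π ρ) where
  toFun x :=
    { toFun := fun f => ⟨ρ x * f.1 * ρ x⁻¹, U_conj π ρ x f.2⟩
      map_zero' := Subtype.ext (by
        show ρ x * 0 * ρ x⁻¹ = 0
        rw [mul_zero, zero_mul])
      map_add' := fun f g => Subtype.ext (by
        show ρ x * (f.1 + g.1) * ρ x⁻¹ = ρ x * f.1 * ρ x⁻¹ + ρ x * g.1 * ρ x⁻¹
        rw [mul_add, add_mul]) }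
  map_one' := by
    refine AddMonoidHom.ext fun f => Subtype.ext ?_
    show ρ 1 * f.1 * ρ 1⁻¹ = f.1
    rw [inv_one, map_one, one_mul, mul_one]
  map_mul' := by
    intro x y
    refine AddMonoidHom.ext fun f => Subtype.ext ?_
    show ρ (x * y) * f.1 * ρ (x * y)⁻¹ = ρ x * (ρ y * f.1 * ρ y⁻¹) * ρ x⁻¹
    rw [mul_inv_rev, map_mul, map_mul]
    simp only [mul_assoc]

theorem α_apply (x : X) (f : U π ρ) : (α π ρ x f).1 = ρ x * f.1 * ρ x⁻¹ := rfl

theorem α_ker {k : X} (hk : π k = 1) : α π ρ k = 1 := by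
  refine AddMonoidHom.ext fun f => Subtype.ext ?_
  show ρ k * f.1 * ρ k⁻¹ = f.1
  rw [f.2 k hk, mul_assoc, rr, mul_one]

theorem α_eq {x y : X} (h : π x = π y) : (α π ρ).toHomUnits x = (α π ρ).toHomUnits y := by
  have h1 : (α π ρ).toHomUnits (x * y⁻¹) = 1 := by
    refine Units.ext ?_
    show α π ρ (x * y⁻¹) = 1
    refine α_ker π ρ ?_
    rw [map_mul, map_inv, h, mul_inv_cancel]
  rw [map_mul, map_inv, mul_inv_eq_one] at h1
  exact h1

end act

section comm

variable {X Ω : Type} [Group X] [Finite X] {S : Type} [AddCommGroup S] [Finite S]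
  {π : X →* Equiv.Perm Ω} {ρ : X →* AddMonoid.End S} {p : ℕ} [hp : Fact p.Prime] {Y P : Subgroup X}

/-- the intersection of `P` with the kernel acts trivially -/
theorem triv (hY : ∀ x, π x = 1 → x ∈ Y) (hP : IsOp p Y P) (hpS : ∀ s : S, p • s = 0)
    (hirr : ∀ W : AddSubgroup S, (∀ x : X, ∀ w ∈ W, ρ x w ∈ W) → W = ⊥ ∨ W = ⊤)
    {b : X} (hb : b ∈ P) (hb' : π b = 1) : ρ b = 1 := by
  have hker : Nm (⊤ : Subgroup X) π.ker := by
    intro x _ n hn
    rw [MonoidHom.mem_ker] at hn ⊢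
    rw [map_mul, map_mul, hn, mul_one, map_inv, mul_inv_cancel]
  have hO := nm_O (p := p) hker
  have hM : P ⊓ π.ker ≤ O p π.ker := by
    refine le_O inf_le_right ?_ ?_
    · intro k hk n hn
      exact ⟨hP.nm k (hY k hk) n hn.1, hker k trivial n hn.2⟩
    · exact hP.pg.to_le inf_le_left
  have hpg : IsPGroup p (O p π.ker) := O_spec.1
  refine Ps.irr_act hp.out hpS ρ hirr (O p π.ker) (fun x n hn => hO x trivial n hn) ?_ b
    (hM ⟨hb, hb'⟩)
  intro n hn
  obtain ⟨k, hk⟩ := hpg ⟨n, hn⟩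
  refine ⟨k, ?_⟩
  have h1 : n ^ p ^ k = 1 := congrArg Subtype.val hk
  rw [h1, map_one]

theorem comm0 (hY : ∀ x, π x = 1 → x ∈ Y) (hP : IsOp p Y P) (hpS : ∀ s : S, p • s = 0)
    (hirr : ∀ W : AddSubgroup S, (∀ x : X, ∀ w ∈ W, ρ x w ∈ W) → W = ⊥ ∨ W = ⊤)
    {k b : X} (hk : π k = 1) (hb : b ∈ P) : ρ (k * b) = ρ (b * k) := by
  have h1 : ρ (k * b * k⁻¹ * b⁻¹) = 1 := by
    refine triv hY hP hpS hirr (P.mul_mem (hP.nm k (hY k hk) b hb) (P.inv_mem hb)) ?_
    rw [map_mul, map_mul, map_mul, hk, one_mul, map_inv, hk, inv_one, mul_one, map_inv,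
      mul_inv_cancel]
  have h2 : k * b = (k * b * k⁻¹ * b⁻¹) * (b * k) := by group
  rw [h2, map_mul, h1, one_mul]

theorem comm1 (hY : ∀ x, π x = 1 → x ∈ Y) (hP : IsOp p Y P) (hpS : ∀ s : S, p • s = 0)
    (hirr : ∀ W : AddSubgroup S, (∀ x : X, ∀ w ∈ W, ρ x w ∈ W) → W = ⊥ ∨ W = ⊤)
    {k b : X} (y : X) (hk : π k = 1) (hb : b ∈ P) :
    ρ k * ρ (y * b * y⁻¹) = ρ (y * b * y⁻¹) * ρ k := by
  have h1 : π (y⁻¹ * k * y) = 1 := by
    rw [map_mul, map_mul, hk, mul_one, map_inv, inv_mul_cancel]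
  have h2 := comm0 hY hP hpS hirr h1 hb
  have h3 : k * (y * b * y⁻¹) = y * ((y⁻¹ * k * y) * b) * y⁻¹ := by group
  have h4 : (y * b * y⁻¹) * k = y * (b * (y⁻¹ * k * y)) * y⁻¹ := by group
  rw [← map_mul, ← map_mul, h3, h4, map_mul, map_mul, h2, ← map_mul, ← map_mul]

end comm

end X_ADJ

open X_ADJ in
theorem s_ADJ : Stmt_ADJ := by
  classical
  intro Ω F X _ _ π p hp ω Y P hr hF hY hP S _ _ ρ hpS hirr hb r u hu hur hus
  have hkY : ∀ x, π x = 1 → x ∈ Y := by
    intro x hx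
    rw [hY, hx]
    rfl
  obtain ⟨x0, hx0⟩ : ∃ x, π x = u := by
    rw [← hr] at hu
    exact hu
  refine ⟨U π ρ, inferInstance, inferInstance, (α π ρ).toHomUnits x0, ?_, ?_, ?_, ?_, ?_⟩
  · intro v
    refine Subtype.ext (AddMonoidHom.ext fun s => ?_)
    show ((p • v : U π ρ) : AddMonoid.End S) s = 0
    rw [AddSubgroup.coe_nsmul]
    exact hpS (v.1 s)
  · intro hg
    have hg' : α π ρ x0 = 1 := congrArg Units.val hg
    -- the elements which commute with the conjugates of `P`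
    let N1 : Subgroup X :=
      { carrier := {x | ∀ y : X, ∀ b ∈ P, ρ x * ρ (y * b * y⁻¹) = ρ (y * b * y⁻¹) * ρ x}
        one_mem' := fun y b _ => by rw [map_one, one_mul, mul_one]
        mul_mem' := by
          intro x x' hx hx' y b hb
          rw [map_mul, mul_assoc, hx' y b hb, ← mul_assoc, hx y b hb, mul_assoc]
        inv_mem' := by
          intro x hx y b hb
          exact m1 (rr ρ x) (rr' ρ x) (hx y b hb) }
    have hN1 : ∀ x, x ∈ N1 ↔ ∀ y : X, ∀ b ∈ P,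
        ρ x * ρ (y * b * y⁻¹) = ρ (y * b * y⁻¹) * ρ x := fun x => Iff.rfl
    have hx0N : x0 ∈ N1 := by
      rw [hN1]
      intro y b hb
      have hmem : ρ (y * b * y⁻¹) ∈ U π ρ := fun k hk => comm1 hkY hP hpS hirr y hk hb
      have h1 : ρ x0 * ρ (y * b * y⁻¹) * ρ x0⁻¹ = ρ (y * b * y⁻¹) := by
        have h2 := α_apply π ρ x0 ⟨_, hmem⟩
        rw [hg'] at h2
        exact h2.symm
      exact m2 (rr' ρ x0) h1
    have hN1n : ∀ x : X, ∀ n ∈ N1, x * n * x⁻¹ ∈ N1 := by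
      intro x n hn
      rw [hN1] at hn ⊢
      intro y b hb
      have h1 := hn (x⁻¹ * y) b hb
      have h3 : x * n * x⁻¹ * (y * b * y⁻¹) =
          x * (n * (x⁻¹ * y * b * (x⁻¹ * y)⁻¹)) * x⁻¹ := by group
      have h4 : y * b * y⁻¹ * (x * n * x⁻¹) =
          x * ((x⁻¹ * y * b * (x⁻¹ * y)⁻¹) * n) * x⁻¹ := by group
      rw [← map_mul, ← map_mul] at h1 ⊢
      rw [h3, h4, map_mul, map_mul, h1, ← map_mul, ← map_mul]
    have hNF : N1.map π ≤ F := by
      rw [← hr]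
      rintro _ ⟨n, _, rfl⟩
      exact ⟨n, rfl⟩
    have hNn : ∀ f ∈ F, ∀ n ∈ N1.map π, f * n * f⁻¹ ∈ N1.map π := by
      rw [← hr]
      rintro _ ⟨x, rfl⟩ _ ⟨n, hn, rfl⟩
      exact ⟨x * n * x⁻¹, hN1n x n hn, by rw [map_mul, map_mul, map_inv]⟩
    have hux : u ∈ N1.map π := ⟨x0, hx0N, hx0⟩
    rcases hF (N1.map π) hNF hNn with htr | hsr
    · -- `X = N1 Y`
      have hdec : ∀ x : X, ∃ n ∈ N1, ∃ y ∈ Y, x = n * y := by
        intro x
        obtain ⟨_, ⟨n, hn, rfl⟩, hnω⟩ := htr ω (π x ω)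
        refine ⟨n, hn, n⁻¹ * x, ?_, by group⟩
        rw [hY, map_mul, Equiv.Perm.mul_apply, ← hnω, map_inv]
        exact (π n).symm_apply_apply ω
      let N2 : Subgroup X :=
        { carrier := {x | ∃ b ∈ P, ρ x = ρ b}
          one_mem' := ⟨1, P.one_mem, rfl⟩
          mul_mem' := by
            rintro x x' ⟨b, hb, h⟩ ⟨b', hb', h'⟩
            exact ⟨b * b', P.mul_mem hb hb', by rw [map_mul, map_mul, h, h']⟩
          inv_mem' := by
            rintro x ⟨b, hb, h⟩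
            exact ⟨b⁻¹, P.inv_mem hb, m3 (rr ρ b) (rr' ρ x) h⟩ }
      have hN2n : ∀ x : X, ∀ n ∈ N2, x * n * x⁻¹ ∈ N2 := by
        rintro x m ⟨b, hb, hm⟩
        obtain ⟨n, hn, y, hy, rfl⟩ := hdec x
        refine ⟨y * b * y⁻¹, hP.nm y hy b hb, ?_⟩
        have h1 := (hN1 n).1 hn y b hb
        calc ρ (n * y * m * (n * y)⁻¹) = ρ n * (ρ y * ρ m * ρ y⁻¹) * ρ n⁻¹ := by
              rw [mul_inv_rev, map_mul, map_mul, map_mul, map_mul]
              simp only [mul_assoc]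
          _ = ρ n * ρ (y * b * y⁻¹) * ρ n⁻¹ := by rw [hm, ← map_mul, ← map_mul]
          _ = ρ (y * b * y⁻¹) := by rw [h1, mul_assoc, rr, mul_one]
      obtain ⟨b, hbP, hb1⟩ := hb
      refine hb1 (Ps.irr_act hp.out hpS ρ hirr N2 hN2n ?_ b ⟨b, hbP, rfl⟩)
      rintro m ⟨b', hb', hm⟩
      obtain ⟨k, hk⟩ := hP.pg ⟨b', hb'⟩
      refine ⟨k, ?_⟩
      have h1 : b' ^ p ^ k = 1 := congrArg Subtype.val hk
      rw [map_pow, hm, ← map_pow, h1, map_one]
    · exact hus (N1.map π) hNF hNn hsr hux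
  · rw [← map_pow]
    refine Units.ext ?_
    show α π ρ (x0 ^ r) = 1
    refine α_ker π ρ ?_
    rw [map_pow, hx0, hur]
  · rintro i ⟨f, hf, hfu⟩
    rw [← hr] at hf
    obtain ⟨y, rfl⟩ := hf
    refine ⟨(α π ρ).toHomUnits y, ?_⟩
    rw [← map_mul, ← map_inv, ← map_mul, ← map_pow]
    refine α_eq π ρ ?_
    rw [map_mul, map_mul, map_inv, map_pow, hx0, hfu]
  · intro n hn
    refine le_trans ?_ (size hpS hn)
    exact Nat.card_le_card_of_injective (fun f : U π ρ => f.1) Subtype.val_injective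

end Pool.Agent.Work.MP_6d7bb4.h65u
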