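import Pool.Agent.Work.MP_6d7bb4_h65u.Interface
import Pool.Agent.Work.MP_6d7bb4_helper94.Semi

set_option autoImplicit false

/-! # MP_6d7bb4, block CAU (helper40): condition (A) implies `UniqueOffender` -/

namespace Pool.Agent.Work.MP_6d7bb4.h65u

open MulAction Pool.Agent.Work.MP_6d7bb4.helper94 Pool.Agent.Work.MP_6d7bb4.helper94.Sol

theorem s_CAU : Stmt_CAU := by
  intro Ω F p hp hA X _ _ π hπ ω Y P hY hP S _ _ ρ A hAP hOff
  have hcard : Nat.card (P.map π) ≤ p := by
    refine hA ω (P.map π) ?_ ?_ ?_ (IsPGroup.map hP.pg π)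
    · rintro _ ⟨x, _, rfl⟩
      rw [← hπ]
      exact ⟨x, rfl⟩
    · rintro _ ⟨x, hx, rfl⟩
      exact (hY x).1 (hP.le hx)
    · rintro f hf hfω _ ⟨x, hx, rfl⟩
      rw [← hπ] at hf
      obtain ⟨g, rfl⟩ := hf
      exact ⟨g * x * g⁻¹, hP.nm g ((hY g).2 hfω) x hx, by rw [map_mul, map_mul, map_inv]⟩
  -- elements of `P` in the kernel act trivially
  have c1 : ∀ (S : Type) [AddCommGroup S] [Finite S] (ρ : X →* AddMonoid.End S)
      (A : Subgroup X), Offender p ρ A → ∀ n ∈ P ⊓ π.ker, ρ n = 1 := by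
    intro S _ _ ρ A hOff n hn
    have h1 : P ⊓ π.ker ≤ O p π.ker := by
      refine le_O inf_le_right ?_ (hP.pg.to_le inf_le_left)
      intro b hb n hn
      refine ⟨hP.nm b ((hY b).2 ?_) n hn.1, ?_⟩
      · rw [MonoidHom.mem_ker] at hb
        rw [hb]
        rfl
      · have h2 : π n = 1 := hn.2
        show π (b * n * b⁻¹) = 1
        rw [map_mul, map_mul, map_inv, h2, mul_one, mul_inv_cancel]
    have h2 : Nm (⊤ : Subgroup X) (O p π.ker) := by
      refine nm_O ?_
      intro b _ n hn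
      rw [MonoidHom.mem_ker] at hn ⊢
      rw [map_mul, map_mul, map_inv, hn, mul_one, mul_inv_cancel]
    refine helper94.Ps.irr_act hp.out hOff.ex ρ (fun W hW => hOff.irr W hW) (O p π.ker)
      (fun x n hn => h2 x (Subgroup.mem_top x) n hn) ?_ n (h1 hn)
    intro n hn
    obtain ⟨k, hk⟩ := O_isP (p := p) π.ker ⟨n, hn⟩
    refine ⟨k, ?_⟩
    have h3 : n ^ p ^ k = 1 := congrArg Subtype.val hk
    rw [h3, map_one]
  -- the image of an offender
  have c2 : ∀ (S : Type) [AddCommGroup S] [Finite S] (ρ : X →* AddMonoid.End S)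
      (A : Subgroup X), A ≤ P → Offender p ρ A →
      A.map π = P.map π ∧ Nat.card (A.map π) = p := by
    intro S _ _ ρ A hAP hOff
    have hne : Nat.card (A.map π) ≠ 1 := by
      intro h1
      rw [Subgroup.card_eq_one] at h1
      obtain ⟨a, ha, hna⟩ := hOff.nt
      apply hna
      refine c1 S ρ A hOff a ⟨hAP ha, ?_⟩
      show a ∈ π.ker
      rw [MonoidHom.mem_ker]
      have h2 : π a ∈ A.map π := ⟨a, ha, rfl⟩
      rwa [h1, Subgroup.mem_bot] at h2
    have hfin : Finite (A.map π) :=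
      Finite.of_surjective (π.subgroupMap A) (π.subgroupMap_surjective A)
    have hfinP : Finite (P.map π) :=
      Finite.of_surjective (π.subgroupMap P) (π.subgroupMap_surjective P)
    have hle : A.map π ≤ P.map π := Subgroup.map_mono hAP
    obtain ⟨k, hk⟩ := (IsPGroup.iff_card (p := p)).1
      (IsPGroup.map (hP.pg.to_le hAP) π)
    have hk0 : k ≠ 0 := by
      rintro rfl
      exact hne (by rw [hk, pow_zero])
    have hpk : p ≤ Nat.card (A.map π) := by
      rw [hk]
      exact Nat.le_self_pow hk0 p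
    have hcle : Nat.card (A.map π) ≤ Nat.card (P.map π) :=
      Nat.card_le_card_of_injective _ (Subgroup.inclusion_injective hle)
    refine ⟨Subgroup.eq_of_le_of_card_ge hle (hcard.trans hpk), ?_⟩
    omega
  obtain ⟨h1, h2⟩ := c2 S ρ A hAP hOff
  refine ⟨?_, ?_, ?_⟩
  · have h3 : ρ.ker.relIndex A ≤ p := by
      rw [← h2, ← Subgroup.relIndex_ker]
      have h4 : A ⊓ π.ker ≤ ρ.ker := by
        rintro a ⟨ha1, ha2⟩
        rw [MonoidHom.mem_ker]
        exact c1 S ρ A hOff a ⟨hAP ha1, ha2⟩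
      have h5 := Subgroup.relIndex_dvd_of_le_left A h4
      rw [Subgroup.inf_relIndex_left] at h5
      refine Nat.le_of_dvd ?_ h5
      rw [Subgroup.relIndex_ker, h2]
      exact hp.out.pos
    refine h3.trans ?_
    obtain ⟨a, ha, hna⟩ := hOff.nt
    obtain ⟨s, hs⟩ : ∃ s, ρ a s ≠ s := by
      by_contra hc
      push Not at hc
      exact hna (AddMonoidHom.ext hc)
    have h4 : (QuotientAddGroup.mk s : S ⧸ FixedBy ρ A) ≠ 0 := by
      intro h0
      rw [QuotientAddGroup.eq_zero_iff] at h0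
      exact hs (h0 a ha)
    have h5 : p • (QuotientAddGroup.mk s : S ⧸ FixedBy ρ A) = 0 := by
      rw [← QuotientAddGroup.mk_nsmul, hOff.ex s]
      rfl
    have h6 := addOrderOf_eq_prime h5 h4
    have h7 : p ∣ Nat.card (S ⧸ FixedBy ρ A) := by
      rw [← h6]
      exact addOrderOf_dvd_natCard _
    exact Nat.le_of_dvd Nat.card_pos h7
  · intro b hb _
    rw [h1]
    exact ⟨b, hb, rfl⟩
  · intro S' _ _ ρ' A' hA' hOff'
    rw [h1, (c2 S' ρ' A' hA' hOff').1]

end Pool.Agent.Work.MP_6d7bb4.h65u
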