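import Pool.Agent.Work.MP_6d7bb4_h65u.Interface2

set_option autoImplicit false
set_option linter.unusedSectionVars false

/-! # MP_6d7bb4, block CDU: condition (D) excludes offenders (helper81) -/

namespace Pool.Agent.Work.MP_6d7bb4.h65u

open MulAction Pool.Agent.Work.MP_6d7bb4.helper94 Pool.Agent.Work.MP_6d7bb4.helper94.Sol

namespace X_CDU

theorem cj_map {X Q : Type} [Group X] [Group Q] (π : X →* Q) (x : X) (A : Subgroup X) :
    cj (π x) (A.map π) = (cj x A).map π := by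
  ext q
  rw [mem_cj, Subgroup.mem_map, Subgroup.mem_map]
  constructor
  · rintro ⟨a, ha, h⟩
    refine ⟨x * a * x⁻¹, conj_mem_cj ha, ?_⟩
    rw [map_mul, map_mul, map_inv, h]
    group
  · rintro ⟨y, hy, rfl⟩
    rw [mem_cj] at hy
    refine ⟨x⁻¹ * y * x, hy, ?_⟩
    rw [map_mul, map_mul, map_inv]

theorem card_pow (p : ℕ) [Fact p.Prime] (S : Type) [AddCommGroup S] [Finite S]
    (h : ∀ s : S, p • s = 0) : ∃ n : ℕ, Nat.card S = p ^ n := by
  let _i : Module (ZMod p) S := AddCommGroup.zmodModule (n := p) h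
  let _j : Fintype S := Fintype.ofFinite S
  refine ⟨Module.finrank (ZMod p) S, ?_⟩
  have h1 := Module.card_eq_pow_finrank (K := ZMod p) (V := S)
  rw [ZMod.card] at h1
  rw [Nat.card_eq_fintype_card]
  exact h1

end X_CDU

open X_CDU in
theorem s_CDU (hGRD : Stmt_GRD) (hEIG : Stmt_EIG) (hGNL : Stmt_GNL) (hADJ : Stmt_ADJ) :
    Stmt_CDU := by
  intro Ω F p _ hF hD X _ _ π hπ ω Y P hY hP S _ _ ρ A hAP hOff
  exfalso
  obtain ⟨c, r, u, hr, hrp, huF, hur, husr, hc, hlt⟩ := hD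
  have : Fact r.Prime := ⟨hr⟩
  have hp1 : 1 < p := (Fact.out : p.Prime).one_lt
  have hFfin : Finite F := by
    rw [← hπ]
    exact Set.finite_range π
  have hkerY : π.ker ≤ Y := by
    intro x hx
    rw [hY, MonoidHom.mem_ker.mp hx]
    rfl
  have hne : A.map π ≠ ⊥ := by
    intro hbot
    have h1 := hGNL X (Equiv.Perm Ω) π p Y P A hkerY hP hAP S ρ hOff 0 Fin.elim0 (by
      intro x a ha
      have h2 : π a = 1 := by
        have h3 : π a ∈ A.map π := Subgroup.mem_map_of_mem π ha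
        rwa [hbot, Subgroup.mem_bot] at h3
      rw [map_mul, map_mul, h2, mul_one, map_inv, mul_inv_cancel]
      exact Subgroup.one_mem _)
    rw [pow_zero] at h1
    obtain ⟨a, _, hne⟩ := hOff.nt
    apply hne
    have h2 : Subsingleton S := Finite.card_le_one_iff_subsingleton.mp h1
    ext s
    exact Subsingleton.elim _ _
  have hcA : Nat.card (A.map π) ≤ p ^ c := by
    refine hc ω (P.map π) (A.map π) ?_ ?_ ?_ ?_ (Subgroup.map_mono hAP) ?_ ?_
    · rw [← hπ]
      exact Subgroup.map_le_range π P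
    · rintro _ ⟨b, hb, rfl⟩
      exact (hY b).mp (hP.le hb)
    · intro f hf hfω n hn
      obtain ⟨b, hb, rfl⟩ := hn
      rw [← hπ] at hf
      obtain ⟨x, rfl⟩ := hf
      have hx : x ∈ Y := (hY x).mpr hfω
      refine ⟨x * b * x⁻¹, hP.nm x hx b hb, ?_⟩
      rw [map_mul, map_mul, map_inv]
    · exact hP.pg.map π
    · rintro _ ⟨a, ha, rfl⟩ _ ⟨b, hb, rfl⟩
      rw [← map_mul, hOff.ab a ha b hb, map_mul]
    · rintro _ ⟨a, ha, rfl⟩
      rw [← map_pow, hOff.pw a ha, map_one]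
  have hAF : A.map π ≤ F := by
    rw [← hπ]
    exact Subgroup.map_le_range π A
  obtain ⟨g, hgF, hg⟩ := hGRD (Equiv.Perm Ω) F (A.map π) hFfin hAF hne
  have hx : ∀ i, ∃ x : X, π x = g i := by
    intro i
    have h1 := hgF i
    rw [← hπ] at h1
    exact h1
  choose x hx using hx
  have hcj : ∀ i, cj (g i) (A.map π) = (cj (x i) A).map π := by
    intro i
    rw [← hx i, cj_map]
  have hS : Nat.card S ≤ Nat.card (A.map π) ^ Nat.log 2 (Nat.card F) := by
    refine hGNL X (Equiv.Perm Ω) π p Y P A hkerY hP hAP S ρ hOff _ x ?_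
    intro y a ha
    have hyF : π y ∈ F := by
      rw [← hπ]
      exact ⟨y, rfl⟩
    have h1 := hg (π y) hyF (π a) (Subgroup.mem_map_of_mem π ha)
    simp only [hcj] at h1
    rwa [map_mul, map_mul, map_inv]
  obtain ⟨n, hn⟩ := card_pow p S hOff.ex
  have hnm : n ≤ c * Nat.log 2 (Nat.card F) := by
    have h1 : p ^ n ≤ p ^ (c * Nat.log 2 (Nat.card F)) := by
      rw [← hn, pow_mul]
      exact hS.trans (Nat.pow_le_pow_left hcA _)
    exact (Nat.pow_le_pow_iff_right hp1).mp h1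
  obtain ⟨b, hbA, hb1⟩ := hOff.nt
  obtain ⟨U, iU, iU', gU, hU, hg1, hgr, hgi, hUc⟩ := hADJ Ω F X π p ω Y P hπ hF hY hP S ρ hOff.ex
    hOff.irr ⟨b, hAP hbA, hb1⟩ r u huF hur husr
  have hE := hEIG p r hrp U hU gU hg1 hgr
  have hsub : Subgroup.closure ({i : (ZMod r)ˣ | (i : ZMod r) = (p : ZMod r)} ∪
        {i : (ZMod r)ˣ | ∃ f ∈ F, f * u * f⁻¹ = u ^ (i : ZMod r).val}) ≤
      Subgroup.closure ({i : (ZMod r)ˣ | (i : ZMod r) = (p : ZMod r)} ∪
        {i : (ZMod r)ˣ | ∃ h : (AddMonoid.End U)ˣ, h * gU * h⁻¹ = gU ^ (i : ZMod r).val}) :=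
    Subgroup.closure_mono (Set.union_subset_union_right _ (fun i hi => hgi _ hi))
  have h2 := Subgroup.card_le_of_le hsub
  have h3 := (Nat.pow_le_pow_iff_right hp1).mp (hE.trans (hUc n hn))
  have h4 : n ^ 2 ≤ (c * Nat.log 2 (Nat.card F)) ^ 2 := Nat.pow_le_pow_left hnm 2
  omega

end Pool.Agent.Work.MP_6d7bb4.h65u
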