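import Pool.Agent.Work.MP_6d7bb4_h65u.Interface

/-! # MP_6d7bb4: block CFG (composition factors, in group terms), helper79 -/

set_option autoImplicit false
set_option linter.unusedSectionVars false

namespace Pool.Agent.Work.MP_6d7bb4.h65u

open MulAction Pool.Agent.Work.MP_6d7bb4.helper94 Pool.Agent.Work.MP_6d7bb4.helper94.Sol

theorem s_CFG (hCFI : Stmt_CFI) : Stmt_CFG := by
  intro G _ p _ X V P hXf hVf hn hEl hPX hOff
  have hab : ∀ u ∈ V, ∀ v ∈ V, u * v = v * u := hEl.cm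
  have hexp : ∀ v ∈ V, v ^ p = 1 := hEl.ex
  obtain ⟨W, iW, e, φ, he, hφ⟩ := model hn hab
  have hWf : Finite W := Finite.of_equiv V e
  have he1 : e 1 = 0 := by
    have h1 := he 1 1
    rw [mul_one] at h1
    exact left_eq_add.mp h1
  have hep : ∀ (v : V) (n : ℕ), e (v ^ n) = n • e v := by
    intro v n
    induction n with
    | zero => rw [pow_zero, zero_smul, he1]
    | succ n ih => rw [pow_succ, he, ih, succ_nsmul]
  have hpW : ∀ w : W, p • w = 0 := by
    intro w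
    obtain ⟨v, rfl⟩ := e.surjective w
    rw [← hep]
    have : v ^ p = 1 := Subtype.ext (hexp v.1 v.2)
    rw [this, he1]
  -- trivial action
  have hφ1 : ∀ x : X, φ x = 1 ↔ ∀ v ∈ V, x.1 * v = v * x.1 := by
    intro x
    constructor
    · intro h v hv
      have h1 := hφ x ⟨v, hv⟩
      rw [h] at h1
      have h2 : e ⟨v, hv⟩ = e ⟨x.1 * v * x.1⁻¹, hn x.1 x.2 v hv⟩ := h1
      have h3 := congrArg Subtype.val (e.injective h2)
      have h4 : v = x.1 * v * x.1⁻¹ := h3
      exact (mul_inv_eq_iff_eq_mul.mp h4.symm)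
    · intro h
      refine AddMonoidHom.ext (fun w => ?_)
      obtain ⟨v, rfl⟩ := e.surjective w
      show φ x (e v) = e v
      rw [hφ]
      congr 1
      apply Subtype.ext
      show x.1 * v.1 * x.1⁻¹ = v.1
      rw [h v.1 v.2, mul_inv_cancel_right]
  obtain ⟨R1, hR1n, hR1p, hR1m, hR1A⟩ := hCFI X p (P.subgroupOf X) W φ hpW hOff
  -- the subgroup of `G`
  obtain ⟨R, hR⟩ : ∃ R : Subgroup G, R = R1.map X.subtype := ⟨_, rfl⟩
  have hRm : ∀ x : X, x.1 ∈ R ↔ x ∈ R1 := by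
    intro x
    rw [hR]
    constructor
    · rintro ⟨y, hy, hyx⟩
      have : y = x := Subtype.ext hyx
      rw [← this]
      exact hy
    · intro h
      exact ⟨x, h, rfl⟩
  have hRX : R ≤ X := by
    rw [hR]
    rintro _ ⟨y, _, rfl⟩
    exact y.2
  have hIsR : IsR p X V R := by
    refine ⟨hRX, ?_, ?_, ?_⟩
    · intro x hx g hg
      exact (hRm (⟨x, hx⟩ * ⟨g, hRX hg⟩ * ⟨x, hx⟩⁻¹)).mpr
        (hR1n ⟨x, hx⟩ ⟨g, hRX hg⟩ ((hRm ⟨g, hRX hg⟩).mp hg))
    · intro g hg
      obtain ⟨k, hk⟩ := hR1p ⟨g, hRX hg⟩ ((hRm ⟨g, hRX hg⟩).mp hg)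
      exact ⟨k, fun v hv => (hφ1 _).mp hk v hv⟩
    · intro M hM hMn hMp g hg
      refine (hRm ⟨g, hM hg⟩).mpr ?_
      refine hR1m (M.subgroupOf X) ?_ ?_ (by
        rw [Subgroup.mem_subgroupOf]
        exact hg)
      · intro x n hn'
        rw [Subgroup.mem_subgroupOf] at hn' ⊢
        exact hMn x.1 x.2 n.1 hn'
      · intro n hn'
        rw [Subgroup.mem_subgroupOf] at hn'
        obtain ⟨k, hk⟩ := hMp n.1 hn'
        exact ⟨k, (hφ1 _).mpr hk⟩
  refine ⟨R, hIsR, fun A hAP hAE => ?_⟩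
  have hA : A ≤ X := hAP.trans hPX
  obtain ⟨A1, hA1⟩ : ∃ A1 : Subgroup X, A1 = A.subgroupOf X := ⟨_, rfl⟩
  have hA1m : ∀ x : X, x ∈ A1 ↔ x.1 ∈ A := by
    intro x
    rw [hA1, Subgroup.mem_subgroupOf]
  have hcA : Nat.card A1 = Nat.card A := by
    rw [hA1]
    exact Nat.card_congr (Subgroup.subgroupOfEquivOfLe hA).toEquiv
  obtain ⟨h1, h2⟩ := hR1A A1
    (fun x hx => Subgroup.mem_subgroupOf.mpr (hAP ((hA1m x).mp hx)))
    (fun a ha b hb => Subtype.ext (hAE.cm a.1 ((hA1m a).mp ha) b.1 ((hA1m b).mp hb)))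
    (fun a ha => Subtype.ext (hAE.ex a.1 ((hA1m a).mp ha)))
  -- fixed points
  have hmem : ∀ v : V, e v ∈ FixedBy φ A1 ↔ v.1 ∈ Cw V A := by
    intro v
    rw [mem_FixedBy, mem_Cw]
    constructor
    · intro h
      refine ⟨v.2, fun a ha => ?_⟩
      have h4 := h ⟨a, hA ha⟩ ((hA1m _).mpr ha)
      rw [hφ] at h4
      have h5 := congrArg Subtype.val (e.injective h4)
      exact mul_inv_eq_iff_eq_mul.mp h5
    · rintro ⟨_, h⟩ x hx
      rw [hφ]
      congr 1
      apply Subtype.ext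
      show x.1 * v.1 * x.1⁻¹ = v.1
      rw [h x.1 ((hA1m x).mp hx), mul_inv_cancel_right]
  have hfix : Nat.card (FixedBy φ A1) = Nat.card (Cw V A) := by
    refine Nat.card_congr
      { toFun := fun w => ⟨(e.symm w.1).1, by
          rw [← hmem, e.apply_symm_apply]
          exact w.2⟩
        invFun := fun v => ⟨e ⟨v.1, (mem_Cw.mp v.2).1⟩, by
          rw [hmem]
          exact v.2⟩
        left_inv := ?_
        right_inv := ?_ }
    · intro w
      apply Subtype.ext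
      show e ⟨(e.symm w.1).1, _⟩ = w.1
      rw [Subtype.coe_eta, e.apply_symm_apply]
    · intro v
      apply Subtype.ext
      show (e.symm (e ⟨v.1, _⟩)).1 = v.1
      rw [e.symm_apply_apply]
  have hidx : Nat.card (Cw V A) * (FixedBy φ A1).index = Nat.card V := by
    rw [← hfix, AddSubgroup.card_mul_index]
    exact (Nat.card_congr e).symm
  -- the relative index
  have hcR : Nat.card (R1.subgroupOf A1) = Nat.card (A ⊓ R : Subgroup G) := by
    refine Nat.card_congr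
      { toFun := fun x => ⟨x.1.1.1, (hA1m _).mp x.1.2,
          (hRm _).mpr (Subgroup.mem_subgroupOf.mp x.2)⟩
        invFun := fun g => ⟨⟨⟨g.1, hA g.2.1⟩, (hA1m _).mpr g.2.1⟩,
          Subgroup.mem_subgroupOf.mpr ((hRm ⟨g.1, hA g.2.1⟩).mp g.2.2)⟩
        left_inv := fun _ => rfl
        right_inv := fun _ => rfl }
  have hrel : Nat.card (A ⊓ R : Subgroup G) * R1.relIndex A1 = Nat.card A := by
    rw [← hcR, ← hcA]
    exact Subgroup.card_mul_index (R1.subgroupOf A1)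
  have hCf : Finite (Cw V A) :=
    Finite.of_injective _ (Subgroup.inclusion_injective
      (show Cw V A ≤ V from fun v hv => (mem_Cw.mp hv).1))
  have hMf : Finite (A ⊓ R : Subgroup G) :=
    Finite.of_injective _ (Subgroup.inclusion_injective (inf_le_left.trans hA))
  have hc : 0 < Nat.card (Cw V A) := Nat.card_pos
  have hm : 0 < Nat.card (A ⊓ R : Subgroup G) := Nat.card_pos
  rw [← hA1]
  constructor
  · rw [← hrel, ← hidx]
    calc Nat.card (A ⊓ R : Subgroup G) * R1.relIndex A1 * Nat.card (Cw V A)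
        = R1.relIndex A1 * (Nat.card (A ⊓ R : Subgroup G) * Nat.card (Cw V A)) := by ring
      _ ≤ (FixedBy φ A1).index * (Nat.card (A ⊓ R : Subgroup G) * Nat.card (Cw V A)) :=
        Nat.mul_le_mul_right _ h1
      _ = _ := by ring
  · intro hAR hle
    rw [← hrel, ← hidx] at hle
    have h3 : (FixedBy φ A1).index ≤ R1.relIndex A1 := by
      refine Nat.le_of_mul_le_mul_right ?_ (Nat.mul_pos hm hc)
      calc (FixedBy φ A1).index * (Nat.card (A ⊓ R : Subgroup G) * Nat.card (Cw V A))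
          = Nat.card (Cw V A) * (FixedBy φ A1).index * Nat.card (A ⊓ R : Subgroup G) := by ring
        _ ≤ Nat.card (A ⊓ R : Subgroup G) * R1.relIndex A1 * Nat.card (Cw V A) := hle
        _ = _ := by ring
    obtain ⟨S, iS, fS, ρ, hρ1, hρ2⟩ := h2 (fun h => hAR (fun a ha =>
      (hRm ⟨a, hA ha⟩).mpr (h ((hA1m ⟨a, hA ha⟩).mpr ha)))) h3
    refine ⟨S, iS, fS, ρ, hρ1, fun b hb => hρ2 b (fun w hw => ?_)⟩
    obtain ⟨v, rfl⟩ := e.surjective w
    rw [hmem] at hw
    rw [hφ]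
    congr 1
    apply Subtype.ext
    show b.1 * v.1 * b.1⁻¹ = v.1
    rw [hb v.1 hw, mul_inv_cancel_right]

end Pool.Agent.Work.MP_6d7bb4.h65u
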