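import Pool.Agent.Work.MP_6d7bb4_h65u.Interface

/-! # MP_6d7bb4_h65u, block CFI: composition factors (typed by helper10) -/

set_option autoImplicit false
set_option linter.unusedSectionVars false

namespace Pool.Agent.Work.MP_6d7bb4.h65u

open MulAction Pool.Agent.Work.MP_6d7bb4.helper94 Pool.Agent.Work.MP_6d7bb4.helper94.Sol

namespace X_CFI

open Pool.Agent.Work.MP_6d7bb4.helper94.Ps

variable {X : Type} [Group X]

theorem ipos {V : Type} [AddCommGroup V] [Finite V] (H : AddSubgroup V) : 0 < H.index :=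
  Nat.pos_of_ne_zero AddSubgroup.index_ne_zero_of_finite

theorem rpos [Finite X] (H K : Subgroup X) : 0 < H.relIndex K := by
  unfold Subgroup.relIndex
  exact Nat.pos_of_ne_zero Subgroup.index_ne_zero_of_finite

theorem anti {V : Type} [AddCommGroup V] [Finite V] {H K : AddSubgroup V} (h : H ≤ K) :
    K.index ≤ H.index :=
  Nat.le_of_dvd (ipos H) (AddSubgroup.index_dvd_of_le h)

theorem eq_of_index {V : Type} [AddCommGroup V] [Finite V] {H K : AddSubgroup V} (h : H ≤ K)
    (hi : H.index ≤ K.index) : H = K := by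
  refine AddSubgroup.eq_of_le_of_card_ge h ?_
  have h1 := AddSubgroup.card_mul_index H
  have h2 := AddSubgroup.card_mul_index K
  have h3 : Nat.card K * H.index ≤ Nat.card H * H.index := by
    rw [h1, ← h2]
    exact Nat.mul_le_mul_left _ hi
  exact Nat.le_of_mul_le_mul_right h3 (ipos H)

theorem fixed_mono {V : Type} [AddCommGroup V] (φ : X →* AddMonoid.End V) {A B : Subgroup X}
    (h : A ≤ B) : FixedBy φ B ≤ FixedBy φ A := fun _ hv a ha => hv a (h ha)

/-- (a) the index of the fixed points is multiplicative -/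
theorem index_mul {V : Type} [AddCommGroup V] [Finite V] (φ : X →* AddMonoid.End V)
    {W : AddSubgroup V} (hWi : Inv φ W) (A : Subgroup X) :
    ∃ I : AddSubgroup (V ⧸ W), I ≤ FixedBy (qa hWi) A ∧
      (∀ y ∈ I, ∃ v ∈ FixedBy φ A, (QuotientAddGroup.mk v : V ⧸ W) = y) ∧
      (FixedBy φ A).index = (FixedBy (ra hWi) A).index * I.index := by
  obtain ⟨f, hf⟩ : ∃ f : FixedBy φ A →+ V ⧸ W, ∀ v, f v = QuotientAddGroup.mk v.1 :=
    ⟨(QuotientAddGroup.mk' W).comp (FixedBy φ A).subtype, fun v => rfl⟩
  refine ⟨f.range, ?_, ?_, ?_⟩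
  · rintro _ ⟨v, rfl⟩ a ha
    rw [hf, qa_mk, v.2 a ha]
  · rintro _ ⟨v, rfl⟩
    exact ⟨v.1, v.2, (hf v).symm⟩
  · have h1 : Nat.card f.ker = Nat.card (FixedBy (ra hWi) A) := by
      refine Nat.card_congr ⟨fun v => ⟨⟨v.1.1, ?_⟩, ?_⟩, fun w => ⟨⟨w.1.1, ?_⟩, ?_⟩, ?_, ?_⟩
      · have h := (AddMonoidHom.mem_ker).mp v.2
        rw [hf, QuotientAddGroup.eq_zero_iff] at h
        exact h
      · intro a ha
        exact Subtype.ext (v.1.2 a ha)
      · intro a ha
        exact congrArg Subtype.val (w.2 a ha)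
      · rw [AddMonoidHom.mem_ker, hf, QuotientAddGroup.eq_zero_iff]
        exact w.1.2
      · intro v
        rfl
      · intro w
        rfl
    have h2 : Nat.card f.ker * Nat.card f.range = Nat.card (FixedBy φ A) := by
      rw [← AddSubgroup.index_ker f]
      exact AddSubgroup.card_mul_index f.ker
    have h3 := AddSubgroup.card_mul_index (FixedBy φ A)
    have h4 := AddSubgroup.card_mul_index (FixedBy (ra hWi) A)
    have h5 := AddSubgroup.card_mul_index f.range
    have h6 : Nat.card V = Nat.card (V ⧸ W) * Nat.card W :=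
      AddSubgroup.card_eq_card_quotient_mul_card_addSubgroup W
    have hpos : 0 < Nat.card (FixedBy φ A) := Nat.card_pos
    refine Nat.eq_of_mul_eq_mul_left hpos ?_
    rw [h3, h6, ← h5, ← h4, ← h2, h1]
    ring

theorem arith {a1 a2 i2 w1 : ℕ} (h1 : a1 ≤ i2) (h2 : a2 ≤ w1) (p1 : 0 < a1) (p2 : 0 < a2)
    (h : w1 * i2 ≤ a1 * a2) : i2 = a1 ∧ w1 = a2 := by
  constructor
  · refine le_antisymm ?_ h1
    by_contra hc
    push Not at hc
    have h3 : a1 * a2 < i2 * a2 := Nat.mul_lt_mul_of_pos_right hc p2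
    have h4 : i2 * a2 ≤ i2 * w1 := Nat.mul_le_mul_left _ h2
    rw [mul_comm w1] at h
    omega
  · refine le_antisymm ?_ h2
    by_contra hc
    push Not at hc
    have h3 : a1 * a2 < a1 * w1 := Nat.mul_lt_mul_of_pos_left hc p1
    have h4 : a1 * w1 ≤ i2 * w1 := Nat.mul_le_mul_right _ h1
    rw [mul_comm w1] at h
    omega

theorem main [Finite X] {p : ℕ} (hp : p.Prime) (P : Subgroup X)
    (hyp : ∀ (S : Type) [AddCommGroup S] [Finite S] (ρ : X →* AddMonoid.End S) (A : Subgroup X),
      A ≤ P → Offender p ρ A → ρ.ker.relIndex A ≤ (FixedBy ρ A).index) :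
    ∀ n : ℕ, ∀ (V : Type) [AddCommGroup V] [Finite V] (φ : X →* AddMonoid.End V),
    Nat.card V ≤ n → (∀ v : V, p • v = 0) →
    ∃ R : Subgroup X, (∀ x, ∀ n ∈ R, x * n * x⁻¹ ∈ R) ∧ (∀ n ∈ R, ∃ k : ℕ, φ (n ^ p ^ k) = 1) ∧
    (∀ N : Subgroup X, (∀ x, ∀ n ∈ N, x * n * x⁻¹ ∈ N) →
      (∀ n ∈ N, ∃ k : ℕ, φ (n ^ p ^ k) = 1) → N ≤ R) ∧
    ∀ A : Subgroup X, A ≤ P → (∀ a ∈ A, ∀ b ∈ A, a * b = b * a) → (∀ a ∈ A, a ^ p = 1) →
      R.relIndex A ≤ (FixedBy φ A).index ∧
      (¬ A ≤ R → (FixedBy φ A).index ≤ R.relIndex A →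
        ∃ (S : Type) (_ : AddCommGroup S) (_ : Finite S) (ρ : X →* AddMonoid.End S),
          Offender p ρ A ∧ ∀ b : X, (∀ v ∈ FixedBy φ A, φ b v = v) →
            ∀ s ∈ FixedBy ρ A, ρ b s = s) := by
  intro n
  induction n with
  | zero =>
    intro V _ _ φ h
    have := Nat.card_pos (α := V)
    omega
  | succ n ih =>
    intro V _ _ φ hV hpV
    rcases subsingleton_or_nontrivial V with hs | hne
    · refine ⟨⊤, fun x n _ => Subgroup.mem_top _, ?_, fun N _ _ => le_top, ?_⟩
      · intro x _
        refine ⟨0, AddMonoidHom.ext (fun v => ?_)⟩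
        exact Subsingleton.elim _ _
      · intro A _ _ _
        refine ⟨?_, fun h => absurd le_top h⟩
        rw [Subgroup.relIndex_top_left]
        exact ipos _
    · have hfin : {W : AddSubgroup V | Inv φ W ∧ W ≠ ⊤}.Finite := Set.toFinite _
      obtain ⟨W, hW⟩ := hfin.exists_maximal ⟨⊥, inv_bot, bot_ne_top⟩
      obtain ⟨⟨hWi, hWne⟩, hmax⟩ := hW
      have hcardW : Nat.card W < Nat.card V := by
        refine lt_of_le_of_ne (AddSubgroup.card_le_card_addGroup W) ?_
        intro h
        exact hWne (AddSubgroup.eq_top_of_card_eq W h)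
      have hpW : ∀ w : W, p • w = 0 := by
        intro w
        apply Subtype.ext
        rw [AddSubgroup.coe_nsmul]
        exact hpV w.1
      have hpQ : ∀ w : V ⧸ W, p • w = 0 := by
        intro w
        obtain ⟨v, rfl⟩ := QuotientAddGroup.mk_surjective w
        rw [← QuotientAddGroup.mk_nsmul, hpV v]
        rfl
      obtain ⟨RW, hn, hk, hmx, hA⟩ := ih W (ra hWi) (by omega) hpW
      have hirr : ∀ W' : AddSubgroup (V ⧸ W), Inv (qa hWi) W' → W' = ⊥ ∨ W' = ⊤ := by
        intro W' hW'
        obtain ⟨W3, hW3⟩ : ∃ W3 : AddSubgroup V, ∀ v, v ∈ W3 ↔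
            (QuotientAddGroup.mk v : V ⧸ W) ∈ W' :=
          ⟨W'.comap (QuotientAddGroup.mk' W), fun v => Iff.rfl⟩
        have hle : W ≤ W3 := by
          intro v hv
          rw [hW3, (QuotientAddGroup.eq_zero_iff v).mpr hv]
          exact W'.zero_mem
        have hi3 : Inv φ W3 := by
          intro x v hv
          rw [hW3] at hv ⊢
          exact hW' x _ hv
        by_cases h3 : W3 = ⊤
        · right
          rw [eq_top_iff]
          intro y _
          obtain ⟨v, rfl⟩ := QuotientAddGroup.mk_surjective y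
          rw [← hW3, h3]
          exact AddSubgroup.mem_top v
        · left
          have h4 := hmax ⟨hi3, h3⟩ hle
          rw [AddSubgroup.eq_bot_iff_forall]
          intro y hy
          obtain ⟨v, rfl⟩ := QuotientAddGroup.mk_surjective y
          rw [QuotientAddGroup.eq_zero_iff]
          exact h4 ((hW3 v).mpr hy)
      -- the action on `W`
      have hr1 : ∀ x, φ x = 1 → ra hWi x = 1 := by
        intro x hx
        refine AddMonoidHom.ext (fun w => Subtype.ext ?_)
        show φ x w.1 = w.1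
        rw [hx]
        rfl
      have hq1 : ∀ x, φ x = 1 → qa hWi x = 1 := by
        intro x hx
        refine AddMonoidHom.ext (fun w => ?_)
        obtain ⟨v, rfl⟩ := QuotientAddGroup.mk_surjective w
        show qa hWi x (QuotientAddGroup.mk v) = QuotientAddGroup.mk v
        rw [qa_mk, hx]
        rfl
      refine ⟨RW ⊓ (qa hWi).ker, ?_, ?_, ?_, ?_⟩
      · rintro x m ⟨h1, h2⟩
        exact ⟨hn x m h1, (MonoidHom.normal_ker (qa hWi)).conj_mem m h2 x⟩
      · rintro x ⟨h1, h2⟩
        obtain ⟨k, hk1⟩ := hk x h1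
        have h2' : qa hWi x = 1 := (MonoidHom.mem_ker).mp h2
        refine ⟨k + 1, ?_⟩
        rw [pow_succ, pow_mul]
        refine two_step hpV φ (W := W) ?_ ?_
        · intro w hw
          have h3 : ra hWi (x ^ p ^ k) ⟨w, hw⟩ = ⟨w, hw⟩ := by
            rw [hk1]
            rfl
          exact congrArg Subtype.val h3
        · intro v
          have h3 : qa hWi (x ^ p ^ k) (QuotientAddGroup.mk v) = QuotientAddGroup.mk v := by
            rw [map_pow, h2', one_pow]
            rfl
          rw [qa_mk, QuotientAddGroup.eq] at h3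
          have h4 : φ (x ^ p ^ k) v - v = -(-φ (x ^ p ^ k) v + v) := by abel
          rw [h4]
          exact W.neg_mem h3
      · intro N hN hNp
        refine le_inf ?_ ?_
        · refine hmx N hN (fun m hm => ?_)
          obtain ⟨k, hk1⟩ := hNp m hm
          exact ⟨k, hr1 _ hk1⟩
        · intro m hm
          rw [MonoidHom.mem_ker]
          refine irr_act hp hpQ (qa hWi) hirr N hN (fun m hm => ?_) m hm
          obtain ⟨k, hk1⟩ := hNp m hm
          exact ⟨k, hq1 _ hk1⟩
      · intro A hAP hab hpw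
        obtain ⟨I, hI1, hI2, hidx⟩ := index_mul φ hWi A
        -- (b)
        have hA1P : A ⊓ (qa hWi).ker ≤ P := inf_le_left.trans hAP
        obtain ⟨hb1, -⟩ := hA (A ⊓ (qa hWi).ker) hA1P
          (fun a ha b hb => hab a ha.1 b hb.1) (fun a ha => hpw a ha.1)
        have hb : RW.relIndex (A ⊓ (qa hWi).ker) ≤ (FixedBy (ra hWi) A).index :=
          hb1.trans (anti (fixed_mono (ra hWi) inf_le_left))
        -- (c)
        have hofq : (¬ A ≤ (qa hWi).ker) → (FixedBy (qa hWi) A).index ≤ (qa hWi).ker.relIndex A →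
            Offender p (qa hWi) A := by
          intro h1 h2
          refine ⟨hpQ, hirr, hab, hpw, ?_, h2⟩
          obtain ⟨a, ha, ha2⟩ := Set.not_subset.mp h1
          exact ⟨a, ha, fun h => ha2 ((MonoidHom.mem_ker).mpr h)⟩
        have hc0 : (qa hWi).ker.relIndex A ≤ (FixedBy (qa hWi) A).index := by
          by_cases h1 : A ≤ (qa hWi).ker
          · rw [Subgroup.relIndex_eq_one.mpr h1]
            exact ipos _
          · by_contra h2
            push Not at h2
            exact absurd (hyp _ (qa hWi) A hAP (hofq h1 h2.le)) (by omega)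
        have hc : (qa hWi).ker.relIndex A ≤ I.index := hc0.trans (anti hI1)
        -- (d)
        have hd : (RW ⊓ (qa hWi).ker).relIndex A =
            (qa hWi).ker.relIndex A * RW.relIndex (A ⊓ (qa hWi).ker) := by
          have h1 : RW ⊓ (A ⊓ (qa hWi).ker) ≤ A ⊓ (qa hWi).ker := inf_le_right
          have h2 := Subgroup.relIndex_mul_relIndex (RW ⊓ (A ⊓ (qa hWi).ker))
            (A ⊓ (qa hWi).ker) A h1 inf_le_left
          rw [Subgroup.inf_relIndex_right, Subgroup.inf_relIndex_left] at h2
          have h3 : RW ⊓ (A ⊓ (qa hWi).ker) = (RW ⊓ (qa hWi).ker) ⊓ A := by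
            rw [inf_assoc, inf_comm (qa hWi).ker A]
          rw [h3, Subgroup.inf_relIndex_right] at h2
          rw [← h2, mul_comm]
        refine ⟨?_, ?_⟩
        · rw [hd, hidx, mul_comm]
          exact Nat.mul_le_mul hb hc
        · intro hnA hle
          rw [hd, hidx] at hle
          obtain ⟨e1, e2⟩ := arith hc hb (rpos _ _) (rpos _ _) hle
          by_cases h1 : A ≤ (qa hWi).ker
          · have h2 : A ⊓ (qa hWi).ker = A := inf_eq_left.mpr h1
            rw [h2] at e2
            have h3 : ¬ A ≤ RW := fun h => hnA (le_inf h h1)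
            obtain ⟨-, h4⟩ := hA A hAP hab hpw
            obtain ⟨S, i1, i2, ρ, h5, h6⟩ := h4 h3 e2.le
            refine ⟨S, i1, i2, ρ, h5, ?_⟩
            intro b hb2
            refine h6 b ?_
            intro w hw
            refine Subtype.ext ?_
            exact hb2 w.1 (fun a ha => congrArg Subtype.val (hw a ha))
          · have h2 : I = FixedBy (qa hWi) A := by
              refine eq_of_index hI1 ?_
              rw [e1]
              exact hc0
            refine ⟨V ⧸ W, inferInstance, inferInstance, qa hWi, hofq h1 ?_, ?_⟩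
            · rw [← h2, e1]
            · intro b hb2 s hs
              rw [← h2] at hs
              obtain ⟨v, hv, rfl⟩ := hI2 s hs
              rw [qa_mk, hb2 v hv]

end X_CFI

theorem s_CFI : Stmt_CFI := by
  intro X _ _ p hp P V _ _ φ hpV hyp
  exact X_CFI.main hp.out P hyp (Nat.card V) V φ le_rfl hpV

end Pool.Agent.Work.MP_6d7bb4.h65u
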