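import Pool.Agent.Work.MP_6d7bb4_h65u.Interface2

set_option autoImplicit false
set_option linter.unusedSectionVars false

/-! # MP_6d7bb4, block EIG: eigenvalues of an element of prime order -/

namespace Pool.Agent.Work.MP_6d7bb4.h65u

open MulAction Pool.Agent.Work.MP_6d7bb4.helper94 Pool.Agent.Work.MP_6d7bb4.helper94.Sol

namespace X_EIG

open Polynomial Matrix

section mat

variable {K L : Type} [Field K] [Field L] [Algebra K L] {n : ℕ}

theorem root_iff (M : Matrix (Fin n) (Fin n) K) (a : L) :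
    aeval a M.charpoly = (Matrix.scalar (Fin n) a - M.map (algebraMap K L)).det := by
  rw [aeval_def, eval₂_eq_eval_map, ← Matrix.charpoly_map, Matrix.eval_charpoly]

theorem root_pow (M : Matrix (Fin n) (Fin n) K) (a : L) (i : ℕ) (h : aeval a M.charpoly = 0) :
    aeval (a ^ i) (M ^ i).charpoly = 0 := by
  rw [root_iff] at h ⊢
  have e1 : Matrix.scalar (Fin n) (a ^ i) = (Matrix.scalar (Fin n) a) ^ i := map_pow _ _ _
  have e2 : (M ^ i).map (algebraMap K L) = (M.map (algebraMap K L)) ^ i :=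
    map_pow (algebraMap K L).mapMatrix M i
  have hc : Commute (Matrix.scalar (Fin n) a) (M.map (algebraMap K L)) :=
    Matrix.scalar_commute a (fun r => mul_comm _ _) _
  rw [e1, e2, ← hc.mul_geom_sum₂, Matrix.det_mul, h, zero_mul]

theorem root_conj (M H H' : Matrix (Fin n) (Fin n) K) (h1 : H * H' = 1) (h2 : H' * H = 1) (i : ℕ)
    (h : H * M * H' = M ^ i) : (M ^ i).charpoly = M.charpoly := by
  rw [← h]
  have h3 := Matrix.charpoly_units_conj (⟨H, H', h1, h2⟩ : (Matrix (Fin n) (Fin n) K)ˣ) M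
  have h4 : ((⟨H, H', h1, h2⟩ : (Matrix (Fin n) (Fin n) K)ˣ) : Matrix (Fin n) (Fin n) K)⁻¹ = H' :=
    Matrix.inv_eq_right_inv h1
  rw [h4] at h3
  exact h3

theorem root_one (M : Matrix (Fin n) (Fin n) K) (a : L) (r : ℕ) (hM : M ^ r = 1)
    (h : aeval a M.charpoly = 0) : a ^ r = 1 := by
  have h1 := root_pow M a r h
  rw [hM, Matrix.charpoly_one, map_pow, map_sub, aeval_X, map_one] at h1
  have h0 : Fintype.card (Fin n) ≠ 0 := by
    intro h0
    rw [h0, pow_zero] at h1
    exact one_ne_zero h1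
  exact sub_eq_zero.1 ((pow_eq_zero_iff h0).1 h1)

end mat

section frob

variable {p : ℕ} [Fact p.Prime] {L : Type} [Field L] [Algebra (ZMod p) L] {n : ℕ}

theorem root_frob (f : (ZMod p)[X]) (a : L) (h : aeval a f = 0) : aeval (a ^ p) f = 0 := by
  rw [← expand_aeval, ZMod.expand_card, map_pow, h, zero_pow (Fact.out : p.Prime).ne_zero]

/-- some root is not 1 -/
theorem exists_ne_one [IsAlgClosed L] (M : Matrix (Fin n) (Fin n) (ZMod p)) (r : ℕ)
    (hr : Nat.Coprime r p) (hM : M ^ r = 1) (hM1 : M ≠ 1) :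
    ∃ a : L, aeval a M.charpoly = 0 ∧ a ≠ 1 := by
  by_contra hcon
  push Not at hcon
  apply hM1
  have hmon : M.charpoly.Monic := Matrix.charpoly_monic M
  have h1 : M.charpoly.map (algebraMap (ZMod p) L) =
      (X - C 1) ^ Multiset.card (M.charpoly.map (algebraMap (ZMod p) L)).roots := by
    have h2 := (IsAlgClosed.splits (M.charpoly.map (algebraMap (ZMod p) L))).eq_prod_roots_of_monic
      (hmon.map _)
    have h3 : (M.charpoly.map (algebraMap (ZMod p) L)).roots =
        Multiset.replicate (Multiset.card (M.charpoly.map (algebraMap (ZMod p) L)).roots) 1 := by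
      rw [Multiset.eq_replicate]
      refine ⟨rfl, fun a ha => hcon a ?_⟩
      have h4 := (mem_roots'.1 ha).2
      rw [IsRoot.def, eval_map, ← aeval_def] at h4
      exact h4
    conv_lhs => rw [h2]
    rw [h3, Multiset.map_replicate, Multiset.prod_replicate, Multiset.card_replicate]
  obtain ⟨k, hk⟩ : ∃ k, k = Multiset.card (M.charpoly.map (algebraMap (ZMod p) L)).roots :=
    ⟨_, rfl⟩
  rw [← hk] at h1
  have h2 : M.charpoly = (X - C 1) ^ k := by
    apply Polynomial.map_injective (algebraMap (ZMod p) L) (algebraMap (ZMod p) L).injective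
    rw [h1]
    simp
  have h3 : aeval M ((X - C 1 : (ZMod p)[X]) ^ k) = 0 := by
    rw [← h2]
    exact Matrix.aeval_self_charpoly M
  have hle : k ≤ p ^ k := (Nat.lt_pow_self (Fact.out : p.Prime).one_lt).le
  have h4 : aeval M ((X - C 1 : (ZMod p)[X]) ^ p ^ k) = 0 := by
    rw [← Nat.sub_add_cancel hle, pow_add, map_mul, h3, mul_zero]
  rw [sub_pow_char_pow, map_sub, map_pow, aeval_X, ← C_pow, one_pow, C_1, map_one] at h4
  have h5 : M ^ p ^ k = 1 := sub_eq_zero.1 h4
  have h6 : M ^ Nat.gcd r (p ^ k) = 1 := pow_gcd_eq_one.2 ⟨hM, h5⟩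
  rwa [Nat.Coprime.pow_right k hr, pow_one] at h6

end frob

section counting

/-- the counting part -/
theorem count {p r : ℕ} [Fact p.Prime] [Fact r.Prime] {L : Type} [Field L] (Λ : Finset L)
    (hr : ∀ a ∈ Λ, a ^ r = 1) (S : Set (ZMod r)ˣ)
    (hS : ∀ i ∈ S, ∀ a ∈ Λ, a ^ (i : ZMod r).val ∈ Λ) (hne : ∃ a ∈ Λ, a ≠ 1) :
    Nat.card (Subgroup.closure S) ≤ Λ.card := by
  classical
  have hmul : ∀ a ∈ Λ, ∀ i j : (ZMod r)ˣ,
      a ^ ((i * j : (ZMod r)ˣ) : ZMod r).val = (a ^ (i : ZMod r).val) ^ (j : ZMod r).val := by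
    intro a ha i j
    rw [Units.val_mul, ZMod.val_mul, ← pow_mul]
    conv_rhs => rw [← Nat.div_add_mod ((i : ZMod r).val * (j : ZMod r).val) r]
    rw [pow_add, pow_mul, hr a ha, one_pow, one_mul]
  have hone : ∀ a ∈ Λ, a ^ ((1 : (ZMod r)ˣ) : ZMod r).val ∈ Λ := by
    intro a ha
    have h1 : ((1 : (ZMod r)ˣ) : ZMod r).val = 1 := by
      rw [Units.val_one]
      have : Fact (1 < r) := ⟨(Fact.out : r.Prime).one_lt⟩
      exact ZMod.val_one r
    rw [h1, pow_one]
    exact ha
  have hpow : ∀ i : (ZMod r)ˣ, (∀ a ∈ Λ, a ^ (i : ZMod r).val ∈ Λ) → ∀ k : ℕ, ∀ a ∈ Λ,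
      a ^ ((i ^ k : (ZMod r)ˣ) : ZMod r).val ∈ Λ := by
    intro i hi k
    induction k with
    | zero =>
      intro a ha
      rw [pow_zero]
      exact hone a ha
    | succ k ih =>
      intro a ha
      rw [pow_succ, hmul a ha]
      exact hi _ (ih a ha)
  have hcl : ∀ i ∈ Subgroup.closure S, ∀ a ∈ Λ, a ^ (i : ZMod r).val ∈ Λ := by
    intro i hi
    induction hi using Subgroup.closure_induction with
    | mem x hx => exact hS x hx
    | one => exact hone
    | mul x y _ _ hx hy =>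
      intro a ha
      rw [hmul a ha]
      exact hy _ (hx a ha)
    | inv x _ hx =>
      have e : x⁻¹ = x ^ (orderOf x - 1) := by
        rw [inv_eq_iff_mul_eq_one, ← pow_succ', Nat.sub_add_cancel (orderOf_pos x),
          pow_orderOf_eq_one]
      rw [e]
      exact hpow x hx _
  obtain ⟨a, ha, ha1⟩ := hne
  have hord : orderOf a = r := orderOf_eq_prime (hr a ha) ha1
  let φ : Subgroup.closure S → Λ := fun i => ⟨a ^ ((i : (ZMod r)ˣ) : ZMod r).val, hcl i.1 i.2 a ha⟩
  have hφ : Function.Injective φ := by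
    intro i j hij
    have h1 : a ^ ((i : (ZMod r)ˣ) : ZMod r).val = a ^ ((j : (ZMod r)ˣ) : ZMod r).val :=
      congrArg Subtype.val hij
    have h2 := pow_injOn_Iio_orderOf (x := a)
      (by
        rw [Set.mem_Iio, hord]
        exact ZMod.val_lt _) (by
        rw [Set.mem_Iio, hord]
        exact ZMod.val_lt _) h1
    exact Subtype.ext (Units.ext (ZMod.val_injective r h2))
  calc Nat.card (Subgroup.closure S) ≤ Nat.card Λ := Nat.card_le_card_of_injective φ hφ
    _ = Λ.card := by simp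

end counting


section main

variable {p r : ℕ} [Fact p.Prime] [Fact r.Prime] {U : Type} [AddCommGroup U] [Module (ZMod p) U]
  {n : ℕ} (b : Module.Basis (Fin n) (ZMod p) U)

/-- the matrix of an additive map -/
noncomputable def mm : AddMonoid.End U →* Matrix (Fin n) (Fin n) (ZMod p) where
  toFun := fun f => LinearMap.toMatrix b b (AddMonoidHom.toZModLinearMap p f)
  map_one' := LinearMap.toMatrix_id b
  map_mul' := fun f h => LinearMap.toMatrix_mul b (AddMonoidHom.toZModLinearMap p f)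
    (AddMonoidHom.toZModLinearMap p h)

theorem mm_inj : Function.Injective (mm b) := by
  intro f h e
  have h1 : AddMonoidHom.toZModLinearMap p f = AddMonoidHom.toZModLinearMap p h :=
    (LinearMap.toMatrix b b).injective e
  exact AddMonoidHom.toZModLinearMap_injective p h1

include b in
theorem main (hrp : r ≠ p) (g : (AddMonoid.End U)ˣ) (hg : g ≠ 1) (hgr : g ^ r = 1) :
    Nat.card (Subgroup.closure ({i : (ZMod r)ˣ | (i : ZMod r) = (p : ZMod r)} ∪
    {i : (ZMod r)ˣ | ∃ h : (AddMonoid.End U)ˣ, h * g * h⁻¹ = g ^ (i : ZMod r).val})) ≤ n := by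
  classical
  have hM : (mm b g.val) ^ r = 1 := by
    rw [← map_pow, ← Units.val_pow_eq_pow_val, hgr, Units.val_one, map_one]
  have hM1 : mm b g.val ≠ 1 := by
    intro h
    apply hg
    apply Units.ext
    apply mm_inj b
    rw [h, Units.val_one, map_one]
  have hcop : Nat.Coprime r p :=
    (Nat.coprime_primes (Fact.out : r.Prime) (Fact.out : p.Prime)).2 hrp
  obtain ⟨M, hMdef⟩ : ∃ M, M = mm b g.val := ⟨_, rfl⟩
  rw [← hMdef] at hM hM1
  obtain ⟨L, _, _, _⟩ : ∃ (L : Type) (_ : Field L) (_ : Algebra (ZMod p) L), IsAlgClosed L :=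
    ⟨AlgebraicClosure (ZMod p), inferInstance, inferInstance, inferInstance⟩
  have χ0' : M.charpoly.map (algebraMap (ZMod p) L) ≠ 0 :=
    ((Matrix.charpoly_monic M).map _).ne_zero
  obtain ⟨Λ, hΛd⟩ : ∃ Λ : Finset L, Λ = (M.charpoly.map (algebraMap (ZMod p) L)).roots.toFinset :=
    ⟨_, rfl⟩
  have hΛ : ∀ a : L, a ∈ Λ ↔ aeval a M.charpoly = 0 := by
    intro a
    rw [hΛd, Multiset.mem_toFinset, mem_roots χ0', IsRoot.def, eval_map, ← aeval_def]
  have hcard : Λ.card ≤ n := by
    calc Λ.card ≤ Multiset.card (M.charpoly.map (algebraMap (ZMod p) L)).roots := by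
          rw [hΛd]
          exact Multiset.toFinset_card_le _
      _ ≤ (M.charpoly.map (algebraMap (ZMod p) L)).natDegree := card_roots' _
      _ = n := by
        rw [natDegree_map, Matrix.charpoly_natDegree_eq_dim, Fintype.card_fin]
  have hone : ∀ a ∈ Λ, a ^ r = 1 := fun a ha => root_one M a r hM ((hΛ a).1 ha)
  have hcount := count (p := p) (r := r) Λ hone
    ({i : (ZMod r)ˣ | (i : ZMod r) = (p : ZMod r)} ∪
    {i : (ZMod r)ˣ | ∃ h : (AddMonoid.End U)ˣ, h * g * h⁻¹ = g ^ (i : ZMod r).val}) (by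
      rintro i (hi | ⟨h, hh⟩) a ha
      · have h1 : (i : ZMod r) = (p : ZMod r) := hi
        have h2 : a ^ (i : ZMod r).val = a ^ p := by
          rw [h1, ZMod.val_natCast]
          conv_rhs => rw [← Nat.div_add_mod p r]
          rw [pow_add, pow_mul, hone a ha, one_pow, one_mul]
        rw [h2]
        exact (hΛ _).2 (root_frob M.charpoly a ((hΛ a).1 ha))
      · rw [hΛ]
        have h1 : mm b h.val * M * mm b (h⁻¹).val = M ^ (i : ZMod r).val := by
          rw [hMdef, ← map_mul, ← map_mul, ← map_pow, ← Units.val_mul, ← Units.val_mul, hh,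
            Units.val_pow_eq_pow_val]
        have h2 := root_conj M (mm b h.val) (mm b (h⁻¹).val)
          (by rw [← map_mul, ← Units.val_mul, mul_inv_cancel, Units.val_one, map_one])
          (by rw [← map_mul, ← Units.val_mul, inv_mul_cancel, Units.val_one, map_one]) _ h1
        have h3 := root_pow M a (i : ZMod r).val ((hΛ a).1 ha)
        rw [h2] at h3
        exact h3) (by
      obtain ⟨a, ha, ha1⟩ := exists_ne_one (L := L) M r hcop hM hM1
      exact ⟨a, (hΛ a).2 ha, ha1⟩)
  exact hcount.trans hcard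

theorem main2 [Finite U] (hrp : r ≠ p) (g : (AddMonoid.End U)ˣ) (hg : g ≠ 1) (hgr : g ^ r = 1) :
    p ^ Nat.card (Subgroup.closure ({i : (ZMod r)ˣ | (i : ZMod r) = (p : ZMod r)} ∪
    {i : (ZMod r)ˣ | ∃ h : (AddMonoid.End U)ˣ, h * g * h⁻¹ = g ^ (i : ZMod r).val})) ≤
      Nat.card U := by
  have hfin : Module.Finite (ZMod p) U := Module.Finite.of_finite
  have h1 := main (r := r) (Module.finBasis (ZMod p) U) hrp g hg hgr
  have hU' : Nat.card U = p ^ Module.finrank (ZMod p) U := by
    have : Fintype U := Fintype.ofFinite U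
    rw [Nat.card_eq_fintype_card, Module.card_eq_pow_finrank (K := ZMod p) (V := U), ZMod.card]
  rw [hU']
  exact Nat.pow_le_pow_right (Fact.out : p.Prime).pos h1

end main

end X_EIG

theorem s_EIG : Stmt_EIG := by
  intro p r _ _ hrp U _ _ hU g hg hgr
  exact @X_EIG.main2 p r _ _ U _ (AddCommGroup.zmodModule hU) _ hrp g hg hgr

end Pool.Agent.Work.MP_6d7bb4.h65u
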