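import Pool.Agent.Work.MP_6d7bb4_h65u.Interface2

/-! # MP_6d7bb4, block GRD: few conjugates contain all conjugates -/

set_option autoImplicit false
set_option linter.unusedSectionVars false

namespace Pool.Agent.Work.MP_6d7bb4.h65u

open MulAction Pool.Agent.Work.MP_6d7bb4.helper94 Pool.Agent.Work.MP_6d7bb4.helper94.Sol

namespace X_GRD

variable {G : Type} [Group G]

lemma iSup_le_F {F A : Subgroup G} (hA : A ≤ F) {n : ℕ} {g : Fin n → G} (hg : ∀ i, g i ∈ F) :
    (⨆ i, cj (g i) A) ≤ F := by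
  refine iSup_le fun i x hx => ?_
  rw [mem_cj] at hx
  have h1 := F.mul_mem (F.mul_mem (hg i) (hA hx)) (F.inv_mem (hg i))
  have h2 : g i * ((g i)⁻¹ * x * g i) * (g i)⁻¹ = x := by group
  rwa [h2] at h1

lemma card_lt {T T' F : Subgroup G} (hF : Finite F) (hT : T' ≤ F) (h : T ≤ T') {x : G}
    (hx : x ∈ T') (hx' : x ∉ T) : 2 * Nat.card T ≤ Nat.card T' := by
  have : Finite T' := Finite.of_injective _ (Subgroup.inclusion_injective hT)
  obtain ⟨k, hk⟩ := Subgroup.card_dvd_of_le h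
  have hpos : 0 < Nat.card T' := Nat.card_pos
  have hne : ¬ Nat.card T' ≤ Nat.card T := fun hle => by
    have := Subgroup.eq_of_le_of_card_ge h hle
    exact hx' (this ▸ hx)
  have hk0 : k ≠ 0 := by
    rintro rfl
    rw [Nat.mul_zero] at hk
    omega
  have hk1 : k ≠ 1 := by
    rintro rfl
    rw [Nat.mul_one] at hk
    omega
  have hk2 : 2 ≤ k := by omega
  rw [hk]
  calc 2 * Nat.card T ≤ k * Nat.card T := Nat.mul_le_mul_right _ hk2
    _ = Nat.card T * k := Nat.mul_comm _ _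

lemma main (F A : Subgroup G) (hF : Finite F) (hA : A ≤ F) (hA0 : A ≠ ⊥) (n : ℕ) (hn : 1 ≤ n) :
    ∃ g : Fin n → G, (∀ i, g i ∈ F) ∧
      ((∀ f ∈ F, ∀ a ∈ A, f * a * f⁻¹ ∈ ⨆ i, cj (g i) A) ∨
        2 ^ n ≤ Nat.card (⨆ i, cj (g i) A : Subgroup G)) := by
  induction n, hn using Nat.le_induction with
  | base =>
    refine ⟨fun _ => 1, fun _ => F.one_mem, Or.inr ?_⟩
    obtain ⟨a, ha, ha1⟩ := (Subgroup.bot_or_exists_ne_one A).resolve_left hA0
    have hmem : a ∈ (⨆ _i : Fin 1, cj (1 : G) A : Subgroup G) := by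
      refine Subgroup.mem_iSup_of_mem 0 ?_
      rw [mem_cj]
      simpa using ha
    have h1 := card_lt (T := ⊥) hF (iSup_le_F hA fun _ => F.one_mem) bot_le hmem
      (by rwa [Subgroup.mem_bot])
    simpa using h1
  | succ n hn ih =>
    obtain ⟨g, hg, h⟩ := ih
    have hext : ∀ f ∈ F, (∀ i, (Fin.cons f g : Fin (n + 1) → G) i ∈ F) ∧
        (⨆ i, cj (g i) A) ≤ ⨆ i, cj ((Fin.cons f g : Fin (n + 1) → G) i) A := by
      intro f hf
      refine ⟨fun i => ?_, iSup_le fun i => ?_⟩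
      · refine Fin.cases ?_ (fun j => ?_) i
        · exact hf
        · exact hg j
      · have := le_iSup (fun i : Fin (n + 1) => cj ((Fin.cons f g : Fin (n + 1) → G) i) A) i.succ
        simpa using this
    by_cases hall : ∀ f ∈ F, ∀ a ∈ A, f * a * f⁻¹ ∈ ⨆ i, cj (g i) A
    · refine ⟨Fin.cons 1 g, (hext 1 F.one_mem).1, Or.inl fun f hf a ha => ?_⟩
      exact (hext 1 F.one_mem).2 (hall f hf a ha)
    · have h2 := h.resolve_left hall
      push Not at hall
      obtain ⟨f, hf, a, ha, hfa⟩ := hall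
      refine ⟨Fin.cons f g, (hext f hf).1, Or.inr ?_⟩
      have hmem : f * a * f⁻¹ ∈ ⨆ i, cj ((Fin.cons f g : Fin (n + 1) → G) i) A := by
        refine Subgroup.mem_iSup_of_mem 0 ?_
        exact conj_mem_cj ha
      have h3 := card_lt hF (iSup_le_F hA (hext f hf).1) (hext f hf).2 hmem hfa
      rw [pow_succ]
      omega

end X_GRD

theorem s_GRD : Stmt_GRD := by
  intro G _ F A hF hA hA0
  have := hF
  obtain ⟨a, ha, ha1⟩ := (Subgroup.bot_or_exists_ne_one A).resolve_left hA0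
  have hF2 : 2 ≤ Nat.card F := by
    have h1 := X_GRD.card_lt (T := ⊥) hF le_rfl bot_le (hA ha) (by rwa [Subgroup.mem_bot])
    simpa using h1
  have hm : 1 ≤ Nat.log 2 (Nat.card F) := Nat.log_pos (by norm_num) hF2
  obtain ⟨g, hg, h⟩ := X_GRD.main F A hF hA hA0 _ hm
  refine ⟨g, hg, ?_⟩
  rcases h with h | h
  · exact h
  · have hle := X_GRD.iSup_le_F hA hg
    have hlt : Nat.card F < 2 ^ (Nat.log 2 (Nat.card F) + 1) :=
      Nat.lt_pow_succ_log_self (by norm_num) _
    have hnot : ¬ 2 * Nat.card (⨆ i, cj (g i) A : Subgroup G) ≤ Nat.card F := by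
      rw [pow_succ] at hlt
      omega
    intro f hf b hb
    by_contra hcon
    exact hnot (X_GRD.card_lt hF le_rfl hle
      (F.mul_mem (F.mul_mem hf (hA hb)) (F.inv_mem hf)) hcon)

end Pool.Agent.Work.MP_6d7bb4.h65u
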