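import Pool.Agent.Work.MP_6d7bb4_h65u.Interface3

set_option autoImplicit false

/-! # Block PSG: permutation groups isomorphic to PSL(2, r) -/

namespace Pool.Agent.Work.MP_6d7bb4.h65u

open MulAction Pool.Agent.Work.MP_6d7bb4.helper94 Pool.Agent.Work.MP_6d7bb4.helper94.Sol

namespace X_PSG

theorem growth (L : ℕ) (hL : 30 ≤ L) : 512 * L ^ 4 + 2 < 2 ^ (L - 1) := by
  induction L, hL using Nat.le_induction with
  | base => norm_num
  | succ n hn ih =>
    have h1 : 2 ^ (n + 1 - 1) = 2 * 2 ^ (n - 1) := by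
      rw [← pow_succ']
      congr 1
      omega
    have h2 : (n + 1) ^ 4 ≤ 2 * n ^ 4 := by
      have h3 : n ^ 4 = n * n ^ 3 := by ring
      have h4 : n ^ 3 = n * n ^ 2 := by ring
      have h5 : n ^ 2 = n * n := by ring
      have h6 : 30 * n ^ 3 ≤ n ^ 4 := by rw [h3]; exact Nat.mul_le_mul_right _ hn
      have h7 : 30 * n ^ 2 ≤ n ^ 3 := by rw [h4]; exact Nat.mul_le_mul_right _ hn
      have h8 : 30 * n ≤ n ^ 2 := by rw [h5]; exact Nat.mul_le_mul_right _ hn
      have h9 : (n + 1) ^ 4 = n ^ 4 + 4 * n ^ 3 + 6 * n ^ 2 + 4 * n + 1 := by ring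
      rw [h9]
      omega
    rw [h1]
    omega

/-- the squares of units -/
theorem squares (r : ℕ) [hr : Fact r.Prime] :
    r - 1 ≤ 2 * Nat.card (powMonoidHom 2 : (ZMod r)ˣ →* (ZMod r)ˣ).range := by
  have h1 := Subgroup.card_mul_index (powMonoidHom 2 : (ZMod r)ˣ →* (ZMod r)ˣ).ker
  rw [Subgroup.index_ker] at h1
  have h2 : Nat.card (ZMod r)ˣ = r - 1 := by
    rw [Nat.card_eq_fintype_card, ZMod.card_units]
  have h3 : Nat.card (powMonoidHom 2 : (ZMod r)ˣ →* (ZMod r)ˣ).ker ≤ 2 := by
    have h4 : (((powMonoidHom 2 : (ZMod r)ˣ →* (ZMod r)ˣ).ker : Subgroup (ZMod r)ˣ) :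
        Set (ZMod r)ˣ) ⊆ {1, -1} := by
      intro a ha
      have h5 : a ^ 2 = 1 := ha
      have h6 : (a : ZMod r) * (a : ZMod r) = 1 := by
        rw [← Units.val_mul, ← pow_two, h5, Units.val_one]
      rcases mul_self_eq_one_iff.1 h6 with h | h
      · left
        exact Units.ext h
      · right
        apply Units.ext
        rw [h, Units.val_neg, Units.val_one]
    calc Nat.card (powMonoidHom 2 : (ZMod r)ˣ →* (ZMod r)ˣ).ker
        = (((powMonoidHom 2 : (ZMod r)ˣ →* (ZMod r)ˣ).ker : Subgroup (ZMod r)ˣ) :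
          Set (ZMod r)ˣ).ncard := rfl
      _ ≤ ({1, -1} : Set (ZMod r)ˣ).ncard := Set.ncard_le_ncard h4 (Set.toFinite _)
      _ ≤ 2 := by
        have := Set.ncard_insert_le (1 : (ZMod r)ˣ) {-1}
        rw [Set.ncard_singleton] at this
        omega
  rw [← h2, ← h1]
  exact Nat.mul_le_mul_right _ h3

end X_PSG

open X_PSG in
theorem s_PSG (hPSR : Stmt_PSR) : Stmt_PSG := by
  intro Ω F r _ hr29 ⟨e⟩ htr
  obtain ⟨hfin, hcard, hndvd, u₀, hu₀1, hu₀r, hconj⟩ := hPSR r
  have hrp : r.Prime := Fact.out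
  have hFfin : Finite F := Finite.of_equiv _ e.symm.toEquiv
  have hFcard : Nat.card F = Nat.card (PSL2 r) := Nat.card_congr e.toEquiv
  have hsP : IsSimpleGroup (PSL2 r) :=
    Matrix.ProjectiveSpecialLinearGroup.rank_two_simple (by
      rw [Nat.card_zmod]
      have : 4 ≤ 2 ^ 29 := by norm_num
      omega)
  have hsF : IsSimpleGroup F := e.isSimpleGroup
  have hdich : ∀ N : Subgroup (Equiv.Perm Ω), N ≤ F → (∀ f ∈ F, ∀ n ∈ N, f * n * f⁻¹ ∈ N) →
      N = ⊥ ∨ N = F := by
    intro N hN hn
    have hnorm : (N.subgroupOf F).Normal := ⟨fun n hn' g => by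
      rw [Subgroup.mem_subgroupOf] at hn' ⊢
      exact hn g g.2 n hn'⟩
    rcases hnorm.eq_bot_or_eq_top with h | h
    · left
      rw [Subgroup.subgroupOf_eq_bot, disjoint_iff, inf_eq_left.2 hN] at h
      exact h
    · right
      rw [Subgroup.subgroupOf_eq_top] at h
      exact le_antisymm hN h
  refine ⟨?_, ?_⟩
  · intro N hN hn
    rcases hdich N hN hn with h | h
    · right
      intro σ hσ a _
      rw [h] at hσ
      exact Subgroup.mem_bot.1 hσ
    · left
      rw [h]
      exact htr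
  · intro p hp
    by_cases hpr : p = r
    · left
      subst hpr
      intro ω N hN _ _ hpg
      have hNfin : Finite N := Finite.of_injective _ (Subgroup.inclusion_injective hN)
      have hpf : Fact p.Prime := ⟨hp⟩
      obtain ⟨k, hk⟩ := IsPGroup.iff_card.1 hpg
      have h1 : Nat.card N ∣ Nat.card F := Subgroup.card_dvd_of_le hN
      rw [hFcard, hk] at h1
      have h2 : k ≤ 1 := by
        by_contra h0
        exact hndvd ((pow_dvd_pow p (by omega : 2 ≤ k)).trans h1)
      rw [hk]
      calc p ^ k ≤ p ^ 1 := Nat.pow_le_pow_right hp.pos h2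
        _ = p := pow_one p
    · by_cases hsr : ∀ σ ∈ F, ∀ a : Ω, σ a = a → σ = 1
      · left
        intro ω N hN hfix _ _
        have h1 : N = ⊥ := by
          rw [Subgroup.eq_bot_iff_forall]
          intro x hx
          exact hsr x (hN hx) ω (hfix x hx)
        rw [h1, Subgroup.card_bot]
        exact hp.one_lt.le
      · right
        have hr0 : r ≠ 0 := hrp.ne_zero
        have hL1 : r < 2 ^ (Nat.log 2 r + 1) := Nat.lt_pow_succ_log_self (by norm_num) r
        have hL2 : 2 ^ (Nat.log 2 r) ≤ r := Nat.pow_log_le_self 2 hr0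
        have hL3 : 29 ≤ Nat.log 2 r := Nat.le_log_of_pow_le (by norm_num) hr29
        obtain ⟨L, hL⟩ : ∃ L, L = Nat.log 2 r + 1 := ⟨_, rfl⟩
        rw [← hL] at hL1
        have hL30 : 30 ≤ L := by omega
        have hL4 : 2 ^ (L - 1) ≤ r := by
          rw [hL, Nat.add_sub_cancel]
          exact hL2
        have hFlt : Nat.card F < 2 ^ (4 * L) := by
          have h1 : r ^ 4 < (2 ^ L) ^ 4 := Nat.pow_lt_pow_left hL1 (by norm_num)
          rw [← pow_mul, mul_comm L 4] at h1
          rw [hFcard]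
          exact lt_of_le_of_lt hcard h1
        refine ⟨4 * L, r, (e.symm u₀ : Equiv.Perm Ω), hrp, Ne.symm hpr, SetLike.coe_mem _, ?_, ?_,
          ?_, ?_⟩
        · rw [← Subgroup.coe_pow, ← map_pow, hu₀r, map_one, Subgroup.coe_one]
        · intro N hN hn hsem hu
          rcases hdich N hN hn with h | h
          · rw [h] at hu
            have h1 : (e.symm u₀ : Equiv.Perm Ω) = 1 := Subgroup.mem_bot.1 hu
            have h2 : e.symm u₀ = 1 := Subtype.ext h1
            exact hu₀1 ((MulEquiv.map_eq_one_iff e.symm).1 h2)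
          · rw [h] at hsem
            exact hsr hsem
        · intro ω N A hN _ _ _ hA _ _
          have h1 : Nat.card A ≤ Nat.card F :=
            Nat.card_le_card_of_injective _ (Subgroup.inclusion_injective (hA.trans hN))
          calc Nat.card A ≤ Nat.card F := h1
            _ ≤ 2 ^ (4 * L) := hFlt.le
            _ ≤ p ^ (4 * L) := Nat.pow_le_pow_left hp.two_le _
        · have hlog : Nat.log 2 (Nat.card F) < 4 * L :=
            Nat.log_lt_of_lt_pow (Nat.card_pos.ne') hFlt
          have h1 : (4 * L * Nat.log 2 (Nat.card F)) ^ 2 ≤ 256 * L ^ 4 := by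
            calc (4 * L * Nat.log 2 (Nat.card F)) ^ 2 ≤ (4 * L * (4 * L)) ^ 2 :=
                  Nat.pow_le_pow_left (Nat.mul_le_mul_left _ hlog.le) 2
              _ = 256 * L ^ 4 := by ring
          have h2 := squares r
          have h3 : (powMonoidHom 2 : (ZMod r)ˣ →* (ZMod r)ˣ).range ≤
              Subgroup.closure ({i : (ZMod r)ˣ | (i : ZMod r) = (p : ZMod r)} ∪
                {i : (ZMod r)ˣ | ∃ f ∈ F, f * (e.symm u₀ : Equiv.Perm Ω) * f⁻¹ =
                  (e.symm u₀ : Equiv.Perm Ω) ^ (i : ZMod r).val}) := by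
            rintro _ ⟨a, rfl⟩
            refine Subgroup.subset_closure (Or.inr ?_)
            obtain ⟨f, hf⟩ := hconj a
            refine ⟨(e.symm f : Equiv.Perm Ω), SetLike.coe_mem _, ?_⟩
            have h4 := congrArg (fun x => ((e.symm x : F) : Equiv.Perm Ω)) hf
            simp only [map_mul, map_inv, map_pow, Subgroup.coe_mul, Subgroup.coe_inv,
              Subgroup.coe_pow] at h4
            exact h4
          have h4 := Nat.card_le_card_of_injective _ (Subgroup.inclusion_injective h3)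
          have h5 := growth L hL30
          omega

end Pool.Agent.Work.MP_6d7bb4.h65u
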