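import Pool.Agent.Work.MP_6d7bb4_h65u.Interface3

set_option autoImplicit false

/-! # Block PSR: elementary facts on `PSL2 r` -/

namespace Pool.Agent.Work.MP_6d7bb4.h65u

/-- the matrix `!![1, b; 0, 1]` -/
def PSR_t (r : ℕ) (b : ZMod r) : Matrix.SpecialLinearGroup (Fin 2) (ZMod r) :=
  ⟨!![1, b; 0, 1], by simp [Matrix.det_fin_two_of]⟩

/-- the matrix `!![a, 0; 0, a⁻¹]` -/
def PSR_d (r : ℕ) (a : (ZMod r)ˣ) : Matrix.SpecialLinearGroup (Fin 2) (ZMod r) :=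
  ⟨!![(a : ZMod r), 0; 0, ((a⁻¹ : (ZMod r)ˣ) : ZMod r)], by simp [Matrix.det_fin_two_of]⟩

theorem PSR_pow (r : ℕ) (b : ZMod r) (n : ℕ) : PSR_t r b ^ n = PSR_t r (n * b) := by
  induction n with
  | zero =>
    rw [pow_zero]
    apply Subtype.ext
    simp [PSR_t, Matrix.one_fin_two]
  | succ n ih =>
    rw [pow_succ, ih]
    apply Subtype.ext
    rw [Matrix.SpecialLinearGroup.coe_mul]
    simp only [PSR_t, Matrix.mul_fin_two]
    push_cast
    congr 1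
    · simp; ring

theorem PSR_conj (r : ℕ) (a : (ZMod r)ˣ) :
    PSR_d r a * PSR_t r 1 * (PSR_d r a)⁻¹ = PSR_t r ((a ^ 2 : (ZMod r)ˣ) : ZMod r) := by
  rw [mul_inv_eq_iff_eq_mul]
  apply Subtype.ext
  rw [Matrix.SpecialLinearGroup.coe_mul, Matrix.SpecialLinearGroup.coe_mul]
  simp only [PSR_t, PSR_d, Matrix.mul_fin_two]
  have h : (a : ZMod r) ^ 2 * ((a⁻¹ : (ZMod r)ˣ) : ZMod r) = (a : ZMod r) := by
    rw [pow_two, mul_assoc, Units.mul_inv, mul_one]
  simp [h]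

theorem PSR_card (r : ℕ) [Fact r.Prime] : Finite (PSL2 r) ∧ Nat.card (PSL2 r) ≤ r ^ 4 ∧
    ¬ r ^ 2 ∣ Nat.card (PSL2 r) := by
  have hr : r.Prime := Fact.out
  have hfS : Finite (Matrix.SpecialLinearGroup (Fin 2) (ZMod r)) := inferInstance
  have hf : Finite (PSL2 r) := inferInstance
  have h1 : Nat.card (PSL2 r) ≤ Nat.card (Matrix.SpecialLinearGroup (Fin 2) (ZMod r)) :=
    Nat.card_le_card_of_surjective (QuotientGroup.mk' _) (QuotientGroup.mk'_surjective _)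
  have h2 : Nat.card (Matrix.SpecialLinearGroup (Fin 2) (ZMod r)) ≤
      Nat.card (Matrix (Fin 2) (Fin 2) (ZMod r)) :=
    Nat.card_le_card_of_injective (fun A => (A : Matrix (Fin 2) (Fin 2) (ZMod r)))
      Subtype.val_injective
  have h3 : Nat.card (Matrix (Fin 2) (Fin 2) (ZMod r)) = r ^ 4 := by
    unfold Matrix
    rw [Nat.card_fun, Nat.card_fun, Nat.card_zmod, Nat.card_eq_fintype_card, Fintype.card_fin]
    ring
  refine ⟨hf, (h1.trans h2).trans h3.le, ?_⟩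
  have h4 : Nat.card (PSL2 r) ∣ Nat.card (Matrix.SpecialLinearGroup (Fin 2) (ZMod r)) :=
    Subgroup.card_quotient_dvd_card _
  have h5 : Nat.card (Matrix.SpecialLinearGroup (Fin 2) (ZMod r)) ∣
      Nat.card (Matrix.GeneralLinearGroup (Fin 2) (ZMod r)) :=
    Subgroup.card_dvd_of_injective Matrix.SpecialLinearGroup.toGL
      Matrix.SpecialLinearGroup.toGL_injective
  have h6 : Nat.card (Matrix.GeneralLinearGroup (Fin 2) (ZMod r)) = (r ^ 2 - 1) * (r ^ 2 - r) := by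
    have := Matrix.card_GL_field (𝔽 := ZMod r) 2
    rw [this, Fin.prod_univ_two, ZMod.card]
    simp
  intro h7
  have h8 : r ^ 2 ∣ (r ^ 2 - 1) * (r ^ 2 - r) := by
    rw [← h6]
    exact h7.trans (h4.trans h5)
  have h2r : 2 ≤ r := hr.two_le
  have h9 : (r ^ 2 - 1) * (r ^ 2 - r) = r * ((r ^ 2 - 1) * (r - 1)) := by
    have : r ^ 2 - r = r * (r - 1) := by rw [Nat.mul_sub, pow_two, mul_one]
    rw [this]; ring
  rw [h9] at h8
  have h8' : r * r ∣ r * ((r ^ 2 - 1) * (r - 1)) := by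
    rw [← pow_two]
    exact h8
  have h10 : r ∣ (r ^ 2 - 1) * (r - 1) := Nat.dvd_of_mul_dvd_mul_left hr.pos h8'
  rcases (Nat.Prime.dvd_mul hr).1 h10 with h | h
  · have h11 : r ∣ r ^ 2 - (r ^ 2 - 1) := Nat.dvd_sub (dvd_pow_self r two_ne_zero) h
    have h12 : r ^ 2 - (r ^ 2 - 1) = 1 := by
      have : 1 ≤ r ^ 2 := Nat.one_le_pow _ _ (by omega)
      omega
    rw [h12] at h11
    exact hr.one_lt.ne' (Nat.dvd_one.1 h11)
  · have := Nat.le_of_dvd (by omega) h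
    omega

theorem PSR_ne (r : ℕ) [Fact r.Prime] :
    (QuotientGroup.mk (PSR_t r 1) : PSL2 r) ≠ 1 := by
  intro h
  rw [QuotientGroup.eq_one_iff, Matrix.SpecialLinearGroup.mem_center_iff] at h
  obtain ⟨s, -, hs⟩ := h
  have h1 := congrFun (congrFun hs 0) 1
  simp [PSR_t, Matrix.scalar_apply] at h1

theorem s_PSR : Stmt_PSR := by
  intro r hr
  obtain ⟨h1, h2, h3⟩ := PSR_card r
  refine ⟨h1, h2, h3, QuotientGroup.mk (PSR_t r 1), PSR_ne r, ?_, fun a => ?_⟩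
  · rw [← QuotientGroup.mk_pow, PSR_pow]
    have : PSR_t r ((r : ℕ) * 1) = 1 := by
      apply Subtype.ext
      simp [PSR_t, Matrix.one_fin_two]
    rw [this]
    rfl
  · refine ⟨QuotientGroup.mk (PSR_d r a), ?_⟩
    rw [← QuotientGroup.mk_inv, ← QuotientGroup.mk_mul, ← QuotientGroup.mk_mul, PSR_conj,
      ← QuotientGroup.mk_pow, PSR_pow, ZMod.natCast_zmod_val, mul_one]

end Pool.Agent.Work.MP_6d7bb4.h65u
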