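import Pool.Agent.Work.MP_6d7bb4_h65u.Interface

set_option autoImplicit false
set_option linter.unusedSectionVars false

/-!
# MP_6d7bb4: groups with at most one offender; block SYU (the system; helper25)
-/

namespace Pool.Agent.Work.MP_6d7bb4.h65u

open MulAction Pool.Agent.Work.MP_6d7bb4.helper94 Pool.Agent.Work.MP_6d7bb4.helper94.Sol

/-- SYU -/
theorem s_SYU (hTH1 : Sol.Stmt_TH1) (hBST : Sol.Stmt_BST) (hVMD : Stmt_VMD) (hBU1 : Stmt_BU1)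
    (hBU4 : Stmt_BU4) : Stmt_SYU := by
  have _ := hTH1
  intro V G _ _ Γ d p _ hu
  obtain ⟨b1, b2, b3, b4, b5, b6, b7, b8⟩ := hBU1 V G Γ d p hu
  obtain ⟨c1, c2, c3, c4, c5⟩ := hBU4 V G Γ d p hu
  have h := hu.loc
  have hv : ∀ x y, Γ.Adj x y →
      (∀ A : Subgroup G, A ≤ Qe p x y → El p A → Nat.card A * Nat.card (Cw (Wp Γ p x) A) ≤
        Nat.card (Wp Γ p x : Subgroup G) * Nat.card (A ⊓ Qv Γ p x : Subgroup G)) ∧
      ∀ A : Subgroup G, A ≤ Qe p x y → El p A → ¬ A ≤ Qv Γ p x →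
        Ti (Wp Γ p x) (Qv Γ p x) A →
        (∀ b ∈ (Qe p x y : Subgroup G), (∀ v ∈ Cw (Wp Γ p x) A, b * v = v * b) →
          b ∈ A ⊔ Qv Γ p x) ∧
        ∀ A' : Subgroup G, A' ≤ Qe p x y → El p A' → ¬ A' ≤ Qv Γ p x →
          Ti (Wp Γ p x) (Qv Γ p x) A' → A' ≤ A ⊔ Qv Γ p x :=
    fun x y hxy => hVMD V G Γ d p (Zp p) h c1 x (hu.vt x) y hxy
  have hSQ : ∀ x, Sp (G := G) Γ p x ≤ Qv Γ p x := fun x _ hs => (mem_Cw.mp hs).1
  have hBQ : ∀ x y : V, Bp (G := G) p x y ≤ Qe p x y := fun x y _ hb => (mem_Cw.mp hb).1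
  have hSW : ∀ x, ∀ s ∈ Sp (G := G) Γ p x, ∀ v ∈ Wp (G := G) Γ p x, s * v = v * s :=
    fun x s hs v hv => ((mem_Cw.mp hs).2 v hv).symm
  have hBS : ∀ x y, Γ.Adj x y → ∀ b ∈ Bp (G := G) p x y, b ∈ Qv (G := G) Γ p x →
      b ∈ Sp (G := G) Γ p x :=
    fun x y hxy b hb hq => (c5 x y hxy).2.1 ⟨hb, Qv_le x hq⟩
  have hWQ : ∀ x y, Γ.Adj x y → Wp (G := G) Γ p x ≤ Qe p x y := fun x y hxy =>
    ((c4 x).trans (hSQ x)).trans (Qv_le_Qe h hxy)
  have hWel : ∀ x, El p (Wp (G := G) Γ p x) := c1.el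
  have nQv : ∀ (x y : V) (A : Subgroup G), A ≤ Qe p x y → Nm A (Qv Γ p x) := fun x y A hA =>
    (nm_Qv h x).mono (hA.trans (Qe_le_st x y))
  have nSp : ∀ (x y : V) (A : Subgroup G), A ≤ Qe p x y → Nm A (Sp Γ p x) := fun x y A hA =>
    (nm_of_equiv c3 x).mono (hA.trans (Qe_le_st x y))
  -- (b)
  have hti : ∀ x y, Γ.Adj x y → ∀ A : Subgroup G, Am p (Qe p x y) A →
      Ti (Wp Γ p x) (Qv Γ p x) A := by
    intro x y hxy A hA
    have hQf : Finite (Qe p x y : Subgroup G) := h.fin_le (Qe_le_st x y)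
    have hAf : Finite A := h.fin_le (hA.le.trans (Qe_le_st x y))
    have h1 := hBST G p (Qe p x y) A (Wp Γ p x) (Cw A (Wp Γ p x)) hQf hA (hWQ x y hxy) (hWel x)
      (fun _ hg => (mem_Cw.mp hg).1)
    have h2 : Cw (Wp (G := G) Γ p x) (Cw A (Wp Γ p x)) = Wp Γ p x := by
      refine le_antisymm (fun _ hg => (mem_Cw.mp hg).1) (fun v hv => ?_)
      exact mem_Cw.mpr ⟨hv, fun a ha => ((mem_Cw.mp ha).2 v hv).symm⟩
    rw [h2] at h1
    have h3 : (A ⊓ Qv Γ p x : Subgroup G) ≤ Cw A (Wp Γ p x) := by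
      intro g hg
      have h4 := (c5 x y hxy).2.2.2.2.1 A hA hg
      exact mem_Cw.mpr ⟨hg.1, fun v hv => (hSW x g h4 v hv).symm⟩
    have hCf : Finite (Cw A (Wp (G := G) Γ p x)) :=
      Finite.of_injective _ (Subgroup.inclusion_injective
        (show Cw A (Wp (G := G) Γ p x) ≤ A from fun g hg => (mem_Cw.mp hg).1))
    have h5 : Nat.card (A ⊓ Qv Γ p x : Subgroup G) ≤ Nat.card (Cw A (Wp (G := G) Γ p x)) :=
      Nat.card_le_card_of_injective _ (Subgroup.inclusion_injective h3)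
    unfold Ti
    calc Nat.card (Wp (G := G) Γ p x) * Nat.card (A ⊓ Qv Γ p x : Subgroup G)
        ≤ Nat.card (Wp (G := G) Γ p x) * Nat.card (Cw A (Wp (G := G) Γ p x)) :=
          Nat.mul_le_mul_left _ h5
      _ = Nat.card (Cw A (Wp (G := G) Γ p x)) * Nat.card (Wp (G := G) Γ p x) := mul_comm _ _
      _ ≤ _ := h1
  -- (a), (c), (d)
  have hA0 : ∀ x y, Γ.Adj x y → ∃ A0 : Subgroup G, Am p (Qe p x y) A0 ∧ ¬ A0 ≤ Qv Γ p x ∧
      Bp (G := G) p x y ≤ A0 ⊔ Sp Γ p x := by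
    intro x y hxy
    obtain ⟨d1, d2, d3, d4, d5, d6, d7⟩ := c5 x y hxy
    obtain ⟨A0, hA, hAn⟩ : ∃ A0 : Subgroup G, Am p (Qe p x y) A0 ∧ ¬ A0 ≤ Qv Γ p x := by
      by_contra hcon
      push Not at hcon
      exact b1 x y hxy (iSup_le fun A => hcon A.1 A.2)
    have hAJ : A0 ≤ Jt p (Qe p x y) :=
      le_iSup (fun A : {A : Subgroup G // Am p (Qe p x y) A} => A.1) ⟨A0, hA⟩
    obtain ⟨v1, v2⟩ := (hv x y hxy).2 A0 hA.le hA.el hAn (hti x y hxy A0 hA)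
    have hJ : Jt p (Qe p x y : Subgroup G) ≤ A0 ⊔ Sp Γ p x := by
      refine iSup_le fun A' => ?_
      obtain ⟨A', hA'⟩ := A'
      intro a' ha'
      have ha'' : a' ∈ A' := ha'
      by_cases hq : A' ≤ Qv Γ p x
      · exact (le_sup_right : Sp (G := G) Γ p x ≤ A0 ⊔ Sp Γ p x) (d5 A' hA' ⟨ha'', hq ha''⟩)
      · have h1 := v2 A' hA'.le hA'.el hq (hti x y hxy A' hA') ha''
        obtain ⟨a, ha, q, hq', rfl⟩ := mem_sup_nm (nQv x y A0 hA.le) h1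
        have h2 : a * q ∈ Bp (G := G) p x y :=
          d3 (le_iSup (fun A : {A : Subgroup G // Am p (Qe p x y) A} => A.1) ⟨A', hA'⟩ ha'')
        have h3 : a ∈ Bp (G := G) p x y := d3 (hAJ ha)
        have h4 : q ∈ Bp (G := G) p x y := by
          have := Subgroup.mul_mem _ (Subgroup.inv_mem _ h3) h2
          rwa [inv_mul_cancel_left] at this
        exact Subgroup.mul_mem_sup ha (hBS x y hxy q h4 hq')
    have hC : Cw (Wp (G := G) Γ p x) A0 ≤ Zp p x y := by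
      rw [← d4]
      intro v hv'
      obtain ⟨h1, h2⟩ := mem_Cw.mp hv'
      refine mem_Cw.mpr ⟨h1, fun j hj => ?_⟩
      obtain ⟨a, ha, s, hs, rfl⟩ := mem_sup_nm (nSp x y A0 hA.le) (hJ hj)
      rw [mul_assoc, hSW x s hs v h1, ← mul_assoc, h2 a ha, mul_assoc]
    refine ⟨A0, hA, hAn, ?_⟩
    intro b hb
    obtain ⟨e1, e2⟩ := mem_Cw.mp hb
    have h1 := v1 b e1 (fun v hv' => (e2 v (hC hv')).symm)
    obtain ⟨a, ha, q, hq', rfl⟩ := mem_sup_nm (nQv x y A0 hA.le) h1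
    have h3 : a ∈ Bp (G := G) p x y := d3 (hAJ ha)
    have h4 : q ∈ Bp (G := G) p x y := by
      have := Subgroup.mul_mem _ (Subgroup.inv_mem _ h3) hb
      rwa [inv_mul_cancel_left] at this
    exact Subgroup.mul_mem_sup ha (hBS x y hxy q h4 hq')
  -- half of (e)
  have half : ∀ x x' u, Γ.Adj x x' → Wp (G := G) Γ p u ≤ Sp Γ p x' →
      Wp (G := G) Γ p u ≤ Bp p x x' ∧
      (Wp (G := G) Γ p u ⊓ Qv Γ p x : Subgroup G) = Cw (Wp Γ p u) (Wp Γ p x) ∧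
      Nat.card (Wp (G := G) Γ p u) * Nat.card (Cw (Wp (G := G) Γ p x) (Wp Γ p u)) ≤
        Nat.card (Wp (G := G) Γ p x) * Nat.card (Cw (Wp (G := G) Γ p u) (Wp Γ p x)) := by
    intro x x' u hx hu'
    have e1 : Wp (G := G) Γ p u ≤ Bp p x x' := by
      rw [b6 x x']
      exact hu'.trans (c5 x' x hx.symm).1
    have e2 : (Wp (G := G) Γ p u ⊓ Qv Γ p x : Subgroup G) = Cw (Wp Γ p u) (Wp Γ p x) := by
      apply le_antisymm
      · intro g hg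
        have h1 := hBS x x' hx g (e1 hg.1) hg.2
        exact mem_Cw.mpr ⟨hg.1, fun v hv' => (hSW x g h1 v hv').symm⟩
      · intro g hg
        obtain ⟨h1, h2⟩ := mem_Cw.mp hg
        exact ⟨h1, hSQ x ((c5 x x' hx).2.2.2.2.2.2 g (e1 h1) (fun v hv' => (h2 v hv').symm))⟩
    refine ⟨e1, e2, ?_⟩
    rw [← e2]
    exact (hv x x' hx).1 _ (e1.trans (hBQ x x')) (hWel u)
  refine ⟨c2, c3, b3, b5, b4, b6, fun x => (hSQ x).trans (Qv_le x), c4, hSW,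
    fun x y _ => (hBQ x y).trans (Qe_le x y), fun x y hxy => (c5 x y hxy).1,
    fun x y hxy => (c5 x y hxy).2.1, fun x y hxy => (c5 x y hxy).2.2.2.2.2.2,
    ?_, fun x y hxy => z_le_VZ hxy, ?_, ?_, c1.ne, fun x => le_rfl, ?_⟩
  · intro x y hxy
    exact (c5 x y hxy).2.2.2.2.2.1
  · intro x y hxy z hz b hb
    exact ((mem_Cw.1 hb).2 z hz).symm
  · intro x y hxy v hv' h1
    rw [← (c5 x y hxy).2.2.2.1]
    exact mem_Cw.2 ⟨hv', fun a ha => h1 a ((c5 x y hxy).2.2.1 ha)⟩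
  · intro x x' w' w l
    obtain ⟨e1, e2, e3⟩ := half x x' w l.xx l.wx
    obtain ⟨f1, f2, f3⟩ := half w w' x l.ww l.xw
    have hT : Ti (Wp (G := G) Γ p x) (Qv Γ p x) (Wp Γ p w) := by
      unfold Ti
      rw [e2]
      exact f3
    have hn : ¬ Wp (G := G) Γ p w ≤ Qv Γ p x := by
      intro hcon
      apply l.cr
      intro v hv'
      refine (c5 w w' l.ww).2.2.2.2.2.2 v (f1 hv') fun b hb => ?_
      exact (hSW x b (hBS x x' l.xx b (e1 hb) (hcon hb)) v hv').symm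
    obtain ⟨A0, hA, hAn, hB0⟩ := hA0 x x' l.xx
    have hQw : Wp (G := G) Γ p w ≤ Qe p x x' := e1.trans (hBQ x x')
    obtain ⟨-, v2⟩ := (hv x x' l.xx).2 (Wp Γ p w) hQw (hWel w) hn hT
    have h1 := v2 A0 hA.le hA.el hAn (hti x x' l.xx A0 hA)
    intro b hb
    have h2 : b ∈ Wp (G := G) Γ p w ⊔ Qv Γ p x :=
      (hB0.trans (sup_le h1 ((hSQ x).trans le_sup_right))) hb
    obtain ⟨a, ha, q, hq', rfl⟩ := mem_sup_nm (nQv x x' _ hQw) h2
    have h4 : q ∈ Bp (G := G) p x x' := by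
      have := Subgroup.mul_mem _ (Subgroup.inv_mem _ (e1 ha)) hb
      rwa [inv_mul_cancel_left] at this
    exact Subgroup.mul_mem_sup ha (hBS x x' l.xx q h4 hq')

end Pool.Agent.Work.MP_6d7bb4.h65u
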