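import Pool.Agent.Work.MP_6d7bb4_h65u.Interface

set_option autoImplicit false
set_option linter.unusedSectionVars false

/-!
# MP_6d7bb4: groups with at most one offender; block VMD (the vertex version; helper63)
-/

namespace Pool.Agent.Work.MP_6d7bb4.h65u

open MulAction Pool.Agent.Work.MP_6d7bb4.helper94 Pool.Agent.Work.MP_6d7bb4.helper94.Sol

/-- VMD -/
theorem s_VMD (hFMB : Sol.Stmt_FMB) (hCFG : Stmt_CFG) : Stmt_VMD := by
  intro V G _ _ Γ d p _ ζ h hz x hvt y hxy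
  obtain ⟨-, f2, -, f4, -⟩ := hFMB V G Γ d p ζ h hz
  obtain ⟨hVs, hVn, hVf⟩ := f2 x
  have hXf : Finite (stabilizer G x) := h.fin x
  obtain ⟨R, isR, hR⟩ := hCFG G p (stabilizer G x) (VZ Γ ζ x) (Qe p x y) hXf hVf hVn (hz.el x)
    (Qe_le_st x y) (fun S _ _ ρ A hA hO => (hvt y hxy S ρ A hA hO).1)
  have hRK : R ⊓ B x y ≤ K Γ x := f4 x y hxy R isR.le isR.nm isR.pa
  have hQvR : (Qv Γ p x : Subgroup G) ≤ R := by
    refine isR.mx _ (Qv_le_st x) (nm_Qv h x) ?_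
    intro n hn
    have hp : IsPGroup p (Qe p x y : Subgroup G) := Qe_isP h x y
    obtain ⟨k, hk⟩ := hp ⟨n, Qv_le_Qe h hxy hn⟩
    refine ⟨k, fun v _ => ?_⟩
    have hk' : n ^ p ^ k = 1 := congrArg Subtype.val hk
    rw [hk', one_mul, mul_one]
  have hmem : ∀ g ∈ (Qe p x y : Subgroup G), (g ∈ R ↔ g ∈ (Qv Γ p x : Subgroup G)) := by
    intro g hg
    constructor
    · intro hgR
      rw [Qv_eq h hxy]
      exact ⟨hg, hRK ⟨hgR, Qe_le x y hg⟩⟩
    · intro hgQ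
      exact hQvR hgQ
  have hinf : ∀ A : Subgroup G, A ≤ Qe p x y → (A ⊓ R : Subgroup G) = A ⊓ Qv Γ p x := by
    intro A hA
    ext g
    exact and_congr_right (fun hg => hmem g (hA hg))
  have hle : ∀ A : Subgroup G, A ≤ Qe p x y → (A ≤ R ↔ A ≤ (Qv Γ p x : Subgroup G)) := by
    intro A hA
    exact forall₂_congr (fun g hg => hmem g (hA hg))
  refine ⟨?_, ?_⟩
  · intro A hA hE
    have h1 := (hR A hA hE).1
    rw [hinf A hA] at h1
    exact h1
  · intro A hA hE hnA hT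
    have h1 := (hR A hA hE).2 (fun h => hnA ((hle A hA).1 h))
    rw [hinf A hA] at h1
    obtain ⟨S, iS, fS, ρ, hO, hb⟩ := h1 hT
    have hAsub : A.subgroupOf (stabilizer G x) ≤ (Qe p x y).subgroupOf (stabilizer G x) :=
      fun g hg => hA hg
    obtain ⟨-, v2, v3⟩ := hvt y hxy S ρ (A.subgroupOf (stabilizer G x)) hAsub hO
    have key : ∀ b ∈ (Qe p x y : Subgroup G), (∃ a ∈ A, a⁻¹ * b ∈ K Γ x) →
        b ∈ A ⊔ Qv Γ p x := by
      rintro b hb ⟨a, ha, hab⟩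
      have h2 : a⁻¹ * b ∈ (Qv Γ p x : Subgroup G) := by
        rw [Qv_eq h hxy]
        exact ⟨(Qe p x y).mul_mem ((Qe p x y).inv_mem (hA ha)) hb, hab⟩
      have h3 : b = a * (a⁻¹ * b) := by group
      rw [h3]
      exact Subgroup.mul_mem_sup ha h2
    refine ⟨?_, ?_⟩
    · intro b hbQ hbc
      have hbs : b ∈ stabilizer G x := Qe_le_st x y hbQ
      obtain ⟨a, ha, hab⟩ := v2 ⟨b, hbs⟩ hbQ (hb ⟨b, hbs⟩ hbc)
      exact key b hbQ ⟨a.1, ha, hab⟩
    · intro A' hA' hE' hnA' hT'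
      have h1' := (hR A' hA' hE').2 (fun h => hnA' ((hle A' hA').1 h))
      rw [hinf A' hA'] at h1'
      obtain ⟨S', iS', fS', ρ', hO', -⟩ := h1' hT'
      intro b hb'
      have hbs : b ∈ stabilizer G x := Qe_le_st x y (hA' hb')
      obtain ⟨a, ha, hab⟩ := v3 S' ρ' (A'.subgroupOf (stabilizer G x)) (fun g hg => hA' hg) hO'
        ⟨b, hbs⟩ hb'
      exact key b (hA' hb') ⟨a.1, ha, hab⟩

end Pool.Agent.Work.MP_6d7bb4.h65u
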