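import Pool.Agent.Work.MP_6d7bb4_h65u.Interface

set_option autoImplicit false

/-! # MP_6d7bb4, block VTF (helper40): from the permutation group to the vertices -/

namespace Pool.Agent.Work.MP_6d7bb4.h65u

open MulAction Pool.Agent.Work.MP_6d7bb4.helper94 Pool.Agent.Work.MP_6d7bb4.helper94.Sol

theorem s_VTF : Stmt_VTF := by
  intro V Ω Γ H F d p _ h hLA hF x y hxy U _ _ ρ A hA hOff
  obtain ⟨e, hL⟩ := hLA x
  have := h.fin x
  have hrange : (rho H x e).range = F := by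
    ext σ
    constructor
    · rintro ⟨g, rfl⟩
      exact rho_mem hL g
    · intro hσ
      obtain ⟨g, hg⟩ := rho_surj hL hσ
      exact ⟨g, hg⟩
  have hY : ∀ g : stabilizer H x, g ∈ (B x y : Subgroup H).subgroupOf (stabilizer H x) ↔
      rho H x e g (e ⟨y, hxy⟩) = e ⟨y, hxy⟩ := by
    intro g
    rw [rho_eq, Subgroup.mem_subgroupOf, mem_B]
    exact ⟨fun h1 => h1.2, fun h1 => ⟨g.2, h1⟩⟩
  have hP : IsOp p ((B x y : Subgroup H).subgroupOf (stabilizer H x))
      ((Qe p x y : Subgroup H).subgroupOf (stabilizer H x)) := by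
    refine ⟨?_, ?_, ?_, ?_⟩
    · intro g hg
      exact Subgroup.mem_subgroupOf.2 (Qe_le x y (Subgroup.mem_subgroupOf.1 hg))
    · intro g hg n hn
      rw [Subgroup.mem_subgroupOf] at hg hn ⊢
      exact nm_Qe h x y _ hg _ hn
    · exact (Qe_isP h x y).comap_of_injective (stabilizer H x).subtype
        (Subgroup.subtype_injective _)
    · intro N hN hNn hNp n hn
      rw [Subgroup.mem_subgroupOf]
      have h1 : N.map (stabilizer H x).subtype ≤ (Qe p x y : Subgroup H) := by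
        refine le_O ?_ ?_ (IsPGroup.map hNp _)
        · rintro _ ⟨m, hm, rfl⟩
          exact Subgroup.mem_subgroupOf.1 (hN hm)
        · rintro b hb _ ⟨m, hm, rfl⟩
          have hbx : b ∈ stabilizer H x := hb.1
          exact ⟨⟨b, hbx⟩ * m * ⟨b, hbx⟩⁻¹,
            hNn ⟨b, hbx⟩ (Subgroup.mem_subgroupOf.2 hb) m hm, rfl⟩
      exact h1 ⟨n, hn, rfl⟩
  have hker : ∀ a b : stabilizer H x, rho H x e a = rho H x e b → a.1⁻¹ * b.1 ∈ K Γ x := by
    intro a b hab
    have h1 : rho H x e (a⁻¹ * b) = 1 := by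
      rw [map_mul, map_inv, hab, inv_mul_cancel]
    exact rho_one.1 h1
  obtain ⟨g1, g2, g3⟩ := hF (stabilizer H x) (rho H x e) hrange (e ⟨y, hxy⟩) _ _ hY hP U ρ A hA
    hOff
  refine ⟨g1, ?_, ?_⟩
  · intro b hb hfix
    obtain ⟨a, ha, hab⟩ := g2 b hb hfix
    exact ⟨a, ha, hker a b hab⟩
  · intro U' _ _ ρ' A' hA' hOff' b hb
    have h1 := g3 U' ρ' A' hA' hOff'
    have h2 : rho H x e b ∈ A'.map (rho H x e) := ⟨b, hb, rfl⟩
    rw [h1] at h2
    obtain ⟨a, ha, hab⟩ := h2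
    exact ⟨a, ha, hker a b hab⟩

end Pool.Agent.Work.MP_6d7bb4.h65u
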