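import Pool.Agent.Work.MP_6d7bb4_S.Bound
import Pool.Agent.Work.MP_6d7bb4_h65u.Interface2

set_option autoImplicit false
set_option linter.unusedSectionVars false

/-! # MP_6d7bb4: groups with at most one offender at some primes; the end of the proof (helper65) -/

namespace Pool.Agent.Work.MP_6d7bb4.h65u

open MulAction Pool.Agent.Work.MP_6d7bb4.helper94 Pool.Agent.Work.MP_6d7bb4.helper94.Sol

theorem rT_eq (d : ℕ) : rT d = ((d + 1) ^ (d + 1)) ^ (4 * d + 2) := by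
  unfold rT h65.io
  rw [pow_one, ← pow_add]
  congr 1
  ring

theorem rT_ge1 {d : ℕ} (hd : 1 ≤ d) : 2 * d * (2 * d + 1) ≤ rT d := by
  rw [rT_eq]
  have h1 : 2 * d + 1 < 2 ^ (2 * d + 1) := Nat.lt_two_pow_self
  have h2 : 2 * d * (2 * d + 1) ≤ 2 ^ (2 * d + 1) * 2 ^ (2 * d + 1) :=
    Nat.mul_le_mul (by omega) h1.le
  have h3 : 2 ^ (2 * d + 1) * 2 ^ (2 * d + 1) = 2 ^ (4 * d + 2) := by
    rw [← pow_add]
    congr 1
    ring
  rw [h3] at h2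
  refine h2.trans (Nat.pow_le_pow_left ?_ _)
  calc 2 ≤ d + 1 := by omega
    _ = (d + 1) ^ 1 := (pow_one _).symm
    _ ≤ (d + 1) ^ (d + 1) := Nat.pow_le_pow_right (by omega) (by omega)

theorem rT_ge2 (d : ℕ) : d.factorial ^ (2 * d + 1) ≤ rT d := by
  rw [rT_eq]
  have h1 : d.factorial ≤ (d + 1) ^ (d + 1) :=
    (Nat.factorial_le_pow d).trans ((Nat.pow_le_pow_left (by omega) d).trans
      (Nat.pow_le_pow_right (by omega) (by omega)))
  exact (Nat.pow_le_pow_left h1 _).trans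
    (Nat.pow_le_pow_right (Nat.pow_pos (by omega)) (by omega))

/-- the three possibilities at the prime `p` -/
def Alt {V : Type} (G : Type) [Group G] [MulAction G V] (Γ : SimpleGraph V) (d p : ℕ) : Prop :=
  CB G Γ p ∨ Hy G Γ d p ∨ ∀ x, VT G Γ p x

section fin
variable {V G : Type} [Group G] [MulAction G V] {Γ : SimpleGraph V} {d p : ℕ} [Fact p.Prime]

/-- no `p`-part -/
theorem no_pu (hFIW : Stmt_FIW) (hBAU1 : Stmt_BAU1) (hSYS : Stmt_SYS) (hBU1 : Stmt_BU1)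
    (hSYU : Stmt_SYU) (h : Loc G Γ d)
    (hcb : CB0 G Γ p → Alt G Γ d p) {x y : V} (hxy : Γ.Adj x y) {r : ℕ} (hr1 : 1 ≤ r)
    (hr : 2 * d * (2 * d + 1) ≤ r) (hr' : d.factorial ^ (2 * d + 1) ≤ r) (hr'' : rT d ≤ r)
    {L : Subgroup G} (hL : L ≤ Wr Γ r x y) (hne : L ≠ ⊥)
    (hsn : Sn (B x y) L) (hp : IsPGroup p L) : False := by
  by_cases hB0 : CB0 G Γ p
  · rcases hcb hB0 with hB | hH | hV
    · exact no_p h (fun _ => hB) hxy hr1 hr hL hne hsn hp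
    · exact no_p' hFIW hBAU1 hSYS h (fun _ => Or.inr hH) hxy hr1 hr hr' hL hne hsn hp
    · have hHu : Hu G Γ d p := ⟨h, hB0, hV⟩
      have hfB := h.finB x y
      have hfQ := finQe (p := p) h x y
      have hLQ : L ≤ Qe p x y := hsn.isP_le hp
      have hne' : (Wr Γ r x y ⊓ Qe p x y : Subgroup G) ≠ ⊥ := by
        intro h1
        apply hne
        rw [eq_bot_iff, ← h1]
        exact le_inf hL hLQ
      obtain ⟨z, hz, hz1, hzp, hzc⟩ := exists_central (Qe_isP h x y) inf_le_right hne'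
        (((nm_Wr h r x y).mono (Qe_le x y)).inf (nm_self _))
      have hzZ : z ∈ (Zz p x y : Subgroup G) := ⟨hz.2, hzp, hzc⟩
      obtain ⟨_, _, _, _, _, _, hle, _⟩ := hBU1 V G Γ d p hHu
      exact hz1 (fin_z h (hSYU V G Γ d p hHu) hxy hr'' hz.1 (hle x y hxy hzZ))
  · exact no_p h (fun h0 => absurd h0 hB0) hxy hr1 hr hL hne hsn hp

omit [Fact p.Prime] in
/-- the action on two balls of bounded radius is faithful -/
theorem Wr_botu (hFIW : Stmt_FIW) (hBAU1 : Stmt_BAU1) (hSYS : Stmt_SYS) (hBU1 : Stmt_BU1)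
    (hSYU : Stmt_SYU) (h : Loc G Γ d)
    (hcb : ∀ p : ℕ, p.Prime → CB0 G Γ p → Alt G Γ d p) {x y : V}
    (hxy : Γ.Adj x y) {r : ℕ} (hr1 : 1 ≤ r)
    (hr : 2 * d * (2 * d + 1) ≤ r) (hr' : d.factorial ^ (2 * d + 1) ≤ r) (hr'' : rT d ≤ r) :
    (Wr Γ r x y : Subgroup G) = ⊥ := by
  by_contra hne
  have := h.finB x y
  obtain ⟨L, hL, hLne, hsn, hmin⟩ := exists_min (Wr_le r x y) (nm_Wr h r x y) hne
  have : Finite L := h.fin_le ((hL.trans (Wr_le r x y)).trans (B_le x y))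
  rcases min_cases hLne hmin with hper | ⟨p, hp, hpL⟩
  · exact no_perf h hxy hr1 hL hLne hsn hmin hper
  · have : Fact p.Prime := ⟨hp⟩
    exact no_pu hFIW hBAU1 hSYS hBU1 hSYU h (hcb p hp) hxy hr1 hr hr' hr'' hL hLne hsn hpL

end fin

section main
variable {V : Type} {Γ : SimpleGraph V} {Ω : Type}

/-- the conditions at the prime `p` -/
def Cond (F : Subgroup (Equiv.Perm Ω)) (p : ℕ) : Prop :=
  (CondA F p ∨ ∃ S, CondB0 F p S) ∨ UniqueOffender F p ∨ CondD F p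

/-- at each prime -/
theorem hcbu (hVTF : Stmt_VTF) (hCDU : Stmt_CDU) {p : ℕ} (hp : p.Prime)
    {H : Subgroup (Γ ≃g Γ)} {F : Subgroup (Equiv.Perm Ω)}
    (hF2 : ∀ N : Subgroup (Equiv.Perm Ω), N ≤ F →
        (∀ f ∈ F, ∀ n ∈ N, f * n * f⁻¹ ∈ N) →
        ((∀ a b : Ω, ∃ σ ∈ N, σ a = b) ∨ (∀ σ ∈ N, ∀ a : Ω, σ a = a → σ = 1)))
    {d : ℕ} (h : Loc H Γ d)
    (hloc : ∀ x, ∃ e, LA Γ H F x e) {x0 y0 : V} (hxy : Γ.Adj x0 y0)
    (hC : Cond F p) (hB : CB0 H Γ p) : Alt H Γ d p := by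
  have : Fact p.Prime := ⟨hp⟩
  rcases hC with hAB | hU
  · rcases hcb' hp h hloc hxy hAB hB with h1 | h1
    · exact Or.inl h1
    · exact Or.inr (Or.inl h1)
  · refine Or.inr (Or.inr (hVTF V Ω Γ H F d p h hloc ?_))
    rcases hU with hU | hD
    · exact hU
    · exact hCDU Ω F p hF2 hD

/-- the bound for the order of a vertex stabiliser -/
def bndu (d : ℕ) : ℕ := ((d + 1) ^ (rT d + 2)).factorial

/-- the action on a ball is faithful -/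
theorem faithfulu [Fintype Ω] (hFIW : Stmt_FIW) (hBAU1 : Stmt_BAU1) (hSYS : Stmt_SYS)
    (hBU1 : Stmt_BU1) (hSYU : Stmt_SYU) (hVTF : Stmt_VTF) (hCDU : Stmt_CDU)
    {F : Subgroup (Equiv.Perm Ω)}
    (hF2 : ∀ N : Subgroup (Equiv.Perm Ω), N ≤ F →
        (∀ f ∈ F, ∀ n ∈ N, f * n * f⁻¹ ∈ N) →
        ((∀ a b : Ω, ∃ σ ∈ N, σ a = b) ∨ (∀ σ ∈ N, ∀ a : Ω, σ a = a → σ = 1)))
    (hF3 : ∀ p : ℕ, p.Prime → Cond F p)
    (hc : Γ.Connected) {H : Subgroup (Γ ≃g Γ)}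
    (hfin : ∀ v : V, {g : Γ ≃g Γ | g ∈ H ∧ g v = v}.Finite)
    (hloc : ∀ x : V, ∃ e : Γ.neighborSet x ≃ Ω, LA Γ H F x e)
    (harc : ∀ x y x' y', Γ.Adj x y → Γ.Adj x' y' → ∃ g ∈ H, g x = x' ∧ g y = y') (x : V) :
    Loc H Γ (Fintype.card Ω) ∧ ∀ g ∈ stabilizer H x,
      (∀ v, Γ.dist x v ≤ rT (Fintype.card Ω) + 2 → g • v = v) → g = 1 := by
  have hL : Loc H Γ (Fintype.card Ω) := loc_of hF2 hc hfin hloc harc
  refine ⟨hL, ?_⟩
  intro g hg hgv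
  by_cases hn : ∃ y, Γ.Adj x y
  · obtain ⟨y, hxy⟩ := hn
    have hd : 1 ≤ Fintype.card Ω := by
      obtain ⟨e, _⟩ := hloc x
      exact Fintype.card_pos_iff.mpr ⟨e ⟨y, hxy⟩⟩
    have h3 := Wr_botu hFIW hBAU1 hSYS hBU1 hSYU hL
      (fun p hp => hcbu hVTF hCDU hp hF2 hL hloc hxy (hF3 p hp)) hxy
      (r := rT (Fintype.card Ω) + 1) (by omega) ((rT_ge1 hd).trans (by omega))
      ((rT_ge2 _).trans (by omega)) (by omega)
    have h4 : g ∈ (Wr Γ (rT (Fintype.card Ω) + 1) x y : Subgroup H) := by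
      intro v hv
      refine hgv v ?_
      rcases hv with hv | hv
      · omega
      · have h5 := hc.dist_triangle (u := x) (v := y) (w := v)
        rw [SimpleGraph.dist_eq_one_iff_adj.mpr hxy] at h5
        omega
    rw [h3, Subgroup.mem_bot] at h4
    exact h4
  · refine hL.faith g (fun v => ?_)
    have h1 : v = x := by
      by_contra hne
      obtain ⟨q, hq⟩ := hc.exists_walk_length_eq_dist x v
      have h2 : q.length ≠ 0 := by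
        rw [hq]
        intro h0
        exact hne (hc.dist_eq_zero_iff.mp h0).symm
      have h3 : Γ.Adj (q.getVert 0) (q.getVert (0 + 1)) := q.adj_getVert_succ (by omega)
      rw [q.getVert_zero] at h3
      exact hn ⟨_, h3⟩
    rw [h1]
    exact mem_stabilizer_iff.mp hg

/-- finitely many classes, bounded stabilisers -/
theorem psvu [Fintype Ω] (hFIW : Stmt_FIW) (hBAU1 : Stmt_BAU1) (hSYS : Stmt_SYS)
    (hBU1 : Stmt_BU1) (hSYU : Stmt_SYU) (hVTF : Stmt_VTF) (hCDU : Stmt_CDU)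
    {F : Subgroup (Equiv.Perm Ω)}
    (hF1 : ∀ a b : Ω, ∃ σ ∈ F, σ a = b)
    (hF2 : ∀ N : Subgroup (Equiv.Perm Ω), N ≤ F →
        (∀ f ∈ F, ∀ n ∈ N, f * n * f⁻¹ ∈ N) →
        ((∀ a b : Ω, ∃ σ ∈ N, σ a = b) ∨ (∀ σ ∈ N, ∀ a : Ω, σ a = a → σ = 1)))
    (hF3 : ∀ p : ℕ, p.Prime → Cond F p)
    (hT : Γ.IsTree) :
    ∃ S : Finset (Subgroup (Γ ≃g Γ)), ∀ H : Subgroup (Γ ≃g Γ),
      (∀ v : V, {g : Γ ≃g Γ | g ∈ H ∧ g v = v}.Finite) →
      (∀ x : V, ∃ e : Γ.neighborSet x ≃ Ω, LA Γ H F x e) →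
      ((∃ g ∈ H, ∃ x y : V, Γ.Adj x y ∧ g x = y ∧ g y = x ∧ g * g = 1) ∨
        (∀ x y : V, ∃ g ∈ H, g x = y)) →
      (∃ K ∈ S, ∃ a : Γ ≃g Γ, H = K.map (MulAut.conj a).toMonoidHom) ∧
      ∀ v : V, Nat.card {g : Γ ≃g Γ // g ∈ H ∧ g v = v} ≤ bndu (Fintype.card Ω) := by
  obtain ⟨o⟩ := hT.connected.nonempty
  obtain ⟨S, hS⟩ := MP_6d7bb4_psv.p_FIN (MP_6d7bb4_psv.p_CNJ MP_6d7bb4_psv.p_NF
    MP_6d7bb4_psv.p_DST) V Γ hT o (bndu (Fintype.card Ω))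
  refine ⟨S, fun H h1 h2 h3 => ?_⟩
  have harc := (MP_6d7bb4_psv.p_ARC Ω V F Γ H hT.connected hF1 h2 h3.symm).1
  have hb : ∀ x : V, Nat.card {g : Γ ≃g Γ // g ∈ H ∧ g x = x} ≤ bndu (Fintype.card Ω) := by
    intro x
    obtain ⟨hL, hf⟩ := faithfulu hFIW hBAU1 hSYS hBU1 hSYU hVTF hCDU hF2 hF3 hT.connected h1 h2
      harc x
    have h1 := card_st hL x (rT (Fintype.card Ω) + 2) hf
    have h2 : Nat.card {g : Γ ≃g Γ // g ∈ H ∧ g x = x} = Nat.card (stabilizer H x) := by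
      refine Nat.card_congr
        { toFun := fun g => ⟨⟨g.1, g.2.1⟩, g.2.2⟩
          invFun := fun g => ⟨g.1.1, g.1.2, g.2⟩
          left_inv := fun g => rfl
          right_inv := fun g => rfl }
    rw [h2]
    exact h1
  exact ⟨hS H ⟨h1, harc, hb o⟩, hb⟩

end main

end Pool.Agent.Work.MP_6d7bb4.h65u
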