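import Pool.Agent.Work.MP_6d7bb4_S.All
import Pool.Agent.Work.MP_6d7bb4_h65u.Final
import Pool.Agent.Work.MP_6d7bb4_h65u.Bau
import Pool.Agent.Work.MP_6d7bb4_h65u.B_ADJ
import Pool.Agent.Work.MP_6d7bb4_h65u.B_CAU
import Pool.Agent.Work.MP_6d7bb4_h65u.B_CDU
import Pool.Agent.Work.MP_6d7bb4_h65u.B_CFG
import Pool.Agent.Work.MP_6d7bb4_h65u.B_CFI
import Pool.Agent.Work.MP_6d7bb4_h65u.B_EIG
import Pool.Agent.Work.MP_6d7bb4_h65u.B_GNL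
import Pool.Agent.Work.MP_6d7bb4_h65u.B_GRD
import Pool.Agent.Work.MP_6d7bb4_h65u.B_PSG
import Pool.Agent.Work.MP_6d7bb4_h65u.B_PSR
import Pool.Agent.Work.MP_6d7bb4_h65u.B_SYU
import Pool.Agent.Work.MP_6d7bb4_h65u.B_VMD
import Pool.Agent.Work.MP_6d7bb4_h65u.B_VTF

set_option autoImplicit false

/-! # MP_6d7bb4: groups with at most one offender at some primes; assembly (helper65) -/

namespace Pool.Agent.Work.MP_6d7bb4.h65u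

open MulAction Pool.Agent.Work.MP_6d7bb4.helper94 Pool.Agent.Work.MP_6d7bb4.helper94.Sol

theorem p_CFI : Stmt_CFI := s_CFI
theorem p_CFG : Stmt_CFG := s_CFG p_CFI
theorem p_VMD : Stmt_VMD := s_VMD p_FMB p_CFG
theorem p_BU1 : Stmt_BU1 := s_BU1 p_TH1
theorem p_BU2 : Stmt_BU2 := s_BU2 p_TH1 p_VMD p_BU1
theorem p_BU3 : Stmt_BU3 := s_BU3 p_TH1 p_BU1 p_BU2
theorem p_BU4 : Stmt_BU4 := s_BU4 p_FMB p_BU1 p_BU3
theorem p_SYU : Stmt_SYU := s_SYU p_TH1 p_BST p_VMD p_BU1 p_BU4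
theorem p_VTF : Stmt_VTF := s_VTF
theorem p_GRD : Stmt_GRD := s_GRD
theorem p_EIG : Stmt_EIG := s_EIG
theorem p_GNL : Stmt_GNL := s_GNL
theorem p_ADJ : Stmt_ADJ := s_ADJ
theorem p_CDU : Stmt_CDU := s_CDU p_GRD p_EIG p_GNL p_ADJ
theorem p_CAU : Stmt_CAU := s_CAU
theorem p_PSR : Stmt_PSR := s_PSR
theorem p_PSG : Stmt_PSG := s_PSG p_PSR

section main
variable {V : Type} {Γ : SimpleGraph V} {Ω : Type}

/-- finitely many classes, bounded stabilisers -/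
theorem mainu [Fintype Ω] {F : Subgroup (Equiv.Perm Ω)}
    (hF1 : ∀ a b : Ω, ∃ σ ∈ F, σ a = b)
    (hF2 : ∀ N : Subgroup (Equiv.Perm Ω), N ≤ F →
        (∀ f ∈ F, ∀ n ∈ N, f * n * f⁻¹ ∈ N) →
        ((∀ a b : Ω, ∃ σ ∈ N, σ a = b) ∨ (∀ σ ∈ N, ∀ a : Ω, σ a = a → σ = 1)))
    (hF3 : ∀ p : ℕ, p.Prime → Cond F p)
    (hT : Γ.IsTree) :
    ∃ S : Finset (Subgroup (Γ ≃g Γ)), ∀ H : Subgroup (Γ ≃g Γ),
      (∀ v : V, {g : Γ ≃g Γ | g ∈ H ∧ g v = v}.Finite) →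
      (∀ x : V, ∃ e : Γ.neighborSet x ≃ Ω, LA Γ H F x e) →
      ((∃ g ∈ H, ∃ x y : V, Γ.Adj x y ∧ g x = y ∧ g y = x ∧ g * g = 1) ∨
        (∀ x y : V, ∃ g ∈ H, g x = y)) →
      (∃ K ∈ S, ∃ a : Γ ≃g Γ, H = K.map (MulAut.conj a).toMonoidHom) ∧
      ∀ v : V, Nat.card {g : Γ ≃g Γ // g ∈ H ∧ g v = v} ≤ bndu (Fintype.card Ω) :=
  psvu p_FIW p_BAU1 p_SYS p_BU1 p_SYU p_VTF p_CDU hF1 hF2 hF3 hT

end main

end Pool.Agent.Work.MP_6d7bb4.h65u
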