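import Pool.Agent.Work.MP_6d7bb4_h65u.Interface4

set_option autoImplicit false
set_option linter.unusedSectionVars false

/-! # MP_6d7bb4: block CEU, condition (E) excludes offenders -/

namespace Pool.Agent.Work.MP_6d7bb4.h65u

open MulAction Pool.Agent.Work.MP_6d7bb4.helper94 Pool.Agent.Work.MP_6d7bb4.helper94.Sol

namespace X_CEU

theorem map_eq_cj {G : Type} [Group G] (f : G) (T : Subgroup G) :
    T.map (MulAut.conj f).toMonoidHom = cj f T := by
  ext x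
  rw [mem_cj]
  constructor
  · rintro ⟨t, ht, rfl⟩
    have h : f⁻¹ * ((MulAut.conj f).toMonoidHom t) * f = t := by
      show f⁻¹ * (f * t * f⁻¹) * f = t
      group
    rw [h]
    exact ht
  · intro h
    refine ⟨f⁻¹ * x * f, h, ?_⟩
    show f * (f⁻¹ * x * f) * f⁻¹ = x
    group

theorem ehy {Ω : Type} {F : Subgroup (Equiv.Perm Ω)} {p : ℕ} (h : CondE F p) :
    ∃ 𝒩, Ehy F p 𝒩 := by
  obtain ⟨𝒩, h1, h2, h3, h4⟩ := h
  refine ⟨𝒩, ⟨fun T hT => (h1 T hT).1, fun T hT => (h1 T hT).2.1, ?_, h2, h3, ?_⟩⟩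
  · intro T hT f hf
    rw [← map_eq_cj]
    exact (h1 T hT).2.2 f hf
  · intro ω N hN hω hn hp n hnN T hT hcj t ht
    rw [← map_eq_cj] at hcj
    exact h4 ω N hN hω hn hp n hnN T hT hcj t ht

/-- the image of a conjugate -/
theorem map_cj {X G : Type} [Group X] [Group G] (f : X →* G) (x : X) (T : Subgroup X) :
    (cj x T).map f = cj (f x) (T.map f) := by
  rw [← map_eq_cj, ← map_eq_cj, Subgroup.map_map, Subgroup.map_map]
  congr 1
  ext y
  show f (x * y * x⁻¹) = f x * f y * (f x)⁻¹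
  rw [map_mul, map_mul, map_inv]

/-- a perfect commutative group is trivial -/
theorem triv_of_comm {G : Type} [Group G] {K : Subgroup G} (h1 : ⁅K, K⁆ = K)
    (h2 : ∀ k ∈ K, ∀ l ∈ K, k * l = l * k) : ∀ k ∈ K, k = 1 := by
  have h3 : ⁅K, K⁆ ≤ ⊥ := by
    rw [Subgroup.commutator_le]
    intro a ha b hb
    rw [Subgroup.mem_bot, commutatorElement_def, h2 a ha b hb]
    group
  intro k hk
  rw [← h1] at hk
  exact Subgroup.mem_bot.1 (h3 hk)

end X_CEU

open X_CEU in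
theorem s_CEU (hKOM : Stmt_KOM) (hKTC : Stmt_KTC) (hDIC : Stmt_DIC) (hFIX : Stmt_FIX)
    (hCMP : Stmt_CMP) : Stmt_CEU := by
  intro Ω F p _ hE
  obtain ⟨𝒩, hN⟩ := ehy hE
  intro X _ _ π hπ ω Y P hY hP S _ _ ρ A hAP hoff
  exfalso
  set R : Subgroup X := Subgroup.normalClosure (P : Set X) with hRdef
  have hRn : R.Normal := Subgroup.normalClosure_normal
  have hkerY : π.ker ≤ Y := by
    intro x hx
    rw [hY, MonoidHom.mem_ker.1 hx]
    rfl
  obtain ⟨hk1, -⟩ := hKOM X (Equiv.Perm Ω) π p Y P hkerY hP S ρ hoff.ex hoff.irr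
  obtain ⟨hKT1, hKT2⟩ := hKTC X (Equiv.Perm Ω) π R S ρ hRn hk1
  obtain ⟨hD1, -⟩ := hDIC Ω F p 𝒩 hN X π hπ ω Y P hY hP
  have hF := hFIX Ω F p 𝒩 hN X π hπ ω Y P hY hP S ρ hoff.ex hoff.irr
  have hD : ∀ b ∈ P, ∀ T ∈ 𝒩, cj (π b) T = T → ∀ t ∈ T, π b * t = t * π b := by
    intro b hb T hT hcj t ht
    have h := hD1 1 b hb T hT
    rw [one_mul, inv_one, mul_one] at h
    exact h hcj t ht
  have hfe : Finite (AddMonoid.End S) :=
    Finite.of_injective (fun f : AddMonoid.End S => (f : S → S)) DFunLike.coe_injective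
  have hfu : Finite (AddMonoid.End S)ˣ :=
    Finite.of_injective (fun u : (AddMonoid.End S)ˣ => (u : AddMonoid.End S)) Units.val_injective
  let ρ' : X →* (AddMonoid.End S)ˣ := ρ.toHomUnits
  have hval : ∀ x, ((ρ' x : (AddMonoid.End S)ˣ) : AddMonoid.End S) = ρ x := fun x => rfl
  -- the members which move something
  let good : Subgroup (Equiv.Perm Ω) → Prop := fun T =>
    T ∈ 𝒩 ∧ T ≤ R.map π ∧ ∃ k ∈ KT π R T, ρ k ≠ 1
  have hgood : ∀ (x : X) (T : Subgroup (Equiv.Perm Ω)), good T → good (cj (π x) T) := by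
    intro x T hT
    refine ⟨hN.cl T hT.1 (π x) (by rw [← hπ]; exact ⟨x, rfl⟩), ?_, ?_⟩
    · intro t ht
      rw [mem_cj] at ht
      obtain ⟨r, hr, hrt⟩ := hT.2.1 ht
      refine ⟨x * r * x⁻¹, hRn.conj_mem r hr x, ?_⟩
      rw [map_mul, map_mul, hrt, map_inv]
      group
    · obtain ⟨k, hk, hkne⟩ := hT.2.2
      refine ⟨x * k * x⁻¹, ?_, ?_⟩
      · rw [hKT1 x T]
        exact conj_mem_cj hk
      · intro h3
        apply hkne
        have h4 : k = x⁻¹ * (x * k * x⁻¹) * x := by group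
        rw [h4, map_mul, map_mul, h3, mul_one, ← map_mul, inv_mul_cancel, map_one]
  have hcjmap : ∀ (x : X) (T : Subgroup (Equiv.Perm Ω)),
      cj (ρ' x) ((KT π R T).map ρ') = (KT π R (cj (π x) T)).map ρ' := by
    intro x T
    rw [← map_cj, ← hKT1 x T]
  -- different members commute
  have hcomm : ∀ T T1 : Subgroup (Equiv.Perm Ω), good T → good T1 → T ≠ T1 →
      ∀ k ∈ (KT π R T).map ρ', ∀ l ∈ (KT π R T1).map ρ', k * l = l * k := by
    rintro T T1 hT hT1 hne _ ⟨k, hk, rfl⟩ _ ⟨l, hl, rfl⟩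
    have hkT : π k ∈ T := by
      have h := (hKT2 T (hN.pf T hT.1) hT.2.1).1
      rw [← h]
      exact ⟨k, hk, rfl⟩
    have h2 := (hKT2 T1 (hN.pf T1 hT1.1) hT1.2.1).2.1 k
      (fun t ht => hN.cm T hT.1 T1 hT1.1 hne (π k) hkT t ht) l hl
    exact Units.ext h2
  have hperf : ∀ T, good T → ⁅(KT π R T).map ρ', (KT π R T).map ρ'⁆ = (KT π R T).map ρ' :=
    fun T hT => (hKT2 T (hN.pf T hT.1) hT.2.1).2.2
  have hfix : ∀ T, good T → ∀ a ∈ A, cj (ρ' a) ((KT π R T).map ρ') = (KT π R T).map ρ' →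
      cj (π a) T = T := by
    intro T hT a ha hcj
    by_contra hne
    have h1 := hcomm T (cj (π a) T) hT (hgood a T hT) (fun h => hne h.symm)
    rw [← hcjmap a T, hcj] at h1
    have h2 := triv_of_comm (hperf T hT) h1
    obtain ⟨k, hk, hkne⟩ := hT.2.2
    apply hkne
    have h3 := h2 (ρ' k) ⟨k, hk, rfl⟩
    rw [← hval k, h3]
    rfl
  have hmain := hCMP p (AddMonoid.End S)ˣ S (Units.coeHom (AddMonoid.End S))
    {L | ∃ T, good T ∧ L = (KT π R T).map ρ'} (A.map ρ') hoff.ex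
    (by
      rintro _ ⟨a, ha, rfl⟩ _ ⟨b, hb, rfl⟩
      rw [← map_mul, hoff.ab a ha b hb, map_mul])
    (by
      rintro _ ⟨a, ha, rfl⟩
      rw [← map_pow, hoff.pw a ha, map_one])
    (by
      rintro _ ⟨T, hT, rfl⟩
      refine ⟨hperf T hT, ?_⟩
      obtain ⟨k, hk, hkne⟩ := hT.2.2
      exact ⟨ρ' k, ⟨k, hk, rfl⟩, hkne⟩)
    (by
      rintro _ ⟨T, hT, rfl⟩ _ ⟨a, ha, rfl⟩
      exact ⟨cj (π a) T, hgood a T hT, hcjmap a T⟩)
    (by
      rintro _ ⟨T, hT, rfl⟩ _ ⟨T1, hT1, rfl⟩ hne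
      refine hcomm T T1 hT hT1 fun h => hne ?_
      rw [h])
    (by
      rintro _ ⟨T, hT, rfl⟩ _ ⟨a, ha, rfl⟩ hcj _ ⟨k, hk, rfl⟩
      have h1 := hfix T hT a ha hcj
      have h2 := hD a (hAP ha) T hT.1 h1
      exact Units.ext ((hKT2 T (hN.pf T hT.1) hT.2.1).2.1 a h2 k hk))
    (by
      rintro _ ⟨a, ha, rfl⟩ hall
      apply Units.ext
      rw [hval a, Units.val_one]
      refine hF a (hAP ha) fun T hT hle hex => ?_
      exact hfix T ⟨hT, hle, hex⟩ a ha (hall _ ⟨T, ⟨hT, hle, hex⟩, rfl⟩))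
  have hfb : FixedBy (Units.coeHom (AddMonoid.End S)) (A.map ρ') = FixedBy ρ A := by
    ext s
    rw [mem_FixedBy, mem_FixedBy]
    constructor
    · intro h a ha
      exact h (ρ' a) ⟨a, ha, rfl⟩
    · rintro h _ ⟨a, ha, rfl⟩
      exact h a ha
  have hker : ρ.ker = ρ'.ker := by
    ext x
    rw [MonoidHom.mem_ker, MonoidHom.mem_ker]
    constructor
    · intro h
      apply Units.ext
      rw [hval x, h]
      rfl
    · intro h
      rw [← hval x, h]
      rfl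
  have hidx : ρ.ker.relIndex A = Nat.card (A.map ρ') := by
    rw [hker, Subgroup.relIndex_ker]
  have hle : Nat.card (A.map ρ') ^ 2 ≤ Nat.card (A.map ρ') := by
    calc Nat.card (A.map ρ') ^ 2 ≤ (FixedBy (Units.coeHom (AddMonoid.End S)) (A.map ρ')).index :=
          hmain
      _ = (FixedBy ρ A).index := by rw [hfb]
      _ ≤ ρ.ker.relIndex A := hoff.of
      _ = Nat.card (A.map ρ') := hidx
  obtain ⟨a, ha, hane⟩ := hoff.nt
  have hfin : Finite (A.map ρ') := inferInstance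
  have hone : 1 < Nat.card (A.map ρ') := by
    rw [Finite.one_lt_card_iff_nontrivial]
    refine ⟨⟨ρ' a, ⟨a, ha, rfl⟩⟩, 1, fun h => hane ?_⟩
    have h2 : ρ' a = 1 := congrArg Subtype.val h
    rw [← hval a, h2]
    rfl
  nlinarith

end Pool.Agent.Work.MP_6d7bb4.h65u
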