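import Pool.Agent.Work.MP_6d7bb4_h65u.Interface4

set_option autoImplicit false
set_option linter.unusedSectionVars false

/-! # MP_6d7bb4, condition (E), block CMP: an elementary abelian group which permutes commuting
perfect groups -/

namespace Pool.Agent.Work.MP_6d7bb4.h65u

open MulAction Pool.Agent.Work.MP_6d7bb4.helper94 Pool.Agent.Work.MP_6d7bb4.helper94.Sol

namespace X_CMP

variable {G : Type} [Group G]

theorem cj_mul' (a b : G) (K : Subgroup G) : cj (a * b) K = cj a (cj b K) := by
  ext h
  rw [mem_cj, mem_cj, mem_cj]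
  have : (a * b)⁻¹ * h * (a * b) = b⁻¹ * (a⁻¹ * h * a) * b := by group
  rw [this]

theorem cj_one' (K : Subgroup G) : cj 1 K = K := by
  ext h
  rw [mem_cj]
  simp

/-- the elements of `A` which normalise `K` -/
def stb (A K : Subgroup G) : Subgroup G where
  carrier := {a | a ∈ A ∧ cj a K = K}
  one_mem' := ⟨A.one_mem, cj_one' K⟩
  mul_mem' := by
    rintro a b ⟨ha, ha'⟩ ⟨hb, hb'⟩
    exact ⟨A.mul_mem ha hb, by rw [cj_mul', hb', ha']⟩
  inv_mem' := by
    rintro a ⟨ha, ha'⟩
    refine ⟨A.inv_mem ha, ?_⟩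
    calc cj a⁻¹ K = cj a⁻¹ (cj a K) := by rw [ha']
      _ = K := by rw [← cj_mul', inv_mul_cancel, cj_one']

theorem mem_stb {A K : Subgroup G} {a : G} : a ∈ stb A K ↔ a ∈ A ∧ cj a K = K := Iff.rfl

variable {V : Type} [AddCommGroup V]

/-- the centraliser of `C` acts on the fixed points of `C` -/
def res (σ : G →* AddMonoid.End V) (C : Subgroup G) :
    Subgroup.centralizer (C : Set G) →* AddMonoid.End (FixedBy σ C) where
  toFun g :=
    { toFun := fun u => ⟨σ g.1 u.1, by
        intro c hc
        have h1 : c * g.1 = g.1 * c := Subgroup.mem_centralizer_iff.1 g.2 c hc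
        have h2 : σ c (σ g.1 u.1) = σ g.1 (σ c u.1) := by
          have h3 : σ c (σ g.1 u.1) = (σ c * σ g.1) u.1 := rfl
          rw [h3, ← map_mul, h1, map_mul]
          rfl
        rw [h2, u.2 c hc]⟩
      map_zero' := by
        apply Subtype.ext
        exact map_zero _
      map_add' := by
        intro u v
        apply Subtype.ext
        exact map_add (σ g.1) _ _ }
  map_one' := by
    ext u
    show σ 1 u.1 = u.1
    rw [map_one]
    rfl
  map_mul' := by
    intro g h
    ext u
    show σ (g.1 * h.1) u.1 = σ g.1 (σ h.1 u.1)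
    rw [map_mul]
    rfl

theorem res_val (σ : G →* AddMonoid.End V) (C : Subgroup G)
    (g : Subgroup.centralizer (C : Set G)) (u : FixedBy σ C) :
    ((res σ C g u : FixedBy σ C) : V) = σ g.1 u.1 := rfl

end X_CMP

open X_CMP in
theorem s_CMP (hTAB : Stmt_TAB) (hORB : Stmt_ORB) : Stmt_CMP := by
  intro p _ G _ _ V _ _ σ 𝒦 A hV
  induction hn : Nat.card A using Nat.strong_induction_on generalizing A with
  | _ n ih =>
  intro hab hpow hK hcl hcm hcen hfa
  rw [← hn]
  by_cases hbot : A = ⊥
  · subst hbot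
    rw [Subgroup.card_bot]
    have : (FixedBy σ (⊥ : Subgroup G)).index ≠ 0 := AddSubgroup.index_ne_zero_of_finite
    omega
  obtain ⟨a0, ha0, ha1⟩ : ∃ a ∈ A, a ≠ 1 := by
    by_contra h
    push Not at h
    exact hbot ((Subgroup.eq_bot_iff_forall A).2 h)
  obtain ⟨K, hKm, hKa⟩ : ∃ K ∈ 𝒦, cj a0 K ≠ K := by
    by_contra h
    push Not at h
    exact ha1 (hfa a0 ha0 h)
  set C := stb A K with hC
  have hCA : C ≤ A := fun a ha => ha.1
  have hlt : Nat.card C < n := by
    rw [← hn]
    have h1 : C ≠ A := fun h => hKa (h.symm ▸ ha0 : a0 ∈ C).2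
    have h2 : C < A := lt_of_le_of_ne hCA h1
    exact Set.ncard_lt_ncard (s := (C : Set G)) (t := (A : Set G)) h2 (Set.toFinite _)
  have hCK : ∀ c ∈ C, ∀ k ∈ K, c * k = k * c := fun c hc => hcen K hKm c hc.1 hc.2
  have h1 := ih (Nat.card C) hlt C rfl (fun a ha b hb => hab a (hCA ha) b (hCA hb))
    (fun a ha => hpow a (hCA ha)) hK (fun K hK a ha => hcl K hK a (hCA ha)) hcm
    (fun K hK a ha => hcen K hK a (hCA ha)) (fun a ha => hfa a (hCA ha))
  have hAG : A ≤ Subgroup.centralizer (C : Set G) := by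
    intro a ha
    rw [Subgroup.mem_centralizer_iff]
    intro c hc
    exact hab c (hCA hc) a ha
  have hKG : K ≤ Subgroup.centralizer (C : Set G) := by
    intro k hk
    rw [Subgroup.mem_centralizer_iff]
    intro c hc
    exact hCK c hc k hk
  have hCp : IsPGroup p C := by
    intro c
    refine ⟨1, ?_⟩
    apply Subtype.ext
    rw [pow_one]
    exact hpow c.1 (hCA c.2)
  have hO := hORB p (Subgroup.centralizer (C : Set G)) (FixedBy σ C) (res σ C)
    (A.subgroupOf _) (C.subgroupOf _) (K.subgroupOf _)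
    (by
      intro v
      apply Subtype.ext
      exact hV v.1)
    (Subgroup.comap_mono hCA)
    (by
      intro a ha b hb
      apply Subtype.ext
      exact hab a.1 ha b.1 hb)
    (by
      intro a ha
      apply Subtype.ext
      exact hpow a.1 ha)
    (by
      intro c hc
      ext u
      exact u.2 c.1 hc)
    (by
      intro c hc k hk
      apply Subtype.ext
      exact hCK c.1 hc k.1 hk)
    (by
      intro a ha hac k hk l hl
      apply Subtype.ext
      have h2 : cj a.1 K ≠ K := fun h => hac (show a.1 ∈ C from ⟨ha, h⟩)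
      exact hcm (cj a.1 K) (hcl K hKm a.1 ha) K hKm h2 _ (conj_mem_cj hk) l.1 hl)
    (by
      apply Subgroup.map_injective (Subgroup.centralizer (C : Set G)).subtype_injective
      rw [Subgroup.map_commutator, Subgroup.map_subgroupOf_eq_of_le hKG]
      exact (hK K hKm).1)
    (by
      by_contra h
      push Not at h
      obtain ⟨k, hk, hk1⟩ := (hK K hKm).2
      refine hk1 (hTAB p G V σ C K hV hCp (hK K hKm).1 hCK ?_ k hk)
      intro v hv d hd
      have h2 := h ⟨d, hKG hd⟩ hd
      have h3 := congrArg (fun f => ((f ⟨v, hv⟩ : FixedBy σ C) : V)) h2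
      exact h3)
  rw [Subgroup.relIndex_subgroupOf hAG] at hO
  have hle : FixedBy σ A ≤ FixedBy σ C := fun v hv c hc => hv c (hCA hc)
  have hsub : (FixedBy σ A).addSubgroupOf (FixedBy σ C) =
      FixedBy (res σ C) (A.subgroupOf (Subgroup.centralizer (C : Set G))) := by
    ext u
    rw [AddSubgroup.mem_addSubgroupOf, mem_FixedBy, mem_FixedBy]
    constructor
    · intro h a ha
      apply Subtype.ext
      exact h a.1 ha
    · intro h a ha
      have h2 := h ⟨a, hAG ha⟩ ha
      exact congrArg Subtype.val h2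
  have hidx : (FixedBy (res σ C) (A.subgroupOf (Subgroup.centralizer (C : Set G)))).index *
      (FixedBy σ C).index = (FixedBy σ A).index := by
    rw [← hsub]
    exact AddSubgroup.relIndex_mul_index hle
  have hcard : Nat.card C * C.relIndex A = Nat.card A := by
    have h2 := Subgroup.relIndex_mul_relIndex ⊥ C A bot_le hCA
    rwa [Subgroup.relIndex_bot_left, Subgroup.relIndex_bot_left] at h2
  calc Nat.card A ^ 2 = C.relIndex A ^ 2 * Nat.card C ^ 2 := by rw [← hcard]; ring
    _ ≤ _ := Nat.mul_le_mul hO h1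
    _ = _ := hidx

end Pool.Agent.Work.MP_6d7bb4.h65u
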