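import Pool.Agent.Work.MP_6d7bb4_h65u.Interface4

set_option autoImplicit false
set_option linter.unusedSectionVars false

/-! # MP_6d7bb4, block DIC: contained or centralised (helper81) -/

namespace Pool.Agent.Work.MP_6d7bb4.h65u

open MulAction Pool.Agent.Work.MP_6d7bb4.helper94 Pool.Agent.Work.MP_6d7bb4.helper94.Sol
open scoped commutatorElement

theorem s_DIC : Stmt_DIC := by
  intro Ω F p 𝒩 hE X _ π hπ ω Y P hY hP
  have hF : ∀ x : X, π x ∈ F := fun x => by rw [← hπ]; exact ⟨x, rfl⟩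
  have hF' : ∀ f ∈ F, ∃ x : X, π x = f := fun f hf => by rw [← hπ] at hf; exact hf
  have h1 : ∀ y : X, ∀ b ∈ P, ∀ T ∈ 𝒩, cj (π (y * b * y⁻¹)) T = T → ∀ t ∈ T,
      π (y * b * y⁻¹) * t = t * π (y * b * y⁻¹) := by
    intro y b hb T hT hcj t ht
    refine hE.mv (π y ω) (P.map (π.comp (MulAut.conj y).toMonoidHom)) ?_ ?_ ?_ (hP.pg.map _)
      (π (y * b * y⁻¹)) ?_ T hT hcj t ht
    · rintro _ ⟨a, -, rfl⟩
      exact hF _
    · rintro _ ⟨a, ha, rfl⟩
      show π (y * a * y⁻¹) (π y ω) = π y ω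
      have e0 : (π y)⁻¹ (π y ω) = ω := (π y).symm_apply_apply ω
      rw [map_mul, map_mul, map_inv, Equiv.Perm.mul_apply, Equiv.Perm.mul_apply, e0,
        (hY a).mp (hP.le ha)]
    · rintro f hf hfω _ ⟨a, ha, rfl⟩
      obtain ⟨x, rfl⟩ := hF' f hf
      have hx : y⁻¹ * x * y ∈ Y := by
        rw [hY, map_mul, map_mul, map_inv, Equiv.Perm.mul_apply, Equiv.Perm.mul_apply, hfω]
        exact (π y).symm_apply_apply ω
      refine ⟨(y⁻¹ * x * y) * a * (y⁻¹ * x * y)⁻¹, hP.nm _ hx a ha, ?_⟩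
      show π (y * ((y⁻¹ * x * y) * a * (y⁻¹ * x * y)⁻¹) * y⁻¹) = π x * π (y * a * y⁻¹) * (π x)⁻¹
      rw [← map_inv, ← map_mul, ← map_mul]
      congr 1
      group
    · exact ⟨b, hb, rfl⟩
  refine ⟨h1, fun T hT => ?_⟩
  by_cases hall : ∀ y : X, ∀ b ∈ P, cj (π (y * b * y⁻¹)) T = T
  · right
    have h2 : Subgroup.normalClosure (P : Set X) ≤
        (Subgroup.centralizer (T : Set (Equiv.Perm Ω))).comap π := by
      unfold Subgroup.normalClosure
      rw [Subgroup.closure_le]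
      intro x hx
      obtain ⟨b, hb, hc⟩ := Group.mem_conjugatesOfSet_iff.mp hx
      obtain ⟨y, rfl⟩ := isConj_iff.mp hc
      show y * b * y⁻¹ ∈ (Subgroup.centralizer (T : Set (Equiv.Perm Ω))).comap π
      rw [Subgroup.mem_comap, Subgroup.mem_centralizer_iff]
      intro t ht
      exact (h1 y b hb T hT (hall y b hb) t ht).symm
    intro g hg t ht
    have h3 := h2 hg
    rw [Subgroup.mem_comap, Subgroup.mem_centralizer_iff] at h3
    exact (h3 t ht).symm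
  · left
    push Not at hall
    obtain ⟨y, b, hb, hne⟩ := hall
    set R : Subgroup X := Subgroup.normalClosure (P : Set X) with hR
    have hRn : R.Normal := Subgroup.normalClosure_normal
    have hbR : y * b * y⁻¹ ∈ R := hRn.conj_mem b (Subgroup.subset_normalClosure hb) y
    set g : Equiv.Perm Ω := π (y * b * y⁻¹) with hg
    have hgR : g ∈ R.map π := Subgroup.mem_map_of_mem π hbR
    have hconj : ∀ f ∈ F, ∀ r ∈ R.map π, f * r * f⁻¹ ∈ R.map π := by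
      rintro f hf _ ⟨r, hr, rfl⟩
      obtain ⟨x, rfl⟩ := hF' f hf
      refine ⟨x * r * x⁻¹, hRn.conj_mem r hr x, ?_⟩
      rw [map_mul, map_mul, map_inv]
    have hT' : cj g T ∈ 𝒩 := hE.cl T hT g (hF _)
    have h4 : ⁅T, T⁆ ≤ R.map π := by
      rw [Subgroup.commutator_le]
      intro s hs t ht
      have hu : g * t⁻¹ * g⁻¹ ∈ cj g T := conj_mem_cj (T.inv_mem ht)
      have hcm : s * (g * t⁻¹ * g⁻¹) = (g * t⁻¹ * g⁻¹) * s :=
        hE.cm T hT (cj g T) hT' (Ne.symm hne) s hs _ hu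
      have hc : t * (g * t⁻¹ * g⁻¹) ∈ R.map π := by
        have e1 : t * (g * t⁻¹ * g⁻¹) = (t * g * t⁻¹) * g⁻¹ := by group
        rw [e1]
        exact (R.map π).mul_mem (hconj t (hE.le T hT ht) g hgR) ((R.map π).inv_mem hgR)
      have hc2 := (R.map π).mul_mem (hconj s (hE.le T hT hs) _ hc) ((R.map π).inv_mem hc)
      have e2 : s * (t * (g * t⁻¹ * g⁻¹)) * s⁻¹ * (t * (g * t⁻¹ * g⁻¹))⁻¹ =
          ⁅s, t⁆ := by
        have e3 : s⁻¹ * (g * t⁻¹ * g⁻¹)⁻¹ = (g * t⁻¹ * g⁻¹)⁻¹ * s⁻¹ := by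
          rw [← mul_inv_rev, ← mul_inv_rev, hcm]
        rw [mul_inv_rev, commutatorElement_def]
        calc s * (t * (g * t⁻¹ * g⁻¹)) * s⁻¹ * ((g * t⁻¹ * g⁻¹)⁻¹ * t⁻¹)
            = s * t * (g * t⁻¹ * g⁻¹) * (s⁻¹ * (g * t⁻¹ * g⁻¹)⁻¹) * t⁻¹ := by group
          _ = s * t * (g * t⁻¹ * g⁻¹) * ((g * t⁻¹ * g⁻¹)⁻¹ * s⁻¹) * t⁻¹ := by rw [e3]
          _ = s * t * s⁻¹ * t⁻¹ := by group
      rw [← e2]
      exact hc2
    rw [hE.pf T hT] at h4
    exact h4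

end Pool.Agent.Work.MP_6d7bb4.h65u
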