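import Pool.Agent.Work.MP_6d7bb4_h65u.Interface4

set_option autoImplicit false

/-! # MP_6d7bb4, block DIG: groups of diagonal type satisfy condition (E) (helper38) -/

namespace Pool.Agent.Work.MP_6d7bb4.h65u

namespace DIG_X

/-- the centre of a nonabelian simple subgroup is trivial -/
theorem center {G : Type} [Group G] {T : Subgroup G} (hs : IsSimpleGroup T)
    (hn : ∃ s ∈ T, ∃ t ∈ T, s * t ≠ t * s) {z : G} (hz : z ∈ T) (hc : ∀ s ∈ T, z * s = s * z) :
    z = 1 := by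
  have hmem : (⟨z, hz⟩ : T) ∈ Subgroup.center T := by
    rw [Subgroup.mem_center_iff]
    intro s
    exact Subtype.ext (hc s s.2).symm
  rcases hs.eq_bot_or_eq_top_of_normal (Subgroup.center T) inferInstance with h | h
  · rw [h, Subgroup.mem_bot] at hmem
    exact congrArg Subtype.val hmem
  · exfalso
    obtain ⟨s, hs', t, ht', hst⟩ := hn
    have h1 : (⟨s, hs'⟩ : T) ∈ Subgroup.center T := by
      rw [h]
      trivial
    exact hst (congrArg Subtype.val (Subgroup.mem_center_iff.1 h1 ⟨t, ht'⟩)).symm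

/-- a nonabelian simple subgroup is perfect -/
theorem perfect {G : Type} [Group G] {T : Subgroup G} (hs : IsSimpleGroup T)
    (hn : ∃ s ∈ T, ∃ t ∈ T, s * t ≠ t * s) : ⁅T, T⁆ = T := by
  have h0 : (_root_.commutator T).map T.subtype = ⁅T, T⁆ := Subgroup.map_subtype_commutator T
  rcases hs.eq_bot_or_eq_top_of_normal (_root_.commutator T) inferInstance with h | h
  · exfalso
    rw [h, Subgroup.map_bot] at h0
    have h1 := Subgroup.commutator_eq_bot_iff_le_centralizer.1 h0.symm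
    obtain ⟨s, hs', t, ht', hst⟩ := hn
    exact hst ((Subgroup.mem_centralizer_iff.1 (h1 hs')) t ht').symm
  · rw [h, ← MonoidHom.range_eq_map, Subgroup.range_subtype] at h0
    exact h0.symm

/-- a finite nonabelian simple subgroup is not a `p`-group -/
theorem not_p {G : Type} [Group G] {T : Subgroup G} (hs : IsSimpleGroup T)
    (hn : ∃ s ∈ T, ∃ t ∈ T, s * t ≠ t * s) [Finite T] (p : ℕ) [Fact p.Prime] :
    ¬ IsPGroup p T := by
  intro hp
  have : Nontrivial T := hs.toNontrivial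
  have h1 := hp.center_nontrivial
  obtain ⟨z, hz⟩ := exists_ne (1 : Subgroup.center T)
  apply hz
  apply Subtype.ext
  apply Subtype.ext
  refine center hs hn z.1.2 (fun s hs' => ?_)
  exact (congrArg Subtype.val (Subgroup.mem_center_iff.1 z.2 ⟨s, hs'⟩)).symm

/-- powers induce the powers -/
theorem pow_ind {G : Type} [Group G] {T : Subgroup G} {g t : G} (ht : t ∈ T)
    (h : ∀ s ∈ T, g * s * g⁻¹ = t * s * t⁻¹) (k : ℕ) :
    ∀ s ∈ T, g ^ k * s * (g ^ k)⁻¹ = t ^ k * s * (t ^ k)⁻¹ := by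
  induction k with
  | zero =>
    intro s _
    rw [pow_zero, pow_zero]
  | succ k ih =>
    intro s hs
    have h1 : g ^ (k + 1) * s * (g ^ (k + 1))⁻¹ = g * (g ^ k * s * (g ^ k)⁻¹) * g⁻¹ := by
      rw [pow_succ']
      group
    have h2 : t ^ (k + 1) * s * (t ^ (k + 1))⁻¹ = t * (t ^ k * s * (t ^ k)⁻¹) * t⁻¹ := by
      rw [pow_succ']
      group
    rw [h1, h2, ih s hs]
    exact h _ (T.mul_mem (T.mul_mem (T.pow_mem ht k) hs) (T.inv_mem (T.pow_mem ht k)))

end DIG_X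

open DIG_X in
/-- DIG -/
theorem s_DIG : Stmt_DIG := by
  intro Ω F p _ hF hD
  obtain ⟨𝒩, h1, h2, h3, h4⟩ := hD
  refine ⟨𝒩, fun T hT => ⟨(h1 T hT).1, perfect (h1 T hT).2.1 (h1 T hT).2.2.1, (h1 T hT).2.2.2⟩,
    h2, h3, ?_⟩
  intro ω Q hQF hQω hQn hQp n hn T hT hnT t ht
  obtain ⟨M, hM⟩ : ∃ M, M = sSup 𝒩 := ⟨_, rfl⟩
  rw [← hM] at h3 h4
  have hTM : ∀ T ∈ 𝒩, T ≤ M := fun T hT => by
    rw [hM]
    exact le_sSup hT
  have hMF : M ≤ F := by
    rw [hM]
    exact sSup_le fun T hT => (h1 T hT).1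
  -- `F` normalises `M`
  have hMn : ∀ f ∈ F, ∀ m ∈ M, f * m * f⁻¹ ∈ M := by
    intro f hf
    have h5 : M ≤ M.comap (MulAut.conj f).toMonoidHom := by
      nth_rewrite 1 [hM]
      refine sSup_le fun T hT t ht => ?_
      have h6 := (h1 T hT).2.2.2 f hf
      exact hTM _ h6 (Subgroup.mem_map_of_mem _ ht)
    intro m hm
    exact h5 hm
  -- every element of `M` induces an inner automorphism of `T`
  have hI : ∀ T ∈ 𝒩, ∀ m ∈ M, ∃ t ∈ T, ∀ s ∈ T, m * s * m⁻¹ = t * s * t⁻¹ := by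
    intro T hT
    let I : Subgroup (Equiv.Perm Ω) :=
      { carrier := {m | ∃ t ∈ T, ∀ s ∈ T, m * s * m⁻¹ = t * s * t⁻¹}
        one_mem' := ⟨1, T.one_mem, fun s _ => rfl⟩
        mul_mem' := by
          rintro a b ⟨u, hu, hu'⟩ ⟨v, hv, hv'⟩
          refine ⟨u * v, T.mul_mem hu hv, fun s hs => ?_⟩
          have e1 : a * b * s * (a * b)⁻¹ = a * (b * s * b⁻¹) * a⁻¹ := by group
          have e2 : u * v * s * (u * v)⁻¹ = u * (v * s * v⁻¹) * u⁻¹ := by group
          rw [e1, e2, hv' s hs]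
          exact hu' _ (T.mul_mem (T.mul_mem hv hs) (T.inv_mem hv))
        inv_mem' := by
          rintro a ⟨u, hu, hu'⟩
          refine ⟨u⁻¹, T.inv_mem hu, fun s hs => ?_⟩
          have e1 := hu' (u⁻¹ * s * u) (T.mul_mem (T.mul_mem (T.inv_mem hu) hs) hu)
          have e2 : u * (u⁻¹ * s * u) * u⁻¹ = s := by group
          rw [e2] at e1
          calc a⁻¹ * s * a⁻¹⁻¹ = a⁻¹ * (a * (u⁻¹ * s * u) * a⁻¹) * a⁻¹⁻¹ := by rw [e1]
            _ = u⁻¹ * s * u⁻¹⁻¹ := by group }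
    have hMI : M ≤ I := by
      rw [hM]
      refine sSup_le fun T' hT' m hm => ?_
      by_cases hTT : T' = T
      · rw [hTT] at hm
        exact ⟨m, hm, fun s _ => rfl⟩
      · refine ⟨1, T.one_mem, fun s hs => ?_⟩
        rw [h2 T' hT' T hT hTT m hm s hs]
        group
    intro m hm
    exact hMI hm
  -- (1) `Q ⊓ M` is trivial
  have hQM : ∀ g ∈ Q, g ∈ M → g = 1 := by
    intro g hgQ hgM
    have hgT : ∀ T ∈ 𝒩, ∀ s ∈ T, g * s = s * g := by
      intro T hT
      obtain ⟨hTF, hTs, hTn, -⟩ := h1 T hT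
      have hfin : Finite T := by
        refine Finite.of_injective (Subgroup.inclusion hTF) (Subgroup.inclusion_injective hTF)
      let J : Subgroup T :=
        { carrier := {t | ∃ g' ∈ Q, g' ∈ M ∧ ∀ s ∈ T, g' * s * g'⁻¹ = (t : Equiv.Perm Ω) * s *
            (t : Equiv.Perm Ω)⁻¹}
          one_mem' := ⟨1, Q.one_mem, M.one_mem, fun s _ => rfl⟩
          mul_mem' := by
            rintro u v ⟨a, ha, ha', hu'⟩ ⟨b, hb, hb', hv'⟩
            refine ⟨a * b, Q.mul_mem ha hb, M.mul_mem ha' hb', fun s hs => ?_⟩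
            have e1 : a * b * s * (a * b)⁻¹ = a * (b * s * b⁻¹) * a⁻¹ := by group
            have e2 : ((u * v : T) : Equiv.Perm Ω) * s * ((u * v : T) : Equiv.Perm Ω)⁻¹ =
                (u : Equiv.Perm Ω) * ((v : Equiv.Perm Ω) * s * (v : Equiv.Perm Ω)⁻¹) *
                  (u : Equiv.Perm Ω)⁻¹ := by
              rw [Subgroup.coe_mul]
              group
            rw [e1, e2, hv' s hs]
            exact hu' _ (T.mul_mem (T.mul_mem v.2 hs) (T.inv_mem v.2))
          inv_mem' := by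
            rintro u ⟨a, ha, ha', hu'⟩
            refine ⟨a⁻¹, Q.inv_mem ha, M.inv_mem ha', fun s hs => ?_⟩
            have e1 := hu' ((u : Equiv.Perm Ω)⁻¹ * s * u)
              (T.mul_mem (T.mul_mem (T.inv_mem u.2) hs) u.2)
            have e2 : (u : Equiv.Perm Ω) * ((u : Equiv.Perm Ω)⁻¹ * s * u) *
                (u : Equiv.Perm Ω)⁻¹ = s := by group
            rw [e2] at e1
            rw [Subgroup.coe_inv]
            calc a⁻¹ * s * a⁻¹⁻¹
                = a⁻¹ * (a * ((u : Equiv.Perm Ω)⁻¹ * s * u) * a⁻¹) * a⁻¹⁻¹ := by rw [e1]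
              _ = (u : Equiv.Perm Ω)⁻¹ * s * (u : Equiv.Perm Ω)⁻¹⁻¹ := by group }
      have hJn : J.Normal := by
        constructor
        rintro u ⟨a, ha, ha', hu'⟩ v
        obtain ⟨m, hmM, hmω, hm⟩ := h4 ω T hT v v.2
        refine ⟨m * a * m⁻¹, hQn m (hMF hmM) hmω a ha,
          M.mul_mem (M.mul_mem hmM ha') (M.inv_mem hmM), fun s hs => ?_⟩
        have e0 : m⁻¹ * s * m = (v : Equiv.Perm Ω)⁻¹ * s * v := by
          have e1 := hm ((v : Equiv.Perm Ω)⁻¹ * s * v)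
            (T.mul_mem (T.mul_mem (T.inv_mem v.2) hs) v.2)
          have e2 : (v : Equiv.Perm Ω) * ((v : Equiv.Perm Ω)⁻¹ * s * v) *
                (v : Equiv.Perm Ω)⁻¹ = s := by group
          rw [e2] at e1
          calc m⁻¹ * s * m = m⁻¹ * (m * ((v : Equiv.Perm Ω)⁻¹ * s * v) * m⁻¹) * m := by rw [e1]
            _ = (v : Equiv.Perm Ω)⁻¹ * s * v := by group
        have hs1 : (v : Equiv.Perm Ω)⁻¹ * s * v ∈ T :=
          T.mul_mem (T.mul_mem (T.inv_mem v.2) hs) v.2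
        calc m * a * m⁻¹ * s * (m * a * m⁻¹)⁻¹ = m * (a * (m⁻¹ * s * m) * a⁻¹) * m⁻¹ := by group
          _ = m * ((u : Equiv.Perm Ω) * ((v : Equiv.Perm Ω)⁻¹ * s * v) *
                (u : Equiv.Perm Ω)⁻¹) * m⁻¹ := by rw [e0, hu' _ hs1]
          _ = (v : Equiv.Perm Ω) * ((u : Equiv.Perm Ω) * ((v : Equiv.Perm Ω)⁻¹ * s * v) *
                (u : Equiv.Perm Ω)⁻¹) * (v : Equiv.Perm Ω)⁻¹ :=
              hm _ (T.mul_mem (T.mul_mem u.2 hs1) (T.inv_mem u.2))
          _ = ((v * u * v⁻¹ : T) : Equiv.Perm Ω) * s * ((v * u * v⁻¹ : T) : Equiv.Perm Ω)⁻¹ := by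
              rw [Subgroup.coe_mul, Subgroup.coe_mul, Subgroup.coe_inv]
              group
      have hJ : J = ⊥ := by
        rcases hTs.eq_bot_or_eq_top_of_normal J hJn with h | h
        · exact h
        · exfalso
          apply not_p hTs hTn p
          intro u
          have hu : u ∈ J := by
            rw [h]
            trivial
          obtain ⟨a, ha, -, hu'⟩ := hu
          obtain ⟨k, hk⟩ := hQp ⟨a, ha⟩
          have hk' : a ^ p ^ k = 1 := congrArg Subtype.val hk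
          refine ⟨k, Subtype.ext ?_⟩
          rw [Subgroup.coe_pow, Subgroup.coe_one]
          refine center hTs hTn (T.pow_mem u.2 _) (fun s hs => ?_)
          have e1 := pow_ind u.2 hu' (p ^ k) s hs
          rw [hk', inv_one, mul_one, one_mul] at e1
          calc (u : Equiv.Perm Ω) ^ p ^ k * s
              = ((u : Equiv.Perm Ω) ^ p ^ k * s * ((u : Equiv.Perm Ω) ^ p ^ k)⁻¹) *
                  (u : Equiv.Perm Ω) ^ p ^ k := by group
            _ = s * (u : Equiv.Perm Ω) ^ p ^ k := by rw [← e1]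
      intro s hs
      obtain ⟨u, hu, hu'⟩ := hI T hT g hgM
      have h5 : (⟨u, hu⟩ : T) ∈ J := ⟨g, hgQ, hgM, hu'⟩
      rw [hJ, Subgroup.mem_bot] at h5
      have h6 : u = 1 := congrArg Subtype.val h5
      have e1 := hu' s hs
      rw [h6, one_mul, inv_one, mul_one] at e1
      calc g * s = g * s * g⁻¹ * g := by group
        _ = s * g := by rw [e1]
    have hgM' : ∀ m ∈ M, g * m = m * g := by
      have h5 : M ≤ Subgroup.centralizer {g} := by
        rw [hM]
        refine sSup_le fun T hT s hs => ?_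
        rw [Subgroup.mem_centralizer_singleton_iff]
        exact (hgT T hT s hs).symm
      intro m hm
      exact ((Subgroup.mem_centralizer_singleton_iff).1 (h5 hm)).symm
    apply Equiv.ext
    intro a
    obtain ⟨m, hm, hma⟩ := h3 ω a
    rw [Equiv.Perm.one_apply, ← hma]
    have h5 : (g * m) ω = (m * g) ω := by rw [hgM' m hm]
    rw [Equiv.Perm.mul_apply, Equiv.Perm.mul_apply, hQω g hgQ] at h5
    exact h5
  -- (2) `n` commutes with the stabiliser of `ω` in `M`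
  have hnm : ∀ m ∈ M, m ω = ω → n * m = m * n := by
    intro m hm hmω
    have h5 : n * m * n⁻¹ * m⁻¹ = 1 := by
      apply hQM
      · have e1 : n * m * n⁻¹ * m⁻¹ = n * (m * n⁻¹ * m⁻¹) := by group
        rw [e1]
        exact Q.mul_mem hn (hQn m (hMF hm) hmω _ (Q.inv_mem hn))
      · exact M.mul_mem (hMn n (hQF hn) m hm) (M.inv_mem hm)
    calc n * m = (n * m * n⁻¹ * m⁻¹) * (m * n) := by group
      _ = m * n := by rw [h5, one_mul]
  -- (3)
  obtain ⟨hTF, hTs, hTn, -⟩ := h1 T hT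
  have hnT1 : ∀ s ∈ T, n * s * n⁻¹ ∈ T := by
    intro s hs
    have : n * s * n⁻¹ ∈ T.map (MulAut.conj n).toMonoidHom := Subgroup.mem_map_of_mem _ hs
    rwa [hnT] at this
  have hnT2 : ∀ s ∈ T, ∃ s' ∈ T, n * s' * n⁻¹ = s := by
    intro s hs
    rw [← hnT] at hs
    obtain ⟨s', hs', h⟩ := hs
    exact ⟨s', hs', h⟩
  obtain ⟨m, hmM, hmω, hm⟩ := h4 ω T hT t ht
  have hcomm := hnm m hmM hmω
  have hz : t⁻¹ * (n * t * n⁻¹) = 1 := by
    refine center hTs hTn (T.mul_mem (T.inv_mem ht) (hnT1 t ht)) (fun s hs => ?_)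
    obtain ⟨s', hs', rfl⟩ := hnT2 s hs
    have e1 : n * (m * s' * m⁻¹) * n⁻¹ = m * (n * s' * n⁻¹) * m⁻¹ := by
      calc n * (m * s' * m⁻¹) * n⁻¹ = (n * m) * s' * (n * m)⁻¹ := by group
        _ = (m * n) * s' * (m * n)⁻¹ := by rw [hcomm]
        _ = m * (n * s' * n⁻¹) * m⁻¹ := by group
    rw [hm s' hs', hm _ (hnT1 s' hs')] at e1
    calc t⁻¹ * (n * t * n⁻¹) * (n * s' * n⁻¹)
        = t⁻¹ * (n * (t * s' * t⁻¹) * n⁻¹) * (n * t * n⁻¹) := by group
      _ = t⁻¹ * (t * (n * s' * n⁻¹) * t⁻¹) * (n * t * n⁻¹) := by rw [e1]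
      _ = n * s' * n⁻¹ * (t⁻¹ * (n * t * n⁻¹)) := by group
  calc n * t = t * (t⁻¹ * (n * t * n⁻¹)) * n := by group
    _ = t * n := by rw [hz, mul_one]

end Pool.Agent.Work.MP_6d7bb4.h65u
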