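import Mathlib

set_option autoImplicit false

/-! # MP_6d7bb4: permutation groups whose point stabilisers induce inner automorphisms (helper94) -/

namespace Pool.Agent.Work.MP_6d7bb4.h65u

/-- There is a set `𝒩` of nonabelian simple subgroups of `F`, closed under conjugation by elements of `F`,
such that different members commute, the group generated by all members is transitive, and for every point
`ω` and every member `T` the stabiliser of `ω` in `F` induces all inner automorphisms of `T`. -/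
def DiagF {Ω : Type} (F : Subgroup (Equiv.Perm Ω)) : Prop :=
  ∃ 𝒩 : Set (Subgroup (Equiv.Perm Ω)),
    (∀ T ∈ 𝒩, T ≤ F ∧ IsSimpleGroup T ∧ (∃ s ∈ T, ∃ t ∈ T, s * t ≠ t * s) ∧
      ∀ f ∈ F, T.map (MulAut.conj f).toMonoidHom ∈ 𝒩) ∧
    (∀ T ∈ 𝒩, ∀ T' ∈ 𝒩, T ≠ T' → ∀ t ∈ T, ∀ t' ∈ T', t * t' = t' * t) ∧
    (∀ a b : Ω, ∃ n ∈ sSup 𝒩, n a = b) ∧
    ∀ (ω : Ω), ∀ T ∈ 𝒩, ∀ t ∈ T, ∃ n ∈ F, n ω = ω ∧ ∀ s ∈ T, n * s * n⁻¹ = t * s * t⁻¹

end Pool.Agent.Work.MP_6d7bb4.h65u
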