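import Pool.Agent.Work.MP_6d7bb4_h65u.B_DIG
import Pool.Agent.Work.MP_6d7bb4_h65u.DefsF

set_option autoImplicit false

/-! # MP_6d7bb4, block DIJ: point stabilisers inducing inner automorphisms imply condition (E) (helper94) -/

namespace Pool.Agent.Work.MP_6d7bb4.h65u

/-- groups of diagonal type satisfy the weaker condition -/
theorem diag_diagF {Ω : Type} {F : Subgroup (Equiv.Perm Ω)} (h : Diag F) : DiagF F := by
  obtain ⟨𝒩, h1, h2, h3, h4⟩ := h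
  refine ⟨𝒩, h1, h2, h3, fun ω T hT t ht => ?_⟩
  obtain ⟨n, hn, h⟩ := h4 ω T hT t ht
  have hMF : sSup 𝒩 ≤ F := sSup_le fun T hT => (h1 T hT).1
  exact ⟨n, hMF hn, h⟩

open DIG_X in
/-- DIJ -/
theorem s_DIJ : ∀ (Ω : Type) (F : Subgroup (Equiv.Perm Ω)) (p : ℕ) [Fact p.Prime],
    Finite F → DiagF F → CondE F p := by
  intro Ω F p _ hF hD
  obtain ⟨𝒩, h1, h2, h3, h4⟩ := hD
  refine ⟨𝒩, fun T hT => ⟨(h1 T hT).1, perfect (h1 T hT).2.1 (h1 T hT).2.2.1, (h1 T hT).2.2.2⟩,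
    h2, h3, ?_⟩
  intro ω Q hQF hQω hQn hQp n hn T hT hnT t ht
  obtain ⟨hTF, hTs, hTn, -⟩ := h1 T hT
  have hfin : Finite T :=
    Finite.of_injective (Subgroup.inclusion hTF) (Subgroup.inclusion_injective hTF)
  let J : Subgroup T :=
    { carrier := {t | ∃ g' ∈ Q, ∀ s ∈ T, g' * s * g'⁻¹ = (t : Equiv.Perm Ω) * s *
        (t : Equiv.Perm Ω)⁻¹}
      one_mem' := ⟨1, Q.one_mem, fun s _ => rfl⟩
      mul_mem' := by
        rintro u v ⟨a, ha, hu'⟩ ⟨b, hb, hv'⟩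
        refine ⟨a * b, Q.mul_mem ha hb, fun s hs => ?_⟩
        have e1 : a * b * s * (a * b)⁻¹ = a * (b * s * b⁻¹) * a⁻¹ := by group
        have e2 : ((u * v : T) : Equiv.Perm Ω) * s * ((u * v : T) : Equiv.Perm Ω)⁻¹ =
            (u : Equiv.Perm Ω) * ((v : Equiv.Perm Ω) * s * (v : Equiv.Perm Ω)⁻¹) *
              (u : Equiv.Perm Ω)⁻¹ := by
          rw [Subgroup.coe_mul]
          group
        rw [e1, e2, hv' s hs]
        exact hu' _ (T.mul_mem (T.mul_mem v.2 hs) (T.inv_mem v.2))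
      inv_mem' := by
        rintro u ⟨a, ha, hu'⟩
        refine ⟨a⁻¹, Q.inv_mem ha, fun s hs => ?_⟩
        have e1 := hu' ((u : Equiv.Perm Ω)⁻¹ * s * u)
          (T.mul_mem (T.mul_mem (T.inv_mem u.2) hs) u.2)
        have e2 : (u : Equiv.Perm Ω) * ((u : Equiv.Perm Ω)⁻¹ * s * u) *
            (u : Equiv.Perm Ω)⁻¹ = s := by group
        rw [e2] at e1
        rw [Subgroup.coe_inv]
        calc a⁻¹ * s * a⁻¹⁻¹
            = a⁻¹ * (a * ((u : Equiv.Perm Ω)⁻¹ * s * u) * a⁻¹) * a⁻¹⁻¹ := by rw [e1]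
          _ = (u : Equiv.Perm Ω)⁻¹ * s * (u : Equiv.Perm Ω)⁻¹⁻¹ := by group }
  have hJn : J.Normal := by
    constructor
    rintro u ⟨a, ha, hu'⟩ v
    obtain ⟨m, hmF, hmω, hm⟩ := h4 ω T hT v v.2
    refine ⟨m * a * m⁻¹, hQn m hmF hmω a ha, fun s hs => ?_⟩
    have e0 : m⁻¹ * s * m = (v : Equiv.Perm Ω)⁻¹ * s * v := by
      have e1 := hm ((v : Equiv.Perm Ω)⁻¹ * s * v)
        (T.mul_mem (T.mul_mem (T.inv_mem v.2) hs) v.2)
      have e2 : (v : Equiv.Perm Ω) * ((v : Equiv.Perm Ω)⁻¹ * s * v) *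
            (v : Equiv.Perm Ω)⁻¹ = s := by group
      rw [e2] at e1
      calc m⁻¹ * s * m = m⁻¹ * (m * ((v : Equiv.Perm Ω)⁻¹ * s * v) * m⁻¹) * m := by rw [e1]
        _ = (v : Equiv.Perm Ω)⁻¹ * s * v := by group
    have hs1 : (v : Equiv.Perm Ω)⁻¹ * s * v ∈ T :=
      T.mul_mem (T.mul_mem (T.inv_mem v.2) hs) v.2
    calc m * a * m⁻¹ * s * (m * a * m⁻¹)⁻¹ = m * (a * (m⁻¹ * s * m) * a⁻¹) * m⁻¹ := by group
      _ = m * ((u : Equiv.Perm Ω) * ((v : Equiv.Perm Ω)⁻¹ * s * v) *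
            (u : Equiv.Perm Ω)⁻¹) * m⁻¹ := by rw [e0, hu' _ hs1]
      _ = (v : Equiv.Perm Ω) * ((u : Equiv.Perm Ω) * ((v : Equiv.Perm Ω)⁻¹ * s * v) *
            (u : Equiv.Perm Ω)⁻¹) * (v : Equiv.Perm Ω)⁻¹ :=
          hm _ (T.mul_mem (T.mul_mem u.2 hs1) (T.inv_mem u.2))
      _ = ((v * u * v⁻¹ : T) : Equiv.Perm Ω) * s * ((v * u * v⁻¹ : T) : Equiv.Perm Ω)⁻¹ := by
          rw [Subgroup.coe_mul, Subgroup.coe_mul, Subgroup.coe_inv]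
          group
  have hJ : J = ⊥ := by
    rcases hTs.eq_bot_or_eq_top_of_normal J hJn with h | h
    · exact h
    · exfalso
      apply not_p hTs hTn p
      intro u
      have hu : u ∈ J := by
        rw [h]
        trivial
      obtain ⟨a, ha, hu'⟩ := hu
      obtain ⟨k, hk⟩ := hQp ⟨a, ha⟩
      have hk' : a ^ p ^ k = 1 := congrArg Subtype.val hk
      refine ⟨k, Subtype.ext ?_⟩
      rw [Subgroup.coe_pow, Subgroup.coe_one]
      refine center hTs hTn (T.pow_mem u.2 _) (fun s hs => ?_)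
      have e1 := pow_ind u.2 hu' (p ^ k) s hs
      rw [hk', inv_one, mul_one, one_mul] at e1
      calc (u : Equiv.Perm Ω) ^ p ^ k * s
          = ((u : Equiv.Perm Ω) ^ p ^ k * s * ((u : Equiv.Perm Ω) ^ p ^ k)⁻¹) *
              (u : Equiv.Perm Ω) ^ p ^ k := by group
        _ = s * (u : Equiv.Perm Ω) ^ p ^ k := by rw [← e1]
  have hnT1 : ∀ s ∈ T, n * s * n⁻¹ ∈ T := by
    intro s hs
    have : n * s * n⁻¹ ∈ T.map (MulAut.conj n).toMonoidHom := Subgroup.mem_map_of_mem _ hs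
    rwa [hnT] at this
  have hnT2 : ∀ s ∈ T, n⁻¹ * s * n ∈ T := by
    intro s hs
    rw [← hnT] at hs
    obtain ⟨s', hs', h⟩ := hs
    have h' : n * s' * n⁻¹ = s := h
    have e : n⁻¹ * s * n = s' := by
      rw [← h']
      group
    rw [e]
    exact hs'
  obtain ⟨m, hmF, hmω, hm⟩ := h4 ω T hT t ht
  have hm' : ∀ s ∈ T, m⁻¹ * s * m = t⁻¹ * s * t := by
    intro s hs
    have e1 := hm (t⁻¹ * s * t) (T.mul_mem (T.mul_mem (T.inv_mem ht) hs) ht)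
    have e2 : t * (t⁻¹ * s * t) * t⁻¹ = s := by group
    rw [e2] at e1
    calc m⁻¹ * s * m = m⁻¹ * (m * (t⁻¹ * s * t) * m⁻¹) * m := by rw [e1]
      _ = t⁻¹ * s * t := by group
  have huT : (n * t * n⁻¹) * t⁻¹ ∈ T := T.mul_mem (hnT1 t ht) (T.inv_mem ht)
  have huJ : (⟨(n * t * n⁻¹) * t⁻¹, huT⟩ : T) ∈ J := by
    refine ⟨n * (m * n⁻¹ * m⁻¹), Q.mul_mem hn (hQn m hmF hmω _ (Q.inv_mem hn)), fun s hs => ?_⟩
    have k1 : t⁻¹ * s * t ∈ T := T.mul_mem (T.mul_mem (T.inv_mem ht) hs) ht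
    have k2 : n⁻¹ * (t⁻¹ * s * t) * n ∈ T := hnT2 _ k1
    calc n * (m * n⁻¹ * m⁻¹) * s * (n * (m * n⁻¹ * m⁻¹))⁻¹
        = n * (m * (n⁻¹ * (m⁻¹ * s * m) * n) * m⁻¹) * n⁻¹ := by group
      _ = n * (m * (n⁻¹ * (t⁻¹ * s * t) * n) * m⁻¹) * n⁻¹ := by rw [hm' s hs]
      _ = n * (t * (n⁻¹ * (t⁻¹ * s * t) * n) * t⁻¹) * n⁻¹ := by rw [hm _ k2]
      _ = (n * t * n⁻¹ * t⁻¹) * s * (n * t * n⁻¹ * t⁻¹)⁻¹ := by group
  rw [hJ, Subgroup.mem_bot] at huJ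
  have h6 : (n * t * n⁻¹) * t⁻¹ = 1 := congrArg Subtype.val huJ
  calc n * t = ((n * t * n⁻¹) * t⁻¹) * (t * n) := by group
    _ = t * n := by rw [h6, one_mul]

end Pool.Agent.Work.MP_6d7bb4.h65u
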