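import Pool.Agent.Work.MP_6d7bb4_h65u.Interface4

set_option autoImplicit false

/-! # MP_6d7bb4: block DLT, the diagonal (helper78) -/

namespace Pool.Agent.Work.MP_6d7bb4.h65u

namespace DLT

variable {G : Type} [Group G]

/-- the product of the conjugates of `k` by `b ^ j`, `j < n` -/
def P (b k : G) : ℕ → G
  | 0 => 1
  | n + 1 => P b k n * (b ^ n * k * (b ^ n)⁻¹)

theorem P_shift (b k : G) (n : ℕ) : P b k (n + 1) = k * (b * P b k n * b⁻¹) := by
  induction n with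
  | zero => simp [P]
  | succ n ih =>
    have h : P b k (n + 1 + 1) = P b k (n + 1) * (b ^ (n + 1) * k * (b ^ (n + 1))⁻¹) := rfl
    have h' : P b k (n + 1) = P b k n * (b ^ n * k * (b ^ n)⁻¹) := rfl
    calc P b k (n + 1 + 1) = k * (b * P b k n * b⁻¹) * ((b * b ^ n) * k * (b * b ^ n)⁻¹) := by
          rw [h, ih, pow_succ']
      _ = k * (b * (P b k n * (b ^ n * k * (b ^ n)⁻¹)) * b⁻¹) := by group
      _ = k * (b * P b k (n + 1) * b⁻¹) := by rw [h']

theorem P_comm (b k x : G) (n : ℕ)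
    (h : ∀ j < n, Commute (b ^ j * k * (b ^ j)⁻¹) x) : Commute (P b k n) x := by
  induction n with
  | zero => exact Commute.one_left x
  | succ n ih => exact (ih fun j hj => h j (by omega)).mul_left (h n (by omega))

theorem P_mul (b k l : G) (n : ℕ)
    (h : ∀ i j, i < j → j < n → Commute (b ^ i * l * (b ^ i)⁻¹) (b ^ j * k * (b ^ j)⁻¹)) :
    P b (k * l) n = P b k n * P b l n := by
  induction n with
  | zero => simp [P]
  | succ n ih =>
    have h1 : P b (k * l) (n + 1) = P b (k * l) n * (b ^ n * (k * l) * (b ^ n)⁻¹) := rfl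
    have h2 : P b k (n + 1) = P b k n * (b ^ n * k * (b ^ n)⁻¹) := rfl
    have h3 : P b l (n + 1) = P b l n * (b ^ n * l * (b ^ n)⁻¹) := rfl
    have hc : P b l n * (b ^ n * k * (b ^ n)⁻¹) = (b ^ n * k * (b ^ n)⁻¹) * P b l n :=
      P_comm b l _ n fun j hj => h j n hj (by omega)
    rw [h1, ih fun i j hi hj => h i j hi (by omega), h2, h3]
    calc P b k n * P b l n * (b ^ n * (k * l) * (b ^ n)⁻¹)
        = P b k n * (P b l n * (b ^ n * k * (b ^ n)⁻¹)) * (b ^ n * l * (b ^ n)⁻¹) := by group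
      _ = P b k n * ((b ^ n * k * (b ^ n)⁻¹) * P b l n) * (b ^ n * l * (b ^ n)⁻¹) := by rw [hc]
      _ = P b k n * (b ^ n * k * (b ^ n)⁻¹) * (P b l n * (b ^ n * l * (b ^ n)⁻¹)) := by group

end DLT

open DLT in
theorem s_DLT : Stmt_DLT := by
  intro G _ p b K hp hb hc
  obtain ⟨q, rfl⟩ : ∃ q, p = q + 1 := ⟨p - 1, by omega⟩
  have hcc : ∀ i j, i < j → j < q + 1 → ∀ k ∈ K, ∀ l ∈ K,
      Commute (b ^ i * l * (b ^ i)⁻¹) (b ^ j * k * (b ^ j)⁻¹) := by
    intro i j hij hj k hk l hl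
    obtain ⟨d, rfl⟩ : ∃ d, j = i + d := ⟨j - i, by omega⟩
    have h := hc d (by omega) (by omega) k hk l hl
    have h2 : b ^ (i + d) * k * (b ^ (i + d))⁻¹ = b ^ i * (b ^ d * k * (b ^ d)⁻¹) * (b ^ i)⁻¹ := by
      rw [pow_add]; group
    have h3 : b ^ i * l * (b ^ i)⁻¹ * (b ^ i * (b ^ d * k * (b ^ d)⁻¹) * (b ^ i)⁻¹)
        = b ^ i * (l * (b ^ d * k * (b ^ d)⁻¹)) * (b ^ i)⁻¹ := by group
    have h4 : b ^ i * (b ^ d * k * (b ^ d)⁻¹) * (b ^ i)⁻¹ * (b ^ i * l * (b ^ i)⁻¹)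
        = b ^ i * ((b ^ d * k * (b ^ d)⁻¹) * l) * (b ^ i)⁻¹ := by group
    unfold Commute SemiconjBy
    rw [h2, h3, h4, h]
  have hm : ∀ k ∈ K, ∀ l ∈ K, (b * P b k q * b⁻¹) * l = l * (b * P b k q * b⁻¹) := by
    intro k hk l hl
    have h := P_comm b k (b⁻¹ * l * b) q fun j hj => by
      have h := hc (j + 1) (by omega) (by omega) k hk l hl
      unfold Commute SemiconjBy
      have e1 : b ^ j * k * (b ^ j)⁻¹ * (b⁻¹ * l * b)
          = b⁻¹ * ((b * b ^ j) * k * (b * b ^ j)⁻¹ * l) * b := by group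
      have e2 : b⁻¹ * l * b * (b ^ j * k * (b ^ j)⁻¹)
          = b⁻¹ * (l * ((b * b ^ j) * k * (b * b ^ j)⁻¹)) * b := by group
      rw [pow_succ'] at h
      rw [e1, e2, h]
    have h' : P b k q * (b⁻¹ * l * b) = b⁻¹ * l * b * P b k q := h
    calc (b * P b k q * b⁻¹) * l = b * (P b k q * (b⁻¹ * l * b)) * b⁻¹ := by group
      _ = b * (b⁻¹ * l * b * P b k q) * b⁻¹ := by rw [h']
      _ = l * (b * P b k q * b⁻¹) := by group
  refine ⟨MonoidHom.mk' (fun k : K => P b k (q + 1)) ?_, ?_, ?_, ?_⟩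
  · intro k l
    exact P_mul b k l (q + 1) fun i j hi hj => hcc i j hi hj k k.2 l l.2
  · intro k
    change b * P b k (q + 1) = P b k (q + 1) * b
    have h1 : P b (k : G) (q + 1) = k * (b * P b k q * b⁻¹) := P_shift b k q
    have h2 : P b (k : G) (q + 1) = P b k q * (b ^ q * k * (b ^ q)⁻¹) := rfl
    have h3 : b * P b (k : G) (q + 1) * b⁻¹ = (b * P b k q * b⁻¹) * k := by
      rw [h2]
      calc b * (P b k q * (b ^ q * k * (b ^ q)⁻¹)) * b⁻¹
          = (b * P b k q * b⁻¹) * ((b * b ^ q) * k * (b * b ^ q)⁻¹) := by group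
        _ = (b * P b k q * b⁻¹) * k := by rw [← pow_succ', hb]; simp
    rw [hm k k.2 k k.2, ← h1] at h3
    calc b * P b k (q + 1) = b * P b k (q + 1) * b⁻¹ * b := by group
      _ = P b k (q + 1) * b := by rw [h3]
  · intro k
    change P b k (q + 1) ∈ _
    generalize q + 1 = n
    induction n with
    | zero => exact Subgroup.one_mem _
    | succ n ih => exact Subgroup.mul_mem _ ih (Subgroup.subset_closure ⟨n, k, k.2, rfl⟩)
  · intro k
    exact ⟨b * P b k q * b⁻¹, P_shift b k q, fun l hl => hm k k.2 l hl⟩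

end Pool.Agent.Work.MP_6d7bb4.h65u
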