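import Pool.Agent.Work.MP_6d7bb4_h65u.Interface4

set_option autoImplicit false
set_option linter.unusedSectionVars false

/-! # MP_6d7bb4: block FIX, elements of `P` which move nothing act trivially -/

namespace Pool.Agent.Work.MP_6d7bb4.h65u

open MulAction Pool.Agent.Work.MP_6d7bb4.helper94 Pool.Agent.Work.MP_6d7bb4.helper94.Sol

namespace X_FIX

section monoid

variable {M : Type} [Monoid M]

theorem m1 {a a' R : M} (h : a * a' = 1) (h' : a' * a = 1) (hR : a * R = R * a) :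
    a' * R = R * a' := by
  calc a' * R = a' * (R * a) * a' := by rw [mul_assoc, mul_assoc, h, mul_one]
    _ = R * a' := by rw [← hR, ← mul_assoc, h', one_mul]

theorem m3 {a a' b b' : M} (h : b * b' = 1) (h' : a' * a = 1) (hab : a = b) : a' = b' := by
  calc a' = a' * (b * b') := by rw [h, mul_one]
    _ = b' := by rw [← hab, ← mul_assoc, h', one_mul]

end monoid

section cj

variable {G : Type} [Group G]

theorem cj_one' (T : Subgroup G) : cj 1 T = T := by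
  ext x
  rw [mem_cj, inv_one, one_mul, mul_one]

theorem cj_mul' (g h : G) (T : Subgroup G) : cj (g * h) T = cj g (cj h T) := by
  ext x
  rw [mem_cj, mem_cj, mem_cj]
  have : (g * h)⁻¹ * x * (g * h) = h⁻¹ * (g⁻¹ * x * g) * h := by group
  rw [this]

end cj

section act

variable {X Q : Type} [Group X] [Group Q] {S : Type} [AddCommGroup S]
  {π : X →* Q} {ρ : X →* AddMonoid.End S}

theorem rr (ρ : X →* AddMonoid.End S) (x : X) : ρ x * ρ x⁻¹ = 1 := by
  rw [← map_mul, mul_inv_cancel, map_one]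

theorem rr' (ρ : X →* AddMonoid.End S) (x : X) : ρ x⁻¹ * ρ x = 1 := by
  rw [← map_mul, inv_mul_cancel, map_one]

/-- the members which move something stay so under conjugation -/
theorem N1_conj {R : Subgroup X} (hKT : ∀ (x : X) (T : Subgroup Q),
      KT π R (cj (π x) T) = cj x (KT π R T)) (hR : R.Normal) (x : X)
    {T : Subgroup Q} (h1 : T ≤ R.map π) (h2 : ∃ k ∈ KT π R T, ρ k ≠ 1) :
    cj (π x) T ≤ R.map π ∧ ∃ k ∈ KT π R (cj (π x) T), ρ k ≠ 1 := by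
  constructor
  · intro t ht
    rw [mem_cj] at ht
    obtain ⟨r, hr, hrt⟩ := h1 ht
    refine ⟨x * r * x⁻¹, hR.conj_mem r hr x, ?_⟩
    rw [map_mul, map_mul, hrt, map_inv]
    group
  · obtain ⟨k, hk, hk1⟩ := h2
    refine ⟨x * k * x⁻¹, ?_, ?_⟩
    · rw [hKT x T]
      exact conj_mem_cj hk
    · intro h3
      apply hk1
      have h4 : k = x⁻¹ * (x * k * x⁻¹) * x := by group
      rw [h4, map_mul, map_mul, h3, mul_one, rr']

end act

end X_FIX

open X_FIX in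
theorem s_FIX (hKOM : Stmt_KOM) (hKTC : Stmt_KTC) (hDIC : Stmt_DIC) : Stmt_FIX := by
  classical
  intro Ω F p hp 𝒩 hE X _ _ π hr ω Y P hY hP S _ _ ρ hpS hirr b0 hb0 hb0'
  set R : Subgroup X := Subgroup.normalClosure (P : Set X) with hRdef
  have hR : R.Normal := Subgroup.normalClosure_normal
  have hPR : ∀ b ∈ P, b ∈ R := fun b hb => Subgroup.subset_normalClosure hb
  have hkY : π.ker ≤ Y := by
    intro x hx
    rw [hY, MonoidHom.mem_ker.mp hx]
    rfl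
  have hF : ∀ x : X, π x ∈ F := fun x => by
    rw [← hr]
    exact ⟨x, rfl⟩
  obtain ⟨kom1, kom2⟩ := hKOM X (Equiv.Perm Ω) π p Y P hkY hP S ρ hpS hirr
  obtain ⟨ktc1, ktc2⟩ := hKTC X (Equiv.Perm Ω) π R S ρ hR kom1
  obtain ⟨dic1, dic2⟩ := hDIC Ω F p 𝒩 hE X π hr ω Y P hY hP
  have kom2' : ∀ x : X, ∀ b ∈ P, π x * π b = π b * π x → ρ x * ρ b = ρ b * ρ x := by
    intro x b hb h
    have h1 := kom2 x 1 b hb
    rw [one_mul, inv_one, mul_one] at h1
    exact h1 h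
  have dic1' : ∀ b ∈ P, ∀ T ∈ 𝒩, cj (π b) T = T → ∀ t ∈ T, π b * t = t * π b := by
    intro b hb T hT h
    have h1 := dic1 1 b hb T hT
    rw [one_mul, inv_one, mul_one] at h1
    exact h1 h
  -- the elements of `P` which move nothing
  let P1 : Subgroup X :=
    { carrier := {b | b ∈ P ∧ ∀ T ∈ 𝒩, T ≤ R.map π → (∃ k ∈ KT π R T, ρ k ≠ 1) →
        cj (π b) T = T}
      one_mem' := ⟨P.one_mem, fun T _ _ _ => by rw [map_one, cj_one']⟩
      mul_mem' := by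
        rintro a b ⟨ha, ha'⟩ ⟨hb, hb'⟩
        exact ⟨P.mul_mem ha hb, fun T h1 h2 h3 => by
          rw [map_mul, cj_mul', hb' T h1 h2 h3, ha' T h1 h2 h3]⟩
      inv_mem' := by
        rintro a ⟨ha, ha'⟩
        refine ⟨P.inv_mem ha, fun T h1 h2 h3 => ?_⟩
        have h4 := ha' T h1 h2 h3
        calc cj (π a⁻¹) T = cj (π a⁻¹) (cj (π a) T) := by rw [h4]
          _ = T := by rw [← cj_mul', ← map_mul, inv_mul_cancel, map_one, cj_one'] }
  have hP1 : ∀ b, b ∈ P1 ↔ b ∈ P ∧ ∀ T ∈ 𝒩, T ≤ R.map π → (∃ k ∈ KT π R T, ρ k ≠ 1) →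
        cj (π b) T = T := fun b => Iff.rfl
  -- (1)
  have step1 : ∀ b ∈ P1, ∀ T ∈ 𝒩, ∀ x : X, π x ∈ T → ρ x * ρ b = ρ b * ρ x := by
    intro b hb T hT x hx
    obtain ⟨hbP, hb'⟩ := (hP1 b).1 hb
    by_cases hTR : T ≤ R.map π
    · by_cases hk : ∃ k ∈ KT π R T, ρ k ≠ 1
      · exact kom2' x b hbP (dic1' b hbP T hT (hb' T hT hTR hk) (π x) hx).symm
      · push Not at hk
        obtain ⟨hm, -, -⟩ := ktc2 T (hE.pf T hT) hTR
        rw [← hm] at hx
        obtain ⟨k, hkm, hkx⟩ := hx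
        have hz : k⁻¹ * x ∈ π.ker := by
          rw [MonoidHom.mem_ker, map_mul, map_inv, hkx, inv_mul_cancel]
        have h1 := kom1 _ hz b (hPR b hbP)
        have h2 : ρ x = ρ (k⁻¹ * x) := by
          have h3 : x = k * (k⁻¹ * x) := by group
          conv_lhs => rw [h3, map_mul, hk k hkm, one_mul]
        rw [h2]
        exact h1
    · rcases dic2 T hT with h | h
      · exact absurd h hTR
      · exact kom2' x b hbP (h b (hPR b hbP) (π x) hx).symm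
  -- (2)
  have step2 : ∀ b ∈ P1, ∀ f ∈ sSup 𝒩, ∀ x : X, π x = f → ρ x * ρ b = ρ b * ρ x := by
    intro b hb
    let Z : Subgroup (Equiv.Perm Ω) :=
      { carrier := {f | f ∈ F ∧ ∀ x : X, π x = f → ρ x * ρ b = ρ b * ρ x}
        one_mem' := ⟨F.one_mem, fun x hx => kom1 x hx b (hPR b ((hP1 b).1 hb).1)⟩
        mul_mem' := by
          rintro f1 f2 ⟨h1, h1'⟩ ⟨h2, h2'⟩
          refine ⟨F.mul_mem h1 h2, fun x hx => ?_⟩
          rw [← hr] at h1
          obtain ⟨x1, hx1⟩ := h1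
          have h3 := h1' x1 hx1
          have h4 := h2' (x1⁻¹ * x) (by
            rw [map_mul, map_inv, hx1, hx, inv_mul_cancel_left])
          have h5 : x = x1 * (x1⁻¹ * x) := by group
          rw [h5, map_mul, mul_assoc, h4, ← mul_assoc, h3, mul_assoc]
        inv_mem' := by
          rintro f ⟨h1, h1'⟩
          refine ⟨F.inv_mem h1, fun x hx => ?_⟩
          have h2 := h1' x⁻¹ (by rw [map_inv, hx, inv_inv])
          exact m1 (rr' ρ x) (rr ρ x) h2 }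
    have hZ : sSup 𝒩 ≤ Z := by
      refine sSup_le fun T hT => ?_
      intro f hf
      exact ⟨hE.le T hT hf, fun x hx => step1 b hb T hT x (by rw [hx]; exact hf)⟩
    intro f hf
    exact (hZ hf).2
  -- (3)
  have step3 : ∀ y ∈ Y, ∀ b ∈ P1, y * b * y⁻¹ ∈ P1 := by
    intro y hy b hb
    obtain ⟨hbP, hb'⟩ := (hP1 b).1 hb
    refine (hP1 _).2 ⟨hP.nm y hy b hbP, fun T hT hTR hk => ?_⟩
    obtain ⟨h1, h2⟩ := N1_conj (ρ := ρ) ktc1 hR y⁻¹ hTR hk
    have h3 := hb' _ (hE.cl T hT (π y⁻¹) (hF _)) h1 h2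
    calc cj (π (y * b * y⁻¹)) T = cj (π y) (cj (π b) (cj (π y⁻¹) T)) := by
          rw [map_mul, map_mul, cj_mul', cj_mul']
      _ = cj (π y) (cj (π y⁻¹) T) := by rw [h3]
      _ = T := by rw [← cj_mul', ← map_mul, mul_inv_cancel, map_one, cj_one']
  -- (4)
  let W : Subgroup X :=
    { carrier := {x | ∃ b ∈ P1, ρ x = ρ b}
      one_mem' := ⟨1, P1.one_mem, rfl⟩
      mul_mem' := by
        rintro x x' ⟨b, hb, h⟩ ⟨b', hb', h'⟩
        exact ⟨b * b', P1.mul_mem hb hb', by rw [map_mul, map_mul, h, h']⟩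
      inv_mem' := by
        rintro x ⟨b, hb, h⟩
        exact ⟨b⁻¹, P1.inv_mem hb, m3 (rr ρ b) (rr' ρ x) h⟩ }
  have hsF : sSup 𝒩 ≤ F := sSup_le fun T hT => hE.le T hT
  have hWn : ∀ x : X, ∀ n ∈ W, x * n * x⁻¹ ∈ W := by
    rintro x w ⟨b, hb, hw⟩
    obtain ⟨n, hn, hnω⟩ := hE.tr ω (π x ω)
    have hnF := hsF hn
    rw [← hr] at hnF
    obtain ⟨x1, hx1⟩ := hnF
    have hy : x1⁻¹ * x ∈ Y := by
      rw [hY, map_mul, Equiv.Perm.mul_apply, ← hnω, map_inv, hx1]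
      exact n.symm_apply_apply ω
    refine ⟨(x1⁻¹ * x) * b * (x1⁻¹ * x)⁻¹, step3 _ hy b hb, ?_⟩
    have h1 := step2 _ (step3 _ hy b hb) n hn x1 hx1
    have h2 : x = x1 * (x1⁻¹ * x) := by group
    set y := x1⁻¹ * x with hydef
    calc ρ (x * w * x⁻¹) = ρ x1 * (ρ y * ρ w * ρ y⁻¹) * ρ x1⁻¹ := by
          rw [← map_mul, ← map_mul, ← map_mul, ← map_mul]
          congr 1
          rw [hydef]
          group
      _ = ρ x1 * ρ (y * b * y⁻¹) * ρ x1⁻¹ := by rw [hw, ← map_mul, ← map_mul]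
      _ = ρ (y * b * y⁻¹) := by rw [h1, mul_assoc, rr, mul_one]
  refine Ps.irr_act hp.out hpS ρ hirr W hWn ?_ b0 ⟨b0, (hP1 b0).2 ⟨hb0, hb0'⟩, rfl⟩
  rintro m ⟨b', hb', hm⟩
  obtain ⟨k, hk⟩ := hP.pg ⟨b', ((hP1 b').1 hb').1⟩
  refine ⟨k, ?_⟩
  have h1 : b' ^ p ^ k = 1 := congrArg Subtype.val hk
  rw [map_pow, hm, ← map_pow, h1, map_one]

end Pool.Agent.Work.MP_6d7bb4.h65u
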