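import Pool.Agent.Work.MP_6d7bb4_h65u.Interface2

/-! # MP_6d7bb4: groups with at most one offender; block GNL -/

set_option autoImplicit false
set_option linter.unusedSectionVars false

namespace Pool.Agent.Work.MP_6d7bb4.h65u

open MulAction Pool.Agent.Work.MP_6d7bb4.helper94 Pool.Agent.Work.MP_6d7bb4.helper94.Sol

namespace X_GNL

section one
variable {X : Type} [Group X] {S : Type} [AddCommGroup S] (ρ : X →* AddMonoid.End S)
  (K : Subgroup X)

/-- the elements which commute with `K` in the action on `S` -/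
def cen : Subgroup X where
  carrier := {t | ∀ k ∈ K, ρ (k * t) = ρ (t * k)}
  one_mem' := fun k _ => by rw [mul_one, one_mul]
  mul_mem' := by
    intro s t hs ht k hk
    calc ρ (k * (s * t)) = ρ (k * s) * ρ t := by rw [← map_mul, mul_assoc]
      _ = ρ (s * k) * ρ t := by rw [hs k hk]
      _ = ρ s * ρ (k * t) := by rw [← map_mul, ← map_mul, mul_assoc]
      _ = ρ s * ρ (t * k) := by rw [ht k hk]
      _ = ρ (s * t * k) := by rw [← map_mul, mul_assoc]
  inv_mem' := by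
    intro t ht k hk
    calc ρ (k * t⁻¹) = ρ (t⁻¹ * (t * k) * t⁻¹) := by
          congr 1
          group
      _ = ρ t⁻¹ * ρ (t * k) * ρ t⁻¹ := by rw [map_mul, map_mul]
      _ = ρ t⁻¹ * ρ (k * t) * ρ t⁻¹ := by rw [ht k hk]
      _ = ρ (t⁻¹ * (k * t) * t⁻¹) := by rw [← map_mul, ← map_mul]
      _ = ρ (t⁻¹ * k) := by
          congr 1
          group

theorem mem_cen {t : X} : t ∈ cen ρ K ↔ ∀ k ∈ K, ρ (k * t) = ρ (t * k) := Iff.rfl

theorem cen_normal (hK : K.Normal) : (cen ρ K).Normal := by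
  refine ⟨fun t ht x k hk => ?_⟩
  have h1 : x⁻¹ * k * x ∈ K := by
    have := hK.conj_mem k hk x⁻¹
    rwa [inv_inv] at this
  calc ρ (k * (x * t * x⁻¹)) = ρ (x * ((x⁻¹ * k * x) * t) * x⁻¹) := by
        congr 1
        group
    _ = ρ x * ρ ((x⁻¹ * k * x) * t) * ρ x⁻¹ := by rw [map_mul, map_mul]
    _ = ρ x * ρ (t * (x⁻¹ * k * x)) * ρ x⁻¹ := by rw [ht _ h1]
    _ = ρ (x * (t * (x⁻¹ * k * x)) * x⁻¹) := by rw [← map_mul, ← map_mul]
    _ = ρ (x * t * x⁻¹ * k) := by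
        congr 1
        group

end one

section two
variable {X : Type} [Group X] [Finite X] {Q : Type} [Group Q] {π : X →* Q}
  {p : ℕ} [Fact p.Prime] {Y P A : Subgroup X} {S : Type} [AddCommGroup S] [Finite S]
  {ρ : X →* AddMonoid.End S}

/-- step (1) -/
theorem act1 (hKY : π.ker ≤ Y) (hop : IsOp p Y P) (hex : ∀ s : S, p • s = 0)
    (hirr : ∀ W : AddSubgroup S, (∀ x : X, ∀ w ∈ W, ρ x w ∈ W) → W = ⊥ ∨ W = ⊤) :
    ∀ n ∈ P ⊓ π.ker, ρ n = 1 := by
  have hn : Nm (⊤ : Subgroup X) π.ker := fun x _ n hn => (MonoidHom.normal_ker π).conj_mem n hn x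
  have h1 : P ⊓ π.ker ≤ O p π.ker := by
    refine le_O inf_le_right ?_ (hop.pg.to_le inf_le_left)
    intro b hb n hn'
    exact ⟨hop.nm b (hKY hb) n hn'.1, hn b trivial n hn'.2⟩
  have h2 : ∀ n ∈ O p π.ker, ρ n = 1 := by
    refine Ps.irr_act (Fact.out : p.Prime) hex ρ hirr (O p π.ker) ?_ ?_
    · intro x n hn'
      exact nm_O hn x trivial n hn'
    · intro n hn'
      obtain ⟨k, hk⟩ := O_isP (p := p) π.ker ⟨n, hn'⟩
      refine ⟨k, ?_⟩
      have h3 : n ^ p ^ k = 1 := by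
        have := congrArg Subtype.val hk
        simpa using this
      rw [h3, map_one]
  exact fun n hn' => h2 n (h1 hn')

/-- step (2) -/
theorem comm1 (hKY : π.ker ≤ Y) (hop : IsOp p Y P)
    (h1 : ∀ n ∈ P ⊓ π.ker, ρ n = 1) : P ≤ cen ρ π.ker := by
  intro b hb k hk
  have h2 : k * b * k⁻¹ * b⁻¹ ∈ P ⊓ π.ker := by
    refine ⟨P.mul_mem (hop.nm k (hKY hk) b hb) (P.inv_mem hb), ?_⟩
    have h3 := (MonoidHom.normal_ker π).conj_mem k⁻¹ (π.ker.inv_mem hk) b
    have h4 := π.ker.mul_mem hk h3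
    have h5 : k * (b * k⁻¹ * b⁻¹) = k * b * k⁻¹ * b⁻¹ := by group
    rwa [h5] at h4
  calc ρ (k * b) = ρ ((k * b * k⁻¹ * b⁻¹) * (b * k)) := by
        congr 1
        group
    _ = ρ (b * k) := by rw [map_mul, h1 _ h2, one_mul]

end two

/-- an element of order prime to `p` whose `p`-th power is in a subgroup is in the subgroup -/
theorem cop {U : Type*} [Group U] {p : ℕ} {u v : U} (hu : p.Coprime (orderOf u))
    (h : v ^ p * u ^ p = 1) : ∃ j : ℕ, u = (v⁻¹) ^ j := by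
  obtain ⟨m, hm⟩ := exists_pow_eq_self_of_coprime hu
  refine ⟨p * m, ?_⟩
  have h1 : u ^ p = (v⁻¹) ^ p := by
    rw [inv_pow]
    exact (eq_inv_of_mul_eq_one_right h)
  rw [pow_mul, ← h1, hm]

section three
variable {X : Type} [Group X] [Finite X] {p : ℕ} [Fact p.Prime] {S : Type} [AddCommGroup S]
  [Finite S] {ρ : X →* AddMonoid.End S}

/-- no elements of order `p` in a commutative normal subgroup -/
theorem nop (hex : ∀ s : S, p • s = 0)
    (hirr : ∀ W : AddSubgroup S, (∀ x : X, ∀ w ∈ W, ρ x w ∈ W) → W = ⊥ ∨ W = ⊤)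
    (D : Subgroup X) (hD : D.Normal) (hc : ∀ a ∈ D, ∀ b ∈ D, ρ (a * b) = ρ (b * a)) :
    ∀ d ∈ D, ∀ m : ℕ, ρ (d ^ p ^ m) = 1 → ρ d = 1 := by
  set N : Subgroup X :=
    { carrier := {d | d ∈ D ∧ ∃ m : ℕ, ρ (d ^ p ^ m) = 1}
      one_mem' := ⟨D.one_mem, 0, by rw [one_pow, map_one]⟩
      mul_mem' := by
        rintro a b ⟨ha, m, hm⟩ ⟨hb, m', hm'⟩
        refine ⟨D.mul_mem ha hb, m + m', ?_⟩
        have h1 : Commute (ρ a) (ρ b) := by
          show ρ a * ρ b = ρ b * ρ a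
          rw [← map_mul, ← map_mul]
          exact hc a ha b hb
        rw [map_pow, map_mul, h1.mul_pow, ← map_pow, ← map_pow, pow_add, pow_mul, map_pow ρ (a ^ p ^ m),
          hm, one_pow, one_mul, mul_comm, pow_mul, map_pow, hm', one_pow]
      inv_mem' := by
        rintro a ⟨ha, m, hm⟩
        refine ⟨D.inv_mem ha, m, ?_⟩
        have h1 : ρ (a ^ p ^ m) * ρ (a⁻¹ ^ p ^ m) = 1 := by
          rw [← map_mul, ← (Commute.refl a).inv_right.mul_pow, mul_inv_cancel, one_pow, map_one]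
        rwa [hm, one_mul] at h1 } with hNdef
  have hN : ∀ d, d ∈ N ↔ d ∈ D ∧ ∃ m : ℕ, ρ (d ^ p ^ m) = 1 := fun d => Iff.rfl
  have h1 : ∀ n ∈ N, ρ n = 1 := by
    refine Ps.irr_act (Fact.out : p.Prime) hex ρ hirr N ?_ ?_
    · rintro x n ⟨hn, m, hm⟩
      refine ⟨hD.conj_mem n hn x, m, ?_⟩
      rw [conj_pow, map_mul, map_mul, hm, mul_one, ← map_mul, mul_inv_cancel, map_one]
    · rintro n ⟨_, hm⟩
      exact hm
  intro d hd m hm
  exact h1 d ⟨hd, m, hm⟩

theorem nop' (hex : ∀ s : S, p • s = 0)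
    (hirr : ∀ W : AddSubgroup S, (∀ x : X, ∀ w ∈ W, ρ x w ∈ W) → W = ⊥ ∨ W = ⊤)
    (D : Subgroup X) (hD : D.Normal) (hc : ∀ a ∈ D, ∀ b ∈ D, ρ (a * b) = ρ (b * a))
    {k : X} (hk : k ∈ D) : p.Coprime (orderOf (ρ.toHomUnits k)) := by
  have hp : p.Prime := Fact.out
  have hfin : IsOfFinOrder k := isOfFinOrder_of_finite k
  have hpos : 0 < orderOf (ρ.toHomUnits k) := by
    refine orderOf_pos_iff.2 ?_
    exact ρ.toHomUnits.isOfFinOrder hfin
  obtain ⟨m, r, hr, hmr⟩ := Nat.exists_eq_pow_mul_and_not_dvd hpos.ne' p hp.ne_one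
  have h1 : ρ.toHomUnits (k ^ r) = 1 := by
    have h2 : ρ ((k ^ r) ^ p ^ m) = 1 := by
      have h3 : ρ.toHomUnits ((k ^ r) ^ p ^ m) = 1 := by
        rw [← pow_mul, mul_comm r, ← hmr, map_pow, pow_orderOf_eq_one]
      have h4 := congrArg Units.val h3
      exact h4
    have h5 := nop hex hirr D hD hc (k ^ r) (D.pow_mem hk r) m h2
    exact Units.ext h5
  rw [map_pow] at h1
  have h6 := orderOf_dvd_of_pow_eq_one h1
  rw [hmr] at h6
  have hr0 : 0 < r := by
    rcases Nat.eq_zero_or_pos r with h | h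
    · exact absurd (h ▸ dvd_zero p) hr
    · exact h
  have h7 : p ^ m * r ≤ r := Nat.le_of_dvd hr0 h6
  have h8 : m = 0 := by
    by_contra hm
    have h9 : 2 ≤ p ^ m := le_trans hp.two_le (Nat.le_self_pow hm p)
    nlinarith
  rw [hmr, h8, pow_zero, one_mul]
  exact (Nat.Prime.coprime_iff_not_dvd hp).2 hr

end three

end X_GNL

open X_GNL in
/-- GNL -/
theorem s_GNL : Stmt_GNL := by
  classical
  intro X _ _ Q _ π p _ Y P A hKY hop hAP S _ _ ρ hO k g hg
  have hp : p.Prime := Fact.out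
  have hker : (π.ker).Normal := MonoidHom.normal_ker π
  have h1 := act1 (ρ := ρ) hKY hop hO.ex hO.irr
  have h2 := comm1 hKY hop h1
  have hcN := cen_normal ρ π.ker hker
  obtain ⟨T, hT⟩ : ∃ T, T = Subgroup.normalClosure (A : Set X) := ⟨_, rfl⟩
  have hTN : T.Normal := by rw [hT]; exact Subgroup.normalClosure_normal
  have hAT : A ≤ T := by rw [hT]; exact Subgroup.subset_normalClosure
  have hTc : T ≤ cen ρ π.ker := by
    rw [hT]
    exact Subgroup.normalClosure_le_normal (fun a ha => h2 (hAP ha))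
  obtain ⟨T1, hT1⟩ : ∃ T1, T1 = ⨆ i, cj (g i) A := ⟨_, rfl⟩
  have hT1T : T1 ≤ T := by
    rw [hT1]
    refine iSup_le (fun i t ht => ?_)
    rw [mem_cj] at ht
    have h3 := hTN.conj_mem _ (hAT ht) (g i)
    have h4 : g i * ((g i)⁻¹ * t * g i) * (g i)⁻¹ = t := by group
    rwa [h4] at h3
  have hDN : (T ⊓ π.ker).Normal := Subgroup.normal_inf_normal T π.ker
  have hDc : ∀ a ∈ T ⊓ π.ker, ∀ b ∈ T ⊓ π.ker, ρ (a * b) = ρ (b * a) := by
    intro a ha b hb
    exact hTc hb.1 a ha.2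
  -- step (3)
  have h3 : ∀ z : X, ∀ a ∈ A, ∃ t ∈ T1, ρ (z * a * z⁻¹) = ρ t := by
    intro z a ha
    have h4 := hg z a ha
    rw [← Subgroup.map_iSup, ← hT1] at h4
    obtain ⟨t1, ht1, ht2⟩ := h4
    obtain ⟨y, hy⟩ : ∃ y, y = z * a * z⁻¹ := ⟨_, rfl⟩
    rw [← hy] at ht2 ⊢
    have hyT : y ∈ T := by rw [hy]; exact hTN.conj_mem a (hAT ha) z
    obtain ⟨k0, hk0⟩ : ∃ k0, k0 = t1⁻¹ * y := ⟨_, rfl⟩
    have hyk : y = t1 * k0 := by rw [hk0]; group
    have hk0D : k0 ∈ T ⊓ π.ker := by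
      refine ⟨?_, ?_⟩
      · rw [hk0]
        exact T.mul_mem (T.inv_mem (hT1T ht1)) hyT
      · show k0 ∈ π.ker
        rw [MonoidHom.mem_ker, hk0, map_mul, map_inv, ht2, inv_mul_cancel]
    have hyp : y ^ p = 1 := by
      rw [hy, conj_pow, hO.pw a ha]
      group
    have hcm : Commute (ρ.toHomUnits t1) (ρ.toHomUnits k0) := by
      show ρ.toHomUnits t1 * ρ.toHomUnits k0 = ρ.toHomUnits k0 * ρ.toHomUnits t1
      rw [← map_mul, ← map_mul]
      exact Units.ext (hTc (hT1T ht1) k0 hk0D.2).symm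
    have h5 : ρ.toHomUnits t1 ^ p * ρ.toHomUnits k0 ^ p = 1 := by
      rw [← hcm.mul_pow, ← map_mul, ← hyk, ← map_pow, hyp, map_one]
    obtain ⟨j, hj⟩ := cop (nop' hO.ex hO.irr (T ⊓ π.ker) hDN hDc hk0D) h5
    refine ⟨t1 * (t1⁻¹) ^ j, T1.mul_mem ht1 (T1.pow_mem (T1.inv_mem ht1) j), ?_⟩
    have h6 : ρ.toHomUnits y = ρ.toHomUnits (t1 * (t1⁻¹) ^ j) := by
      rw [hyk, map_mul, map_mul, hj, map_pow, map_inv]
    exact congrArg Units.val h6
  have h4 : ∀ x : X, ∀ t ∈ T1, ∃ t' ∈ T1, ρ (x * t * x⁻¹) = ρ t' := by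
    intro x
    set M : Subgroup X :=
      { carrier := {t | ∃ t' ∈ T1, ρ (x * t * x⁻¹) = ρ t'}
        one_mem' := ⟨1, T1.one_mem, by rw [mul_one, mul_inv_cancel]⟩
        mul_mem' := by
          rintro a b ⟨a', ha', ha⟩ ⟨b', hb', hb⟩
          refine ⟨a' * b', T1.mul_mem ha' hb', ?_⟩
          have h5 : x * (a * b) * x⁻¹ = (x * a * x⁻¹) * (x * b * x⁻¹) := by group
          rw [h5, map_mul ρ (x * a * x⁻¹) (x * b * x⁻¹), ha, hb, ← map_mul]
        inv_mem' := by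
          rintro a ⟨a', ha', ha⟩
          refine ⟨a'⁻¹, T1.inv_mem ha', ?_⟩
          have h5 : x * a⁻¹ * x⁻¹ = (x * a * x⁻¹)⁻¹ := by group
          have h6 : ρ.toHomUnits (x * a * x⁻¹) = ρ.toHomUnits a' := Units.ext ha
          have h7 : ρ.toHomUnits (x * a * x⁻¹)⁻¹ = ρ.toHomUnits a'⁻¹ := by
            rw [map_inv, map_inv, h6]
          rw [h5]
          exact congrArg Units.val h7 } with hM
    have h5 : T1 ≤ M := by
      rw [hT1]
      refine iSup_le (fun i t ht => ?_)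
      rw [mem_cj] at ht
      obtain ⟨t', ht', h6⟩ := h3 (x * g i) _ ht
      rw [hT1] at ht'
      refine ⟨t', ?_, ?_⟩
      · rw [hT1]
        exact ht'
      · rw [← h6]
        congr 1
        group
    exact fun t ht => h5 ht
  -- step (4)
  have h5 : ∀ x : X, ∀ s ∈ FixedBy ρ T1, ρ x s ∈ FixedBy ρ T1 := by
    intro x s hs t ht
    obtain ⟨t', ht', h6⟩ := h4 x⁻¹ t ht
    have h7 : ρ (t * x) = ρ (x * (x⁻¹ * t * x⁻¹⁻¹)) := by
      congr 1
      group
    have h8 : ρ t (ρ x s) = ρ (t * x) s := by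
      rw [map_mul]
      rfl
    rw [h8, h7, map_mul, h6]
    show ρ x (ρ t' s) = ρ x s
    rw [hs t' ht']
  have h6 : FixedBy ρ T1 = ⊥ := by
    rcases hO.irr _ h5 with h | h
    · exact h
    · exfalso
      obtain ⟨a, ha, hna⟩ := hO.nt
      obtain ⟨t, ht, h7⟩ := h3 1 a ha
      apply hna
      rw [one_mul, inv_one, mul_one] at h7
      rw [h7]
      refine AddMonoidHom.ext (fun s => ?_)
      have h8 : s ∈ FixedBy ρ T1 := by rw [h]; trivial
      exact h8 t ht
  -- step (5)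
  have h7 : (⨅ i, FixedBy ρ (cj (g i) A)) = ⊥ := by
    rw [eq_bot_iff, ← h6]
    intro s hs
    rw [AddSubgroup.mem_iInf] at hs
    set M : Subgroup X :=
      { carrier := {t | ρ t s = s}
        one_mem' := by
          show ρ 1 s = s
          rw [map_one]
          rfl
        mul_mem' := by
          intro a b ha hb
          show ρ (a * b) s = s
          rw [map_mul]
          show ρ a (ρ b s) = s
          rw [hb, ha]
        inv_mem' := by
          intro a ha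
          show ρ a⁻¹ s = s
          have h8 : ρ a⁻¹ (ρ a s) = s := by
            have h9 : (ρ a⁻¹ * ρ a) s = s := by
              rw [← map_mul, inv_mul_cancel, map_one]
              rfl
            exact h9
          rwa [show ρ a s = s from ha] at h8 } with hM
    have h8 : T1 ≤ M := by
      rw [hT1]
      exact iSup_le (fun i t ht => hs i t ht)
    exact fun t ht => h8 ht
  have h8 : ∀ i, (FixedBy ρ (cj (g i) A)).index = (FixedBy ρ A).index := by
    intro i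
    have h9 : FixedBy ρ (cj (g i) A) = (FixedBy ρ A).comap (ρ (g i)⁻¹) := by
      ext s
      rw [AddSubgroup.mem_comap, mem_FixedBy, mem_FixedBy]
      constructor
      · intro h a ha
        have h10 := h _ (conj_mem_cj (g := g i) ha)
        have h11 : ρ a (ρ (g i)⁻¹ s) = ρ (g i)⁻¹ (ρ (g i * a * (g i)⁻¹) s) := by
          show (ρ a * ρ (g i)⁻¹) s = (ρ (g i)⁻¹ * ρ (g i * a * (g i)⁻¹)) s
          rw [← map_mul, ← map_mul]
          congr 2
          group
        rw [h10] at h11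
        exact h11
      · intro h b hb
        rw [mem_cj] at hb
        have h10 : ρ ((g i)⁻¹ * b * g i) (ρ (g i)⁻¹ s) = ρ (g i)⁻¹ s := h _ hb
        have h11 : ρ b s = ρ (g i) (ρ ((g i)⁻¹ * b * g i) (ρ (g i)⁻¹ s)) := by
          show ρ b s = (ρ (g i) * (ρ ((g i)⁻¹ * b * g i) * ρ (g i)⁻¹)) s
          rw [← map_mul, ← map_mul]
          congr 2
          group
        rw [h11, h10]
        show (ρ (g i) * ρ (g i)⁻¹) s = s
        rw [← map_mul, mul_inv_cancel, map_one]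
        rfl
    rw [h9]
    refine AddSubgroup.index_comap_of_surjective _ ?_
    intro s
    refine ⟨ρ (g i) s, ?_⟩
    show (ρ (g i)⁻¹ * ρ (g i)) s = s
    rw [← map_mul, inv_mul_cancel, map_one]
    rfl
  have h9 : Nat.card S ≤ (FixedBy ρ A).index ^ k := by
    calc Nat.card S = (⨅ i, FixedBy ρ (cj (g i) A)).index := by rw [h7, AddSubgroup.index_bot]
      _ ≤ ∏ i, (FixedBy ρ (cj (g i) A)).index := AddSubgroup.index_iInf_le _
      _ = (FixedBy ρ A).index ^ k := by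
          rw [Finset.prod_congr rfl (fun i _ => h8 i), Finset.prod_const, Finset.card_univ,
            Fintype.card_fin]
  have h10 : ρ.ker.relIndex A ≤ Nat.card (A.map π) := by
    rw [← Subgroup.relIndex_ker]
    have h11 : π.ker ⊓ A ≤ ρ.ker := by
      intro x hx
      rw [MonoidHom.mem_ker]
      exact h1 x ⟨hAP hx.2, hx.1⟩
    have h12 : (π.ker ⊓ A).relIndex A = π.ker.relIndex A := Subgroup.inf_relIndex_right _ _
    rw [← h12]
    refine Subgroup.relIndex_le_of_le_left h11 ?_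
    rw [h12]
    exact Subgroup.index_ne_zero_of_finite
  calc Nat.card S ≤ (FixedBy ρ A).index ^ k := h9
    _ ≤ (ρ.ker.relIndex A) ^ k := Nat.pow_le_pow_left hO.of k
    _ ≤ Nat.card (A.map π) ^ k := Nat.pow_le_pow_left h10 k

end Pool.Agent.Work.MP_6d7bb4.h65u
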