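import Pool.Agent.Work.MP_6d7bb4_h65u.Interface4
import Pool.Agent.Work.MP_6d7bb4_h65u.B_GNL

/-! # MP_6d7bb4: elements which commute modulo the kernel; block KOM -/

set_option autoImplicit false
set_option linter.unusedSectionVars false

namespace Pool.Agent.Work.MP_6d7bb4.h65u

open MulAction Pool.Agent.Work.MP_6d7bb4.helper94 Pool.Agent.Work.MP_6d7bb4.helper94.Sol

open X_GNL in
/-- KOM -/
theorem s_KOM : Stmt_KOM := by
  intro X _ _ Q _ π p _ Y P hKY hop S _ _ ρ hex hirr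
  have hker : (π.ker).Normal := MonoidHom.normal_ker π
  have h1 := act1 (ρ := ρ) hKY hop hex hirr
  have h2 := comm1 hKY hop h1
  have hcN := cen_normal ρ π.ker hker
  obtain ⟨R, hR⟩ : ∃ R, R = Subgroup.normalClosure (P : Set X) := ⟨_, rfl⟩
  have hRN : R.Normal := by rw [hR]; exact Subgroup.normalClosure_normal
  have hPR : P ≤ R := by rw [hR]; exact Subgroup.subset_normalClosure
  have hRc : R ≤ cen ρ π.ker := by
    rw [hR]
    exact Subgroup.normalClosure_le_normal (fun a ha => h2 ha)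
  have hDN : (R ⊓ π.ker).Normal := Subgroup.normal_inf_normal R π.ker
  have hDc : ∀ a ∈ R ⊓ π.ker, ∀ b ∈ R ⊓ π.ker, ρ (a * b) = ρ (b * a) := by
    intro a ha b hb
    exact hRc hb.1 a ha.2
  rw [← hR]
  refine ⟨fun k hk g hg => ?_, ?_⟩
  · rw [← map_mul, ← map_mul]
    exact hRc hg k hk
  intro x y b hb hc
  obtain ⟨g, hg⟩ : ∃ g, g = y * b * y⁻¹ := ⟨_, rfl⟩
  rw [← hg] at hc ⊢
  have hgR : g ∈ R := by
    rw [hg]
    exact hRN.conj_mem b (hPR hb) y
  obtain ⟨z, hz⟩ : ∃ z, z = x * g * x⁻¹ * g⁻¹ := ⟨_, rfl⟩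
  have hzg : z * g = x * g * x⁻¹ := by
    rw [hz]
    group
  have hzR : z ∈ R := by
    rw [hz]
    exact R.mul_mem (hRN.conj_mem g hgR x) (R.inv_mem hgR)
  have hzk : z ∈ π.ker := by
    rw [MonoidHom.mem_ker, hz, map_mul, map_mul, map_mul, hc, map_inv, map_inv,
      mul_inv_cancel_right, mul_inv_cancel]
  obtain ⟨m, hm⟩ := hop.pg ⟨b, hb⟩
  have hbm : b ^ p ^ m = 1 := by
    have := congrArg Subtype.val hm
    simpa using this
  have hgm : g ^ p ^ m = 1 := by
    rw [hg, conj_pow, hbm, mul_one, mul_inv_cancel]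
  have hzgm : (z * g) ^ p ^ m = 1 := by
    rw [hzg, conj_pow, hgm, mul_one, mul_inv_cancel]
  have hcm : Commute (ρ z) (ρ g) := by
    show ρ z * ρ g = ρ g * ρ z
    rw [← map_mul, ← map_mul]
    exact hRc hgR z hzk
  have hzm : ρ (z ^ p ^ m) = 1 := by
    have h3 : ρ ((z * g) ^ p ^ m) = 1 := by rw [hzgm, map_one]
    rw [map_pow, map_mul, hcm.mul_pow, ← map_pow, ← map_pow, hgm, map_one, mul_one] at h3
    exact h3
  have hz1 : ρ z = 1 := nop hex hirr (R ⊓ π.ker) hDN hDc z ⟨hzR, hzk⟩ m hzm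
  calc ρ x * ρ g = ρ (z * (g * x)) := by
        rw [← map_mul]
        congr 1
        rw [← mul_assoc, hzg]
        group
    _ = ρ g * ρ x := by rw [map_mul, hz1, one_mul, map_mul]

end Pool.Agent.Work.MP_6d7bb4.h65u
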