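import Pool.Agent.Work.MP_6d7bb4_h65u.Interface4

set_option autoImplicit false

/-!
# MP_6d7bb4: block NSG: a perfect group with all elements of order at most 3 is trivial
-/

namespace Pool.Agent.Work.MP_6d7bb4.h65u

namespace X_NSG

variable {D : Type} [Group D]

/-- Elements commuting with an involution have square `1`. -/
theorem sq_of_comm (h : ∀ x : D, x ^ 2 = 1 ∨ x ^ 3 = 1) {s x : D} (hs : s * s = 1) (hs1 : s ≠ 1)
    (hx : s * x = x * s) : x * x = 1 := by
  rcases h x with h1 | h1
  · rwa [pow_two] at h1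
  · have hc : Commute s x := hx
    rcases h (s * x) with h2 | h2
    · rw [hc.mul_pow, pow_two s, hs, one_mul, pow_two] at h2
      exact h2
    · rw [hc.mul_pow, h1, mul_one, pow_succ, pow_two, hs, one_mul] at h2
      exact absurd h2 hs1

theorem comm_of_sq {x y : D} (hx : x * x = 1) (hy : y * y = 1) (hxy : (x * y) * (x * y) = 1) :
    x * y = y * x := by
  have h1 : (x * y)⁻¹ = x * y := inv_eq_of_mul_eq_one_left hxy
  have h2 : x⁻¹ = x := inv_eq_of_mul_eq_one_left hx
  have h3 : y⁻¹ = y := inv_eq_of_mul_eq_one_left hy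
  rw [mul_inv_rev, h2, h3] at h1
  exact h1.symm

/-- Any two elements of the centraliser of an involution commute. -/
theorem cent_comm (h : ∀ x : D, x ^ 2 = 1 ∨ x ^ 3 = 1) {s x y : D} (hs : s * s = 1) (hs1 : s ≠ 1)
    (hx : s * x = x * s) (hy : s * y = y * s) : x * y = y * x := by
  apply comm_of_sq (sq_of_comm h hs hs1 hx) (sq_of_comm h hs hs1 hy)
  apply sq_of_comm h hs hs1
  rw [← mul_assoc, hx, mul_assoc, hy, mul_assoc]

/-- Involutions which do not commute. -/
theorem braid (h : ∀ x : D, x ^ 2 = 1 ∨ x ^ 3 = 1) {s t : D} (hs : s * s = 1) (ht : t * t = 1)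
    (hn : s * t ≠ t * s) : s * t * s = t * s * t := by
  rcases h (s * t) with h1 | h1
  · rw [pow_two] at h1
    exact absurd (comm_of_sq hs ht h1) hn
  · have h2 : (s * t * s) * (t * s * t) = 1 := by
      rw [← h1, pow_succ, pow_two]
      simp only [mul_assoc]
    have h3 : (t * s * t) * (t * s * t) = 1 := by
      calc (t * s * t) * (t * s * t) = t * s * (t * t) * s * t := by simp only [mul_assoc]
        _ = 1 := by rw [ht, mul_one, mul_assoc t s s, hs, mul_one, ht]
    exact mul_right_cancel (h2.trans h3.symm)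

theorem key {s1 s2 t : D} (h1 : s1 * s1 = 1) (h2 : s2 * s2 = 1) (ht : t * t = 1)
    (h12 : s1 * s2 = s2 * s1) (e1 : s1 * t * s1 = t * s1 * t) (e2 : s2 * t * s2 = t * s2 * t)
    (e3 : (s1 * s2) * t * (s1 * s2) = t * (s1 * s2) * t) : t * s1 = s1 * t := by
  have a1 : t * (s1 * s2) * t = (s1 * t * s1) * (s2 * t * s2) := by
    rw [e1, e2]
    calc t * (s1 * s2) * t = t * s1 * 1 * s2 * t := by simp only [mul_assoc, one_mul, mul_one]
      _ = t * s1 * (t * t) * s2 * t := by rw [ht]
      _ = t * s1 * t * (t * s2 * t) := by simp only [mul_assoc]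
  have a2 : (s1 * s2) * t * (s1 * s2) = s1 * t * (s2 * t * s1) := by
    calc (s1 * s2) * t * (s1 * s2) = (s1 * s2) * t * (s2 * s1) := by rw [h12]
      _ = s1 * (s2 * t * s2) * s1 := by simp only [mul_assoc]
      _ = s1 * (t * s2 * t) * s1 := by rw [e2]
      _ = s1 * t * (s2 * t * s1) := by simp only [mul_assoc]
  have a3 : s1 * t * (s2 * t * s1) = s1 * t * (s1 * (s2 * t * s2)) := by
    rw [← a2, e3, a1]
    simp only [mul_assoc]
  have a4 : s2 * t * s1 = s1 * (s2 * t * s2) := mul_left_cancel a3
  have a5 : s2 * (t * s1) = s2 * (s1 * t * s2) := by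
    calc s2 * (t * s1) = s2 * t * s1 := by simp only [mul_assoc]
      _ = s1 * (s2 * t * s2) := a4
      _ = (s1 * s2) * t * s2 := by simp only [mul_assoc]
      _ = (s2 * s1) * t * s2 := by rw [h12]
      _ = s2 * (s1 * t * s2) := by simp only [mul_assoc]
  have a6 : t * s1 = s1 * t * s2 := mul_left_cancel a5
  have a7 : t * (s1 * t) = t * s2 := by
    calc t * (s1 * t) = t * s1 * t := by simp only [mul_assoc]
      _ = s1 * t * s1 := e1.symm
      _ = s1 * (t * s1) := by simp only [mul_assoc]
      _ = s1 * (s1 * t * s2) := by rw [a6]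
      _ = (s1 * s1) * t * s2 := by simp only [mul_assoc]
      _ = t * s2 := by rw [h1, one_mul]
  have a8 : s1 * t = s2 := mul_left_cancel a7
  have a9 : t = s1 * s2 := by
    rw [← a8, ← mul_assoc, h1, one_mul]
  rw [a9, ← mul_assoc s1 s1, h1, one_mul, h12, mul_assoc, h1, mul_one]

/-- If two different involutions commute, one of them commutes with all involutions. -/
theorem all_comm (h : ∀ x : D, x ^ 2 = 1 ∨ x ^ 3 = 1) {s1 s2 : D} (h1 : s1 * s1 = 1)
    (h1' : s1 ≠ 1) (h2 : s2 * s2 = 1) (h2' : s2 ≠ 1) (h12 : s1 * s2 = s2 * s1) (hne : s1 ≠ s2)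
    {t : D} (ht : t * t = 1) : t * s1 = s1 * t := by
  by_contra hn
  have h3 : (s1 * s2) * (s1 * s2) = 1 := by
    calc (s1 * s2) * (s1 * s2) = s1 * (s2 * s1) * s2 := by simp only [mul_assoc]
      _ = s1 * (s1 * s2) * s2 := by rw [h12]
      _ = (s1 * s1) * (s2 * s2) := by simp only [mul_assoc]
      _ = 1 := by rw [h1, h2, one_mul]
  have h3' : s1 * s2 ≠ 1 := by
    intro h4
    apply hne
    calc s1 = s1 * (s2 * s2) := by rw [h2, mul_one]
      _ = (s1 * s2) * s2 := by rw [mul_assoc]
      _ = s2 := by rw [h4, one_mul]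
  have n2 : s2 * t ≠ t * s2 := fun h4 => hn (cent_comm h h2 h2' h4 h12.symm)
  have n3 : (s1 * s2) * t ≠ t * (s1 * s2) := by
    intro h4
    apply hn
    refine cent_comm h h3 h3' h4 ?_
    calc (s1 * s2) * s1 = s1 * (s2 * s1) := by rw [mul_assoc]
      _ = s1 * (s1 * s2) := by rw [h12]
  exact hn (key h1 h2 ht h12 (braid h h1 ht fun h4 => hn h4.symm) (braid h h2 ht n2)
    (braid h h3 ht n3))

theorem trivial_of_solvable [Group.IsSolvable D] (hc : commutator D = ⊤) (x : D) : x = 1 := by
  by_contra hx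
  have : Nontrivial D := ⟨x, 1, hx⟩
  have h1 := Group.IsSolvable.commutator_lt_top_of_nontrivial D
  rw [hc] at h1
  exact lt_irrefl _ h1

theorem sign_case [Finite D] (hc : commutator D = ⊤) (h : ∀ x : D, x ^ 2 = 1 ∨ x ^ 3 = 1)
    {s : D} (hs : s * s = 1) (hs1 : s ≠ 1)
    (hcen : ∀ x : D, s * x = x * s → x * x = 1 → x ≠ 1 → x = s) : False := by
  classical
  have : Fintype D := Fintype.ofFinite D
  have : Fact (Nat.Prime 2) := ⟨Nat.prime_two⟩
  -- a Sylow 2-subgroup which contains `s` has two elements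
  have hz : IsPGroup 2 (Subgroup.zpowers s) := by
    rintro ⟨y, k, rfl⟩
    refine ⟨1, ?_⟩
    apply Subtype.ext
    change (s ^ k) ^ (2 ^ 1) = 1
    rw [pow_one, ← zpow_natCast, ← zpow_mul, mul_comm, zpow_mul]
    norm_num
    rw [pow_two, hs, one_zpow]
  obtain ⟨P, hP⟩ := hz.exists_le_sylow
  have hsP : s ∈ P := hP (Subgroup.mem_zpowers s)
  have hsq : ∀ x ∈ P, x * x = 1 := by
    intro x hx
    rcases h x with h1 | h1
    · rwa [pow_two] at h1
    · obtain ⟨k, hk⟩ := P.isPGroup' ⟨x, hx⟩
      have hk2 : x ^ 2 ^ k = 1 := congrArg Subtype.val hk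
      have h2 : orderOf x ∣ 3 := orderOf_dvd_of_pow_eq_one h1
      have h3 : orderOf x ∣ 2 ^ k := orderOf_dvd_of_pow_eq_one hk2
      have h4 : Nat.Coprime 3 (2 ^ k) := Nat.Coprime.pow_right _ (by norm_num)
      have h5 : orderOf x = 1 := Nat.eq_one_of_dvd_coprimes h4 h2 h3
      rw [orderOf_eq_one_iff] at h5
      rw [h5, one_mul]
  have hel : ∀ x ∈ P, x = 1 ∨ x = s := by
    intro x hx
    by_cases hx1 : x = 1
    · exact Or.inl hx1
    · refine Or.inr (hcen x ?_ (hsq x hx) hx1)
      exact comm_of_sq hs (hsq x hx) (hsq _ (mul_mem hsP hx))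
  have hcard : Nat.card P = 2 := by
    have h1 : (P : Set D) = {1, s} := by
      ext x
      constructor
      · intro hx
        exact hel x hx
      · rintro (rfl | hx)
        · exact one_mem P
        · rw [Set.mem_singleton_iff] at hx
          rw [hx]
          exact hsP
    have h2 : Nat.card P = (P : Set D).ncard := rfl
    rw [h2, h1, Set.ncard_pair (Ne.symm hs1)]
  have hfac : (Nat.card D).factorization 2 = 1 := by
    have h1 := P.card_eq_multiplicity
    rw [hcard] at h1
    have h2 : 2 ^ 1 = 2 ^ (Nat.card D).factorization 2 := by rw [pow_one]; exact h1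
    exact (Nat.pow_right_injective le_rfl h2).symm
  -- the sign of the left multiplication by `s`
  set σ : Equiv.Perm D := MulAction.toPermHom D D s with hσ
  have hσa : ∀ x, σ x = s * x := fun x => rfl
  have hord : orderOf σ = 2 := by
    apply orderOf_eq_prime
    · rw [pow_two]
      ext x
      rw [Equiv.Perm.mul_apply, hσa, hσa, ← mul_assoc, hs, one_mul, Equiv.Perm.one_apply]
    · intro h1
      apply hs1
      have h2 := hσa 1
      rw [h1, Equiv.Perm.one_apply, mul_one] at h2
      exact h2.symm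
  obtain ⟨n, hn⟩ := Equiv.Perm.cycleType_prime_order (σ := σ) (by rw [hord]; exact Nat.prime_two)
  rw [hord] at hn
  have hsupp : σ.support = Finset.univ := by
    ext x
    rw [Equiv.Perm.mem_support]
    simp only [Finset.mem_univ, iff_true]
    intro h1
    rw [hσa] at h1
    exact hs1 (mul_eq_right.1 h1)
  have hsum := σ.sum_cycleType
  rw [hsupp, Finset.card_univ, hn, Multiset.sum_replicate, smul_eq_mul] at hsum
  have hodd : Odd (n + 1) := by
    rw [← Nat.not_even_iff_odd]
    rintro ⟨m, hm⟩
    have h1 : 2 ^ 2 ∣ Nat.card D := by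
      rw [Nat.card_eq_fintype_card, ← hsum, hm]
      exact ⟨m, by ring⟩
    have h2 : Nat.card D ≠ 0 := Nat.card_pos.ne'
    have h3 := (Nat.Prime.pow_dvd_iff_le_factorization Nat.prime_two h2).1 h1
    omega
  have hsign : Equiv.Perm.sign σ = -1 := by
    rw [Equiv.Perm.sign_of_cycleType, hn, Multiset.sum_replicate, Multiset.card_replicate,
      smul_eq_mul]
    have h1 : Odd ((n + 1) * 2 + (n + 1)) := by
      obtain ⟨m, hm⟩ := hodd
      exact ⟨3 * m + 1, by rw [hm]; ring⟩
    exact h1.neg_one_pow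
  have hker := Abelianization.commutator_subset_ker
    ((Equiv.Perm.sign : Equiv.Perm D →* ℤˣ).comp (MulAction.toPermHom D D))
  rw [hc] at hker
  have h1 : Equiv.Perm.sign σ = 1 := hker (Subgroup.mem_top s)
  rw [hsign] at h1
  exact absurd h1 (by decide)

theorem main [Finite D] (hc : commutator D = ⊤) (h : ∀ x : D, x ^ 2 = 1 ∨ x ^ 3 = 1) (x : D) :
    x = 1 := by
  by_cases hinv : ∃ s : D, s * s = 1 ∧ s ≠ 1
  · obtain ⟨s, hs, hs1⟩ := hinv
    by_cases hpair : ∃ s1 s2 : D, s1 * s1 = 1 ∧ s1 ≠ 1 ∧ s2 * s2 = 1 ∧ s2 ≠ 1 ∧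
        s1 * s2 = s2 * s1 ∧ s1 ≠ s2
    · obtain ⟨s1, s2, h1, h1', h2, h2', h12, hne⟩ := hpair
      have hcomm : ∀ t u : D, t * t = 1 → u * u = 1 → t * u = u * t := fun t u ht hu =>
        cent_comm h h1 h1' (all_comm h h1 h1' h2 h2' h12 hne ht).symm
          (all_comm h h1 h1' h2 h2' h12 hne hu).symm
      let N : Subgroup D :=
        { carrier := {x | x * x = 1}
          mul_mem' := by
            intro a b ha hb
            change (a * b) * (a * b) = 1
            have ha' : a * a = 1 := ha
            have hb' : b * b = 1 := hb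
            calc (a * b) * (a * b) = a * (b * a) * b := by simp only [mul_assoc]
              _ = a * (a * b) * b := by rw [hcomm a b ha hb]
              _ = (a * a) * (b * b) := by simp only [mul_assoc]
              _ = 1 := by rw [ha', hb', one_mul]
          one_mem' := by
            change (1 : D) * 1 = 1
            rw [one_mul]
          inv_mem' := by
            intro a ha
            change a⁻¹ * a⁻¹ = 1
            have ha' : a * a = 1 := ha
            rw [← mul_inv_rev, ha', inv_one] }
      have hN : N.Normal := by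
        refine ⟨fun n hn g => ?_⟩
        change (g * n * g⁻¹) * (g * n * g⁻¹) = 1
        have hn' : n * n = 1 := hn
        calc (g * n * g⁻¹) * (g * n * g⁻¹) = g * (n * n) * g⁻¹ := by group
          _ = 1 := by rw [hn', mul_one, mul_inv_cancel]
      have hNs : Group.IsSolvable N := by
        apply Group.isSolvable_of_comm
        rintro ⟨a, ha⟩ ⟨b, hb⟩
        exact Subtype.ext (hcomm a b ha hb)
      have hQp : IsPGroup 3 (D ⧸ N) := by
        intro q
        refine ⟨1, ?_⟩
        obtain ⟨y, rfl⟩ := QuotientGroup.mk_surjective q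
        rw [pow_one]
        rcases h y with h3 | h3
        · have h4 : (y : D ⧸ N) = 1 := by
            rw [QuotientGroup.eq_one_iff]
            change y * y = 1
            rwa [pow_two] at h3
          rw [h4, one_pow]
        · rw [← QuotientGroup.mk_pow, h3, QuotientGroup.mk_one]
      have : Fact (Nat.Prime 3) := ⟨Nat.prime_three⟩
      have hQn : Group.IsNilpotent (D ⧸ N) := hQp.isNilpotent
      have hQs : Group.IsSolvable (D ⧸ N) := inferInstance
      have : Group.IsSolvable D := Group.isSolvable_of_ker_le_range N.subtype (QuotientGroup.mk' N) (by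
        rw [QuotientGroup.ker_mk', Subgroup.range_subtype])
      exact trivial_of_solvable hc x
    · exfalso
      refine sign_case hc h hs hs1 ?_
      intro y hy hyy hy1
      by_contra hne
      exact hpair ⟨s, y, hs, hs1, hyy, hy1, hy, fun h1 => hne h1.symm⟩
  · have hp : IsPGroup 3 D := by
      intro y
      refine ⟨1, ?_⟩
      rw [pow_one]
      rcases h y with h3 | h3
      · by_cases hy : y = 1
        · rw [hy, one_pow]
        · exact absurd ⟨y, by rwa [pow_two] at h3, hy⟩ hinv
      · exact h3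
    have : Fact (Nat.Prime 3) := ⟨Nat.prime_three⟩
    have : Group.IsNilpotent D := hp.isNilpotent
    have : Group.IsSolvable D := inferInstance
    exact trivial_of_solvable hc x

end X_NSG

/-- Block NSG. -/
theorem s_NSG : Stmt_NSG := by
  intro D _ _ hc h x
  exact X_NSG.main hc h x

end Pool.Agent.Work.MP_6d7bb4.h65u
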