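import Pool.Agent.Work.MP_6d7bb4_h65u.Interface4

set_option autoImplicit false
set_option linter.unusedSectionVars false

/-! # MP_6d7bb4, block ORB: one orbit of commuting perfect groups (helper52) -/

namespace Pool.Agent.Work.MP_6d7bb4.h65u

open MulAction Pool.Agent.Work.MP_6d7bb4.helper94 Pool.Agent.Work.MP_6d7bb4.helper94.Sol

namespace X_ORB

theorem rng_perfect {G H : Type} [Group G] [Group H] {K : Subgroup G} (hK : ⁅K, K⁆ = K)
    (f : K →* H) : ⁅f.range, f.range⁆ = f.range := by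
  have h1 : ⁅(⊤ : Subgroup K), (⊤ : Subgroup K)⁆ = ⊤ := by
    apply Subgroup.map_injective K.subtype_injective
    rw [Subgroup.map_commutator, ← MonoidHom.range_eq_map, K.range_subtype]
    exact hK
  rw [MonoidHom.range_eq_map, ← Subgroup.map_commutator, h1]

/-- a power of `b` generates -/
theorem pow_notMem {G : Type} [Group G] {p : ℕ} (hp : p.Prime) {b : G} (hb : b ^ p = 1)
    {C : Subgroup G} (hbC : b ∉ C) {j : ℕ} (h0 : 0 < j) (hj : j < p) : b ^ j ∉ C := by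
  intro h
  apply hbC
  have hc : Nat.Coprime j p := (Nat.coprime_of_lt_prime h0.ne' hj hp).symm
  have h1 : (1 : ℤ) = j * Nat.gcdA j p + p * Nat.gcdB j p := by
    rw [← Nat.gcd_eq_gcd_ab, hc.gcd_eq_one]
    norm_num
  have h2 : b = (b ^ j) ^ (Nat.gcdA j p) := by
    calc b = b ^ (1 : ℤ) := (zpow_one b).symm
      _ = b ^ ((j : ℤ) * Nat.gcdA j p + p * Nat.gcdB j p) := by rw [← h1]
      _ = (b ^ j) ^ (Nat.gcdA j p) := by
        rw [zpow_add, zpow_mul, zpow_mul, zpow_natCast, zpow_natCast, hb, one_zpow, mul_one]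
  rw [h2]
  exact C.zpow_mem h _

/-- the subgroup generated by `b` and `C` -/
def adj {G : Type} [Group G] (b : G) (C : Subgroup G) (h : ∀ c ∈ C, b * c = c * b) :
    Subgroup G where
  carrier := {x | ∃ (i : ℤ) (c : G), c ∈ C ∧ x = b ^ i * c}
  one_mem' := ⟨0, 1, C.one_mem, by simp⟩
  mul_mem' := by
    rintro x y ⟨i, c, hc, rfl⟩ ⟨j, d, hd, rfl⟩
    refine ⟨i + j, c * d, C.mul_mem hc hd, ?_⟩
    have h1 : c * b ^ j = b ^ j * c := ((Commute.zpow_left (h c hc) j)).eq.symm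
    calc b ^ i * c * (b ^ j * d) = b ^ i * (c * b ^ j) * d := by group
      _ = b ^ i * (b ^ j * c) * d := by rw [h1]
      _ = b ^ (i + j) * (c * d) := by rw [zpow_add]; group
  inv_mem' := by
    rintro x ⟨i, c, hc, rfl⟩
    refine ⟨-i, c⁻¹, C.inv_mem hc, ?_⟩
    have h1 : c⁻¹ * b ^ (-i) = b ^ (-i) * c⁻¹ :=
      ((Commute.zpow_left (h c⁻¹ (C.inv_mem hc)) (-i))).eq.symm
    rw [mul_inv_rev, ← h1, zpow_neg]

theorem mem_adj {G : Type} [Group G] {b : G} {C : Subgroup G} {h : ∀ c ∈ C, b * c = c * b}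
    {x : G} : x ∈ adj b C h ↔ ∃ (i : ℤ) (c : G), c ∈ C ∧ x = b ^ i * c := Iff.rfl

theorem adj_relIndex {G : Type} [Group G] [Finite G] {p : ℕ} (hp : 0 < p) {b : G}
    (hb : b ^ p = 1) {C : Subgroup G} (h : ∀ c ∈ C, b * c = c * b) :
    C.relIndex (adj b C h) ≤ p := by
  have hmem : ∀ i : Fin p, b ^ (i : ℕ) ∈ adj b C h := fun i =>
    ⟨(i : ℕ), 1, C.one_mem, by rw [zpow_natCast, mul_one]⟩
  have hsur : Function.Surjective (fun i : Fin p =>
      (QuotientGroup.mk (⟨b ^ (i : ℕ), hmem i⟩ : adj b C h) :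
        (adj b C h) ⧸ C.subgroupOf (adj b C h))) := by
    intro x
    obtain ⟨⟨x, hx⟩, rfl⟩ := QuotientGroup.mk_surjective x
    obtain ⟨i, c, hc, hxe⟩ := hx
    have hp' : (p : ℤ) ≠ 0 := by exact_mod_cast hp.ne'
    have h1 : 0 ≤ i % p := Int.emod_nonneg i hp'
    have h2 : i % p < p := Int.emod_lt_of_pos i (by exact_mod_cast hp)
    refine ⟨⟨(i % p).toNat, by omega⟩, ?_⟩
    rw [QuotientGroup.eq, Subgroup.mem_subgroupOf]
    have h3 : b ^ (i % p).toNat = b ^ i := by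
      rw [← zpow_natCast, Int.toNat_of_nonneg h1]
      conv_rhs => rw [← Int.mul_ediv_add_emod i p]
      rw [zpow_add, zpow_mul, zpow_natCast, hb, one_zpow, one_mul]
    show (b ^ (i % p).toNat)⁻¹ * x ∈ C
    rw [h3, hxe, inv_mul_cancel_left]
    exact hc
  have h1 := Nat.card_le_card_of_surjective _ hsur
  rw [Nat.card_fin] at h1
  exact h1

/-- the action of the centraliser of `b` on the fixed points of `b` -/
def act1 {G V : Type} [Group G] [AddCommGroup V] (σ : G →* AddMonoid.End V) (b : G) :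
    Subgroup.centralizer {b} →* AddMonoid.End (FixedBy σ (Subgroup.zpowers b)) where
  toFun g :=
    { toFun := fun u => ⟨σ (g : G) (u : V), by
        rintro a ⟨i, rfl⟩
        have h1 : (g : G) * b ^ i = b ^ i * (g : G) := by
          have h2 : b * (g : G) = (g : G) * b := Subgroup.mem_centralizer_singleton_iff.1 g.2 |>.symm
          exact (Commute.zpow_left h2 i).eq.symm
        have h3 : σ (b ^ i) (σ (g : G) (u : V)) = (σ (b ^ i) * σ (g : G)) (u : V) := rfl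
        rw [h3, ← map_mul, ← h1, map_mul]
        show σ (g : G) (σ (b ^ i) (u : V)) = _
        rw [u.2 (b ^ i) ⟨i, rfl⟩]⟩
      map_zero' := by
        apply Subtype.ext
        exact map_zero _
      map_add' := by
        intro u v
        apply Subtype.ext
        exact map_add _ _ _ }
  map_one' := by
    ext u
    show σ 1 (u : V) = u
    rw [map_one]
    rfl
  map_mul' := by
    intro g h
    ext u
    show σ ((g : G) * h) (u : V) = σ (g : G) (σ (h : G) (u : V))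
    rw [map_mul]
    rfl

theorem act1_val {G V : Type} [Group G] [AddCommGroup V] (σ : G →* AddMonoid.End V) (b : G)
    (g : Subgroup.centralizer {b}) (u : FixedBy σ (Subgroup.zpowers b)) :
    ((act1 σ b g u : FixedBy σ (Subgroup.zpowers b)) : V) = σ (g : G) (u : V) := rfl

theorem card_pow (p : ℕ) [Fact p.Prime] (V : Type) [AddCommGroup V] [Finite V]
    (hV : ∀ v : V, p • v = 0) : ∃ n : ℕ, Nat.card V = p ^ n := by
  let inst : Module (ZMod p) V := AddCommGroup.zmodModule hV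
  have hfin : Module.Finite (ZMod p) V := Module.Finite.of_finite
  have h := @Module.natCard_eq_pow_finrank (ZMod p) V _ _ inst hfin
  rw [Nat.card_zmod] at h
  exact ⟨_, h⟩

theorem perfect_trivial {G V : Type} [Group G] [AddCommGroup V] (σ : G →* AddMonoid.End V)
    {K : Subgroup G} (hK : ⁅K, K⁆ = K) (hc : ∀ k ∈ K, ∀ l ∈ K, σ k * σ l = σ l * σ k) :
    ∀ k ∈ K, σ k = 1 := by
  have h1 : ⁅K, K⁆ ≤ σ.ker := by
    rw [Subgroup.commutator_le]
    intro k hk l hl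
    rw [MonoidHom.mem_ker, commutatorElement_def, map_mul, map_mul, map_mul, hc k hk l hl,
      mul_assoc (σ l) (σ k) (σ k⁻¹), ← map_mul σ k, mul_inv_cancel, map_one, mul_one, ← map_mul,
      mul_inv_cancel, map_one]
  intro k hk
  rw [hK] at h1
  exact MonoidHom.mem_ker.1 (h1 hk)

end X_ORB

open X_ORB in
theorem s_ORB (hTAB : Stmt_TAB) (hTRN : Stmt_TRN) (hDLT : Stmt_DLT) : Stmt_ORB := by
  intro p hpf
  have hp : p.Prime := hpf.out
  suffices hmain : ∀ (N : ℕ) (G : Type) [Group G] [Finite G] (V : Type)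
      [AddCommGroup V] [Finite V] (σ : G →* AddMonoid.End V) (A C K : Subgroup G),
      C.relIndex A = N →
      (∀ v : V, p • v = 0) → C ≤ A → (∀ a ∈ A, ∀ b ∈ A, a * b = b * a) → (∀ a ∈ A, a ^ p = 1) →
      (∀ c ∈ C, σ c = 1) → (∀ c ∈ C, ∀ k ∈ K, c * k = k * c) →
      (∀ a ∈ A, a ∉ C → ∀ k ∈ K, ∀ l ∈ K, (a * k * a⁻¹) * l = l * (a * k * a⁻¹)) →
      ⁅K, K⁆ = K → (∃ k ∈ K, σ k ≠ 1) → C.relIndex A ^ 2 ≤ (FixedBy σ A).index by
    intro G _ _ V _ _ σ A C K h1 h2 h3 h4 h5 h6 h7 h8 h9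
    exact hmain _ G V σ A C K rfl h1 h2 h3 h4 h5 h6 h7 h8 h9
  intro N
  induction N using Nat.strong_induction_on with
  | _ N ih =>
  intro G _ _ V _ _ σ A C K hN hV hCA hab hAp hCσ hCK hAK hKK hKσ
  by_cases hAC : A ≤ C
  · rw [Subgroup.relIndex_eq_one.2 hAC, one_pow]
    exact Nat.one_le_iff_ne_zero.2 AddSubgroup.index_ne_zero_of_finite
  obtain ⟨b, hbA, hbC⟩ := SetLike.not_le_iff_exists.1 hAC
  have hbp : b ^ p = 1 := hAp b hbA
  have hbj : ∀ j : ℕ, 0 < j → j < p → b ^ j ∉ C := fun j h0 hj => pow_notMem hp hbp hbC h0 hj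
  have hcm : ∀ j : ℕ, 0 < j → j < p → ∀ k ∈ K, ∀ l ∈ K,
      (b ^ j * k * (b ^ j)⁻¹) * l = l * (b ^ j * k * (b ^ j)⁻¹) := fun j h0 hj k hk l hl =>
    hAK (b ^ j) (A.pow_mem hbA j) (hbj j h0 hj) k hk l hl
  obtain ⟨U, hU⟩ : ∃ U, U = FixedBy σ (Subgroup.zpowers b) := ⟨_, rfl⟩
  -- (1) the index of `U`
  have hidx : p ^ 2 ≤ (FixedBy σ (Subgroup.zpowers b)).index := by
    have h1 : ¬ (FixedBy σ (Subgroup.zpowers b)).index ≤ p := by
      intro h
      obtain ⟨k, hk, hk1⟩ := hKσ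
      exact hk1 (hTRN p G V σ K b hV hKK hbp hcm h k hk)
    obtain ⟨n, hn⟩ : ∃ n : ℕ, Nat.card V = p ^ n := by
      exact card_pow p V hV
    have h2 : (FixedBy σ (Subgroup.zpowers b)).index ∣ p ^ n := by
      rw [← hn]
      exact AddSubgroup.index_dvd_card _
    obtain ⟨k, -, hk⟩ := (Nat.dvd_prime_pow hp).1 h2
    rw [hk] at h1 ⊢
    refine Nat.pow_le_pow_right hp.pos ?_
    by_contra hcon
    apply h1
    calc p ^ k ≤ p ^ 1 := Nat.pow_le_pow_right hp.pos (by omega)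
      _ = p := pow_one p
  -- (2) the diagonal
  obtain ⟨δ, hδb, hδcl, hδm⟩ := hDLT G p b K hp.pos hbp hcm
  have hbc : ∀ c ∈ C, b * c = c * b := fun c hc => hab b hbA c (hCA hc)
  obtain ⟨C1, hC1⟩ : ∃ C1, C1 = adj b C hbc := ⟨_, rfl⟩
  have hCC1 : C ≤ C1 := by
    intro c hc
    rw [hC1]
    exact ⟨0, c, hc, by simp⟩
  have hbC1 : b ∈ C1 := by
    rw [hC1]
    exact ⟨1, 1, C.one_mem, by simp⟩
  have hC1A : C1 ≤ A := by
    intro x hx
    rw [hC1] at hx
    obtain ⟨i, c, hc, rfl⟩ := hx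
    exact A.mul_mem (A.zpow_mem hbA i) (hCA hc)
  have hcδ : ∀ c ∈ C, ∀ k : K, c * δ k = δ k * c := by
    intro c hc k
    have h1 : Subgroup.closure {g | ∃ (j : ℕ) (l : G), l ∈ K ∧ g = b ^ j * l * (b ^ j)⁻¹} ≤
        Subgroup.centralizer {c} := by
      rw [Subgroup.closure_le]
      rintro g ⟨j, l, hl, rfl⟩
      have e1 : Commute c (b ^ j) := (Commute.pow_left (hbc c hc : Commute b c) j).symm
      have e2 : Commute c l := hCK c hc l hl
      have e3 : Commute c (b ^ j * l * (b ^ j)⁻¹) := (e1.mul_right e2).mul_right e1.inv_right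
      exact Subgroup.mem_centralizer_singleton_iff.2 e3.eq.symm
    exact (Subgroup.mem_centralizer_singleton_iff.1 (h1 (hδcl k))).symm
  have hC1δ : ∀ c ∈ C1, ∀ k : K, c * δ k = δ k * c := by
    intro c hc k
    rw [hC1] at hc
    obtain ⟨i, c0, hc0, rfl⟩ := hc
    have e1 : Commute (b ^ i) (δ k) := Commute.zpow_left (hδb k) i
    have e2 : Commute c0 (δ k) := hcδ c0 hc0 k
    exact (e1.mul_left e2).eq
  have hAδ : ∀ a ∈ A, a ∉ C1 → ∀ k l : K, (a * δ k * a⁻¹) * δ l = δ l * (a * δ k * a⁻¹) := by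
    intro a ha haC1 k l
    have hgen : ∀ (i j : ℕ), ∀ k ∈ K, ∀ l ∈ K,
        Commute (a * (b ^ i * k * (b ^ i)⁻¹) * a⁻¹) (b ^ j * l * (b ^ j)⁻¹) := by
      intro i j k hk l hl
      have e1 : (b ^ j)⁻¹ * a * b ^ i ∈ A :=
        A.mul_mem (A.mul_mem (A.inv_mem (A.pow_mem hbA j)) ha) (A.pow_mem hbA i)
      have e2 : (b ^ j)⁻¹ * a * b ^ i ∉ C := by
        intro hcon
        apply haC1
        have e3 : a = b ^ j * ((b ^ j)⁻¹ * a * b ^ i) * (b ^ i)⁻¹ := by group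
        rw [e3]
        exact C1.mul_mem (C1.mul_mem (C1.pow_mem hbC1 j) (hCC1 hcon))
          (C1.inv_mem (C1.pow_mem hbC1 i))
      have e4 : Commute (((b ^ j)⁻¹ * a * b ^ i) * k * ((b ^ j)⁻¹ * a * b ^ i)⁻¹) l :=
        hAK _ e1 e2 k hk l hl
      have e5 := e4.eq
      show a * (b ^ i * k * (b ^ i)⁻¹) * a⁻¹ * (b ^ j * l * (b ^ j)⁻¹) =
        b ^ j * l * (b ^ j)⁻¹ * (a * (b ^ i * k * (b ^ i)⁻¹) * a⁻¹)
      calc a * (b ^ i * k * (b ^ i)⁻¹) * a⁻¹ * (b ^ j * l * (b ^ j)⁻¹)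
          = b ^ j * ((((b ^ j)⁻¹ * a * b ^ i) * k * ((b ^ j)⁻¹ * a * b ^ i)⁻¹) * l) *
            (b ^ j)⁻¹ := by group
        _ = b ^ j * (l * (((b ^ j)⁻¹ * a * b ^ i) * k * ((b ^ j)⁻¹ * a * b ^ i)⁻¹)) *
            (b ^ j)⁻¹ := by rw [e5]
        _ = b ^ j * l * (b ^ j)⁻¹ * (a * (b ^ i * k * (b ^ i)⁻¹) * a⁻¹) := by group
    -- first closure
    have hS : ∀ k ∈ K, ∀ i : ℕ, ∀ y ∈ Subgroup.closure
        {g | ∃ (j : ℕ) (l : G), l ∈ K ∧ g = b ^ j * l * (b ^ j)⁻¹},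
        Commute (a * (b ^ i * k * (b ^ i)⁻¹) * a⁻¹) y := by
      intro k hk i y hy
      have h1 : Subgroup.closure {g | ∃ (j : ℕ) (l : G), l ∈ K ∧ g = b ^ j * l * (b ^ j)⁻¹} ≤
          Subgroup.centralizer {a * (b ^ i * k * (b ^ i)⁻¹) * a⁻¹} := by
        rw [Subgroup.closure_le]
        rintro g ⟨j, l, hl, rfl⟩
        exact Subgroup.mem_centralizer_singleton_iff.2 (hgen i j k hk l hl).eq.symm
      exact (Subgroup.mem_centralizer_singleton_iff.1 (h1 hy)).symm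
    have h2 : Subgroup.closure {g | ∃ (j : ℕ) (l : G), l ∈ K ∧ g = b ^ j * l * (b ^ j)⁻¹} ≤
        (Subgroup.centralizer {δ l}).comap (MulAut.conj a).toMonoidHom := by
      rw [Subgroup.closure_le]
      rintro g ⟨j, k, hk, rfl⟩
      exact Subgroup.mem_centralizer_singleton_iff.2 (hS k hk j _ (hδcl l)).eq
    have h3 := h2 (hδcl k)
    exact Subgroup.mem_centralizer_singleton_iff.1 h3
  -- (3) the diagonal acts nontrivially on `U`
  have hnt : ∃ k : K, ∃ u ∈ FixedBy σ (Subgroup.zpowers b), σ (δ k) u ≠ u := by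
    by_contra hcon
    push Not at hcon
    have hpg : IsPGroup p (Subgroup.zpowers b) := by
      intro x
      obtain ⟨x, i, rfl⟩ := x
      refine ⟨1, ?_⟩
      apply Subtype.ext
      show (b ^ i) ^ p ^ 1 = 1
      rw [pow_one, ← zpow_natCast, ← zpow_mul, mul_comm, zpow_mul, zpow_natCast, hbp, one_zpow]
    have h1 : ∀ d ∈ δ.range, σ d = 1 := by
      refine hTAB p G V σ (Subgroup.zpowers b) δ.range hV hpg (rng_perfect hKK δ) ?_ ?_
      · rintro x ⟨i, rfl⟩ d ⟨k, rfl⟩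
        exact (Commute.zpow_left (hδb k) i).eq
      · rintro v hv d ⟨k, rfl⟩
        exact hcon k v hv
    have h2 : ∀ k ∈ K, ∀ l ∈ K, σ k⁻¹ * σ l = σ l * σ k⁻¹ := by
      intro k hk l hl
      obtain ⟨m, hm1, hm2⟩ := hδm ⟨k, hk⟩
      have e1 : σ k * σ m = 1 := by
        rw [← map_mul, ← hm1]
        exact h1 _ ⟨_, rfl⟩
      have e2 : σ m = σ k⁻¹ := by
        calc σ m = (σ k⁻¹ * σ k) * σ m := by rw [← map_mul, inv_mul_cancel, map_one, one_mul]
          _ = σ k⁻¹ := by rw [mul_assoc, e1, mul_one]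
      rw [← e2, ← map_mul, ← map_mul, hm2 l hl]
    obtain ⟨k, hk, hk1⟩ := hKσ
    refine hk1 (perfect_trivial σ hKK (fun k hk l hl => ?_) k hk)
    have := h2 k⁻¹ (K.inv_mem hk) l hl
    rwa [inv_inv] at this
  -- (4) induction
  have hAcen : A ≤ Subgroup.centralizer {b} := fun a ha =>
    Subgroup.mem_centralizer_singleton_iff.2 (hab a ha b hbA)
  have hδcen : ∀ k, δ k ∈ Subgroup.centralizer {b} := fun k =>
    Subgroup.mem_centralizer_singleton_iff.2 (hδb k).symm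
  have hlt : C1.relIndex A < C.relIndex A := by
    rw [← Subgroup.relIndex_mul_relIndex C C1 A hCC1 hC1A]
    have h1 : C1.relIndex A ≠ 0 := Subgroup.index_ne_zero_of_finite
    have h2 : C.relIndex C1 ≠ 0 := Subgroup.index_ne_zero_of_finite
    have h3 : C.relIndex C1 ≠ 1 := fun h => hbC (Subgroup.relIndex_eq_one.1 h hbC1)
    have h4 : 2 ≤ C.relIndex C1 := by omega
    have h5 : 0 < C1.relIndex A := by omega
    nlinarith
  have hih := ih (C1.relIndex A) (by rw [← hN]; exact hlt) (Subgroup.centralizer {b})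
    (FixedBy σ (Subgroup.zpowers b)) (act1 σ b) (A.subgroupOf (Subgroup.centralizer {b}))
    (C1.subgroupOf (Subgroup.centralizer {b})) (δ.codRestrict _ hδcen).range
    (Subgroup.relIndex_subgroupOf hAcen)
    (fun v => Subtype.ext (hV v))
    (fun x hx => hC1A hx)
    (fun x hx y hy => Subtype.ext (hab x hx y hy))
    (fun x hx => Subtype.ext (hAp x hx))
    (by
      intro c hc
      have hc' : (c : G) ∈ C1 := hc
      rw [hC1] at hc'
      obtain ⟨i, c0, hc0, hce⟩ := hc'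
      ext u
      rw [act1_val, hce, map_mul]
      show σ (b ^ i) (σ c0 (u : V)) = u
      rw [hCσ c0 hc0]
      exact u.2 (b ^ i) ⟨i, rfl⟩)
    (by
      rintro c hc x ⟨k, rfl⟩
      exact Subtype.ext (hC1δ c hc k))
    (by
      rintro a ha haC x ⟨k, rfl⟩ y ⟨l, rfl⟩
      exact Subtype.ext (hAδ a ha haC k l))
    (rng_perfect hKK _)
    (by
      obtain ⟨k, u, hu, hku⟩ := hnt
      refine ⟨_, ⟨k, rfl⟩, ?_⟩
      intro hcon
      apply hku
      have h1 := congrArg (fun f => ((f ⟨u, hu⟩ : FixedBy σ (Subgroup.zpowers b)) : V)) hcon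
      exact h1)
  rw [Subgroup.relIndex_subgroupOf hAcen] at hih
  have hFU : FixedBy σ A ≤ FixedBy σ (Subgroup.zpowers b) := by
    intro v hv a ha
    exact hv a ((Subgroup.zpowers_le.2 hbA) ha)
  have hFeq : FixedBy (act1 σ b) (A.subgroupOf (Subgroup.centralizer {b})) =
      (FixedBy σ A).addSubgroupOf (FixedBy σ (Subgroup.zpowers b)) := by
    ext u
    rw [AddSubgroup.mem_addSubgroupOf]
    constructor
    · intro hu a ha
      have h1 := hu ⟨a, hAcen ha⟩ ha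
      exact congrArg Subtype.val h1
    · intro hu a ha
      exact Subtype.ext (hu a ha)
  rw [hFeq] at hih
  have h10 := AddSubgroup.relIndex_mul_index hFU
  have h11 : C.relIndex C1 ≤ p := by
    rw [hC1]
    exact adj_relIndex hp.pos hbp hbc
  rw [← Subgroup.relIndex_mul_relIndex C C1 A hCC1 hC1A, mul_pow, ← h10, mul_comm]
  exact Nat.mul_le_mul hih ((Nat.pow_le_pow_left h11 2).trans hidx)

end Pool.Agent.Work.MP_6d7bb4.h65u
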