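import Pool.Agent.Work.MP_6d7bb4_h65u.Interface4

/-! # MP_6d7bb4: groups with at most one offender; block TAB -/

set_option autoImplicit false
set_option linter.unusedSectionVars false

namespace Pool.Agent.Work.MP_6d7bb4.h65u

open MulAction Pool.Agent.Work.MP_6d7bb4.helper94 Pool.Agent.Work.MP_6d7bb4.helper94.Sol

namespace X_TAB

section one
variable {p : ℕ} [Fact p.Prime] {G : Type} [Group G] [Finite G] {V : Type} [AddCommGroup V]
  [Finite V] {σ : G →* AddMonoid.End V}

/-- a `p`-group fixes a nonzero vector of a nonzero invariant subgroup -/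
theorem exists_fix {B : Subgroup G} (hex : ∀ v : V, p • v = 0) (hB : IsPGroup p B)
    (W : AddSubgroup V) (hW : ∀ b ∈ B, ∀ w ∈ W, σ b w ∈ W) (w0 : V) (hw0 : w0 ∈ W)
    (hne : w0 ≠ 0) : ∃ w ∈ W, w ≠ 0 ∧ ∀ b ∈ B, σ b w = w := by
  let act : MulAction B W :=
    { smul := fun b w => ⟨σ b w, hW b b.2 w w.2⟩
      one_smul := by
        intro w
        apply Subtype.ext
        show σ ((1 : B) : G) (w : V) = w
        rw [Subgroup.coe_one, map_one]
        rfl
      mul_smul := by
        intro a b w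
        apply Subtype.ext
        show σ ((a * b : B) : G) (w : V) = σ a (σ b w)
        rw [Subgroup.coe_mul, map_mul]
        rfl }
  have hdiv : p ∣ Nat.card W := by
    have h1 : addOrderOf (⟨w0, hw0⟩ : W) = p := by
      apply addOrderOf_eq_prime
      · apply Subtype.ext
        exact hex w0
      · intro h
        exact hne (congrArg Subtype.val h)
    rw [← h1]
    exact addOrderOf_dvd_natCard _
  have h0 : (0 : W) ∈ fixedPoints B W := by
    intro b
    apply Subtype.ext
    exact map_zero (σ b)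
  obtain ⟨w, hw, hw1⟩ := hB.exists_fixed_point_of_prime_dvd_card_of_fixed_point W hdiv h0
  refine ⟨w, w.2, ?_, ?_⟩
  · intro h
    apply hw1
    apply Subtype.ext
    exact h.symm
  · intro b hb
    exact congrArg Subtype.val (hw ⟨b, hb⟩)

/-- elements of order prime to `p` act trivially -/
theorem copr {B D : Subgroup G} (hex : ∀ v : V, p • v = 0) (hB : IsPGroup p B)
    (hcm : ∀ b ∈ B, ∀ d ∈ D, b * d = d * b)
    (hfix : ∀ v ∈ FixedBy σ B, ∀ d ∈ D, σ d v = v) {d : G} (hd : d ∈ D) {m : ℕ}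
    (hm : p.Coprime m) (hdm : d ^ m = 1) : σ d = 1 := by
  by_contra hne
  have h1 : ∃ v : V, σ d v - v ≠ 0 := by
    by_contra h
    push Not at h
    apply hne
    ext v
    exact sub_eq_zero.1 (h v)
  obtain ⟨v0, hv0⟩ := h1
  have hinv : ∀ b ∈ B, ∀ w ∈ ((show V →+ V from σ d) - AddMonoidHom.id V).range,
      σ b w ∈ ((show V →+ V from σ d) - AddMonoidHom.id V).range := by
    rintro b hb w ⟨u, hu⟩
    refine ⟨σ b u, ?_⟩
    have hu' : σ d u - u = w := hu
    show σ d (σ b u) - σ b u = σ b w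
    have h3 : σ d (σ b u) = σ b (σ d u) := by
      have h4 : σ (d * b) u = σ (b * d) u := by rw [hcm b hb d hd]
      rw [map_mul, map_mul] at h4
      exact h4
    rw [h3, ← map_sub, hu']
  obtain ⟨w, ⟨v, hv⟩, hw0, hwB⟩ := exists_fix (σ := σ) hex hB
    ((show V →+ V from σ d) - AddMonoidHom.id V).range hinv (σ d v0 - v0) ⟨v0, rfl⟩ hv0
  have hv' : σ d v - v = w := hv
  have hdw : σ d w = w := hfix w hwB d hd
  have hpow : ∀ j : ℕ, σ (d ^ j) v = v + j • w := by
    intro j
    induction j with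
    | zero => rw [pow_zero, map_one, zero_smul, add_zero]; rfl
    | succ j ih =>
      rw [pow_succ', map_mul]
      show σ d (σ (d ^ j) v) = _
      rw [ih, map_add, map_nsmul, hdw, succ_nsmul, sub_eq_iff_eq_add.1 hv']
      abel
  have h2 : m • w = 0 := by
    have h3 := hpow m
    rw [hdm, map_one] at h3
    have h4 : v = v + m • w := h3
    exact (left_eq_add.1 h4)
  have h5 : addOrderOf w ∣ Nat.gcd p m :=
    Nat.dvd_gcd (addOrderOf_dvd_of_nsmul_eq_zero (hex w)) (addOrderOf_dvd_of_nsmul_eq_zero h2)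
  rw [Nat.Coprime.gcd_eq_one hm, Nat.dvd_one, AddMonoid.addOrderOf_eq_one_iff] at h5
  exact hw0 h5

end one

end X_TAB

open X_TAB

theorem s_TAB : Stmt_TAB := by
  intro p _ G _ _ V _ _ σ B D hex hB hD hcm hfix
  have hpow : ∀ d ∈ D, ∃ k : ℕ, σ (d ^ p ^ k) = 1 := by
    intro d hd
    obtain ⟨k, m, hm, hord⟩ := Nat.exists_eq_pow_mul_and_not_dvd (orderOf_pos d).ne' p
      (Fact.out : p.Prime).ne_one
    refine ⟨k, copr hex hB hcm hfix (pow_mem hd _) (m := m) ?_ ?_⟩
    · exact ((Fact.out : p.Prime).coprime_iff_not_dvd).2 hm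
    · rw [← pow_mul, ← hord, pow_orderOf_eq_one]
  obtain ⟨E, hE⟩ : ∃ E, E = D.map σ.toHomUnits := ⟨_, rfl⟩
  have hEE : ⁅E, E⁆ = E := by
    rw [hE, ← Subgroup.map_commutator, hD]
  have hfinE : Finite E := by
    rw [hE]
    exact Finite.of_surjective (σ.toHomUnits.subgroupMap D) (σ.toHomUnits.subgroupMap_surjective D)
  have hEp : IsPGroup p E := by
    rintro ⟨e, he⟩
    rw [hE] at he
    obtain ⟨d, hd, rfl⟩ := he
    obtain ⟨k, hk⟩ := hpow d hd
    refine ⟨k, ?_⟩
    apply Subtype.ext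
    show (σ.toHomUnits d) ^ p ^ k = 1
    rw [← map_pow]
    exact Units.ext hk
  have hbot : E = ⊥ := by
    by_contra hne
    have hnt : Nontrivial E := (Subgroup.nontrivial_iff_ne_bot E).2 hne
    have hnil : Group.IsNilpotent E := hEp.isNilpotent
    have hsol : Group.IsSolvable E := IsNilpotent.to_isSolvable
    have h1 := Group.IsSolvable.commutator_lt_top_of_nontrivial E
    have h2 : commutator E = ⊤ := by
      apply Subgroup.map_injective (Subgroup.subtype_injective E)
      rw [Subgroup.map_subtype_commutator, hEE, ← MonoidHom.range_eq_map, Subgroup.range_subtype]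
    exact h1.ne h2
  intro d hd
  have h1 : σ.toHomUnits d ∈ E := by
    rw [hE]
    exact ⟨d, hd, rfl⟩
  rw [hbot, Subgroup.mem_bot] at h1
  exact congrArg Units.val h1

end Pool.Agent.Work.MP_6d7bb4.h65u
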