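import Pool.Agent.Work.MP_6d7bb4_h65u.Interface4

set_option autoImplicit false
set_option linter.unusedSectionVars false

/-! # Block TRN: a transvection does not move a perfect group which commutes with its conjugates -/

namespace Pool.Agent.Work.MP_6d7bb4.h65u

namespace X_TRN

open scoped commutatorElement

section basic

variable {G : Type} [Group G] {V : Type} [AddCommGroup V] (σ : G →* AddMonoid.End V)

theorem mul (x y : G) (v : V) : σ (x * y) v = σ x (σ y v) := by
  rw [map_mul]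
  rfl

theorem one (v : V) : σ 1 v = v := by
  rw [map_one]
  rfl

theorem inv (x : G) (v : V) : σ x⁻¹ (σ x v) = v := by
  rw [← mul, inv_mul_cancel, one]

theorem inv' (x : G) (v : V) : σ x (σ x⁻¹ v) = v := by
  rw [← mul, mul_inv_cancel, one]

theorem zs (x : G) (n : ℤ) (v : V) : σ x (n • v) = n • σ x v := map_zsmul _ _ _

theorem inv_fix {x : G} {c : V} (h : σ x c = c) : σ x⁻¹ c = c := by
  have h1 := inv σ x c
  rwa [h] at h1

/-- the stabiliser of a vector -/
def stab (c : V) : Subgroup G where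
  carrier := {g | σ g c = c}
  one_mem' := one σ c
  mul_mem' := by
    intro x y hx hy
    show σ (x * y) c = c
    have hx' : σ x c = c := hx
    have hy' : σ y c = c := hy
    rw [mul, hy', hx']
  inv_mem' := by
    intro x hx
    exact inv_fix σ hx

/-- the transvections with centre `c` -/
def Esub (c : V) : Subgroup G where
  carrier := {g | σ g c = c ∧ ∀ v, ∃ n : ℤ, σ g v = v + n • c}
  one_mem' := ⟨one σ c, fun v => ⟨0, by rw [one, zero_smul, add_zero]⟩⟩
  mul_mem' := by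
    rintro x y ⟨hx, hx'⟩ ⟨hy, hy'⟩
    refine ⟨by rw [mul, hy, hx], fun v => ?_⟩
    obtain ⟨n, hn⟩ := hy' v
    obtain ⟨m, hm⟩ := hx' v
    refine ⟨m + n, ?_⟩
    rw [mul, hn, map_add, zs, hx, hm, add_smul, add_assoc]
  inv_mem' := by
    rintro x ⟨hx, hx'⟩
    refine ⟨inv_fix σ hx, fun v => ?_⟩
    obtain ⟨n, hn⟩ := hx' (σ x⁻¹ v)
    rw [inv'] at hn
    refine ⟨-n, ?_⟩
    rw [neg_smul, ← sub_eq_add_neg, eq_sub_iff_add_eq]
    exact hn.symm

theorem perf {D K : Subgroup G} (hD : ⁅D, D⁆ = D) (h : ∀ x ∈ D, ∀ y ∈ D, ⁅x, y⁆ ∈ K) : D ≤ K := by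
  have h1 : ⁅D, D⁆ ≤ K := Subgroup.commutator_le.mpr h
  rwa [hD] at h1

theorem comm_apply (x y : G) (v : V) : σ ⁅x, y⁆ v = σ x (σ y (σ x⁻¹ (σ y⁻¹ v))) := by
  rw [commutatorElement_def, mul, mul, mul]

/-- perfect groups with commuting images act trivially -/
theorem end0 {D : Subgroup G} (hD : ⁅D, D⁆ = D)
    (h : ∀ x ∈ D, ∀ y ∈ D, ∀ v, σ x (σ y v) = σ y (σ x v)) : ∀ d ∈ D, σ d = 1 := by
  have h1 : D ≤ σ.ker := by
    refine perf hD ?_
    intro x hx y hy
    rw [MonoidHom.mem_ker]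
    ext v
    show σ ⁅x, y⁆ v = v
    rw [comm_apply, h x hx y hy, inv', inv']
  intro d hd
  exact MonoidHom.mem_ker.mp (h1 hd)

/-- the end of the proof -/
theorem final {D : Subgroup G} (hD : ⁅D, D⁆ = D) (a : G) (c : V) (hac : σ a c = c)
    (ha : ∀ v, ∃ n : ℤ, σ a v = v + n • c)
    (hcomm : ∀ x ∈ D, ∀ y ∈ D, (a * x * a⁻¹) * y = y * (a * x * a⁻¹))
    (hDc : ∀ x ∈ D, σ x c = c) : ∀ d ∈ D, σ d = 1 := by
  have haE : a ∈ Esub σ c := ⟨hac, ha⟩
  have hai : ∀ v, ∃ n : ℤ, σ a⁻¹ v = v + n • c := ((Esub σ c).inv_mem haE).2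
  have key : ∀ x ∈ D, ∀ v, ∃ n : ℤ, σ (a * x * a⁻¹) v = σ x v + n • c := by
    intro x hx v
    obtain ⟨k, hk⟩ := hai v
    obtain ⟨m, hm⟩ := ha (σ x v)
    refine ⟨m + k, ?_⟩
    rw [mul, mul, hk, map_add, zs, hDc x hx, map_add, zs, hac, hm, add_smul, add_assoc]
  have comm1 : ∀ x ∈ D, ∀ y ∈ D, ∀ v, ∃ n : ℤ, σ x (σ y v) = σ y (σ x v) + n • c := by
    intro x hx y hy v
    obtain ⟨n1, h1⟩ := key x hx (σ y v)
    obtain ⟨n2, h2⟩ := key x hx v
    have h3 : σ (a * x * a⁻¹) (σ y v) = σ y (σ (a * x * a⁻¹) v) := by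
      rw [← mul, ← mul, hcomm x hx y hy]
    rw [h1, h2, map_add, zs, hDc y hy] at h3
    refine ⟨n2 - n1, ?_⟩
    rw [sub_smul, ← add_sub_assoc, ← h3, add_sub_cancel_right]
  have hDE : D ≤ Esub σ c := by
    refine perf hD ?_
    intro x hx y hy
    have hxy : ⁅x, y⁆ ∈ D := by
      rw [commutatorElement_def]
      exact D.mul_mem (D.mul_mem (D.mul_mem hx hy) (D.inv_mem hx)) (D.inv_mem hy)
    refine ⟨hDc _ hxy, fun v => ?_⟩
    obtain ⟨n, hn⟩ := comm1 x hx y hy (σ x⁻¹ (σ y⁻¹ v))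
    refine ⟨n, ?_⟩
    rw [comm_apply, hn, inv', inv']
  refine end0 σ hD ?_
  intro x hx y hy v
  obtain ⟨n, hn⟩ := (hDE hx).2 v
  obtain ⟨m, hm⟩ := (hDE hy).2 v
  rw [hm, hn, map_add, map_add, zs, zs, hDc x hx, hDc y hy, hn, hm, add_right_comm]

/-- the basic identity -/
theorem gen {D : Subgroup G} (g : G) (c : V) (μ : G → ℤ)
    (hμ : ∀ x ∈ D, σ (g * x * g⁻¹) c = σ x c + μ x • c)
    (hcm : ∀ x ∈ D, ∀ y ∈ D, (g * x * g⁻¹) * y = y * (g * x * g⁻¹)) (x y : G) (hx : x ∈ D)
    (hy : y ∈ D) : σ x (σ y c) + μ (x * y) • c =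
      σ y (σ x c) + μ x • σ y c + (μ y • σ x c + (μ y * μ x) • c) := by
  have h1 := hμ (x * y) (D.mul_mem hx hy)
  have h2 : g * (x * y) * g⁻¹ = (g * x * g⁻¹) * (g * y * g⁻¹) := by group
  have h3 : σ (g * x * g⁻¹) (σ y c) = σ y (σ x c) + μ x • σ y c := by
    rw [← mul, hcm x hx y hy, mul, hμ x hx, map_add, zs]
  rw [h2, mul, hμ y hy, map_add, zs, h3, hμ x hx, smul_add, smul_smul, mul] at h1
  exact h1.symm

/-- the case of odd `p` -/
theorem odd {D : Subgroup G} (hD : ⁅D, D⁆ = D) (p : ℕ) (hp : p.Prime) (hp2 : p ≠ 2) (a : G) (c : V)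
    (hc : addOrderOf c = p) (hac : σ a c = c) (ha : ∀ v, ∃ n : ℤ, σ a v = v + n • c)
    (hcomm : ∀ x ∈ D, ∀ y ∈ D, (a * x * a⁻¹) * y = y * (a * x * a⁻¹))
    (hcomm2 : ∀ x ∈ D, ∀ y ∈ D, (a ^ 2 * x * (a ^ 2)⁻¹) * y = y * (a ^ 2 * x * (a ^ 2)⁻¹)) :
    ∀ x ∈ D, σ x c = c := by
  choose φ hφ using ha
  have hai : σ a⁻¹ c = c := inv_fix σ hac
  have haa : σ (a ^ 2)⁻¹ c = c := by
    apply inv_fix
    rw [pow_two, mul, hac, hac]
  have e1 : ∀ x ∈ D, σ (a * x * a⁻¹) c = σ x c + (fun x => φ (σ x c)) x • c := by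
    intro x _
    show σ (a * x * a⁻¹) c = σ x c + φ (σ x c) • c
    rw [mul, mul, hai, hφ]
  have e2 : ∀ x ∈ D, σ (a ^ 2 * x * (a ^ 2)⁻¹) c = σ x c + (fun x => 2 * φ (σ x c)) x • c := by
    intro x _
    show σ (a ^ 2 * x * (a ^ 2)⁻¹) c = σ x c + (2 * φ (σ x c)) • c
    rw [mul, mul, haa, pow_two, mul, hφ (σ x c), map_add, zs, hac, hφ (σ x c), two_mul, add_smul,
      add_assoc]
  have e3 : ∀ x ∈ D, ∀ y ∈ D, σ x (σ y c) = σ y (σ x c) - (2 * (φ (σ x c) * φ (σ y c))) • c := by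
    intro x hx y hy
    have f1 := gen σ a c _ e1 hcomm x y hx hy
    have f2 := gen σ (a ^ 2) c _ e2 hcomm2 x y hx hy
    beta_reduce at f1 f2
    have f3 : σ x (σ y c) = (2 : ℤ) • (σ x (σ y c) + φ (σ (x * y) c) • c) -
        (σ x (σ y c) + (2 * φ (σ (x * y) c)) • c) := by module
    rw [f3, f1, f2]
    module
  have e4 : ∀ x ∈ D, ∀ y ∈ D, σ x (σ y c) = σ y (σ x c) := by
    intro x hx y hy
    have g1 := e3 x hx y hy
    have g2 := e3 y hy x hx
    have g3 : (4 * (φ (σ x c) * φ (σ y c))) • c = 0 := by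
      have g4 : (4 * (φ (σ x c) * φ (σ y c))) • c =
          (2 * (φ (σ x c) * φ (σ y c))) • c + (2 * (φ (σ y c) * φ (σ x c))) • c := by module
      have g5 : (2 * (φ (σ x c) * φ (σ y c))) • c = σ y (σ x c) - σ x (σ y c) := by
        rw [g1]
        abel
      have g6 : (2 * (φ (σ y c) * φ (σ x c))) • c = σ x (σ y c) - σ y (σ x c) := by
        rw [g2]
        abel
      rw [g4, g5, g6]
      abel
    have g7 : (p : ℤ) ∣ 4 * (φ (σ x c) * φ (σ y c)) := by
      rw [← hc]
      exact addOrderOf_dvd_iff_zsmul_eq_zero.mpr g3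
    have hpp : Prime (p : ℤ) := Nat.prime_iff_prime_int.mp hp
    have g8 : (p : ℤ) ∣ φ (σ x c) * φ (σ y c) := by
      rcases hpp.dvd_or_dvd g7 with g | g
      · exfalso
        have g9 : p ∣ 4 := by exact_mod_cast g
        have g10 : p ∣ 2 := by
          have : (4 : ℕ) = 2 ^ 2 := by norm_num
          rw [this] at g9
          exact hp.dvd_of_dvd_pow g9
        exact hp2 ((Nat.prime_dvd_prime_iff_eq hp Nat.prime_two).mp g10)
      · exact g
    have g11 : (2 * (φ (σ x c) * φ (σ y c))) • c = 0 := by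
      rw [← addOrderOf_dvd_iff_zsmul_eq_zero, hc]
      exact Dvd.dvd.mul_left g8 2
    rw [g1, g11, sub_zero]
  have e5 : D ≤ stab σ c := by
    refine perf hD ?_
    intro x hx y hy
    show σ ⁅x, y⁆ c = c
    rw [comm_apply, e4 x⁻¹ (D.inv_mem hx) y⁻¹ (D.inv_mem hy), inv', inv']
  intro x hx
  exact e5 hx

theorem even_smul {v : V} (hv : v + v = 0) {n : ℤ} (hn : Even n) : n • v = 0 := by
  obtain ⟨k, rfl⟩ := hn
  rw [add_smul, ← smul_add, hv, smul_zero]

theorem odd_smul {v : V} (hv : v + v = 0) {n : ℤ} (hn : Odd n) : n • v = v := by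
  obtain ⟨k, rfl⟩ := hn
  rw [add_smul, one_smul, even_smul hv (even_two_mul k), zero_add]

/-- the elements which fix the orbit of `c` under `D` -/
def M (D : Subgroup G) (c : V) : Subgroup D where
  carrier := {x | ∀ y : D, σ (x : G) (σ (y : G) c) = σ (y : G) c}
  one_mem' := fun y => one σ _
  mul_mem' := by
    intro x z hx hz y
    show σ ((x : G) * (z : G)) (σ (y : G) c) = σ (y : G) c
    rw [mul, hz y, hx y]
  inv_mem' := by
    intro x hx y
    exact inv_fix σ (hx y)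

instance M_normal (D : Subgroup G) (c : V) : (M σ D c).Normal where
  conj_mem := by
    intro x hx g y
    show σ ((g : G) * (x : G) * (g : G)⁻¹) (σ (y : G) c) = σ (y : G) c
    have h1 : σ ((g⁻¹ * y : D) : G) c = σ (g : G)⁻¹ (σ (y : G) c) := by
      show σ ((g : G)⁻¹ * (y : G)) c = _
      rw [mul]
    rw [mul, mul, ← h1, hx (g⁻¹ * y), h1, inv']

/-- the case `p = 2` -/
theorem two [Finite G] (hNSG : Stmt_NSG) {D : Subgroup G} (hD : ⁅D, D⁆ = D) (a : G) (c v0 : V)
    (haa : a * a = 1) (h2 : ∀ v : V, v + v = 0) (hc : c ≠ 0) (hac : σ a c = c)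
    (hv0 : σ a v0 = v0 + c)
    (ha : ∀ v, ∃ n : ℤ, σ a v = v + n • c)
    (hcomm : ∀ x ∈ D, ∀ y ∈ D, (a * x * a⁻¹) * y = y * (a * x * a⁻¹)) :
    ∀ x ∈ D, σ x c = c := by
  have hai : a⁻¹ = a := inv_eq_of_mul_eq_one_left haa
  have star : ∀ x ∈ D, σ x (σ (a * x * a⁻¹) c) = c := by
    intro x hx
    have h1 : a * (x * (a * x * a⁻¹)) = (x * (a * x * a⁻¹)) * a := by
      calc a * (x * (a * x * a⁻¹)) = (a * x * a⁻¹) * (a * a) * x * a⁻¹ := by group
        _ = (a * x * a⁻¹) * x * a⁻¹ := by rw [haa, mul_one]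
        _ = (x * (a * x * a⁻¹)) * a := by rw [hcomm x hx x hx, hai]
    have h3 : σ a (σ (x * (a * x * a⁻¹)) v0) = σ (x * (a * x * a⁻¹)) v0 +
        σ (x * (a * x * a⁻¹)) c := by
      rw [← mul, h1, mul, hv0, map_add]
    obtain ⟨n, hn⟩ := ha (σ (x * (a * x * a⁻¹)) v0)
    have h4 : σ (x * (a * x * a⁻¹)) c = n • c := by
      rw [h3] at hn
      exact add_left_cancel hn
    rw [← mul, h4]
    rcases Int.even_or_odd n with he | ho
    · exfalso
      rw [even_smul (h2 c) he] at h4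
      apply hc
      have h5 := inv σ (x * (a * x * a⁻¹)) c
      rw [h4, map_zero] at h5
      exact h5.symm
    · exact odd_smul (h2 c) ho
  have sc : ∀ x ∈ D, σ (x ^ 2) c = c ∨ σ (x ^ 3) c = c := by
    intro x hx
    obtain ⟨n, hn⟩ := ha (σ x c)
    have h1 := star x hx
    have h3 : σ (a * x * a⁻¹) c = σ x c + n • c := by
      rw [mul, mul, inv_fix σ hac, hn]
    rw [h3, map_add, zs] at h1
    rcases Int.even_or_odd n with he | ho
    · left
      rw [even_smul (h2 _) he, add_zero] at h1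
      rw [pow_two, mul, h1]
    · right
      rw [odd_smul (h2 _) ho] at h1
      have h4 : σ x (σ x c) = c - σ x c := eq_sub_of_add_eq h1
      have h5 : x ^ 3 = x * (x * x) := by rw [pow_succ, pow_two, mul_assoc]
      rw [h5, mul, mul, h4, map_sub, h4]
      have h6 := h2 (σ x c)
      have h7 := h2 c
      have h8 : σ x c - (c - σ x c) = (σ x c + σ x c) - (c + c) + c := by abel
      rw [h8, h6, h7]
      abel
  have zM : ∀ z : D, σ (z : G) c = c → z ∈ M σ D c := by
    intro z hz y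
    have h1 := star (y : G)⁻¹ (D.inv_mem y.2)
    have h3 : σ (a * (y : G)⁻¹ * a⁻¹) c = σ (y : G) c := by
      have h4 := inv' σ (y : G) (σ (a * (y : G)⁻¹ * a⁻¹) c)
      rw [h1] at h4
      exact h4.symm
    rw [← h3, ← mul, ← hcomm (y : G)⁻¹ (D.inv_mem y.2) (z : G) z.2, mul, hz]
  have hcomD : commutator D = ⊤ := by
    have h1 : (commutator D).map D.subtype = ⁅D, D⁆ := by
      rw [commutator_def, Subgroup.map_commutator]
      rw [← MonoidHom.range_eq_map, Subgroup.range_subtype]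
    rw [hD] at h1
    apply Subgroup.map_injective D.subtype_injective
    rw [h1, ← MonoidHom.range_eq_map, Subgroup.range_subtype]
  have hcomQ : commutator (D ⧸ M σ D c) = ⊤ := by
    have h1 : (commutator D).map (QuotientGroup.mk' (M σ D c)) = commutator (D ⧸ M σ D c) := by
      rw [commutator_def, commutator_def, Subgroup.map_commutator,
        ← MonoidHom.range_eq_map, QuotientGroup.range_mk']
    rw [← h1, hcomD, ← MonoidHom.range_eq_map, QuotientGroup.range_mk']
  have hall : ∀ q : D ⧸ M σ D c, q = 1 := by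
    refine hNSG (D ⧸ M σ D c) hcomQ ?_
    intro q
    obtain ⟨x, rfl⟩ := QuotientGroup.mk_surjective q
    rcases sc (x : G) x.2 with h | h
    · left
      rw [← QuotientGroup.mk_pow, QuotientGroup.eq_one_iff]
      exact zM _ (by exact h)
    · right
      rw [← QuotientGroup.mk_pow, QuotientGroup.eq_one_iff]
      exact zM _ (by exact h)
  intro x hx
  have h1 := (QuotientGroup.eq_one_iff (N := M σ D c) (⟨x, hx⟩ : D)).mp (hall _)
  have h3 := h1 1
  have h4 : σ x (σ (1 : G) c) = σ (1 : G) c := h3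
  rw [one] at h4
  exact h4

end basic

end X_TRN

open X_TRN in
theorem s_TRN (hNSG : Stmt_NSG) : Stmt_TRN := by
  intro p hpF G _ _ V _ _ σ D a hV hD hap hcomm hidx
  have hp : p.Prime := hpF.out
  have hc1 : ∀ x ∈ D, ∀ y ∈ D, (a * x * a⁻¹) * y = y * (a * x * a⁻¹) := by
    have h1 := hcomm 1 one_pos hp.one_lt
    rw [pow_one] at h1
    exact h1
  by_cases hH : ∀ v, σ a v = v
  · refine end0 σ hD ?_
    intro x hx y hy v
    have h1 : ∀ u, σ (a * x * a⁻¹) u = σ x u := by
      intro u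
      rw [mul, mul, hH, inv_fix σ (hH u)]
    rw [← h1, ← h1, ← mul, ← mul, hc1 x hx y hy]
  · push Not at hH
    obtain ⟨v0, hv0⟩ := hH
    set c : V := σ a v0 - v0 with hcdef
    have hc : c ≠ 0 := sub_ne_zero.mpr hv0
    have hpc : p • c = 0 := hV c
    have hord : addOrderOf c = p := addOrderOf_eq_prime hpc hc
    let f : V →+ V := AddMonoidHom.mk' (fun v => σ a v - v) (by
      intro u v
      rw [map_add]
      abel)
    have hfv : ∀ v, f v = σ a v - v := fun v => rfl
    have hker : f.ker = FixedBy σ (Subgroup.zpowers a) := by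
      ext v
      rw [AddMonoidHom.mem_ker, hfv, sub_eq_zero]
      constructor
      · intro h g hg
        have h1 : Subgroup.zpowers a ≤ stab σ v := by
          rw [Subgroup.zpowers_le]
          exact h
        exact h1 hg
      · intro h
        exact h a (Subgroup.mem_zpowers a)
    have hcard : Nat.card f.range ≤ p := by
      rw [← AddSubgroup.index_ker, hker]
      exact hidx
    have hrange : AddSubgroup.zmultiples c = f.range := by
      apply AddSubgroup.eq_of_le_of_card_ge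
      · rw [AddSubgroup.zmultiples_le]
        exact ⟨v0, hfv v0⟩
      · rw [Nat.card_zmultiples, hord]
        exact hcard
    have ha : ∀ v, ∃ n : ℤ, σ a v = v + n • c := by
      intro v
      have h1 : f v ∈ AddSubgroup.zmultiples c := by
        rw [hrange]
        exact ⟨v, rfl⟩
      obtain ⟨n, hn⟩ := AddSubgroup.mem_zmultiples_iff.mp h1
      refine ⟨n, ?_⟩
      rw [hn, hfv]
      abel
    have hac : σ a c = c := by
      obtain ⟨n, hn⟩ := ha c
      have h1 : σ a c = (1 + n) • c := by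
        rw [hn, add_smul, one_smul]
      have h2 : ∀ k : ℕ, σ (a ^ k) c = ((1 + n) ^ k) • c := by
        intro k
        induction k with
        | zero => rw [pow_zero, pow_zero, one, one_smul]
        | succ k ih => rw [pow_succ, mul, h1, zs, ih, smul_smul, pow_succ']
      have h3 := h2 p
      rw [hap, one] at h3
      have h4 : ((1 + n) ^ p - 1) • c = 0 := by
        rw [sub_smul, one_smul, ← h3, sub_self]
      have h5 : (p : ℤ) ∣ (1 + n) ^ p - 1 := by
        have h5' := addOrderOf_dvd_iff_zsmul_eq_zero.mpr h4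
        rwa [hord] at h5'
      have h6 : (p : ℤ) ∣ n := by
        rw [← ZMod.intCast_zmod_eq_zero_iff_dvd] at h5 ⊢
        push_cast at h5
        rw [ZMod.pow_card, add_sub_cancel_left] at h5
        exact h5
      have h7 : n • c = 0 := by
        rw [← addOrderOf_dvd_iff_zsmul_eq_zero, hord]
        exact h6
      rw [hn, h7, add_zero]
    have hDc : ∀ x ∈ D, σ x c = c := by
      by_cases hp2 : p = 2
      · subst hp2
        have haa : a * a = 1 := by rw [← pow_two, hap]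
        have h2 : ∀ v : V, v + v = 0 := by
          intro v
          have h1 := hV v
          rwa [two_smul] at h1
        exact two σ hNSG hD a c v0 haa h2 hc hac (by rw [hcdef]; abel) ha hc1
      · have h2p : 2 < p := lt_of_le_of_ne hp.two_le (Ne.symm hp2)
        exact odd σ hD p hp hp2 a c hord hac ha hc1 (hcomm 2 two_pos h2p)
    exact final σ hD a c hac ha hc1 hDc

end Pool.Agent.Work.MP_6d7bb4.h65u
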