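import Pool.Agent.Work.MP_6d7bb4_h65u.All
import Pool.Agent.Work.MP_6d7bb4_h65u.B_CEU
import Pool.Agent.Work.MP_6d7bb4_h65u.B_CMP
import Pool.Agent.Work.MP_6d7bb4_h65u.B_DIC
import Pool.Agent.Work.MP_6d7bb4_h65u.B_DIG
import Pool.Agent.Work.MP_6d7bb4_h65u.B_DIJ
import Pool.Agent.Work.MP_6d7bb4_h65u.B_DLT
import Pool.Agent.Work.MP_6d7bb4_h65u.B_FIX
import Pool.Agent.Work.MP_6d7bb4_h65u.B_KOM
import Pool.Agent.Work.MP_6d7bb4_h65u.B_KTC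
import Pool.Agent.Work.MP_6d7bb4_h65u.B_NSG
import Pool.Agent.Work.MP_6d7bb4_h65u.B_ORB
import Pool.Agent.Work.MP_6d7bb4_h65u.B_TAB
import Pool.Agent.Work.MP_6d7bb4_h65u.B_TRN

set_option autoImplicit false

/-! # MP_6d7bb4: groups with at most one offender; assembly, condition (E) (helper65) -/

namespace Pool.Agent.Work.MP_6d7bb4.h65u

open MulAction Pool.Agent.Work.MP_6d7bb4.helper94 Pool.Agent.Work.MP_6d7bb4.helper94.Sol

theorem p_NSG : Stmt_NSG := s_NSG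
theorem p_TAB : Stmt_TAB := s_TAB
theorem p_TRN : Stmt_TRN := s_TRN p_NSG
theorem p_DLT : Stmt_DLT := s_DLT
theorem p_ORB : Stmt_ORB := s_ORB p_TAB p_TRN p_DLT
theorem p_CMP : Stmt_CMP := s_CMP p_TAB p_ORB
theorem p_KOM : Stmt_KOM := s_KOM
theorem p_KTC : Stmt_KTC := s_KTC
theorem p_DIC : Stmt_DIC := s_DIC
theorem p_FIX : Stmt_FIX := s_FIX p_KOM p_KTC p_DIC
theorem p_CEU : Stmt_CEU := s_CEU p_KOM p_KTC p_DIC p_FIX p_CMP

end Pool.Agent.Work.MP_6d7bb4.h65u
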