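import Pool.Agent.Work.MP_6d7bb4_h65u.Interface4

/-! # MP_6d7bb4: groups with at most one offender; block KTC -/

set_option autoImplicit false
set_option linter.unusedSectionVars false

namespace Pool.Agent.Work.MP_6d7bb4.h65u

open MulAction Pool.Agent.Work.MP_6d7bb4.helper94 Pool.Agent.Work.MP_6d7bb4.helper94.Sol
open scoped commutatorElement

namespace X_KTC

theorem cj_eq_map {G : Type} [Group G] (g : G) (S : Subgroup G) :
    cj g S = S.map (MulAut.conj g).toMonoidHom := by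
  ext h
  rw [mem_cj]
  constructor
  · intro hh
    refine ⟨g⁻¹ * h * g, hh, ?_⟩
    show g * (g⁻¹ * h * g) * g⁻¹ = h
    group
  · rintro ⟨s, hs, rfl⟩
    show g⁻¹ * (g * s * g⁻¹) * g ∈ S
    have h1 : g⁻¹ * (g * s * g⁻¹) * g = s := by group
    rw [h1]
    exact hs

section one
variable {X : Type} [Group X] {Q : Type} [Group Q] {π : X →* Q}
  {R : Subgroup X} {S : Type} [AddCommGroup S] {ρ : X →* AddMonoid.End S}

theorem kt_cj (hR : R.Normal) (x : X) (T : Subgroup Q) :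
    KT π R (cj (π x) T) = cj x (KT π R T) := by
  have h1 : R ⊓ (cj (π x) T).comap π = cj x (R ⊓ T.comap π) := by
    ext y
    rw [mem_cj, Subgroup.mem_inf, Subgroup.mem_inf, Subgroup.mem_comap, Subgroup.mem_comap,
      mem_cj, map_mul, map_mul, map_inv]
    refine and_congr ?_ Iff.rfl
    constructor
    · intro hy
      have := hR.conj_mem y hy x⁻¹
      rwa [inv_inv] at this
    · intro hy
      have := hR.conj_mem _ hy x
      have h2 : x * (x⁻¹ * y * x) * x⁻¹ = y := by group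
      rwa [h2] at this
  show ⁅R ⊓ (cj (π x) T).comap π, R ⊓ (cj (π x) T).comap π⁆ = cj x ⁅R ⊓ T.comap π, R ⊓ T.comap π⁆
  rw [h1, cj_eq_map, cj_eq_map, Subgroup.map_commutator]

theorem map_L {T : Subgroup Q} (hT : T ≤ R.map π) : (R ⊓ T.comap π).map π = T := by
  apply le_antisymm
  · rintro _ ⟨x, hx, rfl⟩
    exact hx.2
  · intro t ht
    obtain ⟨r, hr, rfl⟩ := hT ht
    exact ⟨r, ⟨hr, ht⟩, rfl⟩

theorem map_K {T : Subgroup Q} (hTT : ⁅T, T⁆ = T) (hT : T ≤ R.map π) :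
    (KT π R T).map π = T := by
  show (⁅R ⊓ T.comap π, R ⊓ T.comap π⁆ : Subgroup X).map π = T
  rw [Subgroup.map_commutator, map_L hT, hTT]

/-- elements over the centraliser of `T` -/
theorem comm_K (hR : R.Normal)
    (hk : ∀ k ∈ π.ker, ∀ g ∈ R, ρ k * ρ g = ρ g * ρ k) {T : Subgroup Q} {g : X}
    (hg : ∀ t ∈ T, π g * t = t * π g) : ∀ k ∈ KT π R T, ρ g * ρ k = ρ k * ρ g := by
  obtain ⟨L, hL⟩ : ∃ L, L = R ⊓ T.comap π := ⟨_, rfl⟩
  have hker : ∀ x ∈ L, x * g * x⁻¹ * g⁻¹ ∈ R ∧ x * g * x⁻¹ * g⁻¹ ∈ π.ker := by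
    intro x hx
    rw [hL] at hx
    constructor
    · have h1 : x * g * x⁻¹ * g⁻¹ = x * (g * x⁻¹ * g⁻¹) := by group
      rw [h1]
      exact mul_mem hx.1 (hR.conj_mem _ (inv_mem hx.1) g)
    · have h1 := hg (π x) hx.2
      rw [MonoidHom.mem_ker, map_mul, map_mul, map_mul, map_inv, map_inv, ← h1]
      group
  have hcu : ∀ k ∈ π.ker, ∀ r ∈ R, ρ.toHomUnits k * ρ.toHomUnits r =
      ρ.toHomUnits r * ρ.toHomUnits k := by
    intro k hk' r hr
    exact Units.ext (hk k hk' r hr)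
  let f : L →* (AddMonoid.End S)ˣ :=
    { toFun := fun x => ρ.toHomUnits (x * g * x⁻¹ * g⁻¹)
      map_one' := by
        show ρ.toHomUnits (((1 : L) : X) * g * ((1 : L) : X)⁻¹ * g⁻¹) = 1
        rw [Subgroup.coe_one, one_mul, inv_one, mul_one, mul_inv_cancel, map_one]
      map_mul' := by
        rintro ⟨x, hx⟩ ⟨y, hy⟩
        show ρ.toHomUnits (x * y * g * (x * y)⁻¹ * g⁻¹) =
          ρ.toHomUnits (x * g * x⁻¹ * g⁻¹) * ρ.toHomUnits (y * g * y⁻¹ * g⁻¹)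
        have h1 : x * y * g * (x * y)⁻¹ * g⁻¹ =
            x * (y * g * y⁻¹ * g⁻¹) * x⁻¹ * (x * g * x⁻¹ * g⁻¹) := by group
        have hxR : x ∈ R := by
          rw [hL] at hx
          exact hx.1
        have h2 : ρ.toHomUnits (x * (y * g * y⁻¹ * g⁻¹) * x⁻¹) =
            ρ.toHomUnits (y * g * y⁻¹ * g⁻¹) := by
          rw [map_mul, map_mul, ← hcu _ (hker y hy).2 x hxR, map_inv, mul_inv_cancel_right]
        rw [h1, map_mul, h2, hcu _ (hker y hy).2 _ (hker x hx).1] }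
  have hle : KT π R T ≤ f.ker.map L.subtype := by
    show (⁅R ⊓ T.comap π, R ⊓ T.comap π⁆ : Subgroup X) ≤ _
    rw [← hL, Subgroup.commutator_le]
    intro x hx y hy
    refine ⟨⁅(⟨x, hx⟩ : L), (⟨y, hy⟩ : L)⁆, ?_, rfl⟩
    show f ⁅(⟨x, hx⟩ : L), (⟨y, hy⟩ : L)⁆ = 1
    rw [map_commutatorElement, commutatorElement_eq_one_iff_mul_comm]
    exact hcu _ (hker x hx).2 _ (hker y hy).1
  intro k hk'
  obtain ⟨⟨k, hkL⟩, hk1, rfl⟩ := hle hk'
  have h1 : ρ.toHomUnits (k * g * k⁻¹ * g⁻¹) = 1 := hk1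
  have h2 : ρ.toHomUnits k * ρ.toHomUnits g = ρ.toHomUnits g * ρ.toHomUnits k := by
    rw [map_mul, map_mul, map_mul, map_inv, map_inv] at h1
    exact mul_inv_eq_one.1 (by rw [← h1]; group)
  exact (congrArg Units.val h2).symm

theorem perf_K (hk : ∀ k ∈ π.ker, ∀ g ∈ R, ρ k * ρ g = ρ g * ρ k) {T : Subgroup Q}
    (hTT : ⁅T, T⁆ = T) (hT : T ≤ R.map π) :
    ⁅(KT π R T).map ρ.toHomUnits, (KT π R T).map ρ.toHomUnits⁆ =
      (KT π R T).map ρ.toHomUnits := by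
  apply le_antisymm (Subgroup.commutator_le_self _)
  obtain ⟨L, hL⟩ : ∃ L, L = R ⊓ T.comap π := ⟨_, rfl⟩
  obtain ⟨K, hK⟩ : ∃ K, K = KT π R T := ⟨_, rfl⟩
  have hKL : K = ⁅L, L⁆ := by rw [hK, hL]; rfl
  have hKle : K ≤ L := by rw [hKL]; exact Subgroup.commutator_le_self _
  have hdec : ∀ x ∈ L, ∃ k ∈ K, ∃ z ∈ L, z ∈ π.ker ∧ x = k * z := by
    intro x hx
    have h1 : π x ∈ K.map π := by
      rw [hK, map_K hTT hT]
      rw [hL] at hx
      exact hx.2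
    obtain ⟨k, hk1, hk2⟩ := h1
    refine ⟨k, hk1, k⁻¹ * x, mul_mem (inv_mem (hKle hk1)) hx, ?_, ?_⟩
    · rw [MonoidHom.mem_ker, map_mul, map_inv, hk2, inv_mul_cancel]
    · rw [mul_inv_cancel_left]
  have hcu : ∀ k ∈ π.ker, ∀ r ∈ L, Commute (ρ.toHomUnits k) (ρ.toHomUnits r) := by
    intro k hk' r hr
    rw [hL] at hr
    exact Units.ext (hk k hk' r hr.1)
  rw [← hK]
  conv_lhs => rw [hKL, Subgroup.map_commutator]
  rw [Subgroup.commutator_le]
  rintro _ ⟨x, hx, rfl⟩ _ ⟨y, hy, rfl⟩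
  obtain ⟨k, hk1, z, hz1, hz2, rfl⟩ := hdec x hx
  obtain ⟨l, hl1, w, hw1, hw2, rfl⟩ := hdec y hy
  have h1 : ⁅ρ.toHomUnits (k * z), ρ.toHomUnits (l * w)⁆ = ⁅ρ.toHomUnits k, ρ.toHomUnits l⁆ := by
    have a1 := hcu z hz2 k (hKle hk1)
    have a2 := hcu z hz2 l (hKle hl1)
    have a3 := hcu w hw2 k (hKle hk1)
    have a4 := hcu w hw2 l (hKle hl1)
    have a5 := hcu z hz2 w hw1
    rw [map_mul, map_mul]
    generalize ρ.toHomUnits k = k' at *
    generalize ρ.toHomUnits z = z' at *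
    generalize ρ.toHomUnits l = l' at *
    generalize ρ.toHomUnits w = w' at *
    have b1 : k' * z' * (l' * w') = (k' * l') * (z' * w') := by
      rw [mul_assoc, ← mul_assoc z' l' w', a2.eq]
      group
    have b2 : l' * w' * (k' * z') = (l' * k') * (z' * w') := by
      rw [mul_assoc, ← mul_assoc w' k' z', a3.eq, a5.eq]
      group
    have b3 : ∀ a b : (AddMonoid.End S)ˣ, ⁅a, b⁆ = (a * b) * (b * a)⁻¹ := by
      intro a b
      rw [commutatorElement_def, _root_.mul_inv_rev, mul_assoc]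
    rw [b3, b3, b1, b2, _root_.mul_inv_rev, _root_.mul_inv_rev]
    group
  rw [h1]
  exact Subgroup.commutator_mem_commutator ⟨k, hk1, rfl⟩ ⟨l, hl1, rfl⟩

end one

end X_KTC

open X_KTC

theorem s_KTC : Stmt_KTC := by
  intro X _ Q _ π R S _ ρ hR hk
  refine ⟨fun x T => kt_cj hR x T, ?_⟩
  intro T hTT hT
  exact ⟨map_K hTT hT, fun g hg => comm_K hR hk hg, perf_K hk hTT hT⟩

end Pool.Agent.Work.MP_6d7bb4.h65u
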