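import Mathlib

set_option autoImplicit false
set_option linter.unusedSectionVars false

/-!
# MP_6d7bb4: offenders in point stabilisers; definitions (helper65)

`X` is a finite group, `S` a finite elementary abelian `p`-group on which `X` acts through
`ρ : X →* AddMonoid.End S`.
-/

namespace Pool.Agent.Work.MP_6d7bb4.h65u

section mdl
variable {X : Type} [Group X] {S : Type} [AddCommGroup S]

/-- the fixed points of the subgroup `A` of `X` on `S` -/
def FixedBy (ρ : X →* AddMonoid.End S) (A : Subgroup X) : AddSubgroup S where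
  carrier := {s | ∀ a ∈ A, ρ a s = s}
  zero_mem' := fun a _ => map_zero _
  add_mem' := by
    intro u v hu hv a ha
    rw [map_add, hu a ha, hv a ha]
  neg_mem' := by
    intro u hu a ha
    rw [map_neg, hu a ha]

theorem mem_FixedBy {ρ : X →* AddMonoid.End S} {A : Subgroup X} {s : S} :
    s ∈ FixedBy ρ A ↔ ∀ a ∈ A, ρ a s = s := Iff.rfl

/-- `S` is an irreducible module for `X` over the field with `p` elements and the elementary abelian
`p`-subgroup `A` of `X` is an offender on it: `A` acts nontrivially and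
`|S : C_S(A)| ≤ |A : C_A(S)|` -/
structure Offender (p : ℕ) (ρ : X →* AddMonoid.End S) (A : Subgroup X) : Prop where
  ex : ∀ s : S, p • s = 0
  irr : ∀ W : AddSubgroup S, (∀ x : X, ∀ w ∈ W, ρ x w ∈ W) → W = ⊥ ∨ W = ⊤
  ab : ∀ a ∈ A, ∀ b ∈ A, a * b = b * a
  pw : ∀ a ∈ A, a ^ p = 1
  nt : ∃ a ∈ A, ρ a ≠ 1
  of : (FixedBy ρ A).index ≤ ρ.ker.relIndex A

/-- `P` is the largest normal `p`-subgroup of the subgroup `Y` -/
structure IsOp (p : ℕ) (Y P : Subgroup X) : Prop where
  le : P ≤ Y
  nm : ∀ y ∈ Y, ∀ g ∈ P, y * g * y⁻¹ ∈ P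
  pg : IsPGroup p P
  mx : ∀ N : Subgroup X, N ≤ Y → (∀ y ∈ Y, ∀ n ∈ N, y * n * y⁻¹ ∈ N) → IsPGroup p N → N ≤ P

end mdl

/-- The permutation group `F` has at most one offender at the prime `p`. For every finite group `X`
with a homomorphism `π` onto `F`, every point `ω`, the largest normal `p`-subgroup `P` of the preimage of
the stabiliser of `ω`, and every elementary abelian subgroup `A` of `P` which is an offender on an
irreducible module `S` for `X` over the field with `p` elements:
`|S : C_S(A)| = |A : C_A(S)|`; every element of `P` which centralises `C_S(A)` has the same image under `π` as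
an element of `A`; and any other offender contained in `P` (on any irreducible module) has the same
image under `π` as `A`. -/
def UniqueOffender {Ω : Type} (F : Subgroup (Equiv.Perm Ω)) (p : ℕ) : Prop :=
  ∀ (X : Type) [Group X] [Finite X] (π : X →* Equiv.Perm Ω), π.range = F →
  ∀ (ω : Ω) (Y P : Subgroup X), (∀ x : X, x ∈ Y ↔ π x ω = ω) → IsOp p Y P →
  ∀ (S : Type) [AddCommGroup S] [Finite S] (ρ : X →* AddMonoid.End S) (A : Subgroup X), A ≤ P →
  Offender p ρ A →
    ρ.ker.relIndex A ≤ (FixedBy ρ A).index ∧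
    (∀ b ∈ P, (∀ s ∈ FixedBy ρ A, ρ b s = s) → π b ∈ A.map π) ∧
    ∀ (S' : Type) [AddCommGroup S'] [Finite S'] (ρ' : X →* AddMonoid.End S') (A' : Subgroup X),
      A' ≤ P → Offender p ρ' A' → A'.map π = A.map π

end Pool.Agent.Work.MP_6d7bb4.h65u
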