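import Pool.Agent.Work.MP_6d7bb4_h65u.Defs
import Pool.Agent.Work.MP_6d7bb4_h65u.A1
import Pool.Agent.Work.MP_6d7bb4_S.Interface3

set_option autoImplicit false
set_option linter.unusedSectionVars false

/-!
# MP_6d7bb4: groups with at most one offender; interface, part 1 (helper65)

The file of block `X` is `Pool/Agent/Work/MP_6d7bb4_h65u/B_X.lean`: `import` this file, namespace
`Pool.Agent.Work.MP_6d7bb4.h65u`, `theorem s_X (hA : Stmt_A) (hB : Stmt_B) .. : Stmt_X` with the blocks of the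
column uses as hypotheses in that order; private lemmas in `namespace X_X`.

USEFUL. Library of helper94 (namespace `Pool.Agent.Work.MP_6d7bb4.helper94` and `.Sol`, open here):
`Nm M N` unfolds to `∀ b ∈ M, ∀ n ∈ N, b * n * b⁻¹ ∈ N`; `K Γ x` kernel of `G_x` on the neighbours,
`B x y` arc stabiliser, `Qe p x y = O_p(B x y)`, `Qv Γ p x = O_p(K Γ x)`; `Qv = Qe ⊓ K` is `Qv_eq h hxy`; `h.fin_le`,
`h.fin x`, `Qe_le`, `Qe_le_st`, `Qv_le`, `Qv_le_st`, `Qv_le_Qe`, `nm_Qe`, `nm_Qv`, `Qe_isP`, `mem_sup_nm`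
(`A ⊔ N = A N` if `A` normalises `N`); `Cw W A` the elements of `W` commuting with `A` (`mem_Cw`), `El p A`
elementary abelian, `Am p Q A`, `Jt p Q`, `Zp`, `Wp`, `Sp`, `Bp` (file `MP_6d7bb4_S/Defs.lean`), `VZ Γ ζ x` generated
by the `ζ x y` (`z_le_VZ`), `Fm Γ p ζ`, `IsR p X V R`, `PAct p N V` (file `Act.lean`), `rho H x e` the action of the
stabiliser on `Ω`, `LA Γ H F x e`, `rho_one`, `rho_surj`, `rho_mem`, `rho_ker` (file `Trans.lean`). The statements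
`Sol.Stmt_TH1`, `Sol.Stmt_BST`, `Sol.Stmt_FMB`, `Sol.Stmt_LAT` are proved (`MP_6d7bb4_S/B_X.lean`).
-/

namespace Pool.Agent.Work.MP_6d7bb4.h65u

open MulAction Pool.Agent.Work.MP_6d7bb4.helper94 Pool.Agent.Work.MP_6d7bb4.helper94.Sol

/-! ## 1. Modules -/

/-- BLOCK CFI (uses nothing): composition factors.
PROOF. Induction on `|V|` as in `semi` (`MP_6d7bb4_helper94/Semi.lean`; see also `MP_6d7bb4_S/B_SEM.lean`). If `V` is
trivial take `R = ⊤` (all indices of subgroups of `V` are `1`, and `A ≤ R`). Let `W` be a maximal proper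
invariant subgroup of `V` (`Inv φ W` of `PStab.lean`), `r = ra hWi : X →* End W` and
`q = qa hWi : X →* End (V ⧸ W)` the actions; `q` is irreducible (`hirr` in `semi`). Let `R_W` be the
subgroup of the induction hypothesis for `W`, `r`, and `R = R_W ⊓ q.ker`. Normality is clear. If `n ∈ R`, then
`r (n ^ p ^ k) = 1` for some `k` and `q (n ^ p ^ k) = 1`, so `φ (n ^ p ^ (k + 1)) = 1` by `two_step` (as in `semi`). If `N`
is normal and acts as a `p`-group on `V`, then also on `W`, so `N ≤ R_W`, and on `V ⧸ W`, so `N ≤ q.ker` by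
`irr_act`. Now let `A ≤ P` be elementary abelian, `A1 = A ⊓ q.ker`. Let `I` be the image of `FixedBy φ A` in
`V ⧸ W`; `I ≤ FixedBy q A`. We have
(a) `(FixedBy φ A).index = (FixedBy r A).index * I.index` (`H = FixedBy φ A`:
`H.index = H.relIndex (H ⊔ W) * (H ⊔ W).index`, `H.relIndex (H ⊔ W) = H.relIndex W` and
`FixedBy r A = H.addSubgroupOf W`; or count elements);
(b) `(FixedBy r A).index ≥ (FixedBy r A1).index ≥ R_W.relIndex A1` (induction hypothesis for `A1`);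
(c) `I.index ≥ (FixedBy q A).index ≥ q.ker.relIndex A`: if `A ≤ q.ker` the right side is `1`; otherwise, if the
second inequality failed, `A` would be an offender on `V ⧸ W` (`Offender p q A`) and the hypothesis
gives the inequality;
(d) `R.relIndex A = q.ker.relIndex A * R_W.relIndex A1` (`Subgroup.relIndex_mul_relIndex` for
`R ⊓ A ≤ A1 ≤ A`, `Subgroup.inf_relIndex_right`).
So `R.relIndex A ≤ (FixedBy φ A).index`. Suppose that `A` is not contained in `R` and `(FixedBy φ A).index ≤ R.relIndex A`.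
Then all these inequalities are equalities (all numbers are positive): `I = FixedBy q A`,
`(FixedBy q A).index = q.ker.relIndex A`, `(FixedBy r A).index = R_W.relIndex A1`. If `A` is not contained in `q.ker`
take `S = V ⧸ W`, `ρ = q`: if `b` fixes `FixedBy φ A` then it fixes `I = FixedBy q A`. If `A ≤ q.ker` then `A1 = A`,
`A` is not contained in `R_W`, and the induction hypothesis for `A` gives `S`, `ρ`; if `b` fixes `FixedBy φ A` then `r b`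
fixes `FixedBy r A`. -/
def Stmt_CFI : Prop := ∀ (X : Type) [Group X] [Finite X] (p : ℕ) [Fact p.Prime] (P : Subgroup X)
  (V : Type) [AddCommGroup V] [Finite V] (φ : X →* AddMonoid.End V), (∀ v : V, p • v = 0) →
  (∀ (S : Type) [AddCommGroup S] [Finite S] (ρ : X →* AddMonoid.End S) (A : Subgroup X), A ≤ P →
    Offender p ρ A → ρ.ker.relIndex A ≤ (FixedBy ρ A).index) →
  ∃ R : Subgroup X, (∀ x, ∀ n ∈ R, x * n * x⁻¹ ∈ R) ∧ (∀ n ∈ R, ∃ k : ℕ, φ (n ^ p ^ k) = 1) ∧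
    (∀ N : Subgroup X, (∀ x, ∀ n ∈ N, x * n * x⁻¹ ∈ N) →
      (∀ n ∈ N, ∃ k : ℕ, φ (n ^ p ^ k) = 1) → N ≤ R) ∧
    ∀ A : Subgroup X, A ≤ P → (∀ a ∈ A, ∀ b ∈ A, a * b = b * a) → (∀ a ∈ A, a ^ p = 1) →
      R.relIndex A ≤ (FixedBy φ A).index ∧
      (¬ A ≤ R → (FixedBy φ A).index ≤ R.relIndex A →
        ∃ (S : Type) (_ : AddCommGroup S) (_ : Finite S) (ρ : X →* AddMonoid.End S),
          Offender p ρ A ∧ ∀ b : X, (∀ v ∈ FixedBy φ A, φ b v = v) → ∀ s ∈ FixedBy ρ A, ρ b s = s)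

/-- BLOCK CFG (uses CFI): composition factors, in group terms.
PROOF. `model hn hab` (`Act.lean`) gives an additive group `W`, `e : V ≃ W` and `φ : X →* AddMonoid.End W` with
`φ x (e v) = e (x v x⁻¹)`; `p • w = 0` on `W` (`hpW` in the proof of `mod_ex`, `Md.lean`, or `MP_6d7bb4_S/B_MDX.lean`). Apply CFI
with `P.subgroupOf X`; `R` is the image under `X.subtype` of the subgroup of CFI, so for `x : X`:
`x.1 ∈ R` iff `x` is in the subgroup of CFI. `IsR p X V R`: `φ x = 1` iff `x` commutes with all `v ∈ V` (`hφ1` in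
`mod_ex`), as in `hIsR` there. For `A ≤ P` let `A1 = A.subgroupOf X`. `|A1| = |A|`,
`|A1 ⊓ R1| = |A ⊓ R|`, so `R1.relIndex A1 * |A ⊓ R| = |A|` (`Subgroup.card_mul_index`, ...);
`|FixedBy φ A1| = |Cw V A|` (`h3` in `mod_ex`), so `(FixedBy φ A1).index * |Cw V A| = |W| = |V|`. Multiply the inequalities of
CFI. `b` fixes `FixedBy φ A1` iff it commutes with all `v ∈ Cw V A`. -/
def Stmt_CFG : Prop := ∀ (G : Type) [Group G] (p : ℕ) [Fact p.Prime] (X V P : Subgroup G),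
  Finite X → Finite V → Nm X V → El p V → P ≤ X →
  (∀ (S : Type) [AddCommGroup S] [Finite S] (ρ : X →* AddMonoid.End S) (A : Subgroup X),
    A ≤ P.subgroupOf X → Offender p ρ A → ρ.ker.relIndex A ≤ (FixedBy ρ A).index) →
  ∃ R : Subgroup G, IsR p X V R ∧ ∀ A : Subgroup G, A ≤ P → El p A →
    Nat.card A * Nat.card (Cw V A) ≤ Nat.card V * Nat.card (A ⊓ R : Subgroup G) ∧
    (¬ A ≤ R → Nat.card V * Nat.card (A ⊓ R : Subgroup G) ≤ Nat.card A * Nat.card (Cw V A) →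
      ∃ (S : Type) (_ : AddCommGroup S) (_ : Finite S) (ρ : X →* AddMonoid.End S),
        Offender p ρ (A.subgroupOf X) ∧ ∀ b : X, (∀ v ∈ Cw V A, b.1 * v = v * b.1) →
          ∀ s ∈ FixedBy ρ (A.subgroupOf X), ρ b s = s)

/-! ## 2. Vertices -/

/-- the condition at the vertex `x` -/
def VT {V : Type} (G : Type) [Group G] [MulAction G V] (Γ : SimpleGraph V) (p : ℕ) (x : V) :
    Prop :=
  ∀ y, Γ.Adj x y → ∀ (U : Type) [AddCommGroup U] [Finite U]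
    (ρ : stabilizer G x →* AddMonoid.End U) (A : Subgroup (stabilizer G x)),
    A ≤ (Qe p x y).subgroupOf (stabilizer G x) → Offender p ρ A →
      ρ.ker.relIndex A ≤ (FixedBy ρ A).index ∧
      (∀ b ∈ (Qe p x y).subgroupOf (stabilizer G x), (∀ s ∈ FixedBy ρ A, ρ b s = s) →
        ∃ a ∈ A, a.1⁻¹ * b.1 ∈ K Γ x) ∧
      ∀ (U' : Type) [AddCommGroup U'] [Finite U'] (ρ' : stabilizer G x →* AddMonoid.End U')
        (A' : Subgroup (stabilizer G x)), A' ≤ (Qe p x y).subgroupOf (stabilizer G x) →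
        Offender p ρ' A' → ∀ b ∈ A', ∃ a ∈ A, a.1⁻¹ * b.1 ∈ K Γ x

/-- `A` is tight on `W` modulo `Q`: `|W| |A ∩ Q| ≤ |A| |C_W(A)|` -/
def Ti {G : Type} [Group G] (W Q A : Subgroup G) : Prop :=
  Nat.card W * Nat.card (A ⊓ Q : Subgroup G) ≤ Nat.card A * Nat.card (Cw W A)

/-- BLOCK VMD (uses Sol.FMB, CFG): elementary abelian subgroups of `Qe p x y` and the module `VZ Γ ζ x`.
PROOF. FMB (2) and `Fm.el`: `V = VZ Γ ζ x` is elementary abelian, finite, normalised by `X = stabilizer G x`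
(finite: `h.fin x`). CFG for `X`, `V`, `P = Qe p x y` (hypothesis: the first part of `VT`) gives `R`. Now
`Qe p x y ⊓ R = Qv Γ p x`: `R ⊓ B x y ≤ K Γ x` is FMB (4) with `isR.le`, `isR.nm`, `isR.pa`, and `Qe ⊓ K = Qv` (`Qv_eq`);
`Qv ≤ R` by `isR.mx` (`Qv_le_st`, `nm_Qv`; `PAct` because it is a `p`-group: `Qe_isP`, `Qv_le_Qe`, `n ^ p ^ k = 1`). So
`A ⊓ R = A ⊓ Qv` and `A ≤ R ↔ A ≤ Qv` for `A ≤ Qe`. The first claim is the first part of CFG. For the second let `A` be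
tight, `S`, `ρ` from CFG. `b ∈ Qe`: `VT` gives `a ∈ A` with `a⁻¹ b ∈ K`, so `a⁻¹ b ∈ Qe ⊓ K = Qv`. `A'`: CFG gives
`S'`, `ρ'` for `A'`, and the last part of `VT`. -/
def Stmt_VMD : Prop := ∀ (V G : Type) [Group G] [MulAction G V] (Γ : SimpleGraph V) (d p : ℕ)
  [Fact p.Prime] (ζ : V → V → Subgroup G), Loc G Γ d → Fm Γ p ζ → ∀ x, VT G Γ p x →
  ∀ y, Γ.Adj x y →
  (∀ A : Subgroup G, A ≤ Qe p x y → El p A → Nat.card A * Nat.card (Cw (VZ Γ ζ x) A) ≤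
    Nat.card (VZ Γ ζ x : Subgroup G) * Nat.card (A ⊓ Qv Γ p x : Subgroup G)) ∧
  ∀ A : Subgroup G, A ≤ Qe p x y → El p A → ¬ A ≤ Qv Γ p x → Ti (VZ Γ ζ x) (Qv Γ p x) A →
    (∀ b ∈ (Qe p x y : Subgroup G), (∀ v ∈ Cw (VZ Γ ζ x) A, b * v = v * b) →
      b ∈ A ⊔ Qv Γ p x) ∧
    ∀ A' : Subgroup G, A' ≤ Qe p x y → El p A' → ¬ A' ≤ Qv Γ p x →
      Ti (VZ Γ ζ x) (Qv Γ p x) A' → A' ≤ A ⊔ Qv Γ p x

/-- the hypotheses -/
structure Hu {V : Type} (G : Type) [Group G] [MulAction G V] (Γ : SimpleGraph V) (d p : ℕ) :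
    Prop where
  loc : Loc G Γ d
  cb : CB0 G Γ p
  vt : ∀ x, VT G Γ p x

/-- as `Sol.Stmt_BAU1`, with `Hu` instead of `Hy` -/
def Stmt_BU1 : Prop := ∀ (V G : Type) [Group G] [MulAction G V] (Γ : SimpleGraph V) (d p : ℕ)
  [Fact p.Prime], Hu G Γ d p →
  (∀ x y, Γ.Adj x y → ¬ Jt p (Qe p x y : Subgroup G) ≤ Qv Γ p x) ∧
  (∀ (g : G) (x y : V), Jt p (Qe p (g • x) (g • y)) = cj g (Jt p (Qe p x y))) ∧
  (∀ (g : G) (x y : V), Zp p (g • x) (g • y) = cj g (Zp p x y)) ∧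
  (∀ x y : V, Zp (G := G) p x y = Zp p y x) ∧
  (∀ (g : G) (x y : V), Bp p (g • x) (g • y) = cj g (Bp p x y)) ∧
  (∀ x y : V, Bp (G := G) p x y = Bp p y x) ∧
  (∀ x y, Γ.Adj x y → Zz (G := G) p x y ≤ Zp p x y) ∧
  Fm (G := G) Γ p (Zz p)

/-- as `Sol.Stmt_BAU4`, with `Hu` instead of `Hy` -/
def Stmt_BU4 : Prop := ∀ (V G : Type) [Group G] [MulAction G V] (Γ : SimpleGraph V) (d p : ℕ)
  [Fact p.Prime], Hu G Γ d p →
  Fm (G := G) Γ p (Zp p) ∧
  (∀ (g : G) x, Wp Γ p (g • x) = cj g (Wp Γ p x)) ∧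
  (∀ (g : G) x, Sp Γ p (g • x) = cj g (Sp Γ p x)) ∧
  (∀ x, Wp (G := G) Γ p x ≤ Sp Γ p x) ∧
  ∀ x y, Γ.Adj x y →
  Sp (G := G) Γ p x ≤ Bp p x y ∧
  Bp (G := G) p x y ⊓ K Γ x ≤ Sp Γ p x ∧
  Jt p (Qe p x y : Subgroup G) ≤ Bp p x y ∧
  Cw (Wp (G := G) Γ p x) (Jt p (Qe p x y)) = Zp p x y ∧
  (∀ A : Subgroup G, Am p (Qe p x y) A → A ⊓ Qv Γ p x ≤ Sp Γ p x) ∧
  ¬ Bp (G := G) p x y ≤ K Γ x ∧
  ∀ b ∈ Bp (G := G) p x y, (∀ v ∈ Wp Γ p x, b * v = v * b) → b ∈ Sp Γ p x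

/-- BLOCK SYU (uses Sol.TH1, Sol.BST, VMD, BU1, BU4): the system.
PROOF. Notation for adjacent `x`, `y`: `W = Wp Γ p x = VZ Γ (Zp p) x`, `S = Sp Γ p x`, `Q = Qe p x y`, `Qv = Qv Γ p x`;
`Bp ⊓ Qv ≤ Bp ⊓ K ≤ S` (BU4 (6), `Qv_le`); `S ≤ Qv` by definition. VMD for `ζ = Zp p` (BU4 (1)).
(a) There is `A0` with `Am p Q A0`, `A0` not contained in `Qv` (BU1 (1), `Jt` is the supremum of the `A`).
(b) Let `Am p Q A`, `A` not contained in `Qv`. `A` is tight, `Ti W Qv A`: BST with `C = Cw A W`: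
`|Cw A W| |Cw W (Cw A W)| ≤ |A| |Cw W A|`; `Cw W (Cw A W) = W`; and `A ⊓ Qv ≤ Cw A W` (BU4 (9): `A ⊓ Qv ≤ S`, which
commutes with `W`), so `|A ⊓ Qv| ≤ |Cw A W|`.
(c) `Cw W A0 = Zp p x y`. First `Jt p Q ≤ A0 ⊔ S`: let `Am p Q A'`. If `A' ≤ Qv` then `A' ≤ S` (BU4 (9)).
Otherwise `A'` is tight and VMD gives `A' ≤ A0 ⊔ Qv`, so `a' = a * q` (`mem_sup_nm`; `A0 ≤ Q ≤ stabilizer G x` normalises
`Qv`), and `q = a⁻¹ a' ∈ Jt p Q ⊓ Qv ≤ Bp ⊓ Qv ≤ S` (BU4 (7)). So an element of `W` which commutes with `A0` commutes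
with `Jt p Q` (`S` commutes with `W`), and BU4 (8). The other inclusion: `A0 ≤ Jt p Q`.
(d) `Bp p x y ≤ A0 ⊔ S`: `b ∈ Bp` lies in `Q` and commutes with `Zp p x y = Cw W A0`, so VMD gives `b ∈ A0 ⊔ Qv`, `b = a * q`,
`q = a⁻¹ b ∈ Bp ⊓ Qv ≤ S`.
(e) `cov`: let `Lu Γ (Wp Γ p) (Sp Γ p) x x' w' w`. Let `A = Wp w`, `a = |Wp x|`, `b = |Wp w|`,
`α = |Cw (Wp x) (Wp w)|`, `β = |Cw (Wp w) (Wp x)|`. `A ≤ Sp x' ≤ Bp p x' x = Bp p x x' ≤ Qe p x x'`
(BU4 (5), BU1 (6)); `A` is elementary abelian (`Fm.el`). `A ⊓ Qv x = Cw (Wp w) (Wp x)`: `A ⊓ Qv x ≤ Bp ⊓ Qv ≤ Sp x`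
commutes with `Wp x`; conversely BU4 (11) at `(x, x')` and `Sp ≤ Qv`. VMD (first part): `b α ≤ a β`. The same
argument at `w` (with `w'`; `Wp x ≤ Sp w'`) gives `a β ≤ b α`. So `Ti (Wp x) (Qv x) A`. `A` is not contained in
`Qv x`: otherwise `Wp w ≤ Bp ⊓ Qv ≤ Sp x` commutes with `Wp x`, and `Wp x ≤ Sp w' ≤ Bp p w w'`, so `Wp x ≤ Sp w` by
BU4 (11) at `(w, w')`, against `cr`. With `A0` of (a) at `(x, x')` VMD gives `A0 ≤ Wp w ⊔ Qv x`. So by (d)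
`Bp p x x' ≤ A0 ⊔ Sp x ≤ Wp w ⊔ Qv x`; `b0 ∈ Bp`: `b0 = u * q`, `q = u⁻¹ b0 ∈ Bp ⊓ Qv ≤ Sp x`. So
`Bp p x x' ≤ Wp w ⊔ Sp x`.
OTHER FIELDS. `Wcj`, `Scj`: BU4 (2), (3). `Zcj`, `Bcj`, `Zcm`, `Bcm`: BU1 (3), (5), (4), (6). `SK`: `Sp ≤ Qv ≤ K`. `WS`:
BU4 (4). `SW`, `ZB`: definitions (`Sp = Cw Qv Wp`, `Bp = Cw Qe Zp`). `BB`: `Bp ≤ Qe ≤ B`. `SB`, `BK`, `ct`, `ne`: BU4 (5),
(6), (11), (10). `ZW`: `z_le_VZ`. `BZ`: `v ∈ W` commuting with `Bp ≥ Jt` lies in `Zp` by BU4 (8). `Zn`: `Fm.ne`. `WZ`: `Wp` is by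
definition the supremum. -/
def Stmt_SYU : Prop := ∀ (V G : Type) [Group G] [MulAction G V] (Γ : SimpleGraph V) (d p : ℕ)
  [Fact p.Prime], Hu G Γ d p → Su (G := G) Γ (Wp Γ p) (Sp Γ p) (Zp p) (Bp p)

/-! ## 3. From the permutation group to the vertices -/

/-- BLOCK VTF (uses nothing): the condition for `F` gives the condition at the vertices.
PROOF. Let `X = stabilizer H x` (finite: `h.fin x`), `π = rho H x e`, `π.range = F` (`rho_mem`, `rho_surj`), `ω = e ⟨y, hxy⟩`,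
`Y = (B x y).subgroupOf X`: `x' ∈ Y` iff `π x' ω = ω` by `rho_eq`. `P = (Qe p x y).subgroupOf X` satisfies
`IsOp p Y P`: `Qe_le`, `nm_Qe`, `Qe_isP` (`IsPGroup.comap_subtype` or `IsPGroup.of_injective`), maximality by
`le_O` for the image of `N` in `H` (`N.map X.subtype ≤ B x y`). Apply `hF`. `π b ∈ A.map π` gives `a ∈ A` with
`π a = π b`, so `π (a⁻¹ b) = 1` and `rho_one`. For the last part `π b ∈ A'.map π = A.map π`. -/
def Stmt_VTF : Prop := ∀ (V Ω : Type) (Γ : SimpleGraph V) (H : Subgroup (Γ ≃g Γ))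
  (F : Subgroup (Equiv.Perm Ω)) (d p : ℕ) [Fact p.Prime], Loc H Γ d →
  (∀ x, ∃ e, LA Γ H F x e) → UniqueOffender F p → ∀ x, VT H Γ p x

/-- BLOCK CAU (uses nothing): condition (A), `|O_p(F_ω)| ≤ p`, implies `UniqueOffender`.
PROOF. Let `N = P.map π ≤ F`: it fixes `ω`, is normalised by the elements of `F` fixing `ω` (surjectivity of
`π` and `IsOp.nm`), and is a `p`-group, so `|N| ≤ p` by `CondA`. CLAIM 1: `P ⊓ π.ker` acts trivially on every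
irreducible `S` with `p • s = 0`. Let `O p π.ker` be the largest normal `p`-subgroup of `π.ker` (`Grp.lean`: `O_isP`,
`le_O`, `nm_O`). `P ⊓ π.ker ≤ O p π.ker` by `le_O` (`π.ker ≤ Y`, so `π.ker` normalises `P`). `O p π.ker` is normalised by
all of `X` (`nm_O` with `M = ⊤`, `N = π.ker`) and a `p`-group, so it acts trivially on `S` by `irr_act`
(`Semi.lean`; `Inv` unfolds to the invariance in `Offender.irr`). CLAIM 2: `A.map π ≠ ⊥`: otherwise
`A ≤ P ⊓ π.ker` acts trivially, against `nt`. `A.map π ≤ N`, `|N| ≤ p`, and `A.map π` is a nontrivial `p`-group, so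
`A.map π = N` (orders). This gives the second and the third statement. First statement:
`ρ.ker.relIndex A ≤ |A.map π| ≤ p` because `A ⊓ π.ker ≤ ρ.ker` by claim 1 (`π.ker.relIndex A = |A.map π|`,
`Subgroup.relIndex_ker`), and `p ≤ (FixedBy ρ A).index`: the group `S ⧸ FixedBy ρ A` is not trivial (`nt`) and every
element of it is killed by `p`, so `p` divides its order (`addOrderOf`). -/
def Stmt_CAU : Prop := ∀ (Ω : Type) (F : Subgroup (Equiv.Perm Ω)) (p : ℕ) [Fact p.Prime],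
  CondA F p → UniqueOffender F p

end Pool.Agent.Work.MP_6d7bb4.h65u
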