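import Pool.Agent.Work.MP_6d7bb4_h65u.Interface2

set_option autoImplicit false
set_option linter.unusedSectionVars false

/-!
# MP_6d7bb4: groups with at most one offender; interface, part 3: the groups PSL(2, r) (helper65)

Rules as in `Interface.lean`: `Pool/Agent/Work/MP_6d7bb4_h65u/B_X.lean`, `import` this file, namespace
`Pool.Agent.Work.MP_6d7bb4.h65u`, `theorem s_X (hA : Stmt_A) .. : Stmt_X`.
-/

namespace Pool.Agent.Work.MP_6d7bb4.h65u

open MulAction Pool.Agent.Work.MP_6d7bb4.helper94 Pool.Agent.Work.MP_6d7bb4.helper94.Sol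

/-- the group PSL(2, r) -/
abbrev PSL2 (r : ℕ) : Type := Matrix.ProjectiveSpecialLinearGroup (Fin 2) (ZMod r)

/-- BLOCK PSR (uses nothing): elementary facts on `PSL2 r`.
PROOF. `PSL2 r` is a quotient of `SL = Matrix.SpecialLinearGroup (Fin 2) (ZMod r)`, which injects into the
matrices (`r ^ 4` elements), so `|PSL2 r| ≤ |SL| ≤ r ^ 4`. `|PSL2 r|` divides `|SL|`
(`Subgroup.card_quotient_dvd_card` or `card_dvd_of_surjective`), which divides `|GL (Fin 2) (ZMod r)|`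
(`Matrix.SpecialLinearGroup.toGL` is injective, `Subgroup.card_dvd_of_injective`), which is
`(r ^ 2 - 1) * (r ^ 2 - r)` by `Matrix.card_GL_field`; this is `r (r - 1) ^ 2 (r + 1)`, not divisible by `r ^ 2`.
`u` is the class of the matrix `!![1, 1; 0, 1]` (`Matrix.SpecialLinearGroup`, a transvection): `u ^ r = 1`
(`!![1, 1; 0, 1] ^ n = !![1, n; 0, 1]`), `u ≠ 1` because the matrix is not central
(`QuotientGroup.eq_one_iff`, `Matrix.SpecialLinearGroup.mem_center_iff`, or `transvection_mem_center_iff` as in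
`Mathlib/LinearAlgebra/Projectivization/PSL/PSL2.lean`). `f` is the class of `!![a, 0; 0, a⁻¹]`: it conjugates
`!![1, 1; 0, 1]` to `!![1, a ^ 2; 0, 1]`. -/
def Stmt_PSR : Prop := ∀ (r : ℕ) [Fact r.Prime], Finite (PSL2 r) ∧ Nat.card (PSL2 r) ≤ r ^ 4 ∧
  ¬ r ^ 2 ∣ Nat.card (PSL2 r) ∧
  ∃ u : PSL2 r, u ≠ 1 ∧ u ^ r = 1 ∧
    ∀ a : (ZMod r)ˣ, ∃ f : PSL2 r, f * u * f⁻¹ = u ^ ((a ^ 2 : (ZMod r)ˣ) : ZMod r).val

/-- BLOCK PSG (uses PSR): permutation groups isomorphic to PSL(2, r), `r ≥ 2 ^ 29` prime.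
PROOF. `PSL2 r` is simple (`Matrix.ProjectiveSpecialLinearGroup.rank_two_simple`), so `F` is: a subgroup `N` of `F`
normalised by `F` is `⊥` or `F` (apply `IsSimpleGroup` to `N.subgroupOf F`; transport with `e`). First claim:
`N = F` is transitive, `N = ⊥` is semiregular. Second claim, `p = r`: `CondA`: `|N|` is a power of `r` and divides
`|F| = |PSL2 r|`, which is not divisible by `r ^ 2`, so `|N| ≤ r`. `p ≠ r`: if no element of `F` except `1` has a
fixed point then `CondA` holds trivially (`N` is trivial, `1 ≤ p`). Otherwise `F` is not semiregular, and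
`CondD` holds: let `L = Nat.log 2 r + 1`, so `r < 2 ^ L`, `c = 4 * L`, and `u` the image of the element of PSR. A
semiregular normal `N` is not `F`, so `⊥`, and `u ≠ 1`. `|A| ≤ |F| ≤ r ^ 4 ≤ 2 ^ c ≤ p ^ c`. `Nat.log 2 |F| < 4 * L`
(`|F| ≤ r ^ 4 < 2 ^ (4 L)`), so the left side is at most `(16 * L ^ 2) ^ 2 = 256 * L ^ 4`. The closure contains the
range of `a ↦ a ^ 2` on `(ZMod r)ˣ`, which has at least `(r - 1) / 2` elements: the kernel has at most two
elements (`a ^ 2 = 1` in a field), `|(ZMod r)ˣ| = r - 1`. Finally `256 * L ^ 4 < (r - 1) / 2`: `r ≥ 2 ^ (L - 1)`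
(`Nat.pow_log_le_self`), `L ≥ 30`, and `512 * L ^ 4 + 2 < 2 ^ (L - 1)` for `L ≥ 30` by induction (`Nat.le_induction`;
`L = 30`: `414720002 < 536870912`; step: `(L + 1) ^ 4 ≤ 2 * L ^ 4` for `L ≥ 30`). -/
def Stmt_PSG : Prop := ∀ (Ω : Type) (F : Subgroup (Equiv.Perm Ω)) (r : ℕ) [Fact r.Prime],
  2 ^ 29 ≤ r → Nonempty (F ≃* PSL2 r) → (∀ a b : Ω, ∃ σ ∈ F, σ a = b) →
  (∀ N : Subgroup (Equiv.Perm Ω), N ≤ F → (∀ f ∈ F, ∀ n ∈ N, f * n * f⁻¹ ∈ N) →
    ((∀ a b : Ω, ∃ σ ∈ N, σ a = b) ∨ (∀ σ ∈ N, ∀ a : Ω, σ a = a → σ = 1))) ∧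
  ∀ p : ℕ, p.Prime → CondA F p ∨ CondD F p

end Pool.Agent.Work.MP_6d7bb4.h65u
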